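import Pool.Agent.Lib.MP_c27bde_al.FP.Spec

set_option autoImplicit false

namespace FPT.AB3M

open Set FPT Filter Topology

theorem erI_fix (h2 : SpecPL2) {g : Hm} (hg : IsPL g) {x : ℝ} (hx : g x = x) :
    er g⁻¹ x = - er g x := by
  have := h2.erI g x hg
  rwa [hx] at this

theorem inv_fix {g : Hm} {x : ℝ} (hx : g x = x) : g⁻¹ x = x := by
  have e : g⁻¹ (g x) = x := g.symm_apply_apply x
  rwa [hx] at e

/-- the germ homomorphism -/
noncomputable def germ (h : SpecPLB) (h2 : SpecPL2) (H : Subgroup Hm) (hpl : PLs H) (a : ℝ)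
    (fa : ∀ g ∈ H, g a = a) : ↥H →* Multiplicative ℤ where
  toFun g := Multiplicative.ofAdd (er (g : Hm) a)
  map_one' := by
    show Multiplicative.ofAdd (er (1 : Hm) a) = 1
    rw [h2.er1]; rfl
  map_mul' x y := by
    show Multiplicative.ofAdd (er ((x : Hm) * (y : Hm)) a) = _
    rw [h.erM _ _ a (hpl _ x.2) (hpl _ y.2), fa _ y.2]; rfl

theorem germ_ne (_h : SpecPLB) (h2 : SpecPL2) (H : Subgroup Hm) (hpl : PLs H) (a b : ℝ) (hab : a < b)
    (fa : ∀ g ∈ H, g a = a) (hfg : Group.FG ↥H)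
    (orb : ∀ v, a < v → v < b → ∃ g ∈ H, g v ≠ v) : ∃ g ∈ H, er g a ≠ 0 := by
  by_contra hc
  push Not at hc
  obtain ⟨S, hS⟩ := Group.fg_def.1 hfg
  have h1 : ∀ᶠ v in 𝓝[>] a, ∀ s ∈ S, (s : Hm) v = v := by
    rw [Filter.eventually_all_finset]
    intro s _
    obtain ⟨ε, hε, he⟩ := h2.er0 (s : Hm) a (hpl _ s.2) (fa _ s.2) (hc _ s.2)
    filter_upwards [Ioo_mem_nhdsGT (show a < a + ε by linarith)] with v hv
    exact he v hv.1.le hv.2.le
  have h3 : ∀ᶠ v in 𝓝[>] a, v ∈ Ioo a b := Ioo_mem_nhdsGT hab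
  obtain ⟨v, hv1, hv2⟩ := (h1.and h3).exists
  obtain ⟨g, hg, hgv⟩ := orb v hv2.1 hv2.2
  apply hgv
  have : (⟨g, hg⟩ : ↥H) ∈ Subgroup.closure (S : Set ↥H) := by rw [hS]; exact Subgroup.mem_top _
  have key : ∀ x ∈ Subgroup.closure (S : Set ↥H), ((x : ↥H) : Hm) v = v := by
    intro x hx
    induction hx using Subgroup.closure_induction with
    | mem s hs => exact hv1 s hs
    | one => rfl
    | mul x y _ _ ihx ihy =>
      show (x : Hm) ((y : Hm) v) = v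
      rw [ihy, ihx]
    | inv x _ ihx => exact inv_fix ihx
  exact key _ this

/-- `H` is finitely generated, and for every surjective `χ : H → ℤ` one of `χ`, `-χ` lies in the
Bieri-Neumann-Strebel invariant `Σ¹(H)`: there are `t ∈ H` with `χ t = ±1` and a finite set `S` in the
kernel of `χ` such that `t ⟨S⟩ t⁻¹ ≤ ⟨S⟩` and the kernel of `χ` is the union of the groups
`t⁻ⁿ ⟨S⟩ tⁿ`. -/
def Asc (H : Type) [Group H] : Prop := Group.FG H ∧
  ∀ χ : H →* Multiplicative ℤ, Function.Surjective χ →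
  ∃ (t : H) (S : Set H), S.Finite ∧ (∀ s ∈ S, χ s = 1) ∧
    (χ t = Multiplicative.ofAdd 1 ∨ χ t = Multiplicative.ofAdd (-1)) ∧
    (∀ g ∈ Subgroup.closure S, t * g * t⁻¹ ∈ Subgroup.closure S) ∧
    (∀ h, χ h = 1 → ∃ n : ℕ, t ^ n * h * (t ^ n)⁻¹ ∈ Subgroup.closure S)

theorem asc_of_fp (hBS : SpecBS) (H : Type) [Group H] (hfp : Group.IsFinitelyPresented H)
    (hfree : ∀ φ : FreeGroup (Fin 2) →* H, ¬ Function.Injective φ) : Asc H := by
  refine ⟨?_, fun χ hχ => hBS H hfp hfree χ hχ⟩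
  obtain ⟨n, φ, hφ, -⟩ := hfp.out
  exact Group.fg_of_surjective hφ

/-- `Asc` passes to quotients. -/
theorem asc_of_surj (G H : Type) [Group G] [Group H] (hG : Asc G) (π : G →* H)
    (hπ : Function.Surjective π) : Asc H := by
  obtain ⟨hfg, hasc⟩ := hG
  refine ⟨Group.fg_of_surjective hπ, fun χ hχ => ?_⟩
  obtain ⟨t', S', Sf', S0', t0', conj', exh'⟩ := hasc (χ.comp π) (hχ.comp hπ)
  have hmapπ : Subgroup.closure (π '' S' : Set H) = (Subgroup.closure S').map π := by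
    rw [MonoidHom.map_closure]
  refine ⟨π t', π '' S', Sf'.image _, ?_, t0', ?_, ?_⟩
  · rintro s ⟨s', hs', rfl⟩; exact S0' s' hs'
  · rw [hmapπ]
    rintro x ⟨y, hy, rfl⟩
    exact ⟨t' * y * t'⁻¹, conj' y hy, by simp⟩
  · intro x hx
    obtain ⟨y, rfl⟩ := hπ x
    obtain ⟨n, hn⟩ := exh' y hx
    refine ⟨n, ?_⟩
    rw [hmapπ]
    exact ⟨_, hn, by simp⟩

/-- No copy of F and `Asc` implies abelian. -/
theorem abAsc (h : SpecPLB) (h2 : SpecPL2) (hO : SpecORD)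
    (hD : SpecDYN) : ∀ (H : Subgroup Hm), PLs H → NoPair H → Asc ↥H →
    ∀ g ∈ H, ∀ h ∈ H, g * h = h * g := by
  intro H hpl hnp hAsc g hg k hk
  by_contra hne
  have hcH : g * k * g⁻¹ * k⁻¹ ∈ H :=
    mul_mem (mul_mem (mul_mem hg hk) (inv_mem hg)) (inv_mem hk)
  have hc1 : g * k * g⁻¹ * k⁻¹ ≠ 1 := by
    intro h0
    apply hne
    have : g * k = (g * k * g⁻¹ * k⁻¹) * (k * g) := by group
    rw [this, h0, one_mul]
  obtain ⟨u, hu⟩ : ∃ u, (g * k * g⁻¹ * k⁻¹) u ≠ u := by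
    by_contra hc
    push Not at hc
    exact hc1 (RelIso.ext (fun x => by exact hc x))
  obtain ⟨a, b, hau, hub, fa, fb, orb⟩ := hO.orbital H hpl u ⟨_, hcH, hu⟩
  have hab : a < b := hau.trans hub
  set χ₀ := germ h h2 H hpl a fa with hχ₀
  have hfg : Group.FG ↥H := hAsc.1
  obtain ⟨g1, hg1, hg1a⟩ := germ_ne h h2 H hpl a b hab fa hfg orb
  -- image subgroup
  let R : AddSubgroup ℤ := (χ₀.toAdditive : Additive ↥H →+ Additive (Multiplicative ℤ)).range.map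
    (AddEquiv.additiveMultiplicative ℤ : Additive (Multiplicative ℤ) ≃+ ℤ).toAddMonoidHom
  have hR : ∀ x ∈ H, er x a ∈ R := by
    intro x hx
    exact ⟨Additive.ofMul (χ₀ ⟨x, hx⟩), ⟨Additive.ofMul ⟨x, hx⟩, rfl⟩, rfl⟩
  have hR' : ∀ n ∈ R, ∃ x ∈ H, er x a = n := by
    rintro n ⟨y, ⟨x, rfl⟩, rfl⟩
    exact ⟨((Additive.toMul x : ↥H) : Hm), (Additive.toMul x).2, rfl⟩
  obtain ⟨n, hn⟩ := Int.subgroup_cyclic R
  have hdvd : ∀ x ∈ H, n ∣ er x a := by
    intro x hx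
    have := hR x hx
    rw [hn, ← AddSubgroup.zmultiples_eq_closure, Int.mem_zmultiples_iff] at this
    exact this
  have hn0 : n ≠ 0 := by
    rintro rfl
    exact hg1a (zero_dvd_iff.1 (hdvd g1 hg1))
  obtain ⟨g2, hg2, hg2a⟩ : ∃ x ∈ H, er x a = n := by
    apply hR'
    rw [hn, ← AddSubgroup.zmultiples_eq_closure]
    exact AddSubgroup.mem_zmultiples n
  let χ : ↥H →* Multiplicative ℤ :=
    { toFun := fun x => Multiplicative.ofAdd (er (x : Hm) a / n)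
      map_one' := by
        show Multiplicative.ofAdd (er (1 : Hm) a / n) = 1
        rw [h2.er1]; simp
      map_mul' := fun x y => by
        show Multiplicative.ofAdd (er ((x : Hm) * (y : Hm)) a / n) = _
        rw [h.erM _ _ a (hpl _ x.2) (hpl _ y.2), fa _ y.2,
          Int.add_ediv_of_dvd_left (hdvd _ x.2)]; rfl }
  have hχ : ∀ x : ↥H, χ x = Multiplicative.ofAdd (er (x : Hm) a / n) := fun _ => rfl
  have hsurj : Function.Surjective χ := by
    intro m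
    refine ⟨(⟨g2, hg2⟩ : ↥H) ^ (Multiplicative.toAdd m), ?_⟩
    rw [map_zpow, hχ]
    show Multiplicative.ofAdd (er g2 a / n) ^ (Multiplicative.toAdd m) = m
    rw [hg2a, Int.ediv_self hn0, ← ofAdd_zsmul]
    simp
  obtain ⟨t, S, Sf, S0, t0, conj, exh⟩ := hAsc.2 χ hsurj
  have her : ∀ x : ↥H, ∀ m : ℤ, χ x = Multiplicative.ofAdd m → er (x : Hm) a = n * m := by
    intro x m hx
    rw [hχ] at hx
    have h3 : er (x : Hm) a / n = m := Multiplicative.ofAdd.injective hx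
    rw [← h3, Int.mul_ediv_cancel' (hdvd _ x.2)]
  have hmap : Subgroup.closure (Subtype.val '' S : Set Hm) = (Subgroup.closure S).map H.subtype := by
    rw [MonoidHom.map_closure]; rfl
  have hte : er (t : Hm) a = n ∨ er (t : Hm) a = -n := by
    rcases t0 with h0 | h0
    · left; rw [her t 1 h0]; ring
    · right; rw [her t (-1) h0]; ring
  have data : Data H a b (t : Hm) (Subtype.val '' S) := by
    refine ⟨hpl, hnp, hab, fa, fb, orb, t.2, ?_, Sf.image _, ?_, ?_, ?_, ?_, ?_⟩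
    · rintro x ⟨y, -, rfl⟩; exact y.2
    · rintro x ⟨y, hy, rfl⟩
      have := her y 0 (S0 y hy)
      rw [this]; ring
    · rcases hte with h0 | h0 <;> rw [h0]
      · exact hn0
      · exact neg_ne_zero.2 hn0
    · intro x hx
      obtain ⟨m, hm⟩ := hdvd x hx
      rcases hte with h0 | h0
      · exact ⟨m, by rw [hm, h0]; ring⟩
      · exact ⟨-m, by rw [hm, h0]; ring⟩
    · intro x hx
      rw [hmap] at hx ⊢
      obtain ⟨y, hy, rfl⟩ := hx
      exact ⟨t * y * t⁻¹, conj y hy, rfl⟩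
    · intro x hx hx0
      obtain ⟨m, hm⟩ := exh ⟨x, hx⟩ (by rw [hχ]; show Multiplicative.ofAdd (er x a / n) = 1; rw [hx0]; simp)
      refine ⟨m, ?_⟩
      rw [hmap]
      exact ⟨_, hm, rfl⟩
  have hc0 : er (g * k * g⁻¹ * k⁻¹) a = 0 := by
    have h3 : χ₀ (⟨g, hg⟩ * ⟨k, hk⟩ * ⟨g, hg⟩⁻¹ * ⟨k, hk⟩⁻¹) = 1 := by
      rw [map_mul, map_mul, map_mul, map_inv, map_inv, mul_comm (χ₀ _) (χ₀ ⟨k, hk⟩)]
      group
    exact Multiplicative.ofAdd.injective h3
  exact hu (hD H a b t _ data _ hcH hc0 u hau hub)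

end FPT.AB3M
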