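import Pool.Agent.Lib.MP_c27bde_al.FP.Spec

/-!
MP_c27bde_al, FP, module BR: Britton's lemma for `t g` and `t⁻¹ h`.
-/

set_option autoImplicit false

namespace FPT.BRM

section

variable {G : Type} [Group G]

/-- the sign of the `t`-letter of a letter -/
def sg : Fin 2 × Bool → ℤˣ
  | (0, true) => 1
  | (0, false) => -1
  | (1, true) => -1
  | (1, false) => 1

/-- the part before the `t`-letter -/
def pre (g h : G) : Fin 2 × Bool → G
  | (0, true) => 1
  | (0, false) => g⁻¹
  | (1, true) => 1
  | (1, false) => h⁻¹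

/-- the part after the `t`-letter -/
def post (g h : G) : Fin 2 × Bool → G
  | (0, true) => g
  | (0, false) => 1
  | (1, true) => h
  | (1, false) => 1

/-- the part before the first `t`-letter of a word -/
def hd (g h : G) : List (Fin 2 × Bool) → G
  | [] => 1
  | l :: _ => pre g h l

/-- the rest -/
def lst (g h : G) : List (Fin 2 × Bool) → List (ℤˣ × G)
  | [] => []
  | l :: L => (sg l, post g h l * hd g h L) :: lst g h L

variable {A B : Subgroup G} {φ : A ≃* B}

theorem letter {g h : G} (f : FreeGroup (Fin 2) →* HNNExtension G A B φ)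
    (h0 : f (FreeGroup.of 0) = HNNExtension.t * HNNExtension.of g)
    (h1 : f (FreeGroup.of 1) = HNNExtension.t⁻¹ * HNNExtension.of h) (l : Fin 2 × Bool) :
    f (FreeGroup.mk [l]) = HNNExtension.of (pre g h l) *
      (HNNExtension.t ^ ((sg l : ℤˣ) : ℤ) * HNNExtension.of (post g h l)) := by
  obtain ⟨i, b⟩ := l
  have e0 : FreeGroup.mk [((0 : Fin 2), false)] = (FreeGroup.of 0)⁻¹ := by
    rw [FreeGroup.of, FreeGroup.inv_mk]; rfl
  have e1 : FreeGroup.mk [((1 : Fin 2), false)] = (FreeGroup.of 1)⁻¹ := by
    rw [FreeGroup.of, FreeGroup.inv_mk]; rfl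
  have e2 : FreeGroup.mk [((0 : Fin 2), true)] = FreeGroup.of 0 := rfl
  have e3 : FreeGroup.mk [((1 : Fin 2), true)] = FreeGroup.of 1 := rfl
  fin_cases i <;> cases b
  · simp only [Fin.zero_eta, e0, map_inv, h0, pre, sg, post]
    simp
  · simp only [Fin.zero_eta, e2, h0, pre, sg, post]
    simp
  · simp only [Fin.mk_one, e1, map_inv, h1, pre, sg, post]
    simp
  · simp only [Fin.mk_one, e3, h1, pre, sg, post]
    simp

theorem value {g h : G} (f : FreeGroup (Fin 2) →* HNNExtension G A B φ)
    (h0 : f (FreeGroup.of 0) = HNNExtension.t * HNNExtension.of g)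
    (h1 : f (FreeGroup.of 1) = HNNExtension.t⁻¹ * HNNExtension.of h)
    (L : List (Fin 2 × Bool)) :
    f (FreeGroup.mk L) = HNNExtension.of (hd g h L) *
      ((lst g h L).map (fun x => HNNExtension.t ^ (x.1 : ℤ) * HNNExtension.of x.2)).prod := by
  induction L with
  | nil =>
    have : FreeGroup.mk ([] : List (Fin 2 × Bool)) = 1 := rfl
    rw [this, map_one]
    simp [hd, lst]
  | cons l L ih =>
    have e : FreeGroup.mk (l :: L) = FreeGroup.mk [l] * FreeGroup.mk L := by
      rw [FreeGroup.mul_mk]; rfl
    rw [e, map_mul, ih, letter f h0 h1]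
    simp only [hd, lst, List.map_cons, List.prod_cons, map_mul, mul_assoc]

theorem chain {g h : G} (hg : g ∉ A) (hh : h ∉ B) (L : List (Fin 2 × Bool))
    (hL : FreeGroup.IsReduced L) :
    (lst g h L).IsChain (fun a b => a.2 ∈ HNNExtension.toSubgroup A B a.1 → a.1 = b.1) := by
  induction L with
  | nil => exact List.isChain_nil
  | cons l L ih =>
    cases L with
    | nil => exact List.isChain_singleton _
    | cons l' L =>
      have h1 := List.isChain_cons_cons.1 hL
      refine List.isChain_cons_cons.2 ⟨?_, ih h1.2⟩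
      have h2 := h1.1
      obtain ⟨i, b⟩ := l
      obtain ⟨i', b'⟩ := l'
      intro hm
      simp only at h2 hm ⊢
      fin_cases i <;> fin_cases i' <;> cases b <;> cases b' <;>
        simp_all [sg, hd, pre, post, HNNExtension.toSubgroup_one, HNNExtension.toSubgroup_neg_one]

end

/-- BR -/
theorem specBR : SpecBR := by
  intro G _ A B φ g h hg hh f h0 h1
  rw [injective_iff_map_eq_one]
  intro x hx
  have e : FreeGroup.mk x.toWord = x := FreeGroup.mk_toWord
  have hv := value f h0 h1 x.toWord
  rw [e, hx] at hv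
  have hr := HNNExtension.ReducedWord.toList_eq_nil_of_mem_of_range (φ := φ)
    ⟨hd g h x.toWord, lst g h x.toWord, chain hg hh _ FreeGroup.isReduced_toWord⟩
    (by
      rw [HNNExtension.NormalWord.ReducedWord.prod]
      rw [← hv]
      exact one_mem _)
  rw [← FreeGroup.toWord_eq_nil_iff]
  have hr' : lst g h x.toWord = [] := hr
  cases hw : x.toWord with
  | nil => rfl
  | cons l L =>
    rw [hw] at hr'
    simp [lst] at hr'

end FPT.BRM
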