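import Pool.Agent.Lib.MP_c27bde_al.FP.Spec

/-!
MP_c27bde_al, FP, module BS: the Bieri-Strebel alternative for finitely presented groups without
free subgroups of rank two, from the HNN presentation (BSH) and Britton's lemma (BR).
-/

set_option autoImplicit false

namespace FPT.BSM

open FPT

variable {H : Type} [Group H]

/-- the generating set of `cl` -/
def gens (t : H) {n : ℕ} (a : Fin n → H) (lo hi : ℕ) : Set H :=
  {x | ∃ i : Fin n, ∃ j : ℕ, lo ≤ j ∧ j < hi ∧ x = t ^ j * a i * (t ^ j)⁻¹}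

theorem cl_eq (t : H) {n : ℕ} (a : Fin n → H) (lo hi : ℕ) :
    cl t a lo hi = Subgroup.closure (gens t a lo hi) := rfl

theorem gens_finite (t : H) {n : ℕ} (a : Fin n → H) (lo hi : ℕ) : (gens t a lo hi).Finite := by
  have h : gens t a lo hi ⊆ (fun p : Fin n × ℕ => t ^ p.2 * a p.1 * (t ^ p.2)⁻¹) ''
      (Set.univ ×ˢ (Set.Iio hi)) := by
    rintro x ⟨i, j, -, hj, rfl⟩
    exact ⟨(i, j), ⟨Set.mem_univ _, hj⟩, rfl⟩
  exact ((Set.finite_univ.prod (Set.finite_Iio hi)).image _).subset h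

theorem cl_mono (t : H) {n : ℕ} (a : Fin n → H) {lo hi lo' hi' : ℕ} (h1 : lo' ≤ lo)
    (h2 : hi ≤ hi') : cl t a lo hi ≤ cl t a lo' hi' := by
  rw [cl_eq, cl_eq]
  apply Subgroup.closure_mono
  rintro x ⟨i, j, hj1, hj2, rfl⟩
  exact ⟨i, j, le_trans h1 hj1, lt_of_lt_of_le hj2 h2, rfl⟩

theorem gen_mem (t : H) {n : ℕ} (a : Fin n → H) {lo hi : ℕ} (i : Fin n) (j : ℕ) (h1 : lo ≤ j)
    (h2 : j < hi) : t ^ j * a i * (t ^ j)⁻¹ ∈ cl t a lo hi :=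
  Subgroup.subset_closure ⟨i, j, h1, h2, rfl⟩

/-- a closure induction: conjugation by a fixed element -/
theorem conj_closure (c : H) (T : Set H) (K : Subgroup H) (h : ∀ x ∈ T, c * x * c⁻¹ ∈ K) :
    ∀ x ∈ Subgroup.closure T, c * x * c⁻¹ ∈ K := by
  intro x hx
  induction hx using Subgroup.closure_induction with
  | mem x hx => exact h x hx
  | one => simp
  | mul x y _ _ hx hy =>
    have : c * (x * y) * c⁻¹ = (c * x * c⁻¹) * (c * y * c⁻¹) := by group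
    rw [this]
    exact K.mul_mem hx hy
  | inv x _ hx =>
    have : c * x⁻¹ * c⁻¹ = (c * x * c⁻¹)⁻¹ := by group
    rw [this]
    exact K.inv_mem hx

theorem conj_up (t : H) {n : ℕ} (a : Fin n → H) (M : ℕ) :
    ∀ x ∈ cl t a 0 M, t * x * t⁻¹ ∈ cl t a 1 (M + 1) := by
  rw [cl_eq]
  apply conj_closure
  rintro x ⟨i, j, -, hj, rfl⟩
  have : t * (t ^ j * a i * (t ^ j)⁻¹) * t⁻¹ = t ^ (j + 1) * a i * (t ^ (j + 1))⁻¹ := by
    rw [pow_succ']; group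
  rw [this]
  exact gen_mem t a i (j + 1) (by omega) (by omega)

theorem conj_down (t : H) {n : ℕ} (a : Fin n → H) (M : ℕ) :
    ∀ x ∈ cl t a 1 (M + 1), t⁻¹ * x * t⁻¹⁻¹ ∈ cl t a 0 M := by
  rw [cl_eq]
  apply conj_closure
  rintro x ⟨i, j, hj1, hj, rfl⟩
  obtain ⟨k, rfl⟩ : ∃ k, j = k + 1 := ⟨j - 1, by omega⟩
  have : t⁻¹ * (t ^ (k + 1) * a i * (t ^ (k + 1))⁻¹) * t⁻¹⁻¹ = t ^ k * a i * (t ^ k)⁻¹ := by
    rw [pow_succ']; group
  rw [this]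
  exact gen_mem t a i k (by omega) (by omega)

theorem conj_pow {c : H} {K : Subgroup H} (h : ∀ x ∈ K, c * x * c⁻¹ ∈ K) (j : ℕ) :
    ∀ x ∈ K, c ^ j * x * (c ^ j)⁻¹ ∈ K := by
  induction j with
  | zero => intro x hx; simpa using hx
  | succ j ih =>
    intro x hx
    have : c ^ (j + 1) * x * (c ^ (j + 1))⁻¹ = c * (c ^ j * x * (c ^ j)⁻¹) * c⁻¹ := by
      rw [pow_succ']; group
    rw [this]
    exact h _ (ih x hx)

theorem chi_conj (χ : H →* Multiplicative ℤ) (c x : H) : χ (c * x * c⁻¹) = χ x := by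
  rw [map_mul, map_mul, map_inv, mul_comm (χ c) (χ x), mul_assoc, mul_inv_cancel, mul_one]

theorem specBS (hBSH : SpecBSH) (hBR : SpecBR) : SpecBS := by
  intro H _ hfp hfree χ hχ
  obtain ⟨t, n, a, ht, ha, hexh, M, φ, -, Φ, hΦt, hΦo⟩ := hBSH H hfp χ hχ
  have hS1 : ∀ s ∈ gens t a 0 (M + 1), χ s = 1 := by
    rintro s ⟨i, j, -, -, rfl⟩
    rw [chi_conj, ha i]
  by_cases h1 : cl t a 0 (M + 1) ≤ cl t a 0 M
  · -- `t B t⁻¹ ≤ B`
    have hc : ∀ g ∈ cl t a 0 (M + 1), t * g * t⁻¹ ∈ cl t a 0 (M + 1) := fun g hg =>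
      cl_mono t a (Nat.zero_le 1) le_rfl (conj_up t a M g (h1 hg))
    have hN : ∀ N, cl t a 0 N ≤ cl t a 0 (M + 1) := by
      intro N
      rw [cl_eq t a 0 N, Subgroup.closure_le]
      rintro x ⟨i, j, -, -, rfl⟩
      apply conj_pow hc j
      have := gen_mem t a (lo := 0) (hi := M + 1) i 0 le_rfl (by omega)
      simpa using this
    refine ⟨t, gens t a 0 (M + 1), gens_finite t a 0 (M + 1), hS1, Or.inl ht, hc, ?_⟩
    intro h hh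
    obtain ⟨L, N, hLN⟩ := hexh h hh
    exact ⟨L, hN N hLN⟩
  by_cases h2 : cl t a 0 (M + 1) ≤ cl t a 1 (M + 1)
  · -- `t⁻¹ B t ≤ B`
    have hc : ∀ g ∈ cl t a 0 (M + 1), t⁻¹ * g * t⁻¹⁻¹ ∈ cl t a 0 (M + 1) := fun g hg =>
      cl_mono t a le_rfl (by omega) (conj_down t a M g (h2 hg))
    have hN : ∀ N, ∀ g ∈ cl t a 0 N, t⁻¹ ^ N * g * (t⁻¹ ^ N)⁻¹ ∈ cl t a 0 (M + 1) := by
      intro N
      rw [cl_eq t a 0 N]
      apply conj_closure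
      rintro x ⟨i, j, -, hj, rfl⟩
      obtain ⟨k, rfl⟩ : ∃ k, N = j + k := ⟨N - j, by omega⟩
      have e : t⁻¹ ^ (j + k) * (t ^ j * a i * (t ^ j)⁻¹) * (t⁻¹ ^ (j + k))⁻¹
          = t⁻¹ ^ k * a i * (t⁻¹ ^ k)⁻¹ := by
        have e1 : t⁻¹ ^ (j + k) * t ^ j = t⁻¹ ^ k := by
          rw [add_comm, pow_add, mul_assoc, inv_pow t j, inv_mul_cancel, mul_one]
        have e2 : (t ^ j)⁻¹ * (t⁻¹ ^ (j + k))⁻¹ = (t⁻¹ ^ k)⁻¹ := by
          rw [← mul_inv_rev, e1]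
        calc t⁻¹ ^ (j + k) * (t ^ j * a i * (t ^ j)⁻¹) * (t⁻¹ ^ (j + k))⁻¹
            = (t⁻¹ ^ (j + k) * t ^ j) * a i * ((t ^ j)⁻¹ * (t⁻¹ ^ (j + k))⁻¹) := by
              simp only [mul_assoc]
          _ = _ := by rw [e1, e2]
      rw [e]
      apply conj_pow hc k
      have := gen_mem t a (lo := 0) (hi := M + 1) i 0 le_rfl (by omega)
      simpa using this
    refine ⟨t⁻¹, gens t a 0 (M + 1), gens_finite t a 0 (M + 1), hS1, Or.inr ?_, hc, ?_⟩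
    · rw [map_inv, ht]; rfl
    intro h hh
    obtain ⟨L, N, hLN⟩ := hexh h hh
    refine ⟨N, ?_⟩
    have h3 := conj_pow hc L _ (hN N _ hLN)
    have e : t⁻¹ ^ L * (t⁻¹ ^ N * (t ^ L * h * (t ^ L)⁻¹) * (t⁻¹ ^ N)⁻¹) * (t⁻¹ ^ L)⁻¹
        = t⁻¹ ^ N * h * (t⁻¹ ^ N)⁻¹ := by
      have e1 : t⁻¹ ^ L * t⁻¹ ^ N * t ^ L = t⁻¹ ^ N := by
        rw [← pow_add, add_comm, pow_add, mul_assoc, inv_pow t L, inv_mul_cancel, mul_one]
      have e2 : (t ^ L)⁻¹ * (t⁻¹ ^ N)⁻¹ * (t⁻¹ ^ L)⁻¹ = (t⁻¹ ^ N)⁻¹ := by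
        rw [← mul_inv_rev, ← mul_inv_rev, ← mul_assoc, e1]
      calc t⁻¹ ^ L * (t⁻¹ ^ N * (t ^ L * h * (t ^ L)⁻¹) * (t⁻¹ ^ N)⁻¹) * (t⁻¹ ^ L)⁻¹
          = (t⁻¹ ^ L * t⁻¹ ^ N * t ^ L) * h * ((t ^ L)⁻¹ * (t⁻¹ ^ N)⁻¹ * (t⁻¹ ^ L)⁻¹) := by
            simp only [mul_assoc]
        _ = _ := by rw [e1, e2]
    rwa [e] at h3
  · -- a free subgroup
    exfalso
    obtain ⟨g, hgB, hgA⟩ := SetLike.not_le_iff_exists.mp h1
    obtain ⟨h, hhB, hhA⟩ := SetLike.not_le_iff_exists.mp h2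
    let g' : cl t a 0 (M + 1) := ⟨g, hgB⟩
    let h' : cl t a 0 (M + 1) := ⟨h, hhB⟩
    let ψ : FreeGroup (Fin 2) →* H := FreeGroup.lift ![t * g, t⁻¹ * h]
    have hg' : g' ∉ (cl t a 0 M).subgroupOf (cl t a 0 (M + 1)) := fun hh =>
      hgA (Subgroup.mem_subgroupOf.mp hh)
    have hh' : h' ∉ (cl t a 1 (M + 1)).subgroupOf (cl t a 0 (M + 1)) := fun hh =>
      hhA (Subgroup.mem_subgroupOf.mp hh)
    have hinj := hBR (cl t a 0 (M + 1)) _ _ φ g' h' hg' hh' (Φ.comp ψ) (by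
      have e : ψ (FreeGroup.of 0) = t * g := by simp [ψ]
      rw [MonoidHom.comp_apply, e, map_mul, hΦt]
      congr 1
      exact hΦo g') (by
      have e : ψ (FreeGroup.of 1) = t⁻¹ * h := by simp [ψ]
      rw [MonoidHom.comp_apply, e, map_mul, map_inv, hΦt]
      congr 1
      exact hΦo h')
    apply hfree ψ
    rw [MonoidHom.coe_comp] at hinj
    exact hinj.of_comp

end FPT.BSM
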