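import Pool.Agent.Lib.MP_c27bde_al.FP.Spec

/-!
MP_c27bde_al, FP: module BSH.  A finitely presented group `H` with a surjection onto `ℤ` maps to an HNN extension
of a finitely generated subgroup of the kernel (the word lemma of Bieri and Strebel).
-/

set_option autoImplicit false

namespace FPT.BSHM

open Subgroup

variable {H : Type} [Group H]

lemma cl_mono (t : H) {n : ℕ} (a : Fin n → H) {lo lo' hi hi' : ℕ} (h1 : lo' ≤ lo) (h2 : hi ≤ hi') :
    cl t a lo hi ≤ cl t a lo' hi' := by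
  apply Subgroup.closure_mono
  rintro x ⟨i, j, hj1, hj2, rfl⟩
  exact ⟨i, j, h1.trans hj1, lt_of_lt_of_le hj2 h2, rfl⟩

lemma gen_mem (t : H) {n : ℕ} (a : Fin n → H) {lo hi : ℕ} (i : Fin n) (j : ℕ) (h1 : lo ≤ j)
    (h2 : j < hi) : t ^ j * a i * (t ^ j)⁻¹ ∈ cl t a lo hi :=
  Subgroup.subset_closure ⟨i, j, h1, h2, rfl⟩

lemma a_mem (t : H) {n : ℕ} (a : Fin n → H) (i : Fin n) (M : ℕ) : a i ∈ cl t a 0 (M + 1) := by
  have := gen_mem t a (lo := 0) (hi := M + 1) i 0 le_rfl (Nat.succ_pos M)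
  simpa using this

lemma conj_gen (t : H) (x : H) (j : ℕ) :
    t * (t ^ j * x * (t ^ j)⁻¹) * t⁻¹ = t ^ (j + 1) * x * (t ^ (j + 1))⁻¹ := by
  rw [pow_succ']; group

/-- conjugation by `t` shifts the window -/
lemma cl_map (t : H) {n : ℕ} (a : Fin n → H) (lo hi : ℕ) :
    (cl t a lo hi).map (MulAut.conj t).toMonoidHom = cl t a (lo + 1) (hi + 1) := by
  unfold cl
  rw [MonoidHom.map_closure]
  congr 1
  ext x
  constructor
  · rintro ⟨y, ⟨i, j, h1, h2, rfl⟩, rfl⟩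
    refine ⟨i, j + 1, by omega, by omega, ?_⟩
    simp only [MulEquiv.toMonoidHom_eq_coe, MonoidHom.coe_coe, MulAut.conj_apply]
    exact conj_gen t (a i) j
  · rintro ⟨i, j, h1, h2, rfl⟩
    refine ⟨t ^ (j - 1) * a i * (t ^ (j - 1))⁻¹, ⟨i, j - 1, by omega, by omega, rfl⟩, ?_⟩
    simp only [MulEquiv.toMonoidHom_eq_coe, MonoidHom.coe_coe, MulAut.conj_apply]
    rw [conj_gen, Nat.sub_add_cancel (by omega)]

lemma conj_mem (t : H) {n : ℕ} (a : Fin n → H) {lo hi : ℕ} {x : H} (hx : x ∈ cl t a lo hi) :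
    t * x * t⁻¹ ∈ cl t a (lo + 1) (hi + 1) := by
  rw [← cl_map]
  exact ⟨x, hx, rfl⟩

lemma conj_mem' (t : H) {n : ℕ} (a : Fin n → H) {lo hi : ℕ} {x : H}
    (hx : x ∈ cl t a (lo + 1) (hi + 1)) : t⁻¹ * x * t ∈ cl t a lo hi := by
  rw [← cl_map] at hx
  obtain ⟨y, hy, rfl⟩ := hx
  simp only [MulEquiv.toMonoidHom_eq_coe, MonoidHom.coe_coe, MulAut.conj_apply]
  have : t⁻¹ * (t * y * t⁻¹) * t = y := by group
  rw [this]
  exact hy

/-- the isomorphism of the associated subgroups -/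
def phi (t : H) {n : ℕ} (a : Fin n → H) (M : ℕ) :
    ((cl t a 0 M).subgroupOf (cl t a 0 (M + 1))) ≃*
        ((cl t a 1 (M + 1)).subgroupOf (cl t a 0 (M + 1))) where
  toFun x := ⟨⟨t * ((x : cl t a 0 (M + 1)) : H) * t⁻¹,
      cl_mono t a (Nat.zero_le 1) le_rfl (conj_mem t a (Subgroup.mem_subgroupOf.1 x.2))⟩,
      Subgroup.mem_subgroupOf.2 (conj_mem t a (Subgroup.mem_subgroupOf.1 x.2))⟩
  invFun x := ⟨⟨t⁻¹ * ((x : cl t a 0 (M + 1)) : H) * t,
      cl_mono t a le_rfl (Nat.le_succ M) (conj_mem' t a (Subgroup.mem_subgroupOf.1 x.2))⟩,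
      Subgroup.mem_subgroupOf.2 (conj_mem' t a (Subgroup.mem_subgroupOf.1 x.2))⟩
  left_inv x := by
    apply Subtype.ext; apply Subtype.ext
    change t⁻¹ * (t * ((x : cl t a 0 (M + 1)) : H) * t⁻¹) * t = ((x : cl t a 0 (M + 1)) : H)
    group
  right_inv x := by
    apply Subtype.ext; apply Subtype.ext
    change t * (t⁻¹ * ((x : cl t a 0 (M + 1)) : H) * t) * t⁻¹ = ((x : cl t a 0 (M + 1)) : H)
    group
  map_mul' x y := by
    apply Subtype.ext; apply Subtype.ext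
    change t * (((x : cl t a 0 (M + 1)) : H) * ((y : cl t a 0 (M + 1)) : H)) * t⁻¹ =
      (t * ((x : cl t a 0 (M + 1)) : H) * t⁻¹) * (t * ((y : cl t a 0 (M + 1)) : H) * t⁻¹)
    group

/-- A model at level `M`: a group with an element `τ` and a map `o` which is multiplicative on
`cl 0 (M+1)` and such that conjugation by `τ` is conjugation by `t` on `cl 0 M`. -/
structure Mod (t : H) {n : ℕ} (a : Fin n → H) (M : ℕ) (E : Type) [Group E] (τ : E)
    (o : H → E) : Prop where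
  mul : ∀ x ∈ cl t a 0 (M + 1), ∀ y ∈ cl t a 0 (M + 1), o (x * y) = o x * o y
  conj : ∀ x ∈ cl t a 0 M, τ * o x * τ⁻¹ = o (t * x * t⁻¹)

lemma Mod.one {t : H} {n : ℕ} {a : Fin n → H} {M : ℕ} {E : Type} [Group E] {τ : E}
    {o : H → E} (m : Mod t a M E τ o) : o 1 = 1 := by
  have h := m.mul 1 (Subgroup.one_mem _) 1 (Subgroup.one_mem _)
  rw [mul_one] at h
  exact left_eq_mul.1 h

lemma Mod.inv {t : H} {n : ℕ} {a : Fin n → H} {M : ℕ} {E : Type} [Group E] {τ : E}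
    {o : H → E} (m : Mod t a M E τ o) {x : H} (hx : x ∈ cl t a 0 (M + 1)) :
    o x⁻¹ = (o x)⁻¹ := by
  have h := m.mul x hx x⁻¹ (Subgroup.inv_mem _ hx)
  rw [mul_inv_cancel, m.one] at h
  exact (inv_eq_of_mul_eq_one_right h.symm).symm

/-- evaluation of words in a model -/
def ev {n : ℕ} (a : Fin n → H) (e : Fin n → ℤ) {E : Type} [Group E] (τ : E) (o : H → E) :
    FreeGroup (Fin n) →* E :=
  FreeGroup.lift (fun i => o (a i) * τ ^ (e i))

/-- the degree -/
def dg {n : ℕ} (e : Fin n → ℤ) : FreeGroup (Fin n) →* Multiplicative ℤ :=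
  FreeGroup.lift (fun i => Multiplicative.ofAdd (e i))

def deg {n : ℕ} (e : Fin n → ℤ) (w : FreeGroup (Fin n)) : ℤ := Multiplicative.toAdd (dg e w)

lemma deg_mul {n : ℕ} (e : Fin n → ℤ) (v w : FreeGroup (Fin n)) :
    deg e (v * w) = deg e v + deg e w := by
  simp [deg]

lemma deg_inv {n : ℕ} (e : Fin n → ℤ) (v : FreeGroup (Fin n)) :
    deg e v⁻¹ = - deg e v := by
  simp [deg]

lemma deg_one {n : ℕ} (e : Fin n → ℤ) : deg e (1 : FreeGroup (Fin n)) = 0 := by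
  simp [deg]

lemma deg_of {n : ℕ} (e : Fin n → ℤ) (i : Fin n) : deg e (FreeGroup.of i) = e i := by
  simp [deg, dg]

/-- the value of `w` is `τ^{-L} o(g) τ^{L + deg w}` in all models of level `≥ M'` -/
def V (t : H) {n : ℕ} (a : Fin n → H) (e : Fin n → ℤ) (w : FreeGroup (Fin n)) (L M' : ℕ)
    (g : H) : Prop :=
  g ∈ cl t a 0 (M' + 1) ∧ ∀ M ≥ M', ∀ (E : Type) [Group E] (τ : E) (o : H → E),
    Mod t a M E τ o → ev a e τ o w = τ ^ (-(L : ℤ)) * o g * τ ^ ((L : ℤ) + deg e w)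

lemma V_raise {t : H} {n : ℕ} {a : Fin n → H} {e : Fin n → ℤ} {w : FreeGroup (Fin n)}
    {L M' : ℕ} {g : H} (h : V t a e w L M' g) : V t a e w (L + 1) (M' + 1) (t * g * t⁻¹) := by
  refine ⟨cl_mono t a (Nat.zero_le _) le_rfl (conj_mem t a h.1), ?_⟩
  intro M hM E _ τ o m
  have hg : g ∈ cl t a 0 M := cl_mono t a le_rfl hM h.1
  rw [h.2 M (by omega) E τ o m, ← m.conj g hg]
  push_cast
  rw [show -((L : ℤ) + 1) = -(L : ℤ) + (-1) by ring,
    show (L : ℤ) + 1 + deg e w = 1 + ((L : ℤ) + deg e w) by ring, zpow_add, zpow_add τ 1]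
  simp only [zpow_one]
  group

lemma V_raise' {t : H} {n : ℕ} {a : Fin n → H} {e : Fin n → ℤ} {w : FreeGroup (Fin n)}
    {L M' : ℕ} {g : H} (h : V t a e w L M' g) (K : ℕ) (hK : L ≤ K) :
    ∃ M'' g', V t a e w K M'' g' := by
  induction K, hK using Nat.le_induction with
  | base => exact ⟨M', g, h⟩
  | succ K _ ih =>
    obtain ⟨M'', g', h'⟩ := ih
    exact ⟨M'' + 1, _, V_raise h'⟩

/-- the word lemma -/
def P (t : H) {n : ℕ} (a : Fin n → H) (e : Fin n → ℤ) (w : FreeGroup (Fin n)) : Prop :=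
  ∃ L0 : ℕ, ∀ L ≥ L0, ∃ M' g, V t a e w L M' g

lemma P_of_V {t : H} {n : ℕ} {a : Fin n → H} {e : Fin n → ℤ} {w : FreeGroup (Fin n)}
    {L M' : ℕ} {g : H} (h : V t a e w L M' g) : P t a e w :=
  ⟨L, fun K hK => V_raise' h K hK⟩

lemma P_one (t : H) {n : ℕ} (a : Fin n → H) (e : Fin n → ℤ) : P t a e 1 := by
  apply P_of_V (L := 0) (M' := 0) (g := 1)
  refine ⟨Subgroup.one_mem _, ?_⟩
  intro M _ E _ τ o m
  rw [m.one, deg_one, map_one]
  simp

lemma P_of (t : H) {n : ℕ} (a : Fin n → H) (e : Fin n → ℤ) (i : Fin n) :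
    P t a e (FreeGroup.of i) := by
  apply P_of_V (L := 0) (M' := 0) (g := a i)
  refine ⟨a_mem t a i 0, ?_⟩
  intro M _ E _ τ o m
  rw [deg_of]
  simp [ev]

lemma P_inv {t : H} {n : ℕ} {a : Fin n → H} {e : Fin n → ℤ} {w : FreeGroup (Fin n)}
    (h : P t a e w) : P t a e w⁻¹ := by
  obtain ⟨L0, h⟩ := h
  -- choose `L` with `L + deg ≥ 0`
  obtain ⟨M', g, hV⟩ := h (L0 + (deg e w).natAbs) (by omega)
  set L : ℕ := L0 + (deg e w).natAbs with hL
  have hpos : 0 ≤ (L : ℤ) + deg e w := by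
    rw [hL]; push_cast; have := neg_abs_le (deg e w); omega
  apply P_of_V (L := ((L : ℤ) + deg e w).toNat) (M' := M') (g := g⁻¹)
  refine ⟨Subgroup.inv_mem _ hV.1, ?_⟩
  intro M hM E _ τ o m
  have hg : g ∈ cl t a 0 (M + 1) := cl_mono t a le_rfl (by omega) hV.1
  rw [map_inv, hV.2 M hM E τ o m, m.inv hg, Int.toNat_of_nonneg hpos, deg_inv]
  rw [mul_inv_rev, mul_inv_rev, ← zpow_neg, ← zpow_neg, neg_neg, ← mul_assoc,
    show (L : ℤ) + deg e w + -deg e w = (L : ℤ) by ring]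

lemma P_mul {t : H} {n : ℕ} {a : Fin n → H} {e : Fin n → ℤ} {v w : FreeGroup (Fin n)}
    (hv : P t a e v) (hw : P t a e w) : P t a e (v * w) := by
  obtain ⟨L1, h1⟩ := hv
  obtain ⟨L2, h2⟩ := hw
  set L : ℕ := L1 + L2 + (deg e v).natAbs with hL
  have hpos : (L2 : ℤ) ≤ (L : ℤ) + deg e v := by
    rw [hL]; push_cast; have := neg_abs_le (deg e v); omega
  obtain ⟨M1, g1, V1⟩ := h1 L (by omega)
  obtain ⟨M2, g2, V2⟩ := h2 ((L : ℤ) + deg e v).toNat (by omega)
  apply P_of_V (L := L) (M' := max M1 M2) (g := g1 * g2)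
  refine ⟨Subgroup.mul_mem _ (cl_mono t a le_rfl (by omega) V1.1)
    (cl_mono t a le_rfl (by omega) V2.1), ?_⟩
  intro M hM E _ τ o m
  have hM1 : M1 ≤ M := le_trans (le_max_left _ _) hM
  have hM2 : M2 ≤ M := le_trans (le_max_right _ _) hM
  have hg1 : g1 ∈ cl t a 0 (M + 1) := cl_mono t a le_rfl (by omega) V1.1
  have hg2 : g2 ∈ cl t a 0 (M + 1) := cl_mono t a le_rfl (by omega) V2.1
  rw [map_mul, V1.2 M hM1 E τ o m, V2.2 M hM2 E τ o m, m.mul _ hg1 _ hg2,
    Int.toNat_of_nonneg (by omega), deg_mul]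
  rw [show (L : ℤ) + (deg e v + deg e w) = (L : ℤ) + deg e v + deg e w by ring]
  group

lemma P_all (t : H) {n : ℕ} (a : Fin n → H) (e : Fin n → ℤ) (w : FreeGroup (Fin n)) :
    P t a e w := by
  induction w using FreeGroup.induction_on with
  | C1 => exact P_one t a e
  | of i => exact P_of t a e i
  | inv_of i h => exact P_inv h
  | mul v w hv hw => exact P_mul hv hw

/-- the group itself is a model -/
lemma mod_self (t : H) {n : ℕ} (a : Fin n → H) (M : ℕ) : Mod t a M H t id :=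
  ⟨fun _ _ _ _ => rfl, fun _ _ => rfl⟩

open Classical in
/-- the extension of `of` by 1 -/
noncomputable def oo (t : H) {n : ℕ} (a : Fin n → H) (M : ℕ) (x : H) :
    HNNExtension (cl t a 0 (M + 1)) ((cl t a 0 M).subgroupOf (cl t a 0 (M + 1)))
          ((cl t a 1 (M + 1)).subgroupOf (cl t a 0 (M + 1))) (phi t a M) :=
  if h : x ∈ cl t a 0 (M + 1) then HNNExtension.of ⟨x, h⟩ else 1

lemma oo_mem (t : H) {n : ℕ} (a : Fin n → H) (M : ℕ) (x : cl t a 0 (M + 1)) :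
    oo t a M (x : H) = HNNExtension.of x := by
  unfold oo
  rw [dif_pos x.2]

/-- the HNN extension is a model -/
lemma mod_hnn (t : H) {n : ℕ} (a : Fin n → H) (M : ℕ) :
    Mod t a M (HNNExtension (cl t a 0 (M + 1)) ((cl t a 0 M).subgroupOf (cl t a 0 (M + 1)))
          ((cl t a 1 (M + 1)).subgroupOf (cl t a 0 (M + 1))) (phi t a M)) HNNExtension.t
      (oo t a M) := by
  constructor
  · intro x hx y hy
    have h1 := oo_mem t a M ⟨x, hx⟩
    have h2 := oo_mem t a M ⟨y, hy⟩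
    have h3 := oo_mem t a M (⟨x, hx⟩ * ⟨y, hy⟩)
    rw [map_mul, ← h1, ← h2] at h3
    exact h3
  · intro x hx
    have hx1 : x ∈ cl t a 0 (M + 1) := cl_mono t a le_rfl (Nat.le_succ M) hx
    have h1 := oo_mem t a M ⟨x, hx1⟩
    have h2 := HNNExtension.equiv_eq_conj (φ := phi t a M)
      (⟨⟨x, hx1⟩, Subgroup.mem_subgroupOf.2 hx⟩ : (cl t a 0 M).subgroupOf (cl t a 0 (M + 1)))
    have h3 := oo_mem t a M ((phi t a M) (⟨⟨x, hx1⟩, Subgroup.mem_subgroupOf.2 hx⟩ :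
      (cl t a 0 M).subgroupOf (cl t a 0 (M + 1))) : cl t a 0 (M + 1))
    rw [h2] at h3
    rw [h1]
    exact h3.symm

/-- the data of the presentation -/
structure Pre (H : Type) [Group H] (t : H) (n : ℕ) (a : Fin n → H) (e : Fin n → ℤ)
    (π : FreeGroup (Fin n) →* H) : Prop where
  surj : Function.Surjective π
  nf : π.ker.IsFinitelyNormallyGenerated
  pa : ∀ i, π (FreeGroup.of i) = a i * t ^ (e i)

lemma ev_self {t : H} {n : ℕ} {a : Fin n → H} {e : Fin n → ℤ} {π : FreeGroup (Fin n) →* H}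
    (hp : Pre H t n a e π) : ev a e t id = π := by
  apply FreeGroup.ext_hom
  intro i
  simp [ev, hp.pa i]

/-- a word with trivial value -/
lemma word_one {t : H} {n : ℕ} {a : Fin n → H} {e : Fin n → ℤ} {π : FreeGroup (Fin n) →* H}
    (hp : Pre H t n a e π) (r : FreeGroup (Fin n)) (k : ℤ) (hr : π r = t ^ k)
    (hd : deg e r = k) : ∃ M' : ℕ, ∀ M ≥ M', ∀ (E : Type) [Group E] (τ : E) (o : H → E),
    Mod t a M E τ o → ev a e τ o r = τ ^ k := by
  obtain ⟨L0, h⟩ := P_all t a e r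
  obtain ⟨M', g, hV⟩ := h L0 le_rfl
  refine ⟨M', ?_⟩
  intro M hM E _ τ o m
  have h1 := hV.2 M hM H t id (mod_self t a M)
  rw [ev_self hp, hr, hd] at h1
  have hg : g = 1 := by
    have h2 : g = t ^ ((L0 : ℤ)) * t ^ k * (t ^ ((L0 : ℤ) + k))⁻¹ := by
      rw [h1]
      simp only [id]
      group
    rw [h2]
    group
  rw [hV.2 M hM E τ o m, hg, m.one, hd]
  group

lemma exists_Phi {t : H} {n : ℕ} {a : Fin n → H} {e : Fin n → ℤ}
    {π : FreeGroup (Fin n) →* H} (hp : Pre H t n a e π)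
    (hd : ∀ w, π w = 1 → deg e w = 0) (wt : FreeGroup (Fin n)) (hwt : π wt = t)
    (hwd : deg e wt = 1) :
    ∃ (M : ℕ) (Φ : H →* HNNExtension (cl t a 0 (M + 1))
        ((cl t a 0 M).subgroupOf (cl t a 0 (M + 1)))
        ((cl t a 1 (M + 1)).subgroupOf (cl t a 0 (M + 1))) (phi t a M)),
        Φ t = HNNExtension.t ∧ ∀ b : cl t a 0 (M + 1), Φ (b : H) = HNNExtension.of b := by
  classical
  obtain ⟨R, hRf, hR⟩ := hp.nf
  have hR1 : ∀ r ∈ R, ∃ M' : ℕ, ∀ M ≥ M', ∀ (E : Type) [Group E] (τ : E) (o : H → E),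
      Mod t a M E τ o → ev a e τ o r = 1 := by
    intro r hr
    have hr1 : π r = 1 := by
      rw [← MonoidHom.mem_ker, ← hR]
      exact Subgroup.subset_normalClosure hr
    obtain ⟨M', h⟩ := word_one hp r 0 (by rw [hr1, zpow_zero]) (hd r hr1)
    exact ⟨M', fun M hM E _ τ o m => by rw [h M hM E τ o m, zpow_zero]⟩
  choose! F hF using hR1
  obtain ⟨Mt, hMt⟩ := word_one hp wt 1 (by rw [hwt, zpow_one]) hwd
  obtain ⟨M, hM1, hM2⟩ : ∃ M : ℕ, Mt ≤ M ∧ ∀ r ∈ R, F r ≤ M := by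
    refine ⟨Mt + ∑ r ∈ hRf.toFinset, F r, by omega, ?_⟩
    intro r hr
    have := Finset.single_le_sum (f := F) (s := hRf.toFinset) (fun _ _ => Nat.zero_le _)
      (hRf.mem_toFinset.2 hr)
    omega
  refine ⟨M, ?_⟩
  have m := mod_hnn t a M
  set f := ev a e HNNExtension.t (oo t a M) with hf
  have hker : π.ker ≤ f.ker := by
    rw [← hR]
    apply Subgroup.normalClosure_le_normal
    intro r hr
    exact MonoidHom.mem_ker.2 (hF r hr M (hM2 r hr) _ _ _ m)
  obtain ⟨s, hs⟩ : ∃ s : H → FreeGroup (Fin n), Function.RightInverse s π :=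
    ⟨Function.surjInv hp.surj, Function.rightInverse_surjInv hp.surj⟩
  set Φ := π.liftOfRightInverse s hs ⟨f, hker⟩ with hΦ
  have hΦw : ∀ w, Φ (π w) = f w := by
    intro w
    rw [hΦ]
    exact MonoidHom.liftOfRightInverse_comp_apply π s hs ⟨f, hker⟩ w
  have hΦt : Φ t = HNNExtension.t := by
    have h1 := hΦw wt
    rw [hwt] at h1
    rw [h1, hf, hMt M hM1 _ _ _ m, zpow_one]
  have hΦa : ∀ i, Φ (a i) = oo t a M (a i) := by
    intro i
    have h1 := hΦw (FreeGroup.of i)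
    rw [hp.pa i, map_mul, map_zpow, hΦt, hf] at h1
    simp only [ev, FreeGroup.lift_apply_of] at h1
    exact mul_right_cancel h1
  have hgen : ∀ j, j < M + 1 → ∀ i, Φ (t ^ j * a i * (t ^ j)⁻¹) =
      oo t a M (t ^ j * a i * (t ^ j)⁻¹) := by
    intro j
    induction j with
    | zero => intro _ i; simpa using hΦa i
    | succ j ih =>
      intro hj i
      rw [← conj_gen, map_mul, map_mul, map_inv, hΦt, ih (by omega) i,
        m.conj _ (gen_mem t a i j (Nat.zero_le _) (by omega))]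
  refine ⟨Φ, hΦt, ?_⟩
  have hB : ∀ x (hx : x ∈ cl t a 0 (M + 1)), Φ x = oo t a M x := by
    intro x hx
    induction hx using Subgroup.closure_induction with
    | mem x hx =>
      obtain ⟨i, j, _, hj, rfl⟩ := hx
      exact hgen j hj i
    | one => rw [map_one, m.one]
    | mul x y hx hy h1 h2 => rw [map_mul, h1, h2, m.mul x hx y hy]
    | inv x hx h1 => rw [map_inv, h1, m.inv hx]
  intro b
  rw [hB b b.2, oo_mem]

/-- BSH -/
theorem specBSH : SpecBSH := by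
  intro H _ hH χ hχ
  obtain ⟨n, π, hπ, hker⟩ := hH.out
  obtain ⟨t, ht⟩ := hχ (Multiplicative.ofAdd 1)
  set e : Fin n → ℤ := fun i => Multiplicative.toAdd (χ (π (FreeGroup.of i))) with he
  set a : Fin n → H := fun i => π (FreeGroup.of i) * t ^ (- e i) with ha
  have hp : Pre H t n a e π := by
    refine ⟨hπ, hker, ?_⟩
    intro i
    rw [ha]
    simp only
    group
  have hdχ : ∀ w, dg e w = χ (π w) := by
    intro w
    have : dg e = χ.comp π := by
      apply FreeGroup.ext_hom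
      intro i
      simp [dg, he]
    rw [this]; rfl
  have hd : ∀ w, deg e w = Multiplicative.toAdd (χ (π w)) := by
    intro w
    rw [deg, hdχ]
  obtain ⟨wt, hwt⟩ := hπ t
  obtain ⟨M, Φ, h1, h2⟩ := exists_Phi hp (fun w hw => by rw [hd, hw, map_one, toAdd_one]) wt hwt
    (by rw [hd, hwt, ht, toAdd_ofAdd])
  refine ⟨t, n, a, ht, ?_, ?_, M, phi t a M, ?_, Φ, h1, h2⟩
  · intro i
    rw [ha]
    simp only [map_mul, map_zpow, ht]
    apply Multiplicative.toAdd.injective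
    simp [he]
  · intro h hh
    obtain ⟨w, rfl⟩ := hπ h
    obtain ⟨L0, hP⟩ := P_all t a e w
    obtain ⟨M', g, hV⟩ := hP L0 le_rfl
    have h3 := hV.2 M' le_rfl H t id (mod_self t a M')
    rw [ev_self hp, hd, hh, toAdd_one, add_zero] at h3
    refine ⟨L0, M' + 1, ?_⟩
    have h4 : t ^ L0 * π w * (t ^ L0)⁻¹ = g := by
      rw [h3]
      simp only [id, zpow_natCast, zpow_neg]
      group
    rw [h4]
    exact hV.1
  · intro x
    rfl

end FPT.BSHM
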