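import Pool.Agent.Lib.MP_c27bde_al.FP.Spec

/-!
# Module DA: geometry of `t` and of `B = closure S`
-/

set_option autoImplicit false

open Set

namespace FPT.DAM

/-- A common `ε` for a finite set. -/
theorem common (P : Hm → ℝ → Prop) (mono : ∀ s ε ε', 0 < ε' → ε' ≤ ε → P s ε → P s ε')
    (S : Set Hm) (hS : S.Finite) (h : ∀ s ∈ S, ∃ ε > 0, P s ε) :
    ∃ ε > 0, ∀ s ∈ S, P s ε := by
  induction S, hS using Set.Finite.induction_on with
  | empty => exact ⟨1, one_pos, fun s hs => absurd hs (Set.notMem_empty s)⟩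
  | @insert s S _ _ ih =>
    obtain ⟨ε₁, h1, h2⟩ := ih fun x hx => h x (Set.mem_insert_of_mem _ hx)
    obtain ⟨ε₂, h3, h4⟩ := h s (Set.mem_insert _ _)
    refine ⟨min ε₁ ε₂, lt_min h1 h3, fun x hx => ?_⟩
    rcases Set.mem_insert_iff.1 hx with rfl | hx
    · exact mono _ _ _ (lt_min h1 h3) (min_le_right _ _) h4
    · exact mono _ _ _ (lt_min h1 h3) (min_le_left _ _) (h2 x hx)

theorem fix_closure {S : Set Hm} {q : ℝ} (h : ∀ s ∈ S, s q = q) :
    ∀ g ∈ Subgroup.closure S, g q = q := by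
  intro g hg
  induction hg using Subgroup.closure_induction with
  | mem x hx => exact h x hx
  | one => rfl
  | mul x y _ _ hx hy => rw [RelIso.mul_apply, hy, hx]
  | inv x _ hx =>
    have h1 : x⁻¹ (x q) = q := RelIso.inv_apply_self x q
    rwa [hx] at h1

/-- The set of fixed points is closed. -/
theorem fix_Icc (s : Hm) {a c : ℝ} (hac : a < c) (h : ∀ u, a < u → u < c → s u = u) :
    ∀ u, a ≤ u → u ≤ c → s u = u := by
  intro u h1 h2
  have hcl : IsClosed {u : ℝ | s u = u} := isClosed_eq s.continuous continuous_id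
  have h3 : Ioo a c ⊆ {u : ℝ | s u = u} := fun v hv => h v hv.1 hv.2
  have h4 := closure_minimal h3 hcl
  rw [closure_Ioo hac.ne] at h4
  exact h4 ⟨h1, h2⟩

section

variable {H : Subgroup Hm} {a b : ℝ} {t : Hm} {S : Set Hm}

theorem pw_mem (D : Data H a b t S) (n : ℕ) : ∀ u, a < u → u < b →
    a < (t ^ n) u ∧ (t ^ n) u < b := by
  intro u h1 h2
  have hn : t ^ n ∈ H := H.pow_mem D.tH n
  have ha := D.fa _ hn
  have hb := D.fb _ hn
  constructor
  · calc a = (t ^ n) a := ha.symm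
      _ < (t ^ n) u := (t ^ n).strictMono h1
  · calc (t ^ n) u < (t ^ n) b := (t ^ n).strictMono h2
      _ = b := hb

/-- A fixed point of `t` and of `closure S` is a fixed point of `H`. -/
theorem fixAll (hP : SpecPLB) (hQ : SpecPL2) (hO : SpecORD) (D : Data H a b t S) {q : ℝ}
    (htq : t q = q) (hB : ∀ g ∈ Subgroup.closure S, g q = q) : ∀ h ∈ H, h q = q := by
  have h0 : ∀ h ∈ H, er h a = 0 → h q = q := by
    intro h hh he
    obtain ⟨n, hn⟩ := D.exh h hh he
    have h1 := hB _ hn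
    have h2 : (t ^ n) q = q := hO.powf t n q htq
    have h3 : ((t ^ n)⁻¹) q = q := by
      have h4 : (t ^ n)⁻¹ ((t ^ n) q) = q := RelIso.inv_apply_self _ q
      rwa [h2] at h4
    rw [RelIso.mul_apply, RelIso.mul_apply, h3] at h1
    have h5 : (t ^ n) (h q) = (t ^ n) q := by rw [h1, h2]
    exact (t ^ n).injective h5
  intro h hh
  obtain ⟨k, hk⟩ := D.gen h hh
  have hpt : IsPL t := D.pl t D.tH
  have hph : IsPL h := D.pl h hh
  have h1 : er (t ^ (-k) * h) a = 0 := by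
    rw [hP.erM _ _ a (hQ.zpow t (-k) hpt) hph, D.fa h hh, hQ.erZ t (-k) a hpt (D.fa t D.tH), hk]
    ring
  have h2 := h0 _ (H.mul_mem (H.zpow_mem D.tH (-k)) hh) h1
  have h3 : (t ^ (-k)) (h q) = q := h2
  have h4 : (t ^ (-k)) q = q := hO.zpowf t (-k) q htq
  have h5 : (t ^ (-k)) (h q) = (t ^ (-k)) q := by rw [h3, h4]
  exact (t ^ (-k)).injective h5

/-- The points moved by `S`. -/
def Mv (a b : ℝ) (S : Set Hm) : Set ℝ := {u | a < u ∧ u < b ∧ ∃ s ∈ S, s u ≠ u}

theorem Mv_nonempty (D : Data H a b t S)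
    (hne : ∃ h ∈ H, er h a = 0 ∧ ∃ u, a < u ∧ u < b ∧ h u ≠ u) : (Mv a b S).Nonempty := by
  obtain ⟨h, hh, he, u, h1, h2, h3⟩ := hne
  obtain ⟨n, hn⟩ := D.exh h hh he
  obtain ⟨h4, h5⟩ := pw_mem D n u h1 h2
  refine ⟨(t ^ n) u, h4, h5, ?_⟩
  by_contra hcon
  push Not at hcon
  have h6 := fix_closure hcon _ hn
  rw [RelIso.mul_apply, RelIso.mul_apply, RelIso.inv_apply_self] at h6
  exact h3 ((t ^ n).injective h6)

/-- (1) -/
theorem el_zero (hU : SpecU) (D : Data H a b t S) : ∀ h ∈ H, er h a = 0 → el h b = 0 := by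
  intro h hh he
  by_contra hne
  obtain ⟨P, hP, Q, hQ, hpair, hnc⟩ := hU H D.pl a b D.ab D.fa D.fb D.orb h hh he hne
  exact hnc (D.np P hP Q hQ hpair)

/-- The left end. -/
theorem left_end (hP : SpecPLB) (hQ : SpecPL2) (hO : SpecORD) (D : Data H a b t S)
    (hne : (Mv a b S).Nonempty) : ∃ c, c = sInf (Mv a b S) ∧ a < c ∧ c < b ∧
      (∀ s ∈ S, ∀ u, a ≤ u → u ≤ c → s u = u) ∧ (∃ s ∈ S, er s c ≠ 0) ∧
      (∀ q, a < q → q ≤ c → t q ≠ q) ∧ c < t c := by
  have hbd : BddBelow (Mv a b S) := ⟨a, fun u hu => hu.1.le⟩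
  obtain ⟨ε, hε, h1⟩ := common (fun s ε => ∀ y, a ≤ y → y ≤ a + ε → s y = y)
    (fun s ε ε' _ h2 h3 y h4 h5 => h3 y h4 (by linarith)) S D.Sf
    (fun s hs => hQ.er0 s a (D.pl s (D.SH hs)) (D.fa s (D.SH hs)) (D.S0 s hs))
  set c := sInf (Mv a b S) with hc
  have hac : a + ε ≤ c := by
    refine le_csInf hne fun u hu => ?_
    by_contra hcon
    push Not at hcon
    obtain ⟨s, hs, hsu⟩ := hu.2.2
    exact hsu (h1 s hs u hu.1.le hcon.le)
  have hac' : a < c := by linarith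
  have hcb : c < b := by
    obtain ⟨u, hu⟩ := hne
    exact (csInf_le hbd hu).trans_lt hu.2.1
  have htriv : ∀ s ∈ S, ∀ u, a ≤ u → u ≤ c → s u = u := by
    intro s hs
    refine fix_Icc s hac' fun u h2 h3 => ?_
    by_contra hcon
    have h4 : u ∈ Mv a b S := ⟨h2, h3.trans hcb, s, hs, hcon⟩
    exact absurd (csInf_le hbd h4) (not_le.2 h3)
  have hntriv : ∃ s ∈ S, er s c ≠ 0 := by
    by_contra hcon
    push Not at hcon
    obtain ⟨ε', hε', h2⟩ := common (fun s ε => ∀ y, c ≤ y → y ≤ c + ε → s y = y)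
      (fun s ε ε' _ h2 h3 y h4 h5 => h3 y h4 (by linarith)) S D.Sf
      (fun s hs => hQ.er0 s c (D.pl s (D.SH hs)) (htriv s hs c hac'.le le_rfl) (hcon s hs))
    have h3 : c + ε' ≤ c := by
      refine le_csInf hne fun u hu => ?_
      by_contra hcon'
      push Not at hcon'
      obtain ⟨s, hs, hsu⟩ := hu.2.2
      exact hsu (h2 s hs u (csInf_le hbd hu) hcon'.le)
    linarith
  have hBtriv : ∀ g ∈ Subgroup.closure S, ∀ u, a ≤ u → u ≤ c → g u = u :=
    fun g hg u h2 h3 => fix_closure (fun s hs => htriv s hs u h2 h3) g hg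
  have htc : c ≤ t c := by
    by_contra hcon
    push Not at hcon
    obtain ⟨s, hs, hsc⟩ := hntriv
    apply hsc
    have h2 : c < t⁻¹ c := by
      have h3 : t⁻¹ (t c) < t⁻¹ c := (t⁻¹).strictMono hcon
      rwa [RelIso.inv_apply_self] at h3
    refine hQ.er0' s c ⟨t⁻¹ c - c, by linarith, fun y h3 h4 => ?_⟩
    have h5 : t y ≤ c := by
      have h6 : t y ≤ t (t⁻¹ c) := t.monotone (by linarith)
      rwa [RelIso.apply_inv_self] at h6
    have h7 : a ≤ t y := by
      have h8 : t a ≤ t y := t.monotone (by linarith)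
      rwa [D.fa t D.tH] at h8
    have h9 := hBtriv _ (D.conj s (Subgroup.subset_closure hs)) (t y) h7 h5
    rw [RelIso.mul_apply, RelIso.mul_apply, RelIso.inv_apply_self] at h9
    exact t.injective h9
  have hnf : ∀ q, a < q → q ≤ c → t q ≠ q := by
    intro q h2 h3 h4
    have h5 := fixAll hP hQ hO D h4 (fun g hg => hBtriv g hg q h2.le h3)
    obtain ⟨g, hg, hgq⟩ := D.orb q h2 (h3.trans_lt hcb)
    exact hgq (h5 g hg)
  exact ⟨c, hc, hac', hcb, htriv, hntriv, hnf, lt_of_le_of_ne htc (hnf c hac' le_rfl).symm⟩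

/-- The right end. -/
theorem right_end (hP : SpecPLB) (hQ : SpecPL2) (hO : SpecORD) (hU : SpecU)
    (D : Data H a b t S) (hne : (Mv a b S).Nonempty) :
    ∃ d, d = sSup (Mv a b S) ∧ a < d ∧ d < b ∧ t d < d := by
  have hbd : BddAbove (Mv a b S) := ⟨b, fun u hu => hu.2.1.le⟩
  obtain ⟨ε, hε, h1⟩ := common (fun s ε => ∀ y, b - ε ≤ y → y ≤ b → s y = y)
    (fun s ε ε' _ h2 h3 y h4 h5 => h3 y (by linarith) h5) S D.Sf
    (fun s hs => hQ.el0 s b (D.pl s (D.SH hs)) (D.fb s (D.SH hs))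
      (el_zero hU D s (D.SH hs) (D.S0 s hs)))
  set d := sSup (Mv a b S) with hd
  have hdb : d ≤ b - ε := by
    refine csSup_le hne fun u hu => ?_
    by_contra hcon
    push Not at hcon
    obtain ⟨s, hs, hsu⟩ := hu.2.2
    exact hsu (h1 s hs u hcon.le hu.2.1.le)
  have hdb' : d < b := by linarith
  have had : a < d := by
    obtain ⟨u, hu⟩ := hne
    exact hu.1.trans_le (le_csSup hbd hu)
  have htriv : ∀ s ∈ S, ∀ u, d ≤ u → u ≤ b → s u = u := by
    intro s hs
    refine fix_Icc s hdb' fun u h2 h3 => ?_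
    by_contra hcon
    have h4 : u ∈ Mv a b S := ⟨had.trans h2, h3, s, hs, hcon⟩
    exact absurd (le_csSup hbd h4) (not_le.2 h2)
  have hntriv : ∃ s ∈ S, el s d ≠ 0 := by
    by_contra hcon
    push Not at hcon
    obtain ⟨ε', hε', h2⟩ := common (fun s ε => ∀ y, d - ε ≤ y → y ≤ d → s y = y)
      (fun s ε ε' _ h2 h3 y h4 h5 => h3 y (by linarith) h5) S D.Sf
      (fun s hs => hQ.el0 s d (D.pl s (D.SH hs)) (htriv s hs d le_rfl hdb'.le) (hcon s hs))
    have h3 : d ≤ d - ε' := by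
      refine csSup_le hne fun u hu => ?_
      by_contra hcon'
      push Not at hcon'
      obtain ⟨s, hs, hsu⟩ := hu.2.2
      exact hsu (h2 s hs u hcon'.le (le_csSup hbd hu))
    linarith
  have hBtriv : ∀ g ∈ Subgroup.closure S, ∀ u, d ≤ u → u ≤ b → g u = u :=
    fun g hg u h2 h3 => fix_closure (fun s hs => htriv s hs u h2 h3) g hg
  have htd : t d ≤ d := by
    by_contra hcon
    push Not at hcon
    obtain ⟨s, hs, hsd⟩ := hntriv
    apply hsd
    have h2 : t⁻¹ d < d := by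
      have h3 : t⁻¹ d < t⁻¹ (t d) := (t⁻¹).strictMono hcon
      rwa [RelIso.inv_apply_self] at h3
    refine hQ.el0' s d ⟨d - t⁻¹ d, by linarith, fun y h3 h4 => ?_⟩
    have h5 : d ≤ t y := by
      have h6 : t (t⁻¹ d) ≤ t y := t.monotone (by linarith)
      rwa [RelIso.apply_inv_self] at h6
    have h7 : t y ≤ b := by
      have h8 : t y ≤ t b := t.monotone (by linarith)
      rwa [D.fb t D.tH] at h8
    have h9 := hBtriv _ (D.conj s (Subgroup.subset_closure hs)) (t y) h5 h7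
    rw [RelIso.mul_apply, RelIso.mul_apply, RelIso.inv_apply_self] at h9
    exact t.injective h9
  have hne' : t d ≠ d := by
    intro h4
    have h5 := fixAll hP hQ hO D h4 (fun g hg => hBtriv g hg d le_rfl hdb'.le)
    obtain ⟨g, hg, hgq⟩ := D.orb d had hdb'
    exact hgq (h5 g hg)
  exact ⟨d, hd, had, hdb', lt_of_le_of_ne htd hne'⟩

end

/-- **DA.** -/
theorem specDA (hP : SpecPLB) (hQ : SpecPL2) (hO : SpecORD) : SpecDA := by
  intro hU H a b t S D hne
  have hM := Mv_nonempty D hne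
  obtain ⟨c, hc, hac, hcb, htriv, hntriv, hnf, htc⟩ := left_end hP hQ hO D hM
  obtain ⟨d, hd, had, hdb, htd⟩ := right_end hP hQ hO hU D hM
  have hcd : c ≤ d := by
    obtain ⟨u, hu⟩ := hM
    have h1 : c ≤ u := hc ▸ csInf_le ⟨a, fun u hu => hu.1.le⟩ hu
    have h2 : u ≤ d := hd ▸ le_csSup ⟨b, fun u hu => hu.2.1.le⟩ hu
    exact h1.trans h2
  -- a fixed point of `t` between `c` and `d`
  obtain ⟨q, hq, htq⟩ : ∃ q ∈ Icc c d, t q - q = 0 := by
    have hcont : ContinuousOn (fun u : ℝ => t u - u) (Icc c d) :=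
      (t.continuous.sub continuous_id).continuousOn
    exact intermediate_value_Icc' hcd hcont ⟨by linarith, by linarith⟩
  have htq' : t q = q := by linarith
  have haq : a < q := hac.trans_le hq.1
  obtain ⟨p, hap, hpq, htp, hfp⟩ := hO.first t a q htq' haq
    ⟨c - a, by linarith, fun u h1 h2 => hnf u h1 (by linarith)⟩
  have hcp : c < p := by
    by_contra hcon
    push Not at hcon
    exact hnf p hap hcon htp
  have hpb : p < b := lt_of_le_of_lt (hpq.trans hq.2) hdb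
  refine ⟨c, p, hac, hcp, hpb, htp, ?_, htriv, hntriv, ?_⟩
  · rcases hO.dir t a p hfp with h1 | h1
    · exact absurd (h1 c hac hcp) (not_lt.2 htc.le)
    · exact h1
  · by_contra hcon
    push Not at hcon
    have h5 := fixAll hP hQ hO D htp (fix_closure hcon)
    obtain ⟨g, hg, hgq⟩ := D.orb p hap hpb
    exact hgq (h5 g hg)

end FPT.DAM
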