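import Mathlib

/-!
MP_c27bde_al, FP: every finitely presented subgroup of Thompson's group F contains a copy of F or is
abelian.  Definitions and the statements of the modules; every `SpecXXX : Prop` has its proof in the
docstring.  Products are compositions: `(g * h) u = g (h u)`.

Module `XXX` = file `FP/XXX.lean`, imports `FP.Spec` only, theorem
`specXXX (hypotheses named in the docstring) : SpecXXX` in the namespace `FPT.XXXM`.
-/

set_option autoImplicit false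

namespace FPT

/-! ### Thompson's group by its presentation -/

/-- first relator `[a b⁻¹, a⁻¹ b a]` -/
def w1 {G : Type*} [Group G] (a b : G) : G :=
  (a * b⁻¹) * (a⁻¹ * b * a) * (a * b⁻¹)⁻¹ * (a⁻¹ * b * a)⁻¹

/-- second relator `[a b⁻¹, a⁻² b a²]` -/
def w2 {G : Type*} [Group G] (a b : G) : G :=
  (a * b⁻¹) * (a⁻¹ * a⁻¹ * b * a * a) * (a * b⁻¹)⁻¹ * (a⁻¹ * a⁻¹ * b * a * a)⁻¹

/-- The relators. -/
def rels : Set (FreeGroup (Fin 2)) :=
  {w1 (FreeGroup.of (0 : Fin 2)) (FreeGroup.of (1 : Fin 2)),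
   w2 (FreeGroup.of (0 : Fin 2)) (FreeGroup.of (1 : Fin 2))}

/-- Thompson's group F. -/
abbrev FT : Type := PresentedGroup rels

def gx : Fin 2 → FT := PresentedGroup.of

/-- `x0` and `x1` -/
def a0 : FT := gx 0
def a1 : FT := gx 1

/-- A pair satisfying the two relations. -/
def Pair {G : Type*} [Group G] (a b : G) : Prop := w1 a b = 1 ∧ w2 a b = 1

/-! ### PL homeomorphisms of the line, identity outside [0,1], slopes powers of 2 -/

abbrev Hm : Type := ℝ ≃o ℝ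

/-- slope `2^k` on `[x, x+ε]` -/
def HasR (g : Hm) (x : ℝ) (k : ℤ) : Prop :=
  ∃ ε > 0, ∀ y, x ≤ y → y ≤ x + ε → g y = g x + (2:ℝ) ^ k * (y - x)

/-- slope `2^k` on `[x-ε, x]` -/
def HasL (g : Hm) (x : ℝ) (k : ℤ) : Prop :=
  ∃ ε > 0, ∀ y, x - ε ≤ y → y ≤ x → g y = g x + (2:ℝ) ^ k * (y - x)

def IsPL (g : Hm) : Prop :=
  (∀ x ≤ 0, g x = x) ∧ (∀ x, 1 ≤ x → g x = x) ∧
    (∀ x, ∃ k, HasR g x k) ∧ (∀ x, ∃ k, HasL g x k)

open Classical in
/-- right exponent: the slope of `g` just right of `x` is `2 ^ er g x` (0 if undefined) -/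
noncomputable def er (g : Hm) (x : ℝ) : ℤ := if h : ∃ k, HasR g x k then h.choose else 0

open Classical in
/-- left exponent -/
noncomputable def el (g : Hm) (x : ℝ) : ℤ := if h : ∃ k, HasL g x k then h.choose else 0

/-! ### PLB: basic facts (module PLB) -/

/-- PLB.  Direct.  `brk`: on the compact interval `[0,1]` cover by the neighbourhoods where `g` is
affine on both sides of the centre: only the centres can be break points; outside no breaks except
possibly 0, 1.  `fixR`: near a point `x` on the right `g` is affine: fixed points with `er ≠ 0` in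
`(x, x+ε)`: at most one (two fixed points of an affine map force the identity, exponent 0); same on
the left; compactness. -/
structure SpecPLB : Prop where
  one : IsPL 1
  mul : ∀ g h, IsPL g → IsPL h → IsPL (g * h)
  inv : ∀ g, IsPL g → IsPL g⁻¹
  /-- uniqueness of exponents -/
  erU : ∀ g x k, HasR g x k → er g x = k
  elU : ∀ g x k, HasL g x k → el g x = k
  /-- cocycle -/
  erM : ∀ g h x, IsPL g → IsPL h → er (g * h) x = er g (h x) + er h x
  elM : ∀ g h x, IsPL g → IsPL h → el (g * h) x = el g (h x) + el h x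
  /-- finitely many break points -/
  brk : ∀ g, IsPL g → {x | er g x ≠ el g x}.Finite
  /-- finitely many fixed points that are isolated from the right -/
  fixR : ∀ g, IsPL g → {x | g x = x ∧ er g x ≠ 0}.Finite

/-- the subgroup of PL homeomorphisms is given by `IsPL` -/
def PLs (G : Subgroup Hm) : Prop := ∀ g ∈ G, IsPL g

/-- PL2 (from PLB): derived facts. -/
structure SpecPL2 : Prop where
  pow : ∀ g (n : ℕ), IsPL g → IsPL (g ^ n)
  zpow : ∀ g (n : ℤ), IsPL g → IsPL (g ^ n)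
  er1 : ∀ x, er 1 x = 0
  el1 : ∀ x, el 1 x = 0
  erI : ∀ g x, IsPL g → er g⁻¹ (g x) = - er g x
  elI : ∀ g x, IsPL g → el g⁻¹ (g x) = - el g x
  /-- powers at a fixed point -/
  erP : ∀ g (n : ℕ) x, IsPL g → g x = x → er (g ^ n) x = n * er g x
  elP : ∀ g (n : ℕ) x, IsPL g → g x = x → el (g ^ n) x = n * el g x
  erZ : ∀ g (n : ℤ) x, IsPL g → g x = x → er (g ^ n) x = n * er g x
  elZ : ∀ g (n : ℤ) x, IsPL g → g x = x → el (g ^ n) x = n * el g x
  /-- conjugation -/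
  erC : ∀ g k x, IsPL g → IsPL k → g x = x → er (k * g * k⁻¹) (k x) = er g x
  elC : ∀ g k x, IsPL g → IsPL k → g x = x → el (k * g * k⁻¹) (k x) = el g x
  /-- exponent 0 at a fixed point: trivial on that side -/
  er0 : ∀ g x, IsPL g → g x = x → er g x = 0 → ∃ ε > 0, ∀ y, x ≤ y → y ≤ x + ε → g y = y
  el0 : ∀ g x, IsPL g → g x = x → el g x = 0 → ∃ ε > 0, ∀ y, x - ε ≤ y → y ≤ x → g y = y
  er0' : ∀ g x, (∃ ε > 0, ∀ y, x ≤ y → y ≤ x + ε → g y = y) → er g x = 0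
  el0' : ∀ g x, (∃ ε > 0, ∀ y, x - ε ≤ y → y ≤ x → g y = y) → el g x = 0
  /-- signs -/
  erp : ∀ g x, IsPL g → g x = x → 0 < er g x → ∃ ε > 0, ∀ y, x < y → y ≤ x + ε → y < g y
  ern : ∀ g x, IsPL g → g x = x → er g x < 0 → ∃ ε > 0, ∀ y, x < y → y ≤ x + ε → g y < y
  elp : ∀ g x, IsPL g → g x = x → 0 < el g x → ∃ ε > 0, ∀ y, x - ε ≤ y → y < x → g y < y
  eln : ∀ g x, IsPL g → g x = x → el g x < 0 → ∃ ε > 0, ∀ y, x - ε ≤ y → y < x → y < g y
  /-- equality of exponents at a common fixed point: equality on that side -/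
  ereq : ∀ g h x, IsPL g → IsPL h → g x = x → h x = x → er g x = er h x →
    ∃ ε > 0, ∀ y, x ≤ y → y ≤ x + ε → g y = h y
  eleq : ∀ g h x, IsPL g → IsPL h → g x = x → h x = x → el g x = el h x →
    ∃ ε > 0, ∀ y, x - ε ≤ y → y ≤ x → g y = h y

/-- ORD: order dynamics, no PL (except boundedness in `orbital`).
`orbL`: the infimum `s ≥ a` of the orbit of `u` is fixed by `G`, so it is not in `(a,b)`, so `s = a`.
`dir`: intermediate value theorem for `g - id`.  `itL`: the sequence `g^n u` decreases, its limit is a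
fixed point in `[a,b)`, so it is `a`.  `last`: supremum of the closed set `Fix g ∩ [o,b)` (closed
because of the `ε`).  `orbital`: infimum and supremum of the orbit of `u`; a common fixed point `v`
in between would separate the orbit. -/
structure SpecORD : Prop where
  orbL : ∀ (G : Subgroup Hm) (a b : ℝ), (∀ g ∈ G, g a = a) → (∀ g ∈ G, g b = b) →
    (∀ u, a < u → u < b → ∃ g ∈ G, g u ≠ u) → ∀ u v, a < u → u < b → a < v → ∃ g ∈ G, g u < v
  orbR : ∀ (G : Subgroup Hm) (a b : ℝ), (∀ g ∈ G, g a = a) → (∀ g ∈ G, g b = b) →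
    (∀ u, a < u → u < b → ∃ g ∈ G, g u ≠ u) → ∀ u v, a < u → u < b → v < b → ∃ g ∈ G, v < g u
  dir : ∀ (g : Hm) (a b : ℝ), (∀ u, a < u → u < b → g u ≠ u) →
    (∀ u, a < u → u < b → g u < u) ∨ (∀ u, a < u → u < b → u < g u)
  /-- `g` moves `(a,b)` to the left -/
  itL : ∀ (g : Hm) (a b : ℝ), g a = a → g b = b → (∀ u, a < u → u < b → g u < u) →
    ∀ u v, a < u → u < b → a < v → ∃ n0 : ℕ, ∀ n ≥ n0, (g ^ n) u < v
  itL' : ∀ (g : Hm) (a b : ℝ), g a = a → g b = b → (∀ u, a < u → u < b → g u < u) →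
    ∀ u v, a < u → u < b → v < b → ∃ n0 : ℕ, ∀ n ≥ n0, v < ((g ^ n)⁻¹) u
  /-- `g` moves `(a,b)` to the right -/
  itR : ∀ (g : Hm) (a b : ℝ), g a = a → g b = b → (∀ u, a < u → u < b → u < g u) →
    ∀ u v, a < u → u < b → v < b → ∃ n0 : ℕ, ∀ n ≥ n0, v < (g ^ n) u
  itR' : ∀ (g : Hm) (a b : ℝ), g a = a → g b = b → (∀ u, a < u → u < b → u < g u) →
    ∀ u v, a < u → u < b → a < v → ∃ n0 : ℕ, ∀ n ≥ n0, ((g ^ n)⁻¹) u < v
  powf : ∀ (g : Hm) (n : ℕ) x, g x = x → (g ^ n) x = x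
  powi : ∀ (g : Hm) (n : ℕ) x, 1 ≤ n → (g ^ n) x = x → g x = x
  zpowf : ∀ (g : Hm) (n : ℤ) x, g x = x → (g ^ n) x = x
  zpowi : ∀ (g : Hm) (n : ℤ) x, n ≠ 0 → (g ^ n) x = x → g x = x
  last : ∀ (g : Hm) (o b : ℝ), g o = o → o < b → (∃ ε > 0, ∀ u, b - ε < u → u < b → g u ≠ u) →
    ∃ r, o ≤ r ∧ r < b ∧ g r = r ∧ ∀ u, r < u → u < b → g u ≠ u
  first : ∀ (g : Hm) (o b : ℝ), g b = b → o < b → (∃ ε > 0, ∀ u, o < u → u < o + ε → g u ≠ u) →
    ∃ r, o < r ∧ r ≤ b ∧ g r = r ∧ ∀ u, o < u → u < r → g u ≠ u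
  orbital : ∀ (G : Subgroup Hm), PLs G → ∀ u, (∃ g ∈ G, g u ≠ u) →
    ∃ a b, a < u ∧ u < b ∧ (∀ g ∈ G, g a = a) ∧ (∀ g ∈ G, g b = b) ∧
      ∀ v, a < v → v < b → ∃ g ∈ G, g v ≠ v

/-! ### FQ: a homomorphism from F with non-commuting images of the generators is injective -/

/-- FQ.  Put `x_0 = a0`, `x_{n+1} = a0^{-n} a1 a0^n`.  Relations `x_k⁻¹ x_n x_k = x_{n+1}` for `k < n`:
`k = 0` by definition; `w1 = 1` says `x0 x1⁻¹` commutes with `x2`, so `x1⁻¹x2x1 = x0⁻¹x2x0 = x3`; `w2 = 1`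
gives `x1⁻¹x3x1 = x4`; conjugating `x1⁻¹x2x1 = x3` by powers of `x0`: `x_n = x_{n-2}⁻¹x_{n-1}x_{n-2}` for
`n ≥ 3`; induction on `n ≥ 4`: `x1⁻¹x_nx1 = x_{n-1}⁻¹x_nx_{n-1} = x_{n+1}`; conjugate by `x0^{k-1}`.
Every element is `P Q⁻¹`, `P, Q` positive words in the `x_n` (lists of naturals): multiply by
`x_k^{±1}` on the right and move letters (`x_n⁻¹x_k = x_k x_{n+1}⁻¹` for `k<n`, `= 1` for `k=n`,
`= x_{k+1}x_n⁻¹` for `k>n`).
Claim: `f P = f Q` implies `P = Q` in `FT`; induction on `|P| + |Q|`.  Let `k` be the smallest index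
in `P` and `Q`.  A positive word with all letters `≥ k` containing `k` is `x_k P₁` with `|P₁| = |P| - 1`,
letters of `P₁` `≥ k` (`x_n x_k = x_k x_{n+1}`).  If `k` is in both: cancel `x_k`, induction.  Otherwise
`x_k^b P'' = P`, `b ≥ 1`, letters of `P''`, `Q` `> k` (or with `P, Q` exchanged); bar = image under `f`:
`x̄_k^b = ȳ`, `y = Q P''⁻¹`.  Case `k = 0`: `y_r := x0^{-r} y x0^r`, `ȳ_r = x̄0^b` for all `r`; `y_1` is a
quotient of words in the letters `≥ 2`, so `x1⁻¹ y_1 x1 = y_2`, so `x̄1` commutes with `x̄0^b`, so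
`x̄_{1+b} = x̄1`, `x̄_{2+b} = x̄1⁻¹x̄_{1+b}x̄1 = x̄1`, and `x̄_{2+b} = x̄0⁻¹x̄_{1+b}x̄0 = x̄2`: `x̄1 = x̄2`, so `x̄0, x̄1`
commute, contradiction.  Case `k ≥ 1`: conjugate by `x0^{k-1}` to `k = 1`; `ȳ = x̄1^b`, letters `≥ 2`;
`y_r = x1^{-r} y x1^r` has all images `x̄1^b` and is the shift by `r` of `y`; `y_1` has letters `≥ 3`, so
`x2⁻¹ y_1 x2 = y_2`: `x̄2` commutes with `x̄1^b`, so `x̄_{2+b} = x̄2`, `x̄_{3+b} = x̄2⁻¹x̄_{2+b}x̄2 = x̄2` and
`x̄_{3+b} = x̄1⁻¹x̄_{2+b}x̄1 = x̄3`, so `x̄2 = x̄3`, conjugate by `x̄0`: `x̄1 = x̄2`, contradiction. -/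
def SpecFQ : Prop := ∀ (G : Type) [Group G] (f : FT →* G), f a0 * f a1 ≠ f a1 * f a0 →
  Function.Injective f

def x2 : FT := a0⁻¹ * a1 * a0
def x3 : FT := a0⁻¹ * a0⁻¹ * a1 * a0 * a0
def s1 : FT := a1 * x2⁻¹
def s2 : FT := x2 * x3⁻¹

/-- RHO: a PL representation.  `X` (image of `a0`): `t/2` on `[0,1/2]`, `t-1/4` on `[1/2,3/4]`, `2t-1` on
`[3/4,1]`; `Y` (image of `a1`): identity on `[0,1/2]`, `t/2+1/4` on `[1/2,3/4]`, `t-1/8` on `[3/4,7/8]`,
`2t-1` on `[7/8,1]`; both the identity outside `[0,1]`.  `X = Y` on `[7/8,1]`, so `X Y⁻¹` is trivial on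
`[3/4,1]` and on `(-∞,0]`, `[1,∞)`; `X⁻¹YX` is trivial on `X⁻¹[0,1/2] = [0,3/4]`, `X⁻²YX²` on `[0,7/8]`:
disjoint supports, so both relations hold.  Non-commutation: evaluate at a dyadic point (for `s1, s2`
e.g. search by computer for a point `t` with `s1 s2 t ≠ s2 s1 t`). -/
def SpecRHO : Prop := ∃ f : FT →* Hm, (∀ g, IsPL (f g)) ∧ f a0 * f a1 ≠ f a1 * f a0 ∧
  f s1 * f s2 ≠ f s2 * f s1

/-- FC: a copy of F in the commutator subgroup.  `s1 = [x1, x0⁻¹]`, `s2 = x0⁻¹ s1 x0`,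
`y0 = x1x3⁻¹ = s1 s2`, `y1 = x2x3⁻¹ = s2`.  `s1 = y0 y1⁻¹` commutes with `x_m`, `m ≥ 3` (both `x1` and `x2`
conjugate `x_m` to `x_{m+1}`; only `m = 3,4,5` or so is needed); `y0⁻¹y1y0 = x3(x3x4⁻¹)x3⁻¹` and
`y0⁻²y1y0²` are products of `x_m^{±1}`, `m ≥ 3`.  Relations of FT used: see FQ. -/
structure SpecFC : Prop where
  s1c : s1 ∈ commutator FT
  s2c : s2 ∈ commutator FT
  y0c : a1 * x3⁻¹ ∈ commutator FT
  y1c : x2 * x3⁻¹ ∈ commutator FT
  pair : Pair (a1 * x3⁻¹) (x2 * x3⁻¹)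
  nc : s1 * s2 ≠ s2 * s1 → (a1 * x3⁻¹) * (x2 * x3⁻¹) ≠ (x2 * x3⁻¹) * (a1 * x3⁻¹)

/-! ### Ubiquity -/

/-- `o < b` are fixed by `X`, `Y`; on `(o,b)` the map `X` moves everything to the left, `Y` is
trivial near `o`, `X = Y` near `b`. -/
def BaseP (X Y : Hm) (o b : ℝ) : Prop :=
  o < b ∧ X o = o ∧ X b = b ∧ (∀ u, o < u → u < b → X u < u) ∧
    (∃ y, o < y ∧ y < b ∧ ∀ u, o ≤ u → u ≤ y → Y u = u) ∧
    (∃ z, o < z ∧ z < b ∧ ∀ u, z ≤ u → u ≤ b → X u = Y u)

/-- mirror image: `X` moves everything to the right, `Y` is trivial near `b`, `X = Y` near `o`. -/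
def BaseM (X Y : Hm) (o b : ℝ) : Prop :=
  o < b ∧ X o = o ∧ X b = b ∧ (∀ u, o < u → u < b → u < X u) ∧
    (∃ y, o < y ∧ y < b ∧ ∀ u, y ≤ u → u ≤ b → Y u = u) ∧
    (∃ z, o < z ∧ z < b ∧ ∀ u, o ≤ u → u ≤ z → X u = Y u)

/-- U1 (hypotheses SpecPLB, SpecPL2, SpecORD).  Replace `h` by `h⁻¹` so that `el h b > 0`: `h` moves
points to the left near `b`.  `e` = last fixed point of `h` in `[a,b)` (ORD.last); `h` moves `(e,b)` to
the left (dir).  `h` trivial on `[a,y]`, `y > a`, so `e ≥ y > a` (if `y < b`; shrink).  ORD.orbL: `k ∈ G` with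
`k e < y`.  `X = k h k⁻¹`, `Y = h`, `o = k e`: `X` fixes `o` and `b` and moves `(o,b)` to the left; `Y` is
trivial on `[o,y]`; `el X b = el h b` (elC), so `X = Y` near `b` (eleq). -/
def SpecU1 : Prop := ∀ (G : Subgroup Hm), PLs G → ∀ a b : ℝ, a < b → (∀ g ∈ G, g a = a) →
  (∀ g ∈ G, g b = b) → (∀ u, a < u → u < b → ∃ g ∈ G, g u ≠ u) →
  ∀ h ∈ G, er h a = 0 → el h b ≠ 0 →
  ∃ X ∈ G, ∃ Y ∈ G, ∃ o, BaseP X Y o b

/-- U4 (hypothesis SpecORD).  BaseP: `X = Y` on `[z,b]`, so `X⁻¹ = Y⁻¹` on `[Xz,b]`, which is invariant under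
`X⁻¹`; so `X^{-N} = Y^{-N}` on `[Xz,b]` and `X^N Y^{-N}` is trivial there (`N ≥ 0`).  `X^{-N}Y^N X^N` is trivial on
`[o, X^{-N}y]`, and `X^{-N}y > Xz` for large `N` (itL'); same for `X^{-2N}Y^N X^{2N}`.  Disjoint supports.
BaseM: mirror image (`X = Y` on `[o,z]`, `X^N Y^{-N}` trivial on `[o,Xz]`, `X^{-N}Y^NX^N` trivial on
`[X^{-N}y,b]`, itR'). -/
def SpecU4 : Prop := ∀ (X Y : Hm) (o b : ℝ), (BaseP X Y o b ∨ BaseM X Y o b) →
  ∃ N0 : ℕ, ∀ N ≥ N0, ∀ u, o ≤ u → u ≤ b →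
    (w1 (X ^ N) (Y ^ N)) u = u ∧ (w2 (X ^ N) (Y ^ N)) u = u

/-- U3 (hypotheses SpecPLB, SpecPL2, SpecORD): structure on necessary orbitals.
`Θ = closure {X,Y}`; it fixes `c, d, o, b`; no common fixed point in `(c,d)`.  `er · c, el · d, er · o, el · b`
are homomorphisms `χ_c, χ_d, χ_o, χ_b : Θ → ℤ`.  `χ_o X < 0`, `χ_o Y = 0`, `χ_b X = χ_b Y > 0`.  Necessary (last
hypothesis): if two elements of `Θ` commute on `[c,d]`, they commute on `[o,b]` (apply it to the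
commutator).
Claim 2.  Let `x, w ∈ Θ` with `χ_c x = 0` and `χ_d w = 0`.  Then not (`χ_b x ≠ 0` and `χ_b w ≠ 0`), and not
(`χ_o x ≠ 0` and `χ_o w ≠ 0`).  Proof.  `x` trivial on `[c,c+ε]`, `w` trivial on `[d-ε,d]`.  By orbR there is
`v ∈ Θ` with `d - ε < v (min (c+ε) (X (c+ε)) (Y (c+ε)))` (the minimum is in `(c,d)`).  For `v' = v, vX, vY` the element
`v'xv'⁻¹` is trivial on `[c,d-ε]`, so it commutes with `w` on `[c,d]`, so on `[o,b]`.  Suppose `χ_b x ≠ 0`,
`χ_b w ≠ 0`; let `r_x, r_w ∈ [o,b)` be the last fixed points of `x, w` below `b`.  Commuting elements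
preserve each other's fixed points, so each fixes the last fixed point of the other:
`v' r_x = r_w` (`v'xv'⁻¹` has last fixed point `v' r_x`).  `v r_x = r_w = v X r_x`, so `X r_x = r_x`, so
`r_x = o` and `r_w = v o = o`.  So `x, w` have no fixed point in `(o,b)`.  With `i = χ_b w`, `j = χ_b x`:
`(v'xv'⁻¹)^i w^{-j}` is trivial near `b` and commutes on `[o,b]` with `w`, which has no fixed point in
`(o,b)`, so it is trivial on `[o,b]` (its fixed set is `w`-invariant).  So `v x^i v⁻¹ = w^j = v Y x^i Y⁻¹ v⁻¹`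
on `[o,b]`, `x^i` commutes with `Y` on `[o,b]`; `Y` is trivial near `o`, `x^i` has no fixed point in
`(o,b)`, so `Y` is trivial on `(o,b)`, contradiction to `χ_b Y ≠ 0`.  The statement at `o`: the same with
first fixed points in `(o,b]` (then `r_x = b`), `i = χ_o w`, `j = χ_o x`.
Characters.  By Claim 2: (`ker χ_c ⊆ ker χ_b` or `ker χ_d ⊆ ker χ_b`) and (`ker χ_c ⊆ ker χ_o` or
`ker χ_d ⊆ ker χ_o`).  If `ker χ_c ⊆ ker χ_b`: `χ_c ≠ 0`, apply it to `X^{χ_c Y}Y^{-χ_c X}`: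
`χ_c Y = χ_c X ≠ 0`.  If `ker χ_c ⊆ ker χ_o`: the same element gives `χ_c Y · χ_o X = 0`, so `χ_c Y = 0`,
`χ_c X ≠ 0`.  Same for `d`.  So either
(P) `χ_c Y = 0`, `χ_c X ≠ 0`, `χ_d X = χ_d Y ≠ 0`, or (M) `χ_c X = χ_c Y ≠ 0`, `χ_d Y = 0`, `χ_d X ≠ 0`.
Lemma K.  Put `δ = X Y⁻¹`: trivial near `b`, `er δ o = er X o ≠ 0`.  Let `Y' = p Y p⁻¹`, `δ' = q δ q⁻¹`
(`p, q ∈ Θ`).  It is impossible that for all `n ≥ n0` the elements `X^n Y' X^{-n}` and `δ'` commute on
`[o,b]`: let `r` be the last fixed point of `Y'` below `b`; `r > o` (trivial near `o`); `δ'` fixes the last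
fixed point `X^n r` of `X^nY'X^{-n}`, and `X^n r → o` (itL), but `er δ' o ≠ 0`.
Claim 3.  `X` has no fixed point `s` in `(c,d)`.  Case P: `Y` is trivial on `[c,c+ε]`, `δ` on `[d-ε,d]`; choose
`p, q ∈ Θ` with `p (c+ε) > s`, `q (d-ε) < s`: on `[c,d]`, `Y'` is supported in `[s,d]`, `δ'` in `[c,s]`, so is
`X^nY'X^{-n}` in `[s,d]`: they commute on `[c,d]`, so on `[o,b]`, contradiction to Lemma K.  Case M: `δ` is
trivial on `[c,c+ε]`, `Y` on `[d-ε,d]`: the same with the sides exchanged.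
Claim 4.  Case P: `X` moves `(c,d)` to the left; otherwise (dir) to the right, `X^nYX^{-n}` is trivial on
`[c,X^n(c+ε)]`, `X^n(c+ε) > d-ε` for large `n`, so it commutes with `δ` on `[c,d]`, so on `[o,b]`: Lemma K
(`p = q = 1`).  Case M: `X` moves to the right: same.  Now BaseP (case P) or BaseM (case M) on `(c,d)`:
`ereq`, `eleq`. -/
def SpecU3 : Prop := ∀ (X Y : Hm), IsPL X → IsPL Y → ∀ o b : ℝ, BaseP X Y o b →
  ∀ c d : ℝ, c < d → X c = c → Y c = c → X d = d → Y d = d →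
  (∀ u, c < u → u < d → X u ≠ u ∨ Y u ≠ u) →
  (∀ θ ∈ Subgroup.closure ({X, Y} : Set Hm), (∀ u, c ≤ u → u ≤ d → θ u = u) →
    (∀ u, o ≤ u → u ≤ b → θ u = u)) →
  BaseP X Y c d ∨ BaseM X Y c d

/-- U6 (hypotheses SpecPLB, SpecPL2, SpecORD, SpecFQ, SpecFC, `s1 * s2 ≠ s2 * s1`, SpecU3, SpecU4).
For `N ≥ 1` the common fixed points of `X^N, Y^N` are those of `X, Y`.  Orbital = `(c,d)`, `c, d` common
fixed points, none in between; the left end has `er X c ≠ 0` or `er Y c ≠ 0`: finitely many orbitals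
(fixR), every point that is not a common fixed point is in one (ORD.orbital).  `Θ_N = closure {X^N,Y^N}`.
`(c,d)` is necessary for `N` if every `θ ∈ Θ_N` trivial on `[c,d]` is trivial on `[o,b]`; necessary for `N`
implies necessary for `N M`.  Choose `N₁ ≥ 1` with the largest number of necessary left ends: then
for all `M ≥ 1` the same orbitals are necessary for `N₁ M` as for `N₁`.  `X' = X^{N₁}, Y' = Y^{N₁}`: BaseP on
`(o,b)` again.  U3 on each necessary orbital, U4: `N` such that for `V = X'^N`, `W = Y'^N` both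
relations hold on all necessary orbitals and on `[o,b]`.  `K = closure {V,W}`.  For each unnecessary
orbital `(c_i,d_i)`: `θ_i ∈ K` trivial on `[c_i,d_i]`, non-trivial on `[o,b]`.
`K_J` = elements of `K` trivial on `J`; `f_O : FT → K/K_O`, `O = [o,b]`, `a0 ↦ V`, `a1 ↦ W`, surjective, and
injective by FQ (`V, W` do not commute on `[o,b]`: `W` is trivial near `o`, `V` moves everything, `W = V`
near `b`).  Let `𝒩_i` = elements of `K` trivial on the first `i` unnecessary orbitals, `M_i` = set of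
`f ∈ FT` with a lift in `𝒩_i`: normal; `M_0 = FT`; `M_i ⊇ FT'` (= commutator FT) by induction:
`M_{i+1} ⊇ [M_i, L_{i+1}]`, where `L_{i+1}` = elements with a lift trivial on the orbital `i+1`: a non-trivial
normal subgroup (θ_{i+1}); a non-trivial normal subgroup `L` of `FT` contains `FT'` (else `FT → FT/L` is
injective by FQ, so: `FT/L` is abelian); so `M_{i+1} ⊇ [FT',FT'] ∋ [s1,s2] ≠ 1`, so `M_{i+1} ⊇ FT'`.
Lift `y0 = a1x3⁻¹`, `y1 = x2x3⁻¹ ∈ FT'` to `P, Q ∈ K` trivial on all unnecessary orbitals.  On `[o,b]`: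
`P, Q` are `y0, y1` evaluated at `V, W`: relations hold, non-commuting (f_O injective, FC.nc).
On a necessary orbital `C`: `K_C ⊆ K_O` (necessary), `f_C : FT → K/K_C` surjective, its composition with
`K/K_C → K/K_O` is injective, so `K_O ⊆ K_C`; `w1(P,Q) ∈ K_O ⊆ K_C`.  On the unnecessary orbitals and at
common fixed points `w1(P,Q)` is trivial.  So `Pair P Q`. -/
def SpecU6 : Prop := ∀ (X Y : Hm), IsPL X → IsPL Y → ∀ o b : ℝ, BaseP X Y o b →
  ∃ P ∈ Subgroup.closure ({X, Y} : Set Hm), ∃ Q ∈ Subgroup.closure ({X, Y} : Set Hm),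
    Pair P Q ∧ P * Q ≠ Q * P

/-- U (Brin's ubiquity theorem) = U1 + U6. -/
def SpecU : Prop := ∀ (G : Subgroup Hm), PLs G → ∀ a b : ℝ, a < b → (∀ g ∈ G, g a = a) →
  (∀ g ∈ G, g b = b) → (∀ u, a < u → u < b → ∃ g ∈ G, g u ≠ u) →
  ∀ h ∈ G, er h a = 0 → el h b ≠ 0 →
  ∃ P ∈ G, ∃ Q ∈ G, Pair P Q ∧ P * Q ≠ Q * P

/-! ### NF: no free subgroups of rank two (Brin-Squier) -/

/-- FGC: commuting elements of a free group.  The subgroup generated by `x, y` is free
(Nielsen-Schreier: `subgroupIsFreeOfIsFree`) and commutative, so it has at most one free generator,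
so it is cyclic: `x = c^i`, `y = c^j`, `x^j = y^i`; if `i = j = 0` then `x = y = 1`.  Torsion-free: cyclic
subgroups are free. -/
def SpecFGC : Prop := (∀ x y : FreeGroup (Fin 2), x * y = y * x →
    ∃ m n : ℤ, (m ≠ 0 ∨ n ≠ 0) ∧ x ^ m = y ^ n) ∧
  (∀ (x : FreeGroup (Fin 2)) (n : ℤ), n ≠ 0 → x ^ n = 1 → x = 1)

/-- NF (hypotheses SpecPLB, SpecPL2, SpecORD, SpecFGC).  Let `φ` be injective, `G = range φ` =
closure of the images of the generators.  Orbitals of `G`: finitely many (left ends in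
`{x | er = fixR sets}` of the two generators).  Claim: for every finite set of orbitals there is
`w ≠ 1` in the commutator subgroup, with `φ w` trivial on these orbitals.  Start: `w = [x,y]`.
Step, orbital `(c,d)`: elements of the commutator subgroup have `er · c = 0`, `el · d = 0`, so `φ w` is trivial
on `[c,c+ε]` and on `[d-ε,d]`.  If `φ w` is trivial on `[c,d]`: nothing to do.  Otherwise choose `v` with
`φ v (c+ε) > d-ε` (orbR): `φ w` and `φ (v w v⁻¹)` have disjoint supports in `[c,d]`; `w' = [w, v w v⁻¹]` is trivial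
on `(c,d)` and on the orbitals where `w` is.  `w' ≠ 1`: otherwise `w^m = v w^n v⁻¹` with `(m,n) ≠ (0,0)` (FGC);
`n ≠ 0`, `m = 0` is impossible (torsion-free); `m ≠ 0`: `φ w^m` is supported in both disjoint supports, so
trivial on `[c,d]`, so is `φ w` (zpowi): contradiction.  At the end `φ w` is trivial on all orbitals: `φ w = 1`,
`w ≠ 1`. -/
def SpecNF : Prop := ∀ φ : FreeGroup (Fin 2) →* Hm, (∀ g, IsPL (φ g)) → ¬ Function.Injective φ

/-! ### BS: Bieri-Strebel -/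

/-- the subgroup generated by `t^j a_i t^{-j}`, `lo ≤ j < hi` -/
def cl {H : Type} [Group H] (t : H) {n : ℕ} (a : Fin n → H) (lo hi : ℕ) : Subgroup H :=
  Subgroup.closure {x | ∃ i : Fin n, ∃ j : ℕ, lo ≤ j ∧ j < hi ∧ x = t ^ j * a i * (t ^ j)⁻¹}

/-- BSH.  `H` is generated by `x_1..x_n` with finitely many relators (kernel of
`π : FreeGroup (Fin n) → H` is the normal closure of a finite set `R`).  `t` with `χ t = 1`,
`a_i = x_i t^{-χ(x_i)}` (integers `e_i = χ(x_i)`).  `B_M = cl 0 (M+1)`, `A_M = cl 0 M`, `A'_M = cl 1 (M+1)`,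
`φ` = conjugation by `t`.
Word lemma: for every `w` in the free group there are `L, M'` and `g ∈ cl 0 (M'+1)` with `L + χ(w) ≥ 0`, value
of `w` in `H` = `t^{-L} g t^{L+χ(w)}`, and for all `M ≥ M'` the value of `w` in `HNN_M`, `x_i ↦ of(a_i) t̃^{e_i}`, is
`t̃^{-L} of(g) t̃^{L+χ(w)}`.  Induction on the word: `t̃^{s} of(a_i) t̃^{-s} = of (t^s a_i t^{-s})` for
`0 ≤ s ≤ M`; `L` may be raised by 1 (`g ↦ t g t⁻¹`, `M' ↦ M'+1`).
For a relator: `χ = 0`, value 1 in `H`, so `g = 1` and its value in `HNN_M` is 1.  So for `M` large `x_i ↦ of(a_i)t̃^{e_i}`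
defines `Φ : H → HNN_M`.  `t` is the value of a word, `χ = 1`, `t = t^{-L}gt^{L+1}` gives `g = 1`, so `Φ t = t̃`
(enlarge `M`).  `Φ a_i = Φ(x_i) Φ(t)^{-e_i} = of(a_i)`, so `Φ = of` on the generators of `B_M`.
`exh`: the word lemma in `H` for `χ h = 1`. -/
def SpecBSH : Prop := ∀ (H : Type) [Group H], Group.IsFinitelyPresented H →
  ∀ χ : H →* Multiplicative ℤ, Function.Surjective χ →
  ∃ (t : H) (n : ℕ) (a : Fin n → H), χ t = Multiplicative.ofAdd 1 ∧ (∀ i, χ (a i) = 1) ∧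
    (∀ h, χ h = 1 → ∃ L N : ℕ, t ^ L * h * (t ^ L)⁻¹ ∈ cl t a 0 N) ∧
    ∃ (M : ℕ) (φ : ((cl t a 0 M).subgroupOf (cl t a 0 (M + 1))) ≃*
        ((cl t a 1 (M + 1)).subgroupOf (cl t a 0 (M + 1)))),
      (∀ x, (((φ x : ((cl t a 1 (M + 1)).subgroupOf (cl t a 0 (M + 1)))) :
        cl t a 0 (M + 1)) : H) = t * ((x : cl t a 0 (M + 1)) : H) * t⁻¹) ∧
      ∃ Φ : H →* HNNExtension (cl t a 0 (M + 1)) ((cl t a 0 M).subgroupOf (cl t a 0 (M + 1)))
          ((cl t a 1 (M + 1)).subgroupOf (cl t a 0 (M + 1))) φ,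
        Φ t = HNNExtension.t ∧ ∀ b : cl t a 0 (M + 1), Φ (b : H) = HNNExtension.of b

/-- BR: Britton's lemma for `t g` and `t⁻¹ h`.  In a reduced word in `X = t g`, `Y = t⁻¹ h` write
`X = t·g`, `X⁻¹ = g⁻¹·t⁻¹`, `Y = t⁻¹·h`, `Y⁻¹ = h⁻¹·t`.  Between two consecutive `t`-letters of opposite sign stands
`g` (`XY`: `t g t⁻¹`), `h` (`YX`: `t⁻¹ h t`), `g⁻¹` (`Y⁻¹X⁻¹`: `t g⁻¹ t⁻¹`), `h⁻¹` (`X⁻¹Y⁻¹`: `t⁻¹h⁻¹t`): never in
`A` (for `t · t⁻¹`) resp. `B` (for `t⁻¹ · t`).  So `ReducedWord.toList_eq_nil_of_mem_of_range` applies. -/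
def SpecBR : Prop := ∀ (G : Type) [Group G] (A B : Subgroup G) (φ : A ≃* B) (g h : G),
  g ∉ A → h ∉ B → ∀ f : FreeGroup (Fin 2) →* HNNExtension G A B φ,
  f (FreeGroup.of 0) = HNNExtension.t * HNNExtension.of g →
  f (FreeGroup.of 1) = HNNExtension.t⁻¹ * HNNExtension.of h → Function.Injective f

/-- BS (hypotheses SpecBSH, SpecBR).  If `A_M = B_M` (i.e. `cl 0 (M+1) ≤ cl 0 M`): `t B t⁻¹ ≤ B` for
`B = B_M = closure S`, `S` the finite set of its generators; `cl 0 N ≤ B` for all `N`; so `(t,S)` works.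
If `A'_M = B_M`: `t⁻¹ B t ≤ B`, `t' = t⁻¹` works: `h = t^{-L} g t^L`, `g ∈ cl 0 N`, and `t^{-N} g t^N ∈ B`.
Otherwise `g ∈ B_M \ A_M`, `h ∈ B_M \ A'_M`, and the homomorphism `FreeGroup (Fin 2) → H`,
`0 ↦ t g`, `1 ↦ t⁻¹ h`, composed with `Φ` is injective by BR: excluded. -/
def SpecBS : Prop := ∀ (H : Type) [Group H], Group.IsFinitelyPresented H →
  (∀ φ : FreeGroup (Fin 2) →* H, ¬ Function.Injective φ) →
  ∀ χ : H →* Multiplicative ℤ, Function.Surjective χ →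
  ∃ (t : H) (S : Set H), S.Finite ∧ (∀ s ∈ S, χ s = 1) ∧
    (χ t = Multiplicative.ofAdd 1 ∨ χ t = Multiplicative.ofAdd (-1)) ∧
    (∀ g ∈ Subgroup.closure S, t * g * t⁻¹ ∈ Subgroup.closure S) ∧
    (∀ h, χ h = 1 → ∃ n : ℕ, t ^ n * h * (t ^ n)⁻¹ ∈ Subgroup.closure S)

/-! ### DYN: the dynamical argument -/

/-- no copy of F, in terms of pairs -/
def NoPair (H : Subgroup Hm) : Prop := ∀ P ∈ H, ∀ Q ∈ H, Pair P Q → P * Q = Q * P

/-- the data given by Bieri-Strebel for the character `er · a` -/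
structure Data (H : Subgroup Hm) (a b : ℝ) (t : Hm) (S : Set Hm) : Prop where
  pl : PLs H
  np : NoPair H
  ab : a < b
  fa : ∀ g ∈ H, g a = a
  fb : ∀ g ∈ H, g b = b
  orb : ∀ u, a < u → u < b → ∃ g ∈ H, g u ≠ u
  tH : t ∈ H
  SH : S ⊆ H
  Sf : S.Finite
  S0 : ∀ s ∈ S, er s a = 0
  t0 : er t a ≠ 0
  gen : ∀ h ∈ H, ∃ k : ℤ, er h a = k * er t a
  conj : ∀ g ∈ Subgroup.closure S, t * g * t⁻¹ ∈ Subgroup.closure S
  exh : ∀ h ∈ H, er h a = 0 → ∃ n : ℕ, t ^ n * h * (t ^ n)⁻¹ ∈ Subgroup.closure S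

/-- geometry of `t` and of `B = closure S` -/
structure DAout (H : Subgroup Hm) (a b : ℝ) (t : Hm) (S : Set Hm) (c p : ℝ) : Prop where
  ac : a < c
  cp : c < p
  pb : p < b
  tp : t p = p
  /-- `t` moves the points of `(a,p)` to the right -/
  tr : ∀ u, a < u → u < p → u < t u
  /-- `B` is trivial on `[a,c]`, and not just right of `c` -/
  triv : ∀ s ∈ S, ∀ u, a ≤ u → u ≤ c → s u = u
  ntriv : ∃ s ∈ S, er s c ≠ 0
  /-- `B` does not fix `p` -/
  Bp : ∃ s ∈ S, s p ≠ p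

/-- DA (hypotheses SpecPLB, SpecPL2, SpecORD).  `B = closure S`.
(1) `h ∈ H`, `er h a = 0` implies `el h b = 0` (SpecU and NoPair).
(2) `B` moves a point of `(a,b)`: `t^n h0 t^{-n} ∈ B` moves `t^n u`.  The `s ∈ S` are trivial on a common
`[a,a+ε]` (er0, `S` finite).  `c` = infimum of the points of `(a,b)` moved by some `s ∈ S`: `a < c < b`, `B` is trivial
on `[a,c]`, `er s c ≠ 0` for some `s ∈ S` (otherwise all `s` are trivial on some `[c,c+ε]`, er0).
(3) `t c ≥ c`: the elements `t s t⁻¹ ∈ B` are trivial on `[a,c]`, so `s` is trivial on `[a,t⁻¹c]` for all `s ∈ S`: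
`t⁻¹ c ≤ c`.
(4) `t` has no fixed point `q` in `(a,c]`: for `h ∈ H`, `er h a = 0`, `t^n h t^{-n} ∈ B` is trivial on `[a,c]`, so `h` is
trivial on `[a,t^{-n}c] ∋ t^{-n} q = q`: `h q = q`; any `h ∈ H` is `t^k h'` with `er h' a = 0` (gen), so `H` fixes `q`,
contradiction to `orb`.  So `t u > u` on `(a,c]` (dir, (3)).
(5) Mirror image at `b`: by (1) the `s ∈ S` are trivial on a common `[b-ε,b]`; `d` = supremum of the
points moved by `S`, `a < d < b`, `t d ≤ d`, no fixed point of `t` in `[d,b)`, so `t u < u` there.  So `t` has a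
fixed point in `(c,d)` (intermediate value theorem); `p` = the smallest one in `(c,b)`; `t u > u` on `(a,p)`.
(6) If all `s ∈ S` fix `p`: for `h ∈ H`, `er h a = 0`, `t^n h t^{-n}` fixes `p`, so `h` fixes `t^{-n}p = p`; so `H` fixes
`p`, contradiction. -/
def SpecDA : Prop := SpecU → ∀ (H : Subgroup Hm) (a b : ℝ) (t : Hm) (S : Set Hm),
  Data H a b t S → (∃ h ∈ H, er h a = 0 ∧ ∃ u, a < u ∧ u < b ∧ h u ≠ u) →
  ∃ c p, DAout H a b t S c p

/-- DB (hypotheses SpecPLB, SpecPL2, SpecORD).  `τ = er t a ≠ 0` (positive, by `tr`).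
`x0` := the largest `u ∈ [c,p)` fixed by all `s ∈ S` such that `er s u ≠ el s u` for some `s ∈ S` (finitely many by brk;
`u = c` is one: `el s c = 0`, ntriv).
Claim R: for every `B`-fixed `u ∈ [x0,p)` some `s ∈ S` has `er s u ≠ 0`.  Otherwise `B` is trivial on some
`[u,u+ε]`; let `u'` be the infimum of the points of `(u,∞)` moved by `S`; `u < u' < p` (Bp; `u' = p` would give
that `B` fixes `p`); at `u'` all `s` have `el s u' = 0` and some `er s u' ≠ 0`: break point, `u' > x0`, contradiction.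
So (fixR) there are only finitely many `B`-fixed points in `[x0,p)`.
Suppose `z ∈ H`, `er z a = L τ`, `L ≥ 1`, `z x0 = x0`.  Let `x*` be the largest `B`-fixed point in `[x0,p)` that is
fixed by some `z ∈ H` with `er z a = L τ`, `L ≥ 1`.  Take this `z`.  Some `s ∈ B` (`s ∈ S` or inverse) has
`σ = er s x* > 0`.  `κ = er z x*`, `z' = z^σ s^{-κ}`: `er z' x* = 0`, `er z' a = σ L τ`, `z'` trivial on `[x*,x*+ε]`.
`G = closure (S ∪ {z'})` fixes `x*`, and no common fixed point `q` of `G` is in `(x*,p)` (else `q` would be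
`B`-fixed and fixed by `z'`, larger than `x*`), and `p` is not one (Bp).  So the supremum of the
`G`-orbit of `x*+ε` (w.l.o.g. `x* + ε < p`), which is a common fixed point `> x*`, is `> p`: there is `g ∈ G` with
`g (x*+ε) > p`.  `w = g z' g⁻¹` is trivial on `[x*, g(x*+ε)]`, a neighbourhood of `p`; `er w a = er z' a = L' τ`,
`L' = σ L ≥ 1`.  `G' = closure {t,w}` fixes `a` and `p`, and `t` has no fixed point in `(a,p)`.
`v = t^{L'} w⁻¹ ∈ G'`: `er v a = 0`, `el v p = L' el t p ≠ 0` (`t` moves the points left of `p`).  SpecU for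
`G'` on `(a,p)` gives a non-commuting pair in `G' ≤ H`, contradiction to NoPair. -/
def SpecDB : Prop := SpecU → ∀ (H : Subgroup Hm) (a b : ℝ) (t : Hm) (S : Set Hm),
  Data H a b t S → ∀ c p, DAout H a b t S c p →
  ∃ x0, a < x0 ∧ x0 < p ∧ (∀ s ∈ S, s x0 = x0) ∧ (∃ s ∈ S, er s x0 ≠ el s x0) ∧
    ∀ z ∈ H, ∀ L : ℕ, 1 ≤ L → er z a = L * er t a → z x0 ≠ x0

/-- DC (hypotheses SpecPLB, SpecPL2, SpecORD).  `α_n = t^n x0`: strictly increasing (`tr`), so
pairwise different.  `t^n s t^{-n} ∈ B = closure S` fixes `α_n` and has a break there: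
`er (t^n s t^{-n}) α_n = er s x0`, `el` same (erC, elC).  Let `D` = set of break points of the elements of
`S`: finite (brk).  For all `g ∈ B` and all break points `x` of `g` there is `β ∈ B` with `β x ∈ D`
(closure induction; a break of `g h` at `x` is a break of `h` at `x` or of `g` at `h x`; a break of `g⁻¹` at `x` is
a break of `g` at `g⁻¹x`).  So `β_n α_n ∈ D`, pigeonhole: `n < m`, `β_n α_n = β_m α_m`.  `β = β_m⁻¹ β_n ∈ B`,
`β α_n = α_m`.  `z = t^{-n} β⁻¹ t^m ∈ H` fixes `x0`, and `er z a = (m - n) er t a` (`er · a` is a homomorphism on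
`H`, zero on `B`). -/
def SpecDC : Prop := ∀ (H : Subgroup Hm) (a b : ℝ) (t : Hm) (S : Set Hm),
  Data H a b t S → ∀ c p, DAout H a b t S c p →
  ∀ x0, a < x0 → x0 < p → (∀ s ∈ S, s x0 = x0) → (∃ s ∈ S, er s x0 ≠ el s x0) →
    ∃ z ∈ H, ∃ L : ℕ, 1 ≤ L ∧ er z a = L * er t a ∧ z x0 = x0

/-- DYN = DA + DB + DC -/
def SpecDYN : Prop := ∀ (H : Subgroup Hm) (a b : ℝ) (t : Hm) (S : Set Hm), Data H a b t S →
  ∀ h ∈ H, er h a = 0 → ∀ u, a < u → u < b → h u = u

/-! ### ABEL: finitely presented subgroups of PL without a pair are abelian -/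

/-- AB (hypotheses SpecPLB, SpecPL2, SpecORD, SpecNF, SpecBS, SpecDYN).  Let `g, h ∈ H` not commute, `k = [g,h]`,
`k u ≠ u`.  `(a,b)` = orbital of `u` (ORD.orbital).  `χ(h) = er h a` is a homomorphism `H → ℤ`.  `χ ≠ 0`: `H` is
finitely generated; if all generators were trivial near `a`, a point right of `a` would be fixed by `H`.
The image is `n ℤ`, `n ≥ 1`; `χ/n` is onto.  `H` has no free subgroup (NF).  BS gives `t, S`; Data holds.
`er k a = 0`, so `k` is trivial on `(a,b)` by DYN: contradiction. -/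
def SpecAB : Prop := ∀ (H : Subgroup Hm), PLs H → NoPair H → Group.IsFinitelyPresented H →
  ∀ g ∈ H, ∀ h ∈ H, g * h = h * g

/-! ### EA: elementary amenable groups do not contain F -/

/-- the class of elementary amenable groups, as in the frozen statement -/
def EA (H : Type) [Group H] : Prop :=
  ∀ C : (G : Type) → [Group G] → Prop,
    (∀ (G : Type) [Group G], Finite G → C G) →
    (∀ (G : Type) [Group G], (∀ a b : G, a * b = b * a) → C G) →
    (∀ (G : Type) [Group G] (K : Subgroup G), C G → C ↥K) →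
    (∀ (G : Type) [Group G] (N : Subgroup G) [N.Normal], C G → C (G ⧸ N)) →
    (∀ (G : Type) [Group G] (N : Subgroup G) [N.Normal], C ↥N → C (G ⧸ N) → C G) →
    (∀ (G : Type) [Group G],
      (∀ s : Finset G, C ↥(Subgroup.closure (s : Set G))) → C G) →
    (∀ (G G' : Type) [Group G] [Group G'], (G ≃* G') → C G → C G') →
    C H

/-- EA.  Apply the definition to `C G` := there are no subgroup `K ≤ G` and surjective
`f : K →* FT`.  Finite: `FT` is infinite (`a0 ↦ 1, a1 ↦ 1` defines `FT → ℤ` onto).  Abelian: `FT` is not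
abelian (`s1, s2`).  Subgroups, quotients (preimage), isomorphic groups: clear.  Extensions: let
`f : K → FT` onto, `K ≤ G`, `K_N = K ∩ N`, `f(K_N)` is normal in `FT`.  If `f(K_N) = 1`: `f` factors through
the image of `K` in `G/N`.  Otherwise `f(K_N)` contains `commutator FT` (FQ: a non-trivial normal
subgroup `L` contains it, since `FT/L` must be abelian), so it contains `y0 = a1x3⁻¹`, `y1 = x2x3⁻¹`; by FC
and FQ `a0 ↦ y0`, `a1 ↦ y1` is an injective homomorphism `FT → FT` with image `L ≤ f(K_N)`; the preimage of `L` in `K_N` maps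
onto `L ≅ FT`.  Finitely generated subgroups: lift `a0, a1` to `k0, k1 ∈ K`, `closure {k0,k1}` maps onto
`FT`.  Finally an injective `FT →* H` gives `K` = its range. -/
def SpecEA : Prop := SpecFQ → SpecFC → s1 * s2 ≠ s2 * s1 →
  ∀ (H : Type) [Group H], EA H → ¬ ∃ f : FT →* H, Function.Injective f

end FPT
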