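import Mathlib
import Pool.Agent.Lib.MP_c27bde_al.FP.Spec

set_option autoImplicit false

/-! # DB: the break point and its stabiliser -/

namespace FPT

namespace DBM

theorem inv_fix {g : Hm} {x : ℝ} (h : g x = x) : g⁻¹ x = x := by
  have h1 : g⁻¹ (g x) = x := RelIso.inv_apply_self g x
  rwa [h] at h1

theorem closure_fix {S : Set Hm} {x : ℝ} (h : ∀ s ∈ S, s x = x) :
    ∀ g ∈ Subgroup.closure S, g x = x := by
  intro g hg
  induction hg using Subgroup.closure_induction with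
  | mem s hs => exact h s hs
  | one => rfl
  | mul g k _ _ hg hk =>
    show g (k x) = x
    rw [hk, hg]
  | inv g _ hg => exact inv_fix hg

theorem common_eps {S : Set Hm} (hS : S.Finite) (P : Hm → ℝ → Prop)
    (hP : ∀ s ε ε', ε' ≤ ε → P s ε → P s ε') (h : ∀ s ∈ S, ∃ ε > 0, P s ε) :
    ∃ ε > 0, ∀ s ∈ S, P s ε := by
  classical
  have key : ∀ F : Finset Hm, (∀ s ∈ F, ∃ ε > 0, P s ε) → ∃ ε > 0, ∀ s ∈ F, P s ε := by
    intro F
    induction F using Finset.induction_on with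
    | empty => intro _; exact ⟨1, one_pos, by simp⟩
    | insert s F _ ih =>
      intro h
      obtain ⟨ε₁, h1, h2⟩ := ih (fun s' hs' => h s' (Finset.mem_insert_of_mem hs'))
      obtain ⟨ε₂, h3, h4⟩ := h s (Finset.mem_insert_self _ _)
      refine ⟨min ε₁ ε₂, lt_min h1 h3, ?_⟩
      intro s' hs'
      rcases Finset.mem_insert.1 hs' with rfl | hs'
      · exact hP _ _ _ (min_le_right _ _) h4
      · exact hP _ _ _ (min_le_left _ _) (h2 s' hs')
  obtain ⟨ε, h1, h2⟩ := key hS.toFinset (fun s hs => h s (hS.mem_toFinset.1 hs))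
  exact ⟨ε, h1, fun s hs => h2 s (hS.mem_toFinset.2 hs)⟩

theorem fix_sup {g : Hm} {u u' : ℝ} (huu : u < u') (h : ∀ v, u ≤ v → v < u' → g v = v) :
    g u' = u' := by
  apply le_antisymm
  · by_contra hlt
    have hlt := not_le.1 hlt
    -- `g⁻¹ u' < u'`
    have h1 : g⁻¹ u' < u' := by
      have h2 : g⁻¹ u' < g⁻¹ (g u') := g⁻¹.strictMono hlt
      rwa [RelIso.inv_apply_self] at h2
    obtain ⟨v, hv1, hv2⟩ := exists_between (max_lt huu h1)
    have h3 := h v ((le_max_left _ _).trans hv1.le) hv2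
    have h4 : g (g⁻¹ u') < g v := g.strictMono ((le_max_right _ _).trans_lt hv1)
    rw [RelIso.apply_inv_self, h3] at h4
    exact absurd hv2 (not_lt.2 h4.le)
  · by_contra hlt
    have hlt := not_le.1 hlt
    obtain ⟨v, hv1, hv2⟩ := exists_between (max_lt huu hlt)
    have h3 := h v ((le_max_left _ _).trans hv1.le) hv2
    have h4 : g v < g u' := g.strictMono hv2
    rw [h3] at h4
    exact absurd ((le_max_right u (g u')).trans_lt hv1) (not_lt.2 h4.le)

theorem specDB (hB : SpecPLB) (h2 : SpecPL2) (hO : SpecORD) : SpecDB := by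
  classical
  intro hU H a b t S D c p A
  have hcl : Subgroup.closure S ≤ H := (Subgroup.closure_le H).2 D.SH
  have hcl0 : ∀ g ∈ Subgroup.closure S, er g a = 0 := by
    intro g hg
    induction hg using Subgroup.closure_induction with
    | mem s hs => exact D.S0 s hs
    | one => exact h2.er1 a
    | mul g k hg' hk' hg hk =>
      rw [hB.erM g k a (D.pl g (hcl hg')) (D.pl k (hcl hk')), D.fa k (hcl hk'), hg, hk, add_zero]
    | inv g hg' hg =>
      have h3 := h2.erI g a (D.pl g (hcl hg'))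
      rw [D.fa g (hcl hg'), hg, neg_zero] at h3
      exact h3
  -- the break points
  set Dk : Set ℝ := {u | c ≤ u ∧ u < p ∧ (∀ s ∈ S, s u = u) ∧ ∃ s ∈ S, er s u ≠ el s u} with hDk
  have hDfin : Dk.Finite := by
    apply (D.Sf.biUnion (fun s hs => hB.brk s (D.pl s (D.SH hs)))).subset
    rintro u ⟨_, _, _, s, hs, hne⟩
    exact Set.mem_biUnion hs hne
  have hDne : Dk.Nonempty := by
    obtain ⟨s, hs, hne⟩ := A.ntriv
    refine ⟨c, le_rfl, A.cp, fun s hs => A.triv s hs c A.ac.le le_rfl, s, hs, ?_⟩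
    rw [h2.el0' s c ⟨c - a, sub_pos.2 A.ac, fun y hy1 hy2 => A.triv s hs y (by linarith) hy2⟩]
    exact hne
  obtain ⟨x0, ⟨hx1, hx2, hx3, hx4⟩, hmax⟩ := Set.exists_max_image Dk id hDfin hDne
  simp only [id] at hmax
  have claimR : ∀ u, x0 ≤ u → u < p → (∀ s ∈ S, s u = u) → ∃ s ∈ S, er s u ≠ 0 := by
    intro u hu1 hu2 hu3
    by_contra hcon
    push Not at hcon
    obtain ⟨ε, hε, hε2⟩ := common_eps D.Sf (fun s ε => ∀ y, u ≤ y → y ≤ u + ε → s y = y)
      (fun s ε ε' h1 h2 y hy1 hy2 => h2 y hy1 (by linarith))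
      (fun s hs => h2.er0 s u (D.pl s (D.SH hs)) (hu3 s hs) (hcon s hs))
    set Am : Set ℝ := {v | u < v ∧ ∃ s ∈ S, s v ≠ v} with hAm
    have hpA : p ∈ Am := ⟨hu2, A.Bp⟩
    have hbd : BddBelow Am := ⟨u, fun v hv => hv.1.le⟩
    have h1 : u + ε ≤ sInf Am := by
      apply le_csInf ⟨p, hpA⟩
      rintro v ⟨hv1, s, hs, hv2⟩
      by_contra hlt
      exact hv2 (hε2 s hs v hv1.le (not_le.1 hlt).le)
    have h3 : sInf Am ≤ p := csInf_le hbd hpA
    have h4 : ∀ s ∈ S, ∀ v, u ≤ v → v < sInf Am → s v = v := by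
      intro s hs v hv1 hv2
      rcases hv1.eq_or_lt with rfl | hv1
      · exact hu3 s hs
      · by_contra hne
        exact absurd (csInf_le hbd ⟨hv1, s, hs, hne⟩) (not_le.2 hv2)
    have h5 : ∀ s ∈ S, s (sInf Am) = sInf Am :=
      fun s hs => fix_sup (by linarith : u < sInf Am) (h4 s hs)
    have h6 : sInf Am < p := by
      apply lt_of_le_of_ne h3
      intro he
      obtain ⟨s, hs, hne⟩ := A.Bp
      apply hne
      rw [← he]
      exact h5 s hs
    have h7 : ∀ s ∈ S, el s (sInf Am) = 0 := fun s hs => h2.el0' s _ ⟨ε, hε, fun y hy1 hy2 => by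
      rcases hy2.eq_or_lt with rfl | hy2
      · exact h5 s hs
      · exact h4 s hs y (by linarith) hy2⟩
    have h8 : ∃ s ∈ S, er s (sInf Am) ≠ 0 := by
      by_contra hcon2
      push Not at hcon2
      obtain ⟨ε', hε', hε2'⟩ := common_eps D.Sf
        (fun s ε => ∀ y, sInf Am ≤ y → y ≤ sInf Am + ε → s y = y)
        (fun s ε ε' h1 h2 y hy1 hy2 => h2 y hy1 (by linarith))
        (fun s hs => h2.er0 s _ (D.pl s (D.SH hs)) (h5 s hs) (hcon2 s hs))
      have h9 : sInf Am + ε' ≤ sInf Am := by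
        apply le_csInf ⟨p, hpA⟩
        rintro v ⟨hv1, s, hs, hv2⟩
        by_contra hlt
        have hv3 : sInf Am ≤ v := csInf_le hbd ⟨hv1, s, hs, hv2⟩
        exact hv2 (hε2' s hs v hv3 (not_le.1 hlt).le)
      linarith
    obtain ⟨s, hs, hne⟩ := h8
    have h9 : sInf Am ≤ x0 :=
      hmax (sInf Am) ⟨by linarith, h6, h5, s, hs, by rw [h7 s hs]; exact hne⟩
    linarith
  set T : Set ℝ := {u | x0 ≤ u ∧ u < p ∧ ∀ s ∈ S, s u = u} with hT
  have hTfin : T.Finite := by
    apply (D.Sf.biUnion (fun s hs => hB.fixR s (D.pl s (D.SH hs)))).subset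
    rintro u ⟨h1, h2', h3⟩
    obtain ⟨s, hs, hne⟩ := claimR u h1 h2' h3
    exact Set.mem_biUnion hs ⟨h3 s hs, hne⟩
  refine ⟨x0, A.ac.trans_le hx1, hx2, hx3, hx4, ?_⟩
  intro z₀ hz₀ L₀ hL₀ hzL₀ hzx₀
  set W : Set ℝ := {u | u ∈ T ∧ ∃ z ∈ H, ∃ L : ℕ, 1 ≤ L ∧ er z a = L * er t a ∧ z u = u} with hW
  have hWfin : W.Finite := hTfin.subset (fun u hu => hu.1)
  have hWne : W.Nonempty := ⟨x0, ⟨le_rfl, hx2, hx3⟩, z₀, hz₀, L₀, hL₀, hzL₀, hzx₀⟩
  obtain ⟨xs, ⟨⟨hs1, hs2, hs3⟩, z, hz, L, hL, hzL, hzx⟩, hsmax⟩ :=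
    Set.exists_max_image W id hWfin hWne
  simp only [id] at hsmax
  obtain ⟨s, hs, hσ⟩ : ∃ s ∈ Subgroup.closure S, 0 < er s xs := by
    obtain ⟨s, hs, hne⟩ := claimR xs hs1 hs2 hs3
    rcases lt_or_gt_of_ne hne with hlt | hgt
    · refine ⟨s⁻¹, Subgroup.inv_mem _ (Subgroup.subset_closure hs), ?_⟩
      have h3 := h2.erI s xs (D.pl s (D.SH hs))
      rw [hs3 s hs] at h3
      rw [h3]
      omega
    · exact ⟨s, Subgroup.subset_closure hs, hgt⟩
  have hsH : s ∈ H := hcl hs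
  have hsP : IsPL s := D.pl s hsH
  have hsx : s xs = xs := closure_fix hs3 s hs
  have hzP : IsPL z := D.pl z hz
  obtain ⟨n, hn⟩ : ∃ n : ℕ, (n : ℤ) = er s xs := ⟨(er s xs).toNat, Int.toNat_of_nonneg hσ.le⟩
  have hn1 : 1 ≤ n := by omega
  set z' : Hm := z ^ n * s ^ (-(er z xs)) with hz'
  have hz'H : z' ∈ H := H.mul_mem (H.pow_mem hz n) (H.zpow_mem hsH _)
  have hz'P : IsPL z' := D.pl z' hz'H
  have hz'x : z' xs = xs := by
    show (z ^ n) ((s ^ (-(er z xs))) xs) = xs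
    rw [hO.zpowf s _ xs hsx, hO.powf z n xs hzx]
  have hz'e : er z' xs = 0 := by
    rw [hz', hB.erM _ _ _ (h2.pow z n hzP) (h2.zpow s _ hsP), hO.zpowf s _ xs hsx,
      h2.erP z n xs hzP hzx, h2.erZ s _ xs hsP hsx, hn]
    ring
  have hz'a : er z' a = ((n * L : ℕ) : ℤ) * er t a := by
    rw [hz', hB.erM _ _ _ (h2.pow z n hzP) (h2.zpow s _ hsP), hO.zpowf s _ a (D.fa s hsH),
      h2.erP z n a hzP (D.fa z hz), h2.erZ s _ a hsP (D.fa s hsH), hcl0 s hs, hzL]
    push_cast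
    ring
  obtain ⟨ε₀, hε₀, hεt⟩ := h2.er0 z' xs hz'P hz'x hz'e
  set ε : ℝ := min ε₀ ((p - xs) / 2) with hε
  have hεpos : 0 < ε := lt_min hε₀ (by linarith)
  have hu1 : xs < xs + ε := by linarith
  have hu2 : xs + ε < p := by
    have : ε ≤ (p - xs) / 2 := min_le_right _ _
    linarith
  have htriv : ∀ y, xs ≤ y → y ≤ xs + ε → z' y = y := by
    intro y hy1 hy2
    apply hεt y hy1
    have : ε ≤ ε₀ := min_le_left _ _
    linarith
  set G : Subgroup Hm := Subgroup.closure (insert z' S) with hG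
  have hGH : G ≤ H := by
    rw [hG, Subgroup.closure_le]
    intro g hg
    rcases hg with rfl | hg
    · exact hz'H
    · exact D.SH hg
  have hGPL : PLs G := fun g hg => D.pl g (hGH hg)
  have hGx : ∀ g ∈ G, g xs = xs := by
    apply closure_fix
    intro g hg
    rcases hg with rfl | hg
    · exact hz'x
    · exact hs3 g hg
  have noFix : ∀ q, xs < q → q < p → ∃ g ∈ G, g q ≠ q := by
    intro q hq1 hq2
    by_contra hcon
    push Not at hcon
    have h3 : q ∈ W := by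
      refine ⟨⟨by linarith, hq2, fun s hs =>
        hcon s (Subgroup.subset_closure (Set.mem_insert_of_mem _ hs))⟩,
        z', hz'H, n * L, ?_, hz'a, hcon z' (Subgroup.subset_closure (Set.mem_insert _ _))⟩
      exact Nat.mul_pos hn1 hL
    have := hsmax q h3
    linarith
  obtain ⟨a', b', h3, h4, h5, h6, h7⟩ := hO.orbital G hGPL (xs + ε) (noFix _ hu1 hu2)
  have hpb' : p < b' := by
    rcases lt_trichotomy p b' with hlt | heq | hgt
    · exact hlt
    · exfalso
      obtain ⟨s, hs, hne⟩ := A.Bp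
      apply hne
      rw [heq]
      exact h6 s (Subgroup.subset_closure (Set.mem_insert_of_mem _ hs))
    · exfalso
      obtain ⟨g, hg, hne⟩ := noFix b' (hu1.trans h4) hgt
      exact hne (h6 g hg)
  obtain ⟨g, hg, hgp⟩ := hO.orbR G a' b' h5 h6 h7 (xs + ε) p h3 h4 hpb'
  have hgH : g ∈ H := hGH hg
  have hgP : IsPL g := D.pl g hgH
  set w : Hm := g * z' * g⁻¹ with hw
  have hwH : w ∈ H := H.mul_mem (H.mul_mem hgH hz'H) (H.inv_mem hgH)
  have hwP : IsPL w := D.pl w hwH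
  have hwt : ∀ y, xs ≤ y → y ≤ g (xs + ε) → w y = y := by
    intro y hy1 hy2
    show g (z' (g⁻¹ y)) = y
    have c1 : xs ≤ g⁻¹ y := by
      have := g⁻¹.monotone hy1
      rwa [inv_fix (hGx g hg)] at this
    have c2 : g⁻¹ y ≤ xs + ε := by
      have := g⁻¹.monotone hy2
      rwa [RelIso.inv_apply_self] at this
    rw [htriv _ c1 c2, RelIso.apply_inv_self]
  have hwp : w p = p := hwt p (by linarith) hgp.le
  have hwa : er w a = ((n * L : ℕ) : ℤ) * er t a := by
    have := h2.erC z' g a hz'P hgP (D.fa z' hz'H)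
    rw [D.fa g hgH] at this
    rw [hw, this, hz'a]
  have hwl : el w p = 0 := h2.el0' w p ⟨p - xs, by linarith, fun y hy1 hy2 =>
    hwt y (by linarith) (by linarith)⟩
  have hap : a < p := A.ac.trans A.cp
  have htP : IsPL t := D.pl t D.tH
  have htl : el t p ≠ 0 := by
    intro h0
    obtain ⟨ε', hε', hh⟩ := h2.el0 t p htP A.tp h0
    obtain ⟨y, hy1, hy2⟩ := exists_between (max_lt hap (by linarith : p - ε' < p))
    have d1 := hh y ((le_max_right _ _).trans hy1.le) hy2.le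
    have d2 := A.tr y ((le_max_left _ _).trans_lt hy1) hy2
    linarith
  set G' : Subgroup Hm := Subgroup.closure {t, w} with hG'
  have hG'H : G' ≤ H := by
    rw [hG', Subgroup.closure_le]
    intro g hg
    rcases hg with rfl | hg
    · exact D.tH
    · rw [Set.mem_singleton_iff.1 hg]
      exact hwH
  have htG' : t ∈ G' := Subgroup.subset_closure (Set.mem_insert _ _)
  have hwG' : w ∈ G' := Subgroup.subset_closure (Set.mem_insert_of_mem _ rfl)
  have hG'p : ∀ g ∈ G', g p = p := by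
    apply closure_fix
    intro g hg
    rcases hg with rfl | hg
    · exact A.tp
    · rw [Set.mem_singleton_iff.1 hg]
      exact hwp
  have hwiP : IsPL w⁻¹ := hB.inv w hwP
  have hwia : w⁻¹ a = a := inv_fix (D.fa w hwH)
  have hwip : w⁻¹ p = p := inv_fix hwp
  have hwie : er w⁻¹ a = - er w a := by
    have := h2.erI w a hwP
    rwa [D.fa w hwH] at this
  have hwil : el w⁻¹ p = - el w p := by
    have := h2.elI w p hwP
    rwa [hwp] at this
  obtain ⟨P, hP, Q, hQ, hPQ, hne⟩ := hU G' (fun g hg => D.pl g (hG'H hg)) a p hap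
    (fun g hg => D.fa g (hG'H hg)) hG'p
    (fun u hu1 hu2 => ⟨t, htG', (A.tr u hu1 hu2).ne'⟩)
    (t ^ (n * L) * w⁻¹) (G'.mul_mem (G'.pow_mem htG' _) (G'.inv_mem hwG'))
    (by
      rw [hB.erM _ _ _ (h2.pow t _ htP) hwiP, hwia, h2.erP t _ a htP (D.fa t D.tH), hwie, hwa]
      ring)
    (by
      rw [hB.elM _ _ _ (h2.pow t _ htP) hwiP, hwip, h2.elP t _ p htP A.tp, hwil, hwl]
      rw [neg_zero, add_zero]
      apply mul_ne_zero _ htl
      have : 1 ≤ n * L := Nat.mul_pos hn1 hL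
      exact_mod_cast (by omega : n * L ≠ 0))
  exact hne (D.np P (hG'H hP) Q (hG'H hQ) hPQ)

end DBM

end FPT
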