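import Pool.Agent.Lib.MP_c27bde_al.FP.Spec

set_option autoImplicit false

namespace FPT.DCM

open Set FPT

theorem erI_fix (h2 : SpecPL2) {g : Hm} (hg : IsPL g) {x : ℝ} (hx : g x = x) :
    er g⁻¹ x = - er g x := by
  have := h2.erI g x hg
  rwa [hx] at this

theorem inv_fix {g : Hm} {x : ℝ} (hx : g x = x) : g⁻¹ x = x := by
  have e : g⁻¹ (g x) = x := g.symm_apply_apply x
  rwa [hx] at e

theorem specDC (h : SpecPLB) (h2 : SpecPL2) (hO : SpecORD) : SpecDC := by
  intro H a b t S D c p A x0 hax hxp hfix ⟨s0, hs0, hbr⟩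
  have hBH : Subgroup.closure S ≤ H := (Subgroup.closure_le H).2 D.SH
  have hBer : ∀ g ∈ Subgroup.closure S, er g a = 0 := by
    intro g hg
    induction hg using Subgroup.closure_induction with
    | mem x hx => exact D.S0 x hx
    | one => exact h2.er1 a
    | mul x y hx hy ihx ihy =>
      rw [h.erM x y a (D.pl x (hBH hx)) (D.pl y (hBH hy)), D.fa y (hBH hy), ihx, ihy]; rfl
    | inv x hx ihx =>
      rw [erI_fix h2 (D.pl x (hBH hx)) (D.fa x (hBH hx)), ihx]; rfl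
  -- break points
  have hclaim : ∀ g ∈ Subgroup.closure S, ∀ x, er g x ≠ el g x →
      ∃ β ∈ Subgroup.closure S, β x ∈ ⋃ s ∈ S, {x | er s x ≠ el s x} := by
    intro g hg
    induction hg using Subgroup.closure_induction with
    | mem s hs =>
      intro x hx
      refine ⟨1, one_mem _, ?_⟩
      simp only [mem_iUnion]
      exact ⟨s, hs, hx⟩
    | one =>
      intro x hx
      exact absurd (by rw [h2.er1, h2.el1]) hx
    | mul g k hg hk ihg ihk =>
      intro x hx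
      rw [h.erM g k x (D.pl g (hBH hg)) (D.pl k (hBH hk)),
        h.elM g k x (D.pl g (hBH hg)) (D.pl k (hBH hk))] at hx
      by_cases hk1 : er k x = el k x
      · have hg1 : er g (k x) ≠ el g (k x) := by
          intro h3; apply hx; rw [h3, hk1]
        obtain ⟨β, hβ, h4⟩ := ihg (k x) hg1
        exact ⟨β * k, mul_mem hβ hk, h4⟩
      · exact ihk x hk1
    | inv g hg ihg =>
      intro x hx
      have e : g (g⁻¹ x) = x := g.apply_symm_apply x
      have h3 := h2.erI g (g⁻¹ x) (D.pl g (hBH hg))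
      have h4 := h2.elI g (g⁻¹ x) (D.pl g (hBH hg))
      rw [e] at h3 h4
      have h5 : er g (g⁻¹ x) ≠ el g (g⁻¹ x) := by
        intro h6; apply hx; rw [h3, h4, h6]
      obtain ⟨β, hβ, h7⟩ := ihg (g⁻¹ x) h5
      exact ⟨β * g⁻¹, mul_mem hβ (inv_mem hg), h7⟩
  have hDfin : (⋃ s ∈ S, {x | er s x ≠ el s x}).Finite :=
    D.Sf.biUnion (fun s hs => h.brk s (D.pl s (D.SH hs)))
  have ht : IsPL t := D.pl t D.tH
  have hta : t a = a := D.fa t D.tH
  have hconj : ∀ n : ℕ, t ^ n * s0 * (t ^ n)⁻¹ ∈ Subgroup.closure S := by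
    intro n
    induction n with
    | zero => simpa using Subgroup.subset_closure hs0
    | succ n ih =>
      have := D.conj _ ih
      have e : t ^ (n + 1) * s0 * (t ^ (n + 1))⁻¹ = t * (t ^ n * s0 * (t ^ n)⁻¹) * t⁻¹ := by
        rw [pow_succ']; group
      rw [e]; exact this
  have hbrk : ∀ n : ℕ, ∃ β ∈ Subgroup.closure S,
      β ((t ^ n) x0) ∈ ⋃ s ∈ S, {x | er s x ≠ el s x} := by
    intro n
    apply hclaim _ (hconj n)
    rw [h2.erC s0 (t ^ n) x0 (D.pl s0 (D.SH hs0)) (h2.pow t n ht) (hfix s0 hs0),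
      h2.elC s0 (t ^ n) x0 (D.pl s0 (D.SH hs0)) (h2.pow t n ht) (hfix s0 hs0)]
    exact hbr
  choose β hβ hβD using hbrk
  have : Finite ↥(⋃ s ∈ S, {x | er s x ≠ el s x}) := hDfin.to_subtype
  obtain ⟨n, m, hnm, heq⟩ := Finite.exists_ne_map_eq_of_infinite
    (fun n : ℕ => (⟨β n ((t ^ n) x0), hβD n⟩ : ↥(⋃ s ∈ S, {x | er s x ≠ el s x})))
  have heq' : β n ((t ^ n) x0) = β m ((t ^ m) x0) := congrArg Subtype.val heq
  clear heq
  -- wlog n < m
  have key : ∀ n m : ℕ, n < m → β n ((t ^ n) x0) = β m ((t ^ m) x0) →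
      ∃ z ∈ H, ∃ L : ℕ, 1 ≤ L ∧ er z a = L * er t a ∧ z x0 = x0 := by
    intro n m hlt he
    refine ⟨(t ^ n)⁻¹ * ((β n)⁻¹ * (β m * t ^ m)), ?_, m - n, by omega, ?_, ?_⟩
    · exact mul_mem (inv_mem (pow_mem D.tH n)) (mul_mem (inv_mem (hBH (hβ n)))
        (mul_mem (hBH (hβ m)) (pow_mem D.tH m)))
    · have pn : IsPL (t ^ n) := h2.pow t n ht
      have pm : IsPL (t ^ m) := h2.pow t m ht
      have fn : (t ^ n) a = a := hO.powf t n a hta
      have fm : (t ^ m) a = a := hO.powf t m a hta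
      have bn := D.pl _ (hBH (hβ n))
      have bm := D.pl _ (hBH (hβ m))
      have fbn : (β n) a = a := D.fa _ (hBH (hβ n))
      have fbm : (β m) a = a := D.fa _ (hBH (hβ m))
      have q1 : IsPL (β m * t ^ m) := h.mul _ _ bm pm
      have q2 : IsPL ((β n)⁻¹ * (β m * t ^ m)) := h.mul _ _ (h.inv _ bn) q1
      have e1 : (β m * t ^ m) a = a := by
        show (β m) ((t ^ m) a) = a
        rw [fm, fbm]
      have e2 : ((β n)⁻¹ * (β m * t ^ m)) a = a := by
        show (β n)⁻¹ ((β m * t ^ m) a) = a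
        rw [e1, inv_fix fbn]
      rw [h.erM _ _ a (h.inv _ pn) q2, e2, h.erM _ _ a (h.inv _ bn) q1, e1,
        h.erM _ _ a bm pm, fm, erI_fix h2 pn fn, erI_fix h2 bn fbn, hBer _ (hβ n),
        hBer _ (hβ m), h2.erP t n a ht hta, h2.erP t m a ht hta, Nat.cast_sub hlt.le]
      ring
    · show (t ^ n)⁻¹ ((β n)⁻¹ ((β m) ((t ^ m) x0))) = x0
      rw [← he]
      have e1 : (β n)⁻¹ ((β n) ((t ^ n) x0)) = (t ^ n) x0 := (β n).symm_apply_apply _
      have e2 : (t ^ n)⁻¹ ((t ^ n) x0) = x0 := (t ^ n).symm_apply_apply _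
      rw [e1, e2]
  rcases lt_or_gt_of_ne hnm with hl | hl
  · exact key n m hl heq'
  · exact key m n hl heq'.symm

end FPT.DCM
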