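import Pool.Agent.Lib.MP_c27bde_al.FP.Spec

/-!
# FP/EA: elementary amenable groups do not contain F
-/

set_option autoImplicit false

namespace FPT.EAM

open Function

/-- `G` has a subgroup that maps onto F. -/
def HasF (G : Type) [Group G] : Prop :=
  ∃ (P : Type) (_ : Group P) (i : P →* G) (f : P →* FT), Injective i ∧ Surjective f

theorem map_w1 {G H : Type} [Group G] [Group H] (f : G →* H) (a b : G) :
    f (w1 a b) = w1 (f a) (f b) := by
  simp only [w1, map_mul, map_inv]

theorem map_w2 {G H : Type} [Group G] [Group H] (f : G →* H) (a b : G) :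
    f (w2 a b) = w2 (f a) (f b) := by
  simp only [w2, map_mul, map_inv]

/-- The homomorphism defined by a pair. -/
noncomputable def homOf {G : Type} [Group G] (a b : G) (h : Pair a b) : FT →* G :=
  PresentedGroup.toGroup (rels := rels) (f := fun i : Fin 2 => if i = 0 then a else b) (by
    intro r hr
    rcases hr with rfl | hr
    · rw [map_w1]
      simpa using h.1
    · rw [Set.mem_singleton_iff] at hr
      rw [hr, map_w2]
      simpa using h.2)

theorem homOf_a0 {G : Type} [Group G] (a b : G) (h : Pair a b) : homOf a b h a0 = a := by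
  unfold homOf a0 gx
  rw [PresentedGroup.toGroup.of]
  simp

theorem homOf_a1 {G : Type} [Group G] (a b : G) (h : Pair a b) : homOf a b h a1 = b := by
  unfold homOf a1 gx
  rw [PresentedGroup.toGroup.of]
  simp

theorem closure_ab : Subgroup.closure ({a0, a1} : Set FT) = ⊤ := by
  rw [← PresentedGroup.closure_range_of rels]
  congr 1
  ext x
  constructor
  · rintro (rfl | h)
    · exact ⟨0, rfl⟩
    · rw [Set.mem_singleton_iff] at h
      rw [h]
      exact ⟨1, rfl⟩
  · rintro ⟨j, rfl⟩
    fin_cases j
    · exact Or.inl rfl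
    · exact Or.inr rfl

theorem comm_one {G : Type} [CommGroup G] (u v : G) : u * v * u⁻¹ * v⁻¹ = 1 := by
  rw [mul_comm u v]
  group

theorem infiniteFT : Infinite FT := by
  have hp : Pair (Multiplicative.ofAdd (1 : ℤ)) (1 : Multiplicative ℤ) :=
    ⟨comm_one _ _, comm_one _ _⟩
  refine Infinite.of_surjective (homOf _ _ hp) ?_
  intro n
  refine ⟨a0 ^ (Multiplicative.toAdd n), ?_⟩
  rw [map_zpow, homOf_a0]
  rw [← ofAdd_zsmul]
  simp

theorem hasF_finite (G : Type) [Group G] (h : Finite G) : ¬ HasF G := by
  rintro ⟨P, _, i, f, hi, hf⟩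
  have h1 : Finite P := Finite.of_injective i hi
  have h2 : Finite FT := Finite.of_surjective f hf
  exact infiniteFT.not_finite h2

theorem hasF_abelian (hs : s1 * s2 ≠ s2 * s1) (G : Type) [Group G] (h : ∀ a b : G, a * b = b * a) :
    ¬ HasF G := by
  rintro ⟨P, _, i, f, hi, hf⟩
  obtain ⟨p, hp⟩ := hf s1
  obtain ⟨q, hq⟩ := hf s2
  apply hs
  rw [← hp, ← hq, ← map_mul, ← map_mul]
  congr 1
  apply hi
  rw [map_mul, map_mul]
  exact h _ _

theorem hasF_sub (G : Type) [Group G] (K : Subgroup G) (h : HasF K) : HasF G := by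
  obtain ⟨P, _, i, f, hi, hf⟩ := h
  exact ⟨P, inferInstance, K.subtype.comp i, f, K.subtype_injective.comp hi, hf⟩

theorem hasF_quot (G : Type) [Group G] (N : Subgroup G) [N.Normal] (h : HasF (G ⧸ N)) :
    HasF G := by
  obtain ⟨P, _, i, f, hi, hf⟩ := h
  refine ⟨i.range.comap (QuotientGroup.mk' N), inferInstance, Subgroup.subtype _,
    f.comp ((MonoidHom.ofInjective hi).symm.toMonoidHom.comp
      ((QuotientGroup.mk' N).subgroupComap i.range)), Subgroup.subtype_injective _, ?_⟩
  refine hf.comp ((MonoidHom.ofInjective hi).symm.surjective.comp ?_)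
  exact (QuotientGroup.mk' N).subgroupComap_surjective_of_surjective i.range
    (QuotientGroup.mk'_surjective N)

theorem hasF_iso (G G' : Type) [Group G] [Group G'] (e : G ≃* G') (h : HasF G') : HasF G := by
  obtain ⟨P, _, i, f, hi, hf⟩ := h
  exact ⟨P, inferInstance, e.symm.toMonoidHom.comp i, f, e.symm.injective.comp hi, hf⟩

theorem hasF_fg (G : Type) [Group G] (h : HasF G) :
    ∃ s : Finset G, HasF ↥(Subgroup.closure (s : Set G)) := by
  classical
  obtain ⟨P, _, i, f, hi, hf⟩ := h
  obtain ⟨p, hp⟩ := hf a0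
  obtain ⟨q, hq⟩ := hf a1
  refine ⟨{i p, i q}, Subgroup.closure ({p, q} : Set P), inferInstance,
    (i.comp (Subgroup.closure ({p, q} : Set P)).subtype).codRestrict _ ?_,
    f.comp (Subgroup.closure ({p, q} : Set P)).subtype, ?_, ?_⟩
  · rintro ⟨x, hx⟩
    have h1 : i x ∈ (Subgroup.closure ({p, q} : Set P)).map i := ⟨x, hx, rfl⟩
    rw [MonoidHom.map_closure] at h1
    have h2 : i '' ({p, q} : Set P) = (({i p, i q} : Finset G) : Set G) := by
      rw [Set.image_pair]
      simp
    rw [h2] at h1
    exact h1
  · intro x y hxy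
    have h1 : i (x : P) = i (y : P) := congrArg Subtype.val hxy
    exact Subtype.ext (hi h1)
  · intro g
    have h1 : g ∈ (Subgroup.closure ({p, q} : Set P)).map f := by
      rw [MonoidHom.map_closure, Set.image_pair, hp, hq, closure_ab]
      exact Subgroup.mem_top g
    obtain ⟨x, hx, rfl⟩ := h1
    exact ⟨⟨x, hx⟩, rfl⟩

/-- If the images of the generators commute, the image is commutative. -/
theorem image_comm {G : Type} [Group G] (f : FT →* G) (h : f a0 * f a1 = f a1 * f a0) :
    ∀ x y : FT, f x * f y = f y * f x := by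
  have h0 : ∀ x : FT, Commute (f x) (f a0) ∧ Commute (f x) (f a1) := by
    intro x
    have hx : x ∈ Subgroup.closure ({a0, a1} : Set FT) := by
      rw [closure_ab]; exact Subgroup.mem_top x
    induction hx using Subgroup.closure_induction with
    | mem x hx =>
      rcases hx with rfl | hx
      · exact ⟨Commute.refl _, h⟩
      · rw [Set.mem_singleton_iff] at hx
        rw [hx]
        exact ⟨h.symm, Commute.refl _⟩
    | one =>
      rw [map_one]
      exact ⟨Commute.one_left _, Commute.one_left _⟩
    | mul x y _ _ hx hy =>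
      rw [map_mul]
      exact ⟨hx.1.mul_left hy.1, hx.2.mul_left hy.2⟩
    | inv x _ hx =>
      rw [map_inv]
      exact ⟨hx.1.inv_left, hx.2.inv_left⟩
  intro x y
  have hy : y ∈ Subgroup.closure ({a0, a1} : Set FT) := by
    rw [closure_ab]; exact Subgroup.mem_top y
  have : Commute (f x) (f y) := by
    induction hy using Subgroup.closure_induction with
    | mem y hy =>
      rcases hy with rfl | hy
      · exact (h0 x).1
      · rw [Set.mem_singleton_iff] at hy
        rw [hy]
        exact (h0 x).2
    | one =>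
      rw [map_one]
      exact Commute.one_right _
    | mul y z _ _ hy hz =>
      rw [map_mul]
      exact hy.mul_right hz
    | inv y _ hy =>
      rw [map_inv]
      exact hy.inv_right
  exact this

/-- A non-trivial normal subgroup of F contains the commutator subgroup. -/
theorem comm_le (hFQ : SpecFQ) (L : Subgroup FT) [hL : L.Normal] (hne : L ≠ ⊥) :
    commutator FT ≤ L := by
  have h1 : (QuotientGroup.mk' L) a0 * (QuotientGroup.mk' L) a1 =
      (QuotientGroup.mk' L) a1 * (QuotientGroup.mk' L) a0 := by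
    by_contra h
    have h2 := hFQ (FT ⧸ L) (QuotientGroup.mk' L) h
    apply hne
    rw [← QuotientGroup.ker_mk' L, MonoidHom.ker_eq_bot_iff]
    exact h2
  have h2 := image_comm _ h1
  rw [commutator_def, Subgroup.commutator_le]
  intro x _ y _
  rw [← QuotientGroup.eq_one_iff, commutatorElement_def]
  have h3 := h2 x y
  have h4 : (QuotientGroup.mk' L) (x * y * x⁻¹ * y⁻¹) = 1 := by
    simp only [map_mul, map_inv]
    rw [h3]
    group
  exact h4

theorem hasF_ext (hFQ : SpecFQ) (hFC : SpecFC) (hs : s1 * s2 ≠ s2 * s1) (G : Type) [Group G]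
    (N : Subgroup G) [N.Normal] (h : HasF G) : HasF N ∨ HasF (G ⧸ N) := by
  obtain ⟨P, _, i, f, hi, hf⟩ := h
  set q : P →* G ⧸ N := (QuotientGroup.mk' N).comp i with hq
  have hLn : (q.ker.map f).Normal := Subgroup.Normal.map inferInstance f hf
  by_cases hL : q.ker.map f = ⊥
  · right
    have hker : q.ker ≤ f.ker := by
      rwa [Subgroup.map_eq_bot_iff] at hL
    have hk : ∀ x ∈ q.ker, f x = 1 := fun x hx => hker hx
    refine ⟨q.range, inferInstance, q.range.subtype,
      (QuotientGroup.lift q.ker f hk).comp (QuotientGroup.quotientKerEquivRange q).symm.toMonoidHom,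
      Subgroup.subtype_injective _, ?_⟩
    have hs1 : Surjective (QuotientGroup.lift q.ker f hk) := by
      intro g
      obtain ⟨p, hp⟩ := hf g
      exact ⟨(p : P ⧸ q.ker), by rw [QuotientGroup.lift_mk]; exact hp⟩
    exact hs1.comp (QuotientGroup.quotientKerEquivRange q).symm.surjective
  · left
    have hc := comm_le hFQ (q.ker.map f) hL
    have hinj : Injective (homOf _ _ hFC.pair) := by
      apply hFQ
      rw [homOf_a0, homOf_a1]
      exact hFC.nc hs
    set ψ := homOf _ _ hFC.pair with hψ
    have hrange : ψ.range ≤ q.ker.map f := by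
      rw [MonoidHom.range_eq_map, ← closure_ab, MonoidHom.map_closure, Subgroup.closure_le,
        Set.image_pair, hψ, homOf_a0, homOf_a1]
      rintro x (rfl | hx)
      · exact hc hFC.y0c
      · rw [Set.mem_singleton_iff] at hx
        rw [hx]
        exact hc hFC.y1c
    -- the subgroup of `P`
    let K : Subgroup P := q.ker ⊓ ψ.range.comap f
    have hKN : ∀ x : K, i (x : P) ∈ N := by
      intro x
      have h1 : q (x : P) = 1 := x.2.1
      rw [hq] at h1
      exact (QuotientGroup.eq_one_iff _).1 h1
    have hKf : ∀ x : K, f (x : P) ∈ ψ.range := fun x => x.2.2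
    refine ⟨K, inferInstance, (i.comp K.subtype).codRestrict N hKN,
      (MonoidHom.ofInjective hinj).symm.toMonoidHom.comp
        ((f.comp K.subtype).codRestrict ψ.range hKf), ?_, ?_⟩
    · intro x y hxy
      have h1 : i (x : P) = i (y : P) := congrArg Subtype.val hxy
      exact Subtype.ext (hi h1)
    · refine (MonoidHom.ofInjective hinj).symm.surjective.comp ?_
      rintro ⟨g, hg⟩
      obtain ⟨x, hx, hxg⟩ := hrange hg
      refine ⟨⟨x, hx, ?_⟩, Subtype.ext hxg⟩
      show f x ∈ ψ.range
      rw [hxg]
      exact hg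

/-- EA. -/
theorem specEA : SpecEA := by
  intro hFQ hFC hs H _ hEA hex
  obtain ⟨f, hf⟩ := hex
  have h : ¬ HasF H := by
    refine hEA (fun G _ => ¬ HasF G) ?_ ?_ ?_ ?_ ?_ ?_ ?_
    · intro G _ h
      exact hasF_finite G h
    · intro G _ h
      exact hasF_abelian hs G h
    · intro G _ K h h2
      exact h (hasF_sub G K h2)
    · intro G _ N _ h h2
      exact h (hasF_quot G N h2)
    · intro G _ N _ h1 h2 h3
      exact (hasF_ext hFQ hFC hs G N h3).elim h1 h2
    · intro G _ h h2
      obtain ⟨s, hs⟩ := hasF_fg G h2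
      exact h s hs
    · intro G G' _ _ e h h2
      exact h (hasF_iso G G' e h2)
  exact h ⟨FT, inferInstance, f, MonoidHom.id FT, hf, fun x => ⟨x, rfl⟩⟩

end FPT.EAM
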