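import Pool.Agent.Lib.MP_c27bde_al.FP.Spec

/-!
# FP/FC: a copy of F in the commutator subgroup of F
-/

set_option autoImplicit false

open scoped commutatorElement

namespace FPT.FCM

/-- The shift. -/
def sh (u : FT) : FT := a0⁻¹ * u * a0

theorem sh_mul (u v : FT) : sh (u * v) = sh u * sh v := by
  unfold sh
  group

/-- `R g h k`: `g⁻¹ h g = k`. -/
def R (g h k : FT) : Prop := h * g = g * k

theorem R_sh {g h k : FT} (H : R g h k) : R (sh g) (sh h) (sh k) := by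
  unfold R at *
  rw [← sh_mul, ← sh_mul, H]

theorem R_mul {g h k h' k' : FT} (H : R g h k) (H' : R g h' k') : R g (h * h') (k * k') := by
  unfold R at *
  rw [mul_assoc, H', ← mul_assoc, H, mul_assoc]

theorem R_inv {g h k : FT} (H : R g h k) : R g h⁻¹ k⁻¹ := by
  unfold R at *
  have h1 : g = h * g * k⁻¹ := by rw [H]; group
  calc h⁻¹ * g = h⁻¹ * (h * g * k⁻¹) := by rw [← h1]
    _ = g * k⁻¹ := by group

/-- conjugation of a relation `g⁻¹ h g = k` by `c` -/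
theorem R_conj {c g h k g' h' k' : FT} (H : R g h k) (hg : R c g g') (hh : R c h h')
    (hk : R c k k') : R g' h' k' := by
  unfold R at *
  have e1 : g' = c⁻¹ * g * c := by rw [mul_assoc, hg]; group
  have e2 : h' = c⁻¹ * h * c := by rw [mul_assoc, hh]; group
  have e3 : k' = c⁻¹ * k * c := by rw [mul_assoc, hk]; group
  rw [e1, e2, e3]
  calc c⁻¹ * h * c * (c⁻¹ * g * c) = c⁻¹ * (h * g) * c := by group
    _ = c⁻¹ * (g * k) * c := by rw [H]
    _ = c⁻¹ * g * c * (c⁻¹ * k * c) := by group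

def y4 : FT := sh x3
def y5 : FT := sh y4
def y6 : FT := sh y5

theorem sh_a1 : sh a1 = x2 := rfl

theorem sh_x2 : sh x2 = x3 := by
  unfold sh x2 x3
  group

theorem R0 (u : FT) : R a0 u (sh u) := by
  unfold R sh
  group

theorem rel1 : w1 a0 a1 = 1 := by
  have h : (QuotientGroup.mk (w1 (FreeGroup.of (0 : Fin 2)) (FreeGroup.of (1 : Fin 2))) : FT) = 1 := by
    rw [QuotientGroup.eq_one_iff]
    exact Subgroup.subset_normalClosure (Or.inl rfl)
  exact h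

theorem rel2 : w2 a0 a1 = 1 := by
  have h : (QuotientGroup.mk (w2 (FreeGroup.of (0 : Fin 2)) (FreeGroup.of (1 : Fin 2))) : FT) = 1 := by
    rw [QuotientGroup.eq_one_iff]
    exact Subgroup.subset_normalClosure (Or.inr rfl)
  exact h

theorem comm_of {u v : FT} (h : u * v * u⁻¹ * v⁻¹ = 1) : u * v = v * u := by
  have : u * v = (u * v * u⁻¹ * v⁻¹) * (v * u) := by group
  rw [this, h, one_mul]

theorem R12 : R a1 x2 x3 := by
  have h : (a0 * a1⁻¹) * x2 = x2 * (a0 * a1⁻¹) := comm_of rel1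
  unfold R
  rw [← sh_x2]
  unfold sh
  have h2 : x2 * a0 = (a0 * a1⁻¹) * x2 * a1 := by
    rw [h]
    group
  calc x2 * a1 = a1 * (a0⁻¹ * ((a0 * a1⁻¹) * x2 * a1)) := by group
    _ = a1 * (a0⁻¹ * (x2 * a0)) := by rw [← h2]
    _ = a1 * (a0⁻¹ * x2 * a0) := by group

theorem x3_eq : a0⁻¹ * a0⁻¹ * a1 * a0 * a0 = x3 := rfl

theorem R13 : R a1 x3 y4 := by
  have h : (a0 * a1⁻¹) * x3 = x3 * (a0 * a1⁻¹) := comm_of rel2
  unfold R y4 sh
  have h2 : x3 * a0 = (a0 * a1⁻¹) * x3 * a1 := by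
    rw [h]
    group
  calc x3 * a1 = a1 * (a0⁻¹ * ((a0 * a1⁻¹) * x3 * a1)) := by group
    _ = a1 * (a0⁻¹ * (x3 * a0)) := by rw [← h2]
    _ = a1 * (a0⁻¹ * x3 * a0) := by group

theorem R23 : R x2 x3 y4 := by
  have h := R_sh R12
  rw [sh_a1, sh_x2] at h
  exact h

theorem R24 : R x2 y4 y5 := by
  have h := R_sh R13
  rw [sh_a1] at h
  exact h

theorem R34 : R x3 y4 y5 := by
  have h := R_sh R23
  rw [sh_x2] at h
  exact h

theorem R14 : R a1 y4 y5 := by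
  -- y4 = x2⁻¹ x3 x2, so a1⁻¹ y4 a1 = x3⁻¹ y4 x3 = y5
  have h1 : y4 = x2⁻¹ * (x3 * x2) := by
    have := R23
    unfold R at this
    rw [this]
    group
  have h2 : y5 = x3⁻¹ * (y4 * x3) := by
    have := R34
    unfold R at this
    rw [this]
    group
  have h3 : R a1 (x2⁻¹ * (x3 * x2)) (x3⁻¹ * (y4 * x3)) := R_mul (R_inv R12) (R_mul R13 R12)
  rwa [← h1, ← h2] at h3

theorem R25 : R x2 y5 y6 := by
  have h := R_sh R14
  rw [sh_a1] at h
  exact h

theorem R45 : R y4 y5 y6 := R_sh R34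

theorem R15 : R a1 y5 y6 := by
  have h1 : y5 = x3⁻¹ * (y4 * x3) := by
    have := R34
    unfold R at this
    rw [this]
    group
  have h2 : y6 = y4⁻¹ * (y5 * y4) := by
    have := R45
    unfold R at this
    rw [this]
    group
  have h3 : R a1 (x3⁻¹ * (y4 * x3)) (y4⁻¹ * (y5 * y4)) := R_mul (R_inv R13) (R_mul R14 R13)
  rwa [← h1, ← h2] at h3

theorem comm_s1 {u v : FT} (h1 : R a1 u v) (h2 : R x2 u v) : Commute s1 u := by
  unfold R at h1 h2
  unfold Commute SemiconjBy s1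
  have e1 : v = x2⁻¹ * (u * x2) := by rw [h2]; group
  calc a1 * x2⁻¹ * u = a1 * (x2⁻¹ * (u * x2)) * x2⁻¹ := by group
    _ = a1 * v * x2⁻¹ := by rw [← e1]
    _ = u * a1 * x2⁻¹ := by rw [← h1]
    _ = u * (a1 * x2⁻¹) := by group

theorem c3 : Commute s1 x3 := comm_s1 R13 R23
theorem c4 : Commute s1 y4 := comm_s1 R14 R24
theorem c5 : Commute s1 y5 := comm_s1 R15 R25

/-- `y0` and `y1` -/
def p0 : FT := a1 * x3⁻¹
def p1 : FT := x2 * x3⁻¹

theorem p01 : p0 * p1⁻¹ = s1 := by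
  unfold p0 p1 s1
  group

theorem conj1 : p0⁻¹ * p1 * p0 = x3 * (x3 * y4⁻¹) * x3⁻¹ := by
  have h : R a1 (x2 * x3⁻¹) (x3 * y4⁻¹) := R_mul R12 (R_inv R13)
  unfold R at h
  unfold p0 p1
  calc (a1 * x3⁻¹)⁻¹ * (x2 * x3⁻¹) * (a1 * x3⁻¹) = x3 * a1⁻¹ * (x2 * x3⁻¹ * a1) * x3⁻¹ := by group
    _ = x3 * a1⁻¹ * (a1 * (x3 * y4⁻¹)) * x3⁻¹ := by rw [h]
    _ = x3 * (x3 * y4⁻¹) * x3⁻¹ := by group

theorem conj2 : p0⁻¹ * p0⁻¹ * p1 * p0 * p0 = x3 * (y4 * (y4 * y5⁻¹) * y4⁻¹) * x3⁻¹ := by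
  have h : R a1 (x3 * (x3 * y4⁻¹) * x3⁻¹) (y4 * (y4 * y5⁻¹) * y4⁻¹) :=
    R_mul (R_mul R13 (R_mul R13 (R_inv R14))) (R_inv R13)
  unfold R at h
  calc p0⁻¹ * p0⁻¹ * p1 * p0 * p0 = p0⁻¹ * (p0⁻¹ * p1 * p0) * p0 := by group
    _ = p0⁻¹ * (x3 * (x3 * y4⁻¹) * x3⁻¹) * p0 := by rw [conj1]
    _ = x3 * a1⁻¹ * ((x3 * (x3 * y4⁻¹) * x3⁻¹) * a1) * x3⁻¹ := by
      unfold p0
      group
    _ = x3 * a1⁻¹ * (a1 * (y4 * (y4 * y5⁻¹) * y4⁻¹)) * x3⁻¹ := by rw [h]
    _ = x3 * (y4 * (y4 * y5⁻¹) * y4⁻¹) * x3⁻¹ := by group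

theorem commutator_one {u v : FT} (h : Commute u v) : u * v * u⁻¹ * v⁻¹ = 1 := by
  rw [h.eq]
  group

theorem pair : Pair p0 p1 := by
  refine ⟨?_, ?_⟩
  · unfold w1
    rw [p01, conj1]
    apply commutator_one
    exact (c3.mul_right (c3.mul_right c4.inv_right)).mul_right c3.inv_right
  · unfold w2
    rw [p01, conj2]
    apply commutator_one
    exact (c3.mul_right ((c4.mul_right (c4.mul_right c5.inv_right)).mul_right c4.inv_right)).mul_right
      c3.inv_right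

theorem s1_mem : s1 ∈ commutator FT := by
  have h : s1 = ⁅a1, a0⁻¹⁆ := by
    unfold s1 x2
    rw [commutatorElement_def]
    group
  rw [h]
  exact Subgroup.commutator_mem_commutator (Subgroup.mem_top _) (Subgroup.mem_top _)

theorem s2_eq : s2 = a0⁻¹ * s1 * a0 := by
  unfold s2 s1 x2 x3
  simp only [mul_inv_rev, inv_inv, mul_assoc, mul_inv_cancel_left]

theorem s2_mem : s2 ∈ commutator FT := by
  rw [s2_eq]
  have h : (commutator FT).Normal := inferInstance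
  have := h.conj_mem s1 s1_mem a0⁻¹
  rwa [inv_inv] at this

theorem p0_eq : p0 = s1 * s2 := by
  unfold p0 s1 s2
  group

theorem p1_eq : p1 = s2 := rfl

/-- FC. -/
theorem specFC : SpecFC where
  s1c := s1_mem
  s2c := s2_mem
  y0c := by
    have h : p0 ∈ commutator FT := by
      rw [p0_eq]
      exact mul_mem s1_mem s2_mem
    exact h
  y1c := by
    have h : p1 ∈ commutator FT := s2_mem
    exact h
  pair := pair
  nc := by
    intro h h2
    apply h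
    have h3 : p0 * p1 = p1 * p0 := h2
    rw [p0_eq, p1_eq] at h3
    have h4 : s1 * s2 * s2 = s2 * s1 * s2 := by rw [h3]; group
    exact mul_right_cancel h4

end FPT.FCM
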