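import Pool.Agent.Lib.MP_c27bde_al.FP.Spec

/-!
FGC: commuting elements of a free group, torsion.
-/

set_option autoImplicit false

namespace FPT.FGCM

/-- two different free generators do not commute -/
theorem eq_of_comm {ι : Type} (i j : ι)
    (h : FreeGroup.of i * FreeGroup.of j = FreeGroup.of j * FreeGroup.of i) : i = j := by
  classical
  by_contra hij
  let f : ι → Equiv.Perm (Fin 3) := fun k => if k = i then Equiv.swap 0 1 else Equiv.swap 1 2
  have h1 := congrArg (FreeGroup.lift f) h
  have hi : f i = Equiv.swap 0 1 := by simp [f]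
  have hj : f j = Equiv.swap 1 2 := by
    have : j ≠ i := fun h => hij h.symm
    simp [f, this]
  rw [map_mul, map_mul, FreeGroup.lift_apply_of, FreeGroup.lift_apply_of, hi, hj] at h1
  revert h1
  decide

/-- a free group with at most one generator is cyclic -/
theorem pow_of {ι : Type} (i : ι) (hι : ∀ j : ι, j = i) (w : FreeGroup ι) :
    ∃ k : ℤ, w = FreeGroup.of i ^ k := by
  induction w using FreeGroup.induction_on with
  | C1 => exact ⟨0, by simp⟩
  | of j => exact ⟨1, by rw [hι j]; simp⟩
  | inv_of j _ => exact ⟨-1, by rw [hι j]; simp⟩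
  | mul x y hx hy =>
    obtain ⟨k, rfl⟩ := hx
    obtain ⟨l, rfl⟩ := hy
    exact ⟨k + l, by rw [zpow_add]⟩

theorem cyclic (x y : FreeGroup (Fin 2)) (hxy : x * y = y * x) :
    ∃ (c : FreeGroup (Fin 2)) (i j : ℤ), x = c ^ i ∧ y = c ^ j := by
  set H : Subgroup (FreeGroup (Fin 2)) := Subgroup.closure {x, y} with hH
  have hcomm : ∀ a ∈ H, ∀ b ∈ H, a * b = b * a := by
    intro a ha b hb
    have h1 : ∀ s ∈ ({x, y} : Set (FreeGroup (Fin 2))), ∀ t ∈ ({x, y} : Set (FreeGroup (Fin 2))),
        s * t = t * s := by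
      rintro s (rfl | rfl) t (rfl | rfl)
      · rfl
      · exact hxy
      · exact hxy.symm
      · rfl
    have h2 : ∀ s ∈ ({x, y} : Set (FreeGroup (Fin 2))), ∀ t ∈ H, s * t = t * s := by
      intro s hs t ht
      induction ht using Subgroup.closure_induction with
      | mem t ht => exact h1 s hs t ht
      | one => simp
      | mul u v _ _ hu hv => rw [← mul_assoc, hu, mul_assoc, hv, mul_assoc]
      | inv u _ hu =>
        have : Commute s u := hu
        exact this.inv_right
    induction ha using Subgroup.closure_induction with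
    | mem a ha => exact h2 a ha b hb
    | one => simp
    | mul u v _ _ hu hv => rw [mul_assoc, hv, ← mul_assoc, hu, mul_assoc]
    | inv u _ hu =>
      have : Commute u b := hu
      exact this.inv_left
  have hxH : x ∈ H := Subgroup.subset_closure (by simp)
  have hyH : y ∈ H := Subgroup.subset_closure (by simp)
  have : IsFreeGroup H := subgroupIsFreeOfIsFree H
  let e : FreeGroup (IsFreeGroup.Generators H) ≃* H := IsFreeGroup.mulEquiv H
  have hsub : ∀ i j : IsFreeGroup.Generators H, i = j := by
    intro i j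
    apply eq_of_comm
    apply e.injective
    rw [map_mul, map_mul]
    apply Subtype.ext
    exact hcomm _ (e (FreeGroup.of i)).2 _ (e (FreeGroup.of j)).2
  rcases isEmpty_or_nonempty (IsFreeGroup.Generators H) with hem | ⟨⟨i0⟩⟩
  · have hone : ∀ w : FreeGroup (IsFreeGroup.Generators H), w = 1 := fun w => Subsingleton.elim _ _
    have h1 : ∀ h : H, h = 1 := by
      intro h
      rw [← e.apply_symm_apply h, hone (e.symm h), map_one]
    have hx1 : x = 1 := congrArg Subtype.val (h1 ⟨x, hxH⟩)
    have hy1 : y = 1 := congrArg Subtype.val (h1 ⟨y, hyH⟩)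
    exact ⟨1, 0, 0, by simp [hx1], by simp [hy1]⟩
  · obtain ⟨k, hk⟩ := pow_of i0 (fun j => hsub j i0) (e.symm ⟨x, hxH⟩)
    obtain ⟨l, hl⟩ := pow_of i0 (fun j => hsub j i0) (e.symm ⟨y, hyH⟩)
    refine ⟨(e (FreeGroup.of i0) : H), k, l, ?_, ?_⟩
    · have h1 : (⟨x, hxH⟩ : H) = e (FreeGroup.of i0) ^ k := by
        rw [← map_zpow, ← hk, e.apply_symm_apply]
      have := congrArg Subtype.val h1
      simpa using this
    · have h1 : (⟨y, hyH⟩ : H) = e (FreeGroup.of i0) ^ l := by
        rw [← map_zpow, ← hl, e.apply_symm_apply]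
      have := congrArg Subtype.val h1
      simpa using this

theorem torsion (x : FreeGroup (Fin 2)) (n : ℤ) (hn : n ≠ 0) (h : x ^ n = 1) : x = 1 := by
  have : x ^ n = 1 ^ n := by rw [h, one_zpow]
  exact zpow_left_injective hn this

theorem specFGC : SpecFGC := by
  refine ⟨fun x y hxy => ?_, torsion⟩
  obtain ⟨c, i, j, rfl, rfl⟩ := cyclic x y hxy
  by_cases h : i = 0 ∧ j = 0
  · exact ⟨1, 1, Or.inl one_ne_zero, by rw [h.1, h.2]⟩
  · refine ⟨j, i, ?_, ?_⟩
    · by_contra hcon
      push Not at hcon
      exact h ⟨hcon.2, hcon.1⟩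
    · rw [← zpow_mul, ← zpow_mul, mul_comm]

end FPT.FGCM
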