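import Mathlib
import Pool.Agent.Lib.MP_c27bde_al.FP.Spec

set_option autoImplicit false

/-! # A homomorphism from Thompson's group with non-commuting images of the generators is injective -/

namespace FPT.FQM

/-- `x 0 = a0`, `x (n+1) = a0^{-n} a1 a0^n` -/
def x : ℕ → FT
  | 0 => a0
  | (n + 1) => (a0 ^ n)⁻¹ * a1 * a0 ^ n

theorem x_zero : x 0 = a0 := rfl

theorem x_one : x 1 = a1 := by simp [x]

theorem x_two : x 2 = a0⁻¹ * a1 * a0 := by simp [x]

theorem x_three : x 3 = a0⁻¹ * a0⁻¹ * a1 * a0 * a0 := by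
  simp [x, pow_succ, mul_assoc]

theorem w1_eq : w1 a0 a1 = (1 : FT) := by
  have h : PresentedGroup.mk rels (w1 (FreeGroup.of (0 : Fin 2)) (FreeGroup.of (1 : Fin 2))) = 1 :=
    PresentedGroup.one_of_mem (Set.mem_insert _ _)
  simp only [w1, map_mul, map_inv] at h
  exact h

theorem w2_eq : w2 a0 a1 = (1 : FT) := by
  have h : PresentedGroup.mk rels (w2 (FreeGroup.of (0 : Fin 2)) (FreeGroup.of (1 : Fin 2))) = 1 :=
    PresentedGroup.one_of_mem (Set.mem_insert_of_mem _ (Set.mem_singleton _))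
  simp only [w2, map_mul, map_inv] at h
  exact h

theorem xs (n : ℕ) : a0⁻¹ * x (n + 1) * a0 = x (n + 2) := by
  simp only [x, pow_succ, mul_inv_rev, mul_assoc]

/-- conjugation of a relation by `a0` -/
theorem shift {k n m : ℕ} (h : (x (k + 1))⁻¹ * x (n + 1) * x (k + 1) = x (m + 1)) :
    (x (k + 2))⁻¹ * x (n + 2) * x (k + 2) = x (m + 2) := by
  rw [← xs k, ← xs n, ← xs m, ← h]
  group

theorem r12 : (x 1)⁻¹ * x 2 * x 1 = x 3 := by
  have h := w1_eq
  rw [← xs 1, x_one, x_two]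
  unfold w1 at h
  rw [mul_inv_eq_one, mul_inv_eq_iff_eq_mul] at h
  -- a0 * a1⁻¹ * (a0⁻¹ a1 a0) = (a0⁻¹ a1 a0) * (a0 * a1⁻¹)
  have h2 : a0⁻¹ * (a0 * a1⁻¹ * (a0⁻¹ * a1 * a0)) * a1 =
      a0⁻¹ * (a0⁻¹ * a1 * a0 * (a0 * a1⁻¹)) * a1 := by rw [h]
  calc a1⁻¹ * (a0⁻¹ * a1 * a0) * a1 = a0⁻¹ * (a0 * a1⁻¹ * (a0⁻¹ * a1 * a0)) * a1 := by group
    _ = a0⁻¹ * (a0⁻¹ * a1 * a0 * (a0 * a1⁻¹)) * a1 := h2
    _ = a0⁻¹ * (a0⁻¹ * a1 * a0) * a0 := by group

theorem r13 : (x 1)⁻¹ * x 3 * x 1 = x 4 := by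
  have h := w2_eq
  rw [← xs 2, x_one, x_three]
  unfold w2 at h
  rw [mul_inv_eq_one, mul_inv_eq_iff_eq_mul] at h
  have h2 : a0⁻¹ * (a0 * a1⁻¹ * (a0⁻¹ * a0⁻¹ * a1 * a0 * a0)) * a1 =
      a0⁻¹ * (a0⁻¹ * a0⁻¹ * a1 * a0 * a0 * (a0 * a1⁻¹)) * a1 := by rw [h]
  calc a1⁻¹ * (a0⁻¹ * a0⁻¹ * a1 * a0 * a0) * a1 =
        a0⁻¹ * (a0 * a1⁻¹ * (a0⁻¹ * a0⁻¹ * a1 * a0 * a0)) * a1 := by group
    _ = a0⁻¹ * (a0⁻¹ * a0⁻¹ * a1 * a0 * a0 * (a0 * a1⁻¹)) * a1 := h2
    _ = a0⁻¹ * (a0⁻¹ * a0⁻¹ * a1 * a0 * a0) * a0 := by group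

theorem adj1 (n : ℕ) : (x (n + 1))⁻¹ * x (n + 2) * x (n + 1) = x (n + 3) := by
  induction n with
  | zero => exact r12
  | succ n ih => exact shift (k := n) (n := n + 1) (m := n + 2) ih

theorem adj2 (n : ℕ) : (x (n + 1))⁻¹ * x (n + 3) * x (n + 1) = x (n + 4) := by
  induction n with
  | zero => exact r13
  | succ n ih => exact shift (k := n) (n := n + 2) (m := n + 3) ih

theorem relAux (j : ℕ) : ∀ k : ℕ, (x (k + 1))⁻¹ * x (k + j + 2) * x (k + 1) = x (k + j + 3) := by
  induction j using Nat.strong_induction_on with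
  | _ j ih =>
    intro k
    match j, ih with
    | 0, _ => exact adj1 k
    | 1, _ => exact adj2 k
    | (j + 2), ih =>
      have h1 := ih j (by omega) k
      have h2 := ih (j + 1) (by omega) k
      have h3 := adj1 (k + j + 1)
      have h4 := adj1 (k + j + 2)
      rw [show k + (j + 1) + 2 = k + j + 3 by ring, show k + (j + 1) + 3 = k + j + 4 by ring] at h2
      rw [show k + j + 1 + 1 = k + j + 2 by ring, show k + j + 1 + 2 = k + j + 3 by ring,
        show k + j + 1 + 3 = k + j + 4 by ring] at h3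
      rw [show k + j + 2 + 1 = k + j + 3 by ring, show k + j + 2 + 2 = k + j + 4 by ring,
        show k + j + 2 + 3 = k + j + 5 by ring] at h4
      rw [show k + (j + 2) + 2 = k + j + 4 by ring, show k + (j + 2) + 3 = k + j + 5 by ring]
      calc (x (k + 1))⁻¹ * x (k + j + 4) * x (k + 1) =
            (x (k + 1))⁻¹ * ((x (k + j + 2))⁻¹ * x (k + j + 3) * x (k + j + 2)) * x (k + 1) := by
            rw [h3]
        _ = ((x (k + 1))⁻¹ * x (k + j + 2) * x (k + 1))⁻¹ *
              ((x (k + 1))⁻¹ * x (k + j + 3) * x (k + 1)) *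
              ((x (k + 1))⁻¹ * x (k + j + 2) * x (k + 1)) := by group
        _ = (x (k + j + 3))⁻¹ * x (k + j + 4) * x (k + j + 3) := by rw [h1, h2]
        _ = x (k + j + 5) := h4

/-- The relations of the infinite presentation. -/
theorem rel {k n : ℕ} (h : k < n) : (x k)⁻¹ * x n * x k = x (n + 1) := by
  rcases k with _ | k
  · obtain ⟨m, rfl⟩ := Nat.exists_eq_add_of_lt h
    rw [x_zero, zero_add]
    exact xs m
  · obtain ⟨j, rfl⟩ := Nat.exists_eq_add_of_lt h
    have := relAux j k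
    rwa [show k + j + 2 = k + 1 + j + 1 by ring, show k + j + 3 = k + 1 + j + 1 + 1 by ring] at this

theorem rel' {k n : ℕ} (h : k < n) : x n * x k = x k * x (n + 1) := by
  rw [← rel h]; group

/-- value of a positive word -/
def val (P : List ℕ) : FT := (P.map x).prod

theorem val_nil : val [] = 1 := rfl

theorem val_cons (n : ℕ) (P : List ℕ) : val (n :: P) = x n * val P := by
  simp [val]

theorem val_append (P Q : List ℕ) : val (P ++ Q) = val P * val Q := by
  simp [val]

/-- conjugation is a shift -/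
theorem conj_val {k : ℕ} (P : List ℕ) (hP : ∀ n ∈ P, k < n) :
    (x k)⁻¹ * val P * x k = val (P.map (· + 1)) := by
  induction P with
  | nil => simp [val_nil]
  | cons n P ih =>
    rw [List.map_cons, val_cons, val_cons, ← rel (hP n List.mem_cons_self),
      ← ih (fun m hm => hP m (List.mem_cons_of_mem _ hm))]
    group

theorem conj_quot {k : ℕ} (P Q : List ℕ) (hP : ∀ n ∈ P, k < n) (hQ : ∀ n ∈ Q, k < n) :
    (x k)⁻¹ * (val P * (val Q)⁻¹) * x k =
      val (P.map (· + 1)) * (val (Q.map (· + 1)))⁻¹ := by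
  rw [← conj_val P hP, ← conj_val Q hQ]
  group

/-- moving an inverse letter through a positive word -/
theorem inv_mul_val (P : List ℕ) : ∀ k : ℕ, ∃ P' Q' : List ℕ,
    (x k)⁻¹ * val P = val P' * (val Q')⁻¹ := by
  induction P with
  | nil => exact fun k => ⟨[], [k], by simp [val]⟩
  | cons n P ih =>
    intro k
    rcases lt_trichotomy n k with h | h | h
    · obtain ⟨P', Q', e⟩ := ih (k + 1)
      refine ⟨n :: P', Q', ?_⟩
      rw [val_cons, val_cons, mul_assoc, ← e, ← rel h]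
      group
    · subst h
      exact ⟨P, [], by rw [val_cons, val_nil]; group⟩
    · obtain ⟨P', Q', e⟩ := ih k
      refine ⟨(n + 1) :: P', Q', ?_⟩
      rw [val_cons, val_cons, mul_assoc, ← e, ← rel h]
      group

/-- every element is a quotient of positive words -/
theorem exists_quot (g : FT) : ∃ P Q : List ℕ, g = val P * (val Q)⁻¹ := by
  have hg : g ∈ Subgroup.closure (Set.range (PresentedGroup.of : Fin 2 → PresentedGroup rels)) := by
    rw [PresentedGroup.closure_range_of]; trivial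
  have hx : ∀ i : Fin 2, ∃ k : ℕ, (PresentedGroup.of i : PresentedGroup rels) = x k := by
    intro i
    fin_cases i
    · exact ⟨0, rfl⟩
    · exact ⟨1, x_one.symm⟩
  induction hg using Subgroup.closure_induction_left with
  | one => exact ⟨[], [], by simp [val]⟩
  | mul_left a ha y hy ih =>
    obtain ⟨i, rfl⟩ := ha
    obtain ⟨k, hk⟩ := hx i
    obtain ⟨P, Q, e⟩ := ih
    refine ⟨k :: P, Q, ?_⟩
    rw [hk, e, val_cons]
    group
  | inv_mul_cancel a ha y hy ih =>
    obtain ⟨i, rfl⟩ := ha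
    obtain ⟨k, hk⟩ := hx i
    obtain ⟨P, Q, e⟩ := ih
    obtain ⟨P', Q', e'⟩ := inv_mul_val P k
    refine ⟨P', Q ++ Q', ?_⟩
    rw [hk, e, val_append, mul_inv_rev, ← mul_assoc, ← mul_assoc, e']

/-- extraction of the smallest letter -/
theorem extract {k : ℕ} (P : List ℕ) (hP : ∀ n ∈ P, k ≤ n) (hk : k ∈ P) :
    ∃ P₁ : List ℕ, val P = x k * val P₁ ∧ P₁.length + 1 = P.length ∧ ∀ n ∈ P₁, k ≤ n := by
  induction P with
  | nil => simp at hk
  | cons n P ih =>
    rcases eq_or_lt_of_le (hP n List.mem_cons_self) with h | h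
    · subst h
      exact ⟨P, val_cons _ _, by simp, fun m hm => hP m (List.mem_cons_of_mem _ hm)⟩
    · have hk' : k ∈ P := by
        rcases List.mem_cons.1 hk with h' | h'
        · omega
        · exact h'
      obtain ⟨P₁, e1, e2, e3⟩ := ih (fun m hm => hP m (List.mem_cons_of_mem _ hm)) hk'
      refine ⟨(n + 1) :: P₁, ?_, by simp [← e2], ?_⟩
      · rw [val_cons, val_cons, e1, ← mul_assoc, rel' h, mul_assoc]
      · intro m hm
        rcases List.mem_cons.1 hm with rfl | hm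
        · omega
        · exact e3 m hm

/-- extraction of all smallest letters -/
theorem extractAll {k : ℕ} : ∀ (l : ℕ) (P : List ℕ), P.length = l → (∀ n ∈ P, k ≤ n) →
    ∃ (b : ℕ) (P₁ : List ℕ), val P = x k ^ b * val P₁ ∧ (k ∈ P → 1 ≤ b) ∧ ∀ n ∈ P₁, k < n := by
  intro l
  induction l with
  | zero =>
    intro P hl hP
    have : P = [] := List.length_eq_zero_iff.1 hl
    subst this
    exact ⟨0, [], by simp, by simp, by simp⟩
  | succ l ih =>
    intro P hl hP
    by_cases hk : k ∈ P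
    · obtain ⟨P₁, e1, e2, e3⟩ := extract P hP hk
      obtain ⟨b, P₂, c1, c2, c3⟩ := ih P₁ (by omega) e3
      refine ⟨b + 1, P₂, ?_, fun _ => by omega, c3⟩
      rw [e1, c1, pow_succ', mul_assoc]
    · refine ⟨0, P, by simp, fun h => absurd h hk, ?_⟩
      intro n hn
      rcases eq_or_lt_of_le (hP n hn) with h | h
      · subst h; exact absurd hn hk
      · exact h

section
variable {G : Type} [Group G] (f : FT →* G)

theorem ne_succ (hf : f a0 * f a1 ≠ f a1 * f a0) (k : ℕ) : f (x (k + 1)) ≠ f (x (k + 2)) := by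
  intro h
  apply hf
  have h1 : x (k + 1) = (a0 ^ k)⁻¹ * a1 * a0 ^ k := rfl
  have h2 : x (k + 2) = (a0 ^ k)⁻¹ * (a0⁻¹ * a1 * a0) * a0 ^ k := by
    change (a0 ^ (k + 1))⁻¹ * a1 * a0 ^ (k + 1) = _
    rw [pow_succ']
    simp only [mul_inv_rev, mul_assoc]
  rw [h1, h2] at h
  simp only [map_mul, map_inv, map_pow] at h
  have h3 : f a1 = (f a0)⁻¹ * f a1 * f a0 := by
    have := mul_right_cancel h
    exact mul_left_cancel this
  calc f a0 * f a1 = f a0 * ((f a0)⁻¹ * f a1 * f a0) := by rw [← h3]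
    _ = f a1 * f a0 := by group

theorem pow_conj (k b : ℕ) : (x k ^ b)⁻¹ * x (k + 1) * x k ^ b = x (k + 1 + b) := by
  induction b with
  | zero => simp
  | succ b ih =>
    have h := rel (show k < k + 1 + b by omega)
    rw [← ih] at h
    rw [show k + 1 + (b + 1) = k + 1 + b + 1 by ring, ← h, pow_succ]
    group

/-- a power of `x k` cannot have the same image as a quotient of words with letters `> k`. -/
theorem no_pow (hf : f a0 * f a1 ≠ f a1 * f a0) {k b : ℕ} (hb : 1 ≤ b) (P Q : List ℕ)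
    (hP : ∀ n ∈ P, k < n) (hQ : ∀ n ∈ Q, k < n)
    (h : f (x k) ^ b = f (val Q * (val P)⁻¹)) : False := by
  set P1 := P.map (· + 1) with hP1
  set Q1 := Q.map (· + 1) with hQ1
  have hP1k : ∀ n ∈ P1, k + 1 < n := by
    intro n hn
    obtain ⟨m, hm, rfl⟩ := List.mem_map.1 hn
    have := hP m hm
    show k + 1 < m + 1
    omega
  have hQ1k : ∀ n ∈ Q1, k + 1 < n := by
    intro n hn
    obtain ⟨m, hm, rfl⟩ := List.mem_map.1 hn
    have := hQ m hm
    show k + 1 < m + 1
    omega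
  have e1 := conj_quot Q P hQ hP
  have e2 := conj_quot Q1 P1 (fun n hn => by have := hQ1k n hn; omega)
    (fun n hn => by have := hP1k n hn; omega) (k := k)
  have e3 := conj_quot Q1 P1 hQ1k hP1k
  have g1 : f (val Q1 * (val P1)⁻¹) = f (x k) ^ b := by
    rw [← e1]
    simp only [map_mul, map_inv] at h ⊢
    rw [← h]
    calc (f (x k))⁻¹ * f (x k) ^ b * f (x k) = (f (x k))⁻¹ * (f (x k) ^ b * f (x k)) := by
          rw [mul_assoc]
      _ = f (x k) ^ b := by rw [← pow_succ, pow_succ']; group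
  have g2 : (f (x k))⁻¹ * f (x k) ^ b * f (x k) = f (x k) ^ b := by
    rw [mul_assoc, ← pow_succ, pow_succ', inv_mul_cancel_left]
  have g3 : (f (x (k + 1)))⁻¹ * f (x k) ^ b * f (x (k + 1)) = f (x k) ^ b := by
    have e4 := e3.trans e2.symm
    have e5 := congrArg f e4
    simp only [map_mul, map_inv] at e5 g1
    rw [g1, g2] at e5
    exact e5
  have g4 : f (x (k + 1 + b)) = f (x (k + 1)) := by
    rw [← pow_conj]
    simp only [map_mul, map_inv, map_pow]
    have : f (x k) ^ b * f (x (k + 1)) = f (x (k + 1)) * f (x k) ^ b := by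
      calc f (x k) ^ b * f (x (k + 1)) =
            f (x (k + 1)) * ((f (x (k + 1)))⁻¹ * f (x k) ^ b * f (x (k + 1))) := by group
        _ = f (x (k + 1)) * f (x k) ^ b := by rw [g3]
    rw [mul_assoc, ← this, inv_mul_cancel_left]
  have r1 := congrArg f (rel (show k + 1 < k + 1 + b by omega))
  have r2 := congrArg f (rel (show k < k + 1 + b by omega))
  have r3 := congrArg f (rel (show k < k + 1 by omega))
  simp only [map_mul, map_inv] at r1 r2 r3
  rw [g4] at r1 r2
  apply ne_succ f hf k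
  rw [show k + 2 = k + 1 + 1 by ring, ← r3, r2, ← r1]
  group

theorem exists_min (P Q : List ℕ) (h : 0 < P.length + Q.length) :
    ∃ k, (k ∈ P ∨ k ∈ Q) ∧ (∀ n ∈ P, k ≤ n) ∧ ∀ n ∈ Q, k ≤ n := by
  classical
  have hex : ∃ k, k ∈ P ∨ k ∈ Q := by
    by_contra hcon
    push Not at hcon
    have h1 : P = [] := List.eq_nil_iff_forall_not_mem.2 (fun a => (hcon a).1)
    have h2 : Q = [] := List.eq_nil_iff_forall_not_mem.2 (fun a => (hcon a).2)
    subst h1; subst h2
    simp at h
  exact ⟨Nat.find hex, Nat.find_spec hex, fun n hn => Nat.find_min' hex (Or.inl hn),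
    fun n hn => Nat.find_min' hex (Or.inr hn)⟩

theorem key (hf : f a0 * f a1 ≠ f a1 * f a0) : ∀ (l : ℕ) (P Q : List ℕ),
    P.length + Q.length = l → f (val P) = f (val Q) → val P = val Q := by
  have step : ∀ (k : ℕ) (P Q : List ℕ), (∀ n ∈ P, k ≤ n) → (∀ n ∈ Q, k ≤ n) → k ∈ P → k ∉ Q →
      f (val P) = f (val Q) → False := by
    intro k P Q hP hQ hkP hkQ h
    obtain ⟨b, P₁, e1, e2, e3⟩ := extractAll P.length P rfl hP
    apply no_pow f hf (e2 hkP) P₁ Q e3
    · intro n hn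
      rcases eq_or_lt_of_le (hQ n hn) with h | h
      · subst h; exact absurd hn hkQ
      · exact h
    · rw [e1] at h
      simp only [map_mul, map_inv, map_pow] at h ⊢
      rw [← h]
      group
  intro l
  induction l using Nat.strong_induction_on with
  | _ l ih =>
    intro P Q hl h
    rcases Nat.eq_zero_or_pos (P.length + Q.length) with h0 | h0
    · have h1 : P = [] := List.length_eq_zero_iff.1 (by omega)
      have h2 : Q = [] := List.length_eq_zero_iff.1 (by omega)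
      rw [h1, h2]
    · obtain ⟨k, hk, hP, hQ⟩ := exists_min P Q h0
      by_cases hkP : k ∈ P
      · by_cases hkQ : k ∈ Q
        · obtain ⟨P₁, e1, e2, -⟩ := extract P hP hkP
          obtain ⟨Q₁, c1, c2, -⟩ := extract Q hQ hkQ
          rw [e1, c1, map_mul, map_mul] at h
          rw [e1, c1, ih (P₁.length + Q₁.length) (by omega) P₁ Q₁ rfl (mul_left_cancel h)]
        · exact (step k P Q hP hQ hkP hkQ h).elim
      · have hkQ : k ∈ Q := hk.resolve_left hkP
        exact (step k Q P hQ hP hkQ hkP h.symm).elim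

end

theorem specFQ : SpecFQ := by
  intro G _ f hf
  rw [injective_iff_map_eq_one]
  intro g hg
  obtain ⟨P, Q, rfl⟩ := exists_quot g
  have h : f (val P) = f (val Q) := by
    rw [map_mul, map_inv, mul_inv_eq_one] at hg
    exact hg
  rw [key f hf _ P Q rfl h, mul_inv_cancel]

end FPT.FQM
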