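import Mathlib
import Pool.Agent.Lib.MP_c27bde_al.FP.Spec

set_option autoImplicit false

/-! # NF: no free subgroups of rank two in PL -/

namespace FPT

namespace NFM

open scoped commutatorElement

theorem inv_fix {g : Hm} {x : ℝ} (h : g x = x) : g⁻¹ x = x := by
  have h1 : g⁻¹ (g x) = x := RelIso.inv_apply_self g x
  rwa [h] at h1

theorem apply_conj {g k : Hm} (y : ℝ) : (k * g * k⁻¹) y = k (g (k⁻¹ y)) := rfl

/-- an orbital of the range of `φ` -/
def Orb (φ : FreeGroup (Fin 2) →* Hm) (c d : ℝ) : Prop :=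
  c < d ∧ (∀ g, φ g c = c) ∧ (∀ g, φ g d = d) ∧ ∀ v, c < v → v < d → ∃ g, φ g v ≠ v

theorem fix_of_gen (φ : FreeGroup (Fin 2) →* Hm) (y : ℝ) (h : ∀ i, φ (FreeGroup.of i) y = y) :
    ∀ g, φ g y = y := by
  intro g
  induction g using FreeGroup.induction_on with
  | C1 => rw [map_one]; rfl
  | of i => exact h i
  | inv_of i hi => rw [map_inv]; exact inv_fix hi
  | mul a b ha hb =>
    rw [map_mul]
    show φ a (φ b y) = y
    rw [hb, ha]

theorem er_comm (hB : SpecPLB) (h2 : SpecPL2) (φ : FreeGroup (Fin 2) →* Hm)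
    (hPL : ∀ g, IsPL (φ g)) {c : ℝ} (hc : ∀ g, φ g c = c) {w : FreeGroup (Fin 2)}
    (hw : w ∈ commutator (FreeGroup (Fin 2))) : er (φ w) c = 0 := by
  let χ : FreeGroup (Fin 2) →* Multiplicative ℤ :=
    { toFun := fun g => Multiplicative.ofAdd (er (φ g) c)
      map_one' := by rw [map_one, h2.er1]; rfl
      map_mul' := by
        intro a b
        rw [map_mul, hB.erM _ _ _ (hPL a) (hPL b), hc b]
        rfl }
  have h3 : w ∈ χ.ker := Abelianization.commutator_subset_ker χ hw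
  exact Multiplicative.ofAdd.injective (MonoidHom.mem_ker.1 h3)

theorem el_comm (hB : SpecPLB) (h2 : SpecPL2) (φ : FreeGroup (Fin 2) →* Hm)
    (hPL : ∀ g, IsPL (φ g)) {c : ℝ} (hc : ∀ g, φ g c = c) {w : FreeGroup (Fin 2)}
    (hw : w ∈ commutator (FreeGroup (Fin 2))) : el (φ w) c = 0 := by
  let χ : FreeGroup (Fin 2) →* Multiplicative ℤ :=
    { toFun := fun g => Multiplicative.ofAdd (el (φ g) c)
      map_one' := by rw [map_one, h2.el1]; rfl
      map_mul' := by
        intro a b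
        rw [map_mul, hB.elM _ _ _ (hPL a) (hPL b), hc b]
        rfl }
  have h3 : w ∈ χ.ker := Abelianization.commutator_subset_ker χ hw
  exact Multiplicative.ofAdd.injective (MonoidHom.mem_ker.1 h3)

/-- the induction step -/
theorem step (hB : SpecPLB) (h2 : SpecPL2) (hO : SpecORD) (hF : SpecFGC)
    (φ : FreeGroup (Fin 2) →* Hm) (hPL : ∀ g, IsPL (φ g)) {c d : ℝ} (ho : Orb φ c d)
    {w : FreeGroup (Fin 2)} (hw : w ∈ commutator (FreeGroup (Fin 2))) (hw1 : w ≠ 1) :
    ∃ w' ∈ commutator (FreeGroup (Fin 2)), w' ≠ 1 ∧ (∀ u, c ≤ u → u ≤ d → φ w' u = u) ∧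
      ∀ c' d', Orb φ c' d' → (∀ u, c' ≤ u → u ≤ d' → φ w u = u) →
        ∀ u, c' ≤ u → u ≤ d' → φ w' u = u := by
  obtain ⟨hcd, hc, hd, hno⟩ := ho
  by_cases htr : ∀ u, c ≤ u → u ≤ d → φ w u = u
  · exact ⟨w, hw, hw1, htr, fun c' d' _ h => h⟩
  obtain ⟨ε₁, hε₁, ht1⟩ := h2.er0 (φ w) c (hPL w) (hc w) (er_comm hB h2 φ hPL hc hw)
  obtain ⟨ε₂, hε₂, ht2⟩ := h2.el0 (φ w) d (hPL w) (hd w) (el_comm hB h2 φ hPL hd hw)
  set p : ℝ := min (c + ε₁) ((c + d) / 2) with hp
  set q : ℝ := max (d - ε₂) ((c + d) / 2) with hq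
  have hcp : c < p := lt_min (by linarith) (by linarith)
  have hpd : p < d := lt_of_le_of_lt (min_le_right _ _) (by linarith)
  have hqd : q < d := max_lt (by linarith) (by linarith)
  have hcq : c < q := lt_of_lt_of_le (by linarith : c < (c + d) / 2) (le_max_right _ _)
  have t1 : ∀ u, c ≤ u → u ≤ p → φ w u = u := fun u h3 h4 => ht1 u h3 (h4.trans (min_le_left _ _))
  have t2 : ∀ u, q ≤ u → u ≤ d → φ w u = u := fun u h3 h4 =>
    ht2 u ((le_max_left _ _).trans h3) h4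
  obtain ⟨g, ⟨v, rfl⟩, hv⟩ := hO.orbR φ.range c d
    (by rintro _ ⟨g, rfl⟩; exact hc g) (by rintro _ ⟨g, rfl⟩; exact hd g)
    (by
      intro u h3 h4
      obtain ⟨g, hg⟩ := hno u h3 h4
      exact ⟨φ g, ⟨g, rfl⟩, hg⟩) p q hcp hpd hqd
  set y : FreeGroup (Fin 2) := v * w * v⁻¹ with hy
  have hφy : φ y = φ v * φ w * (φ v)⁻¹ := by rw [hy, map_mul, map_mul, map_inv]
  -- `φ y` is trivial on `[c, q]`
  have t3 : ∀ u, c ≤ u → u ≤ q → φ y u = u := by
    intro u h3 h4
    rw [hφy, apply_conj]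
    have e1 : c ≤ (φ v)⁻¹ u := by
      have := (φ v)⁻¹.monotone h3
      rwa [inv_fix (hc v)] at this
    have e2 : (φ v)⁻¹ u ≤ p := by
      have := (φ v)⁻¹.monotone (h4.trans hv.le)
      rwa [RelIso.inv_apply_self] at this
    rw [t1 _ e1 e2, RelIso.apply_inv_self]
  -- commutation on `[c, d]`
  have hcomm : ∀ u, c ≤ u → u ≤ d → φ w (φ y u) = φ y (φ w u) := by
    intro u h3 h4
    rcases le_total u q with h5 | h5
    · rw [t3 u h3 h5]
      symm
      apply t3
      · have := (φ w).monotone h3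
        rwa [hc w] at this
      · have := (φ w).monotone h5
        rwa [t2 q le_rfl hqd.le] at this
    · rw [t2 u h5 h4]
      apply t2
      · have := (φ y).monotone h5
        rwa [t3 q hcq.le le_rfl] at this
      · have := (φ y).monotone h4
        rwa [hd y] at this
  have hyc : y ∈ commutator (FreeGroup (Fin 2)) :=
    (inferInstance : (commutator (FreeGroup (Fin 2))).Normal).conj_mem w hw v
  set w' : FreeGroup (Fin 2) := w * y * w⁻¹ * y⁻¹ with hw'
  have hw'c : w' ∈ commutator (FreeGroup (Fin 2)) :=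
    Subgroup.mul_mem _ (Subgroup.mul_mem _ (Subgroup.mul_mem _ hw hyc) (Subgroup.inv_mem _ hw))
      (Subgroup.inv_mem _ hyc)
  have hφw' : ∀ u, φ w' u = φ w (φ y ((φ w)⁻¹ ((φ y)⁻¹ u))) := by
    intro u
    rw [hw', map_mul, map_mul, map_mul, map_inv, map_inv]
    rfl
  refine ⟨w', hw'c, ?_, ?_, ?_⟩
  · intro h1
    have h3 : w * y = y * w := by
      rw [hw', mul_inv_eq_one, mul_inv_eq_iff_eq_mul] at h1
      exact h1
    obtain ⟨m, n, hmn, he⟩ := hF.1 w y h3
    have hm : m ≠ 0 := by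
      intro hm0
      rw [hm0, zpow_zero] at he
      have hn : n ≠ 0 := by
        rcases hmn with h | h
        · exact absurd hm0 h
        · exact h
      have hy1 := hF.2 y n hn he.symm
      apply hw1
      rw [hy] at hy1
      have : w = v⁻¹ * (v * w * v⁻¹) * v := by group
      rw [this, hy1]
      group
    apply htr
    intro u h4 h5
    apply hO.zpowi (φ w) m u hm
    rcases le_total u q with h6 | h6
    · rw [← map_zpow, he, map_zpow]
      exact hO.zpowf (φ y) n u (t3 u h4 h6)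
    · exact hO.zpowf (φ w) m u (t2 u h6 h5)
  · intro u h3 h4
    rw [hφw']
    -- apply commutation at `(φ w)⁻¹ ((φ y)⁻¹ u)`
    have e0 : ∀ k : FreeGroup (Fin 2), ∀ r, c ≤ r → r ≤ d → c ≤ (φ k)⁻¹ r ∧ (φ k)⁻¹ r ≤ d := by
      intro k r h5 h6
      constructor
      · have := (φ k)⁻¹.monotone h5
        rwa [inv_fix (hc k)] at this
      · have := (φ k)⁻¹.monotone h6
        rwa [inv_fix (hd k)] at this
    obtain ⟨a1, a2⟩ := e0 y u h3 h4
    obtain ⟨b1, b2⟩ := e0 w _ a1 a2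
    rw [hcomm _ b1 b2, RelIso.apply_inv_self, RelIso.apply_inv_self]
  · intro c' d' ho' htr' u h3 h4
    obtain ⟨_, hc', hd', _⟩ := ho'
    have e1 : ∀ r, c' ≤ r → r ≤ d' → φ y r = r := by
      intro r h5 h6
      rw [hφy, apply_conj]
      have e2 : c' ≤ (φ v)⁻¹ r := by
        have := (φ v)⁻¹.monotone h5
        rwa [inv_fix (hc' v)] at this
      have e3 : (φ v)⁻¹ r ≤ d' := by
        have := (φ v)⁻¹.monotone h6
        rwa [inv_fix (hd' v)] at this
      rw [htr' _ e2 e3, RelIso.apply_inv_self]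
    rw [hφw', inv_fix (e1 u h3 h4), inv_fix (htr' u h3 h4), e1 u h3 h4, htr' u h3 h4]

theorem specNF (hB : SpecPLB) (h2 : SpecPL2) (hO : SpecORD) (hF : SpecFGC) : SpecNF := by
  classical
  intro φ hPL hinj
  set E : Set ℝ := {c | ∃ d, Orb φ c d} with hE
  have hEfin : E.Finite := by
    apply (Set.finite_univ.biUnion (t := fun i : Fin 2 =>
      {x | φ (FreeGroup.of i) x = x ∧ er (φ (FreeGroup.of i)) x ≠ 0})
      (fun i _ => hB.fixR _ (hPL _))).subset
    rintro c ⟨d, hcd, hc, hd, hno⟩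
    by_contra hcon
    have h3 : ∀ i : Fin 2, er (φ (FreeGroup.of i)) c = 0 := by
      intro i
      by_contra hne
      exact hcon (Set.mem_biUnion (Set.mem_univ i) ⟨hc _, hne⟩)
    have h4 : ∀ i : Fin 2, ∃ ε > 0, ∀ y, c ≤ y → y ≤ c + ε → φ (FreeGroup.of i) y = y :=
      fun i => h2.er0 _ c (hPL _) (hc _) (h3 i)
    obtain ⟨ε₀, hε₀, h5⟩ := h4 0
    obtain ⟨ε₁, hε₁, h6⟩ := h4 1
    obtain ⟨u, hu1, hu2⟩ := exists_between
      (lt_min (lt_min (by linarith : c < c + ε₀) (by linarith : c < c + ε₁)) hcd)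
    obtain ⟨g, hg⟩ := hno u hu1 (hu2.trans_le (min_le_right _ _))
    apply hg
    apply fix_of_gen
    intro i
    fin_cases i
    · exact h5 u hu1.le (hu2.le.trans ((min_le_left _ _).trans (min_le_left _ _)))
    · exact h6 u hu1.le (hu2.le.trans ((min_le_left _ _).trans (min_le_right _ _)))
  have hinduct : ∀ F : Finset ℝ, (∀ c ∈ F, c ∈ E) →
      ∃ w ∈ commutator (FreeGroup (Fin 2)), w ≠ 1 ∧
        ∀ c ∈ F, ∀ d, Orb φ c d → ∀ u, c ≤ u → u ≤ d → φ w u = u := by
    intro F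
    induction F using Finset.induction_on with
    | empty =>
      intro _
      refine ⟨⁅FreeGroup.of 0, FreeGroup.of 1⁆,
        Subgroup.commutator_mem_commutator (Subgroup.mem_top _) (Subgroup.mem_top _), ?_, ?_⟩
      · rw [Ne, commutatorElement_eq_one_iff_mul_comm]
        decide
      · intro c hc
        exact absurd hc (Finset.notMem_empty _)
    | insert c F _ ih =>
      intro hFE
      obtain ⟨w, hw, hw1, hw2⟩ := ih (fun c' hc' => hFE c' (Finset.mem_insert_of_mem hc'))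
      obtain ⟨d, hcd⟩ := hFE c (Finset.mem_insert_self _ _)
      obtain ⟨w', a1, a2, a3, a4⟩ := step hB h2 hO hF φ hPL hcd hw hw1
      refine ⟨w', a1, a2, ?_⟩
      intro c' hc' d' ho'
      rcases Finset.mem_insert.1 hc' with rfl | hc'
      · have hdd : d' = d := by
          rcases lt_trichotomy d' d with hlt | heq | hgt
          · exfalso
            obtain ⟨g, hg⟩ := hcd.2.2.2 d' ho'.1 hlt
            exact hg (ho'.2.2.1 g)
          · exact heq
          · exfalso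
            obtain ⟨g, hg⟩ := ho'.2.2.2 d hcd.1 hgt
            exact hg (hcd.2.2.1 g)
        rw [hdd]
        exact a3
      · exact a4 c' d' ho' (hw2 c' hc' d' ho')
  obtain ⟨w, _, hw1, hw2⟩ := hinduct hEfin.toFinset (fun c hc => hEfin.mem_toFinset.1 hc)
  apply hw1
  apply hinj
  rw [map_one]
  ext u
  show φ w u = u
  by_cases hu : ∀ g, φ g u = u
  · exact hu w
  · push Not at hu
    obtain ⟨g, hg⟩ := hu
    obtain ⟨a, b, h3, h4, h5, h6, h7⟩ := hO.orbital φ.range
      (by rintro _ ⟨g, rfl⟩; exact hPL g) u ⟨φ g, ⟨g, rfl⟩, hg⟩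
    have ho : Orb φ a b := by
      refine ⟨h3.trans h4, fun g => h5 _ ⟨g, rfl⟩, fun g => h6 _ ⟨g, rfl⟩, ?_⟩
      intro v h8 h9
      obtain ⟨_, ⟨g, rfl⟩, hg⟩ := h7 v h8 h9
      exact ⟨g, hg⟩
    exact hw2 a (hEfin.mem_toFinset.2 ⟨b, ho⟩) b ho u h3.le h4.le

end NFM

end FPT
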