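import Pool.Agent.Lib.MP_c27bde_al.FP.Spec

set_option autoImplicit false

namespace FPT.ORDM

open FPT

theorem mul_app (g h : Hm) (x : ℝ) : (g * h) x = g (h x) := rfl
theorem one_app (x : ℝ) : (1 : Hm) x = x := rfl
theorem inv_app_self (g : Hm) (x : ℝ) : g⁻¹ (g x) = x := g.symm_apply_apply x
theorem app_inv_self (g : Hm) (x : ℝ) : g (g⁻¹ x) = x := g.apply_symm_apply x

theorem inv_fix {g : Hm} {x : ℝ} (h : g x = x) : g⁻¹ x = x := by
  have := inv_app_self g x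
  rwa [h] at this

/-- the infimum of a bounded below orbit is fixed -/
theorem inf_fix (G : Subgroup Hm) (u : ℝ) (hb : BddBelow {x | ∃ g ∈ G, x = g u}) :
    ∀ h ∈ G, h (sInf {x | ∃ g ∈ G, x = g u}) = sInf {x | ∃ g ∈ G, x = g u} := by
  set S := {x | ∃ g ∈ G, x = g u} with hS
  have hne : S.Nonempty := ⟨u, 1, G.one_mem, rfl⟩
  have key : ∀ h ∈ G, h (sInf S) ≤ sInf S := by
    intro h hh
    apply le_csInf hne
    rintro _ ⟨g, hg, rfl⟩
    have h1 : sInf S ≤ (h⁻¹ * g) u := csInf_le hb ⟨h⁻¹ * g, G.mul_mem (G.inv_mem hh) hg, rfl⟩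
    have h2 := (h : Hm).monotone h1
    rwa [mul_app, app_inv_self] at h2
  intro h hh
  refine le_antisymm (key h hh) ?_
  have h1 := (h : Hm).monotone (key h⁻¹ (G.inv_mem hh))
  rwa [app_inv_self] at h1

/-- the supremum of a bounded above orbit is fixed -/
theorem sup_fix (G : Subgroup Hm) (u : ℝ) (hb : BddAbove {x | ∃ g ∈ G, x = g u}) :
    ∀ h ∈ G, h (sSup {x | ∃ g ∈ G, x = g u}) = sSup {x | ∃ g ∈ G, x = g u} := by
  set S := {x | ∃ g ∈ G, x = g u} with hS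
  have hne : S.Nonempty := ⟨u, 1, G.one_mem, rfl⟩
  have key : ∀ h ∈ G, sSup S ≤ h (sSup S) := by
    intro h hh
    apply csSup_le hne
    rintro _ ⟨g, hg, rfl⟩
    have h1 : (h⁻¹ * g) u ≤ sSup S := le_csSup hb ⟨h⁻¹ * g, G.mul_mem (G.inv_mem hh) hg, rfl⟩
    have h2 := (h : Hm).monotone h1
    rwa [mul_app, app_inv_self] at h2
  intro h hh
  refine le_antisymm ?_ (key h hh)
  have h1 := (h : Hm).monotone (key h⁻¹ (G.inv_mem hh))
  rwa [app_inv_self] at h1

theorem orbL (G : Subgroup Hm) (a b : ℝ) (_ha : ∀ g ∈ G, g a = a) (_hb : ∀ g ∈ G, g b = b)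
    (hm : ∀ u, a < u → u < b → ∃ g ∈ G, g u ≠ u) (u v : ℝ) (hu : a < u) (hu' : u < b)
    (hv : a < v) : ∃ g ∈ G, g u < v := by
  by_contra hcon
  push Not at hcon
  have hbd : BddBelow {x | ∃ g ∈ G, x = g u} := by
    refine ⟨v, ?_⟩
    rintro _ ⟨g, hg, rfl⟩
    exact hcon g hg
  have hne : {x | ∃ g ∈ G, x = g u}.Nonempty := ⟨u, 1, G.one_mem, rfl⟩
  have h1 : v ≤ sInf {x | ∃ g ∈ G, x = g u} := by
    apply le_csInf hne
    rintro _ ⟨g, hg, rfl⟩
    exact hcon g hg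
  have h2 : sInf {x | ∃ g ∈ G, x = g u} ≤ u := csInf_le hbd ⟨1, G.one_mem, rfl⟩
  obtain ⟨g, hg, hne'⟩ := hm _ (lt_of_lt_of_le hv h1) (lt_of_le_of_lt h2 hu')
  exact hne' (inf_fix G u hbd g hg)

theorem orbR (G : Subgroup Hm) (a b : ℝ) (_ha : ∀ g ∈ G, g a = a) (_hb : ∀ g ∈ G, g b = b)
    (hm : ∀ u, a < u → u < b → ∃ g ∈ G, g u ≠ u) (u v : ℝ) (hu : a < u) (hu' : u < b)
    (hv : v < b) : ∃ g ∈ G, v < g u := by
  by_contra hcon
  push Not at hcon
  have hbd : BddAbove {x | ∃ g ∈ G, x = g u} := by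
    refine ⟨v, ?_⟩
    rintro _ ⟨g, hg, rfl⟩
    exact hcon g hg
  have hne : {x | ∃ g ∈ G, x = g u}.Nonempty := ⟨u, 1, G.one_mem, rfl⟩
  have h1 : sSup {x | ∃ g ∈ G, x = g u} ≤ v := by
    apply csSup_le hne
    rintro _ ⟨g, hg, rfl⟩
    exact hcon g hg
  have h2 : u ≤ sSup {x | ∃ g ∈ G, x = g u} := le_csSup hbd ⟨1, G.one_mem, rfl⟩
  obtain ⟨g, hg, hne'⟩ := hm _ (lt_of_lt_of_le hu h2) (lt_of_le_of_lt h1 hv)
  exact hne' (sup_fix G u hbd g hg)

theorem dir (g : Hm) (a b : ℝ) (h : ∀ u, a < u → u < b → g u ≠ u) :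
    (∀ u, a < u → u < b → g u < u) ∨ (∀ u, a < u → u < b → u < g u) := by
  by_contra hcon
  rw [not_or] at hcon
  obtain ⟨h1, h2⟩ := hcon
  push Not at h1 h2
  obtain ⟨u, hu1, hu2, hu3⟩ := h1
  obtain ⟨v, hv1, hv2, hv3⟩ := h2
  have hc : ContinuousOn (fun x => g x - x) (Set.Ioo a b) :=
    (g.continuous.sub continuous_id).continuousOn
  have := (isPreconnected_Ioo (a := a) (b := b)).intermediate_value (a := v) (b := u)
    ⟨hv1, hv2⟩ ⟨hu1, hu2⟩ hc
  obtain ⟨w, hw, hw'⟩ := this (show (0:ℝ) ∈ Set.Icc (g v - v) (g u - u) from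
    ⟨by linarith, by linarith⟩)
  exact h w hw.1 hw.2 (by simpa [sub_eq_zero] using hw')

theorem powf (g : Hm) (n : ℕ) (x : ℝ) (h : g x = x) : (g ^ n) x = x := by
  induction n with
  | zero => rfl
  | succ n ih => rw [pow_succ, mul_app, h, ih]

theorem zpowf (g : Hm) (n : ℤ) (x : ℝ) (h : g x = x) : (g ^ n) x = x := by
  cases n with
  | ofNat n => simpa using powf g n x h
  | negSucc n =>
    rw [zpow_negSucc]
    exact inv_fix (powf g (n + 1) x h)

theorem pow_lt (g : Hm) (x : ℝ) (h : x < g x) (n : ℕ) : x < (g ^ (n + 1)) x := by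
  induction n with
  | zero => simpa using h
  | succ n ih =>
    rw [pow_succ, mul_app]
    exact lt_trans ih ((g ^ (n + 1)).strictMono h)

theorem pow_gt (g : Hm) (x : ℝ) (h : g x < x) (n : ℕ) : (g ^ (n + 1)) x < x := by
  induction n with
  | zero => simpa using h
  | succ n ih =>
    rw [pow_succ, mul_app]
    exact lt_trans ((g ^ (n + 1)).strictMono h) ih

theorem powi (g : Hm) (n : ℕ) (x : ℝ) (hn : 1 ≤ n) (h : (g ^ n) x = x) : g x = x := by
  obtain ⟨m, rfl⟩ := Nat.exists_eq_add_of_le' hn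
  rcases lt_trichotomy (g x) x with h1 | h1 | h1
  · exact absurd h (pow_gt g x h1 m).ne
  · exact h1
  · exact absurd h (pow_lt g x h1 m).ne'

theorem zpowi (g : Hm) (n : ℤ) (x : ℝ) (hn : n ≠ 0) (h : (g ^ n) x = x) : g x = x := by
  cases n with
  | ofNat n =>
    refine powi g n x ?_ (by simpa using h)
    rcases Nat.eq_zero_or_pos n with h0 | h0
    · subst h0; exact absurd rfl hn
    · exact h0
  | negSucc n =>
    rw [zpow_negSucc] at h
    have := inv_fix h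
    rw [inv_inv] at this
    exact powi g (n + 1) x (by omega) this

/-- powers stay in the interval -/
theorem zpow_mem (g : Hm) (a b : ℝ) (ha : g a = a) (hb : g b = b) (u : ℝ) (h1 : a < u)
    (h2 : u < b) (k : ℤ) : a < (g ^ k) u ∧ (g ^ k) u < b := by
  constructor
  · have := (g ^ k).strictMono h1
    rwa [zpowf g k a ha] at this
  · have := (g ^ k).strictMono h2
    rwa [zpowf g k b hb] at this

theorem itL (g : Hm) (a b : ℝ) (ha : g a = a) (hb : g b = b)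
    (hm : ∀ u, a < u → u < b → g u < u) (u v : ℝ) (hu : a < u) (hu' : u < b) (hv : a < v) :
    ∃ n0 : ℕ, ∀ n ≥ n0, (g ^ n) u < v := by
  have hG : ∀ x, g x = x → ∀ h ∈ Subgroup.zpowers g, h x = x := by
    rintro x hx _ ⟨k, rfl⟩
    exact zpowf g k x hx
  obtain ⟨_, ⟨k, rfl⟩, hk⟩ := orbL (Subgroup.zpowers g) a b (hG a ha) (hG b hb)
    (fun u h1 h2 => ⟨g, Subgroup.mem_zpowers g, (hm u h1 h2).ne⟩) u v hu hu' hv
  have hanti : Antitone (fun k : ℤ => (g ^ k) u) := by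
    apply antitone_int_of_succ_le
    intro k
    obtain ⟨h1, h2⟩ := zpow_mem g a b ha hb u hu hu' k
    have : (g ^ (k + 1)) u = g ((g ^ k) u) := by rw [add_comm, zpow_add, zpow_one]; rfl
    show (g ^ (k + 1)) u ≤ (g ^ k) u
    rw [this]
    exact (hm _ h1 h2).le
  refine ⟨k.toNat, fun n hn => ?_⟩
  have h1 : k ≤ (n : ℤ) := by
    have := Int.self_le_toNat k
    omega
  have h2 := hanti h1
  simp only [zpow_natCast] at h2
  exact lt_of_le_of_lt h2 hk

theorem itR (g : Hm) (a b : ℝ) (ha : g a = a) (hb : g b = b)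
    (hm : ∀ u, a < u → u < b → u < g u) (u v : ℝ) (hu : a < u) (hu' : u < b) (hv : v < b) :
    ∃ n0 : ℕ, ∀ n ≥ n0, v < (g ^ n) u := by
  have hG : ∀ x, g x = x → ∀ h ∈ Subgroup.zpowers g, h x = x := by
    rintro x hx _ ⟨k, rfl⟩
    exact zpowf g k x hx
  obtain ⟨_, ⟨k, rfl⟩, hk⟩ := orbR (Subgroup.zpowers g) a b (hG a ha) (hG b hb)
    (fun u h1 h2 => ⟨g, Subgroup.mem_zpowers g, (hm u h1 h2).ne'⟩) u v hu hu' hv
  have hanti : Monotone (fun k : ℤ => (g ^ k) u) := by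
    apply monotone_int_of_le_succ
    intro k
    obtain ⟨h1, h2⟩ := zpow_mem g a b ha hb u hu hu' k
    have : (g ^ (k + 1)) u = g ((g ^ k) u) := by rw [add_comm, zpow_add, zpow_one]; rfl
    show (g ^ k) u ≤ (g ^ (k + 1)) u
    rw [this]
    exact (hm _ h1 h2).le
  refine ⟨k.toNat, fun n hn => ?_⟩
  have h1 : k ≤ (n : ℤ) := by
    have := Int.self_le_toNat k
    omega
  have h2 := hanti h1
  simp only [zpow_natCast] at h2
  exact lt_of_lt_of_le hk h2

theorem itL' (g : Hm) (a b : ℝ) (ha : g a = a) (hb : g b = b)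
    (hm : ∀ u, a < u → u < b → g u < u) (u v : ℝ) (hu : a < u) (hu' : u < b) (hv : v < b) :
    ∃ n0 : ℕ, ∀ n ≥ n0, v < ((g ^ n)⁻¹) u := by
  obtain ⟨n0, hn0⟩ := itR g⁻¹ a b (inv_fix ha) (inv_fix hb) (fun u h1 h2 => by
    obtain ⟨h3, h4⟩ := zpow_mem g a b ha hb u h1 h2 (-1)
    rw [zpow_neg_one] at h3 h4
    have := hm _ h3 h4
    rwa [app_inv_self] at this) u v hu hu' hv
  refine ⟨n0, fun n hn => ?_⟩
  have := hn0 n hn
  rwa [inv_pow] at this

theorem itR' (g : Hm) (a b : ℝ) (ha : g a = a) (hb : g b = b)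
    (hm : ∀ u, a < u → u < b → u < g u) (u v : ℝ) (hu : a < u) (hu' : u < b) (hv : a < v) :
    ∃ n0 : ℕ, ∀ n ≥ n0, ((g ^ n)⁻¹) u < v := by
  obtain ⟨n0, hn0⟩ := itL g⁻¹ a b (inv_fix ha) (inv_fix hb) (fun u h1 h2 => by
    obtain ⟨h3, h4⟩ := zpow_mem g a b ha hb u h1 h2 (-1)
    rw [zpow_neg_one] at h3 h4
    have := hm _ h3 h4
    rwa [app_inv_self] at this) u v hu hu' hv
  refine ⟨n0, fun n hn => ?_⟩
  have := hn0 n hn
  rwa [inv_pow] at this

theorem last (g : Hm) (o b : ℝ) (ho : g o = o) (hob : o < b)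
    (he : ∃ ε > 0, ∀ u, b - ε < u → u < b → g u ≠ u) :
    ∃ r, o ≤ r ∧ r < b ∧ g r = r ∧ ∀ u, r < u → u < b → g u ≠ u := by
  obtain ⟨ε, hε, he⟩ := he
  set S : Set ℝ := {u | o ≤ u ∧ u < b ∧ g u = u} with hS
  have hle : ∀ u ∈ S, u ≤ b - ε := by
    rintro u ⟨_, h2, h3⟩
    by_contra h4
    exact he u (by linarith) h2 h3
  have hoS : o ∈ S := ⟨le_refl _, hob, ho⟩
  have hne : S.Nonempty := ⟨o, hoS⟩
  have hbd : BddAbove S := ⟨b - ε, hle⟩
  have h1 : sSup S ≤ b - ε := csSup_le hne hle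
  have h2 : o ≤ sSup S := le_csSup hbd hoS
  have h3 : sSup S ≤ g (sSup S) := by
    apply csSup_le hne
    intro s hs
    have := g.monotone (le_csSup hbd hs)
    rwa [hs.2.2] at this
  have h4 : sSup S ≤ g⁻¹ (sSup S) := by
    apply csSup_le hne
    intro s hs
    have := (g⁻¹ : Hm).monotone (le_csSup hbd hs)
    rwa [inv_fix hs.2.2] at this
  have h5 : g (sSup S) ≤ sSup S := by
    have := g.monotone h4
    rwa [app_inv_self] at this
  refine ⟨sSup S, h2, by linarith, le_antisymm h5 h3, ?_⟩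
  intro u hu1 hu2 hu3
  have := le_csSup hbd (show u ∈ S from ⟨by linarith, hu2, hu3⟩)
  linarith

theorem first (g : Hm) (o b : ℝ) (hb : g b = b) (hob : o < b)
    (he : ∃ ε > 0, ∀ u, o < u → u < o + ε → g u ≠ u) :
    ∃ r, o < r ∧ r ≤ b ∧ g r = r ∧ ∀ u, o < u → u < r → g u ≠ u := by
  obtain ⟨ε, hε, he⟩ := he
  set S : Set ℝ := {u | o < u ∧ u ≤ b ∧ g u = u} with hS
  have hle : ∀ u ∈ S, o + ε ≤ u := by
    rintro u ⟨h1, h2, h3⟩
    by_contra h4
    exact he u h1 (by linarith) h3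
  have hbS : b ∈ S := ⟨hob, le_refl _, hb⟩
  have hne : S.Nonempty := ⟨b, hbS⟩
  have hbd : BddBelow S := ⟨o + ε, hle⟩
  have h1 : o + ε ≤ sInf S := le_csInf hne hle
  have h2 : sInf S ≤ b := csInf_le hbd hbS
  have h3 : g (sInf S) ≤ sInf S := by
    apply le_csInf hne
    intro s hs
    have := g.monotone (csInf_le hbd hs)
    rwa [hs.2.2] at this
  have h4 : g⁻¹ (sInf S) ≤ sInf S := by
    apply le_csInf hne
    intro s hs
    have := (g⁻¹ : Hm).monotone (csInf_le hbd hs)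
    rwa [inv_fix hs.2.2] at this
  have h5 : sInf S ≤ g (sInf S) := by
    have := g.monotone h4
    rwa [app_inv_self] at this
  refine ⟨sInf S, by linarith, h2, le_antisymm h3 h5, ?_⟩
  intro u hu1 hu2 hu3
  have := csInf_le hbd (show u ∈ S from ⟨hu1, by linarith, hu3⟩)
  linarith

theorem orbital (G : Subgroup Hm) (hG : PLs G) (u : ℝ) (hu : ∃ g ∈ G, g u ≠ u) :
    ∃ a b, a < u ∧ u < b ∧ (∀ g ∈ G, g a = a) ∧ (∀ g ∈ G, g b = b) ∧
      ∀ v, a < v → v < b → ∃ g ∈ G, g v ≠ v := by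
  obtain ⟨g0, hg0, hne0⟩ := hu
  have hu0 : 0 < u := by
    by_contra h
    exact hne0 ((hG g0 hg0).1 u (by linarith))
  have hu1 : u < 1 := by
    by_contra h
    exact hne0 ((hG g0 hg0).2.1 u (by linarith))
  have hlo : ∀ g ∈ G, 0 ≤ g u := by
    intro g hg
    have := g.monotone hu0.le
    rwa [(hG g hg).1 0 le_rfl] at this
  have hhi : ∀ g ∈ G, g u ≤ 1 := by
    intro g hg
    have := g.monotone hu1.le
    rwa [(hG g hg).2.1 1 le_rfl] at this
  set S := {x | ∃ g ∈ G, x = g u} with hS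
  have hbb : BddBelow S := ⟨0, by rintro _ ⟨g, hg, rfl⟩; exact hlo g hg⟩
  have hba : BddAbove S := ⟨1, by rintro _ ⟨g, hg, rfl⟩; exact hhi g hg⟩
  have huS : u ∈ S := ⟨1, G.one_mem, rfl⟩
  have hne : S.Nonempty := ⟨u, huS⟩
  have hfa := inf_fix G u hbb
  have hfb := sup_fix G u hba
  refine ⟨sInf S, sSup S, ?_, ?_, hfa, hfb, ?_⟩
  · refine lt_of_le_of_ne (csInf_le hbb huS) ?_
    intro h
    have := hfa g0 hg0
    rw [← hS, h] at this
    exact hne0 this
  · refine lt_of_le_of_ne (le_csSup hba huS) ?_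
    intro h
    have := hfb g0 hg0
    rw [← hS, ← h] at this
    exact hne0 this
  · intro v hv1 hv2
    by_contra hcon
    push Not at hcon
    rcases lt_trichotomy v u with h | h | h
    · have : v ≤ sInf S := by
        apply le_csInf hne
        rintro _ ⟨g, hg, rfl⟩
        have := g.monotone h.le
        rwa [hcon g hg] at this
      linarith
    · subst h
      exact hne0 (hcon g0 hg0)
    · have : sSup S ≤ v := by
        apply csSup_le hne
        rintro _ ⟨g, hg, rfl⟩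
        have := g.monotone h.le
        rwa [hcon g hg] at this
      linarith

theorem specORD : SpecORD where
  orbL := orbL
  orbR := orbR
  dir := dir
  itL := itL
  itL' := itL'
  itR := itR
  itR' := itR'
  powf := powf
  powi := powi
  zpowf := zpowf
  zpowi := zpowi
  last := last
  first := first
  orbital := orbital

end FPT.ORDM
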