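import Pool.Agent.Lib.MP_c27bde_al.FP.Spec

set_option autoImplicit false

namespace FPT.PL2M

open Set FPT

theorem two_zpow_pos (k : ℤ) : (0:ℝ) < (2:ℝ) ^ k := zpow_pos (by norm_num) k

theorem spec_r (h : SpecPLB) {g : Hm} (hg : IsPL g) (x : ℝ) : HasR g x (er g x) := by
  obtain ⟨k, hk⟩ := hg.2.2.1 x
  rw [h.erU g x k hk]; exact hk

theorem spec_l (h : SpecPLB) {g : Hm} (hg : IsPL g) (x : ℝ) : HasL g x (el g x) := by
  obtain ⟨k, hk⟩ := hg.2.2.2 x
  rw [h.elU g x k hk]; exact hk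

theorem isPL_pow (h : SpecPLB) {g : Hm} (hg : IsPL g) (n : ℕ) : IsPL (g ^ n) := by
  induction n with
  | zero => rw [pow_zero]; exact h.one
  | succ n ih => rw [pow_succ]; exact h.mul _ _ ih hg

theorem isPL_zpow (h : SpecPLB) {g : Hm} (hg : IsPL g) (n : ℤ) : IsPL (g ^ n) := by
  cases n with
  | ofNat n => rw [Int.ofNat_eq_natCast, zpow_natCast]; exact isPL_pow h hg n
  | negSucc n => rw [zpow_negSucc]; exact h.inv _ (isPL_pow h hg _)

theorem er1 (h : SpecPLB) (x : ℝ) : er 1 x = 0 :=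
  h.erU 1 x 0 ⟨1, one_pos, fun y _ _ => by show y = x + _; simp⟩

theorem el1 (h : SpecPLB) (x : ℝ) : el 1 x = 0 :=
  h.elU 1 x 0 ⟨1, one_pos, fun y _ _ => by show y = x + _; simp⟩

theorem erI (h : SpecPLB) {g : Hm} (hg : IsPL g) (x : ℝ) : er g⁻¹ (g x) = - er g x := by
  have := h.erM g⁻¹ g x (h.inv _ hg) hg
  rw [inv_mul_cancel, er1 h] at this
  linarith

theorem elI (h : SpecPLB) {g : Hm} (hg : IsPL g) (x : ℝ) : el g⁻¹ (g x) = - el g x := by
  have := h.elM g⁻¹ g x (h.inv _ hg) hg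
  rw [inv_mul_cancel, el1 h] at this
  linarith

theorem pow_fix {g : Hm} {x : ℝ} (hx : g x = x) (n : ℕ) : (g ^ n) x = x := by
  induction n with
  | zero => rfl
  | succ n ih =>
    rw [pow_succ]; show (g ^ n) (g x) = x
    rw [hx, ih]

theorem erP (h : SpecPLB) {g : Hm} (hg : IsPL g) {x : ℝ} (hx : g x = x) (n : ℕ) :
    er (g ^ n) x = n * er g x := by
  induction n with
  | zero => rw [pow_zero, er1 h]; simp
  | succ n ih =>
    rw [pow_succ, h.erM _ _ _ (isPL_pow h hg n) hg, hx, ih]; push_cast; ring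

theorem elP (h : SpecPLB) {g : Hm} (hg : IsPL g) {x : ℝ} (hx : g x = x) (n : ℕ) :
    el (g ^ n) x = n * el g x := by
  induction n with
  | zero => rw [pow_zero, el1 h]; simp
  | succ n ih =>
    rw [pow_succ, h.elM _ _ _ (isPL_pow h hg n) hg, hx, ih]; push_cast; ring

theorem erZ (h : SpecPLB) {g : Hm} (hg : IsPL g) {x : ℝ} (hx : g x = x) (n : ℤ) :
    er (g ^ n) x = n * er g x := by
  cases n with
  | ofNat n => rw [Int.ofNat_eq_natCast, zpow_natCast]; exact erP h hg hx n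
  | negSucc n =>
    rw [zpow_negSucc]
    have h1 := erI h (isPL_pow h hg (n + 1)) x
    rw [pow_fix hx] at h1
    rw [h1, erP h hg hx, Int.negSucc_eq]; push_cast; ring

theorem elZ (h : SpecPLB) {g : Hm} (hg : IsPL g) {x : ℝ} (hx : g x = x) (n : ℤ) :
    el (g ^ n) x = n * el g x := by
  cases n with
  | ofNat n => rw [Int.ofNat_eq_natCast, zpow_natCast]; exact elP h hg hx n
  | negSucc n =>
    rw [zpow_negSucc]
    have h1 := elI h (isPL_pow h hg (n + 1)) x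
    rw [pow_fix hx] at h1
    rw [h1, elP h hg hx, Int.negSucc_eq]; push_cast; ring

theorem erC (h : SpecPLB) {g k : Hm} (hg : IsPL g) (hk : IsPL k) {x : ℝ} (hx : g x = x) :
    er (k * g * k⁻¹) (k x) = er g x := by
  rw [h.erM _ _ _ (h.mul _ _ hk hg) (h.inv _ hk)]
  have e : k⁻¹ (k x) = x := k.symm_apply_apply x
  rw [e, h.erM _ _ _ hk hg, erI h hk, hx]; ring

theorem elC (h : SpecPLB) {g k : Hm} (hg : IsPL g) (hk : IsPL k) {x : ℝ} (hx : g x = x) :
    el (k * g * k⁻¹) (k x) = el g x := by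
  rw [h.elM _ _ _ (h.mul _ _ hk hg) (h.inv _ hk)]
  have e : k⁻¹ (k x) = x := k.symm_apply_apply x
  rw [e, h.elM _ _ _ hk hg, elI h hk, hx]; ring

theorem one_lt_zpow' {k : ℤ} (hk : 0 < k) : (1:ℝ) < (2:ℝ) ^ k := one_lt_zpow₀ (by norm_num) hk

theorem zpow_lt_one' {k : ℤ} (hk : k < 0) : (2:ℝ) ^ k < 1 := by
  have h1 := one_lt_zpow' (k := -k) (by omega)
  rw [zpow_neg] at h1
  have h2 := two_zpow_pos k
  by_contra hc
  push Not at hc
  have : ((2:ℝ) ^ k)⁻¹ ≤ 1 := inv_le_one_of_one_le₀ hc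
  linarith

theorem specPL2 (h : SpecPLB) : SpecPL2 where
  pow := fun _ n hg => isPL_pow h hg n
  zpow := fun _ n hg => isPL_zpow h hg n
  er1 := er1 h
  el1 := el1 h
  erI := fun _ x hg => erI h hg x
  elI := fun _ x hg => elI h hg x
  erP := fun _ n _ hg hx => erP h hg hx n
  elP := fun _ n _ hg hx => elP h hg hx n
  erZ := fun _ n _ hg hx => erZ h hg hx n
  elZ := fun _ n _ hg hx => elZ h hg hx n
  erC := fun _ _ _ hg hk hx => erC h hg hk hx
  elC := fun _ _ _ hg hk hx => elC h hg hk hx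
  er0 := by
    intro g x hg hx h0
    obtain ⟨ε, hε, H⟩ := spec_r h hg x
    refine ⟨ε, hε, fun y h1 h2 => ?_⟩
    rw [H y h1 h2, h0, hx]; simp
  el0 := by
    intro g x hg hx h0
    obtain ⟨ε, hε, H⟩ := spec_l h hg x
    refine ⟨ε, hε, fun y h1 h2 => ?_⟩
    rw [H y h1 h2, h0, hx]; simp
  er0' := by
    rintro g x ⟨ε, hε, H⟩
    apply h.erU
    refine ⟨ε, hε, fun y h1 h2 => ?_⟩
    rw [H y h1 h2, H x le_rfl (by linarith)]; simp
  el0' := by
    rintro g x ⟨ε, hε, H⟩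
    apply h.elU
    refine ⟨ε, hε, fun y h1 h2 => ?_⟩
    rw [H y h1 h2, H x (by linarith) le_rfl]; simp
  erp := by
    intro g x hg hx h0
    obtain ⟨ε, hε, H⟩ := spec_r h hg x
    refine ⟨ε, hε, fun y h1 h2 => ?_⟩
    rw [H y h1.le h2, hx]
    nlinarith [one_lt_zpow' h0, mul_pos (sub_pos.2 (one_lt_zpow' h0)) (sub_pos.2 h1)]
  ern := by
    intro g x hg hx h0
    obtain ⟨ε, hε, H⟩ := spec_r h hg x
    refine ⟨ε, hε, fun y h1 h2 => ?_⟩
    rw [H y h1.le h2, hx]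
    nlinarith [zpow_lt_one' h0, mul_pos (sub_pos.2 (zpow_lt_one' h0)) (sub_pos.2 h1)]
  elp := by
    intro g x hg hx h0
    obtain ⟨ε, hε, H⟩ := spec_l h hg x
    refine ⟨ε, hε, fun y h1 h2 => ?_⟩
    rw [H y h1 h2.le, hx]
    nlinarith [one_lt_zpow' h0, mul_pos (sub_pos.2 (one_lt_zpow' h0)) (sub_pos.2 h2)]
  eln := by
    intro g x hg hx h0
    obtain ⟨ε, hε, H⟩ := spec_l h hg x
    refine ⟨ε, hε, fun y h1 h2 => ?_⟩
    rw [H y h1 h2.le, hx]
    nlinarith [zpow_lt_one' h0, mul_pos (sub_pos.2 (zpow_lt_one' h0)) (sub_pos.2 h2)]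
  ereq := by
    intro g k x hg hk hx hx' h0
    obtain ⟨ε, hε, H⟩ := spec_r h hg x
    obtain ⟨ε', hε', H'⟩ := spec_r h hk x
    refine ⟨min ε ε', lt_min hε hε', fun y h1 h2 => ?_⟩
    rw [H y h1 (by linarith [min_le_left ε ε']), H' y h1 (by linarith [min_le_right ε ε']), hx,
      hx', h0]
  eleq := by
    intro g k x hg hk hx hx' h0
    obtain ⟨ε, hε, H⟩ := spec_l h hg x
    obtain ⟨ε', hε', H'⟩ := spec_l h hk x
    refine ⟨min ε ε', lt_min hε hε', fun y h1 h2 => ?_⟩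
    rw [H y (by linarith [min_le_left ε ε']) h2, H' y (by linarith [min_le_right ε ε']) h2, hx,
      hx', h0]

end FPT.PL2M
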