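import Pool.Agent.Lib.MP_c27bde_al.FP.Spec

set_option autoImplicit false

namespace FPT.PLBM

open Set Filter Topology FPT

theorem two_zpow_pos (k : ℤ) : (0:ℝ) < (2:ℝ) ^ k := zpow_pos (by norm_num) k

theorem two_zpow_inj {k m : ℤ} (h : (2:ℝ) ^ k = (2:ℝ) ^ m) : k = m :=
  zpow_right_injective₀ (by norm_num) (by norm_num) h

theorem hasR_unique {g : Hm} {x : ℝ} {k m : ℤ} (h1 : HasR g x k) (h2 : HasR g x m) : k = m := by
  obtain ⟨e1, he1, H1⟩ := h1
  obtain ⟨e2, he2, H2⟩ := h2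
  have h0 : 0 < min e1 e2 := lt_min he1 he2
  have a1 := H1 (x + min e1 e2) (by linarith) (by linarith [min_le_left e1 e2])
  have a2 := H2 (x + min e1 e2) (by linarith) (by linarith [min_le_right e1 e2])
  have : (2:ℝ) ^ k * min e1 e2 = (2:ℝ) ^ m * min e1 e2 := by
    have e : x + min e1 e2 - x = min e1 e2 := by ring
    rw [e] at a1 a2
    linarith
  exact two_zpow_inj (mul_right_cancel₀ h0.ne' this)

theorem hasL_unique {g : Hm} {x : ℝ} {k m : ℤ} (h1 : HasL g x k) (h2 : HasL g x m) : k = m := by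
  obtain ⟨e1, he1, H1⟩ := h1
  obtain ⟨e2, he2, H2⟩ := h2
  have h0 : 0 < min e1 e2 := lt_min he1 he2
  have a1 := H1 (x - min e1 e2) (by linarith [min_le_left e1 e2]) (by linarith)
  have a2 := H2 (x - min e1 e2) (by linarith [min_le_right e1 e2]) (by linarith)
  have : (2:ℝ) ^ k * min e1 e2 = (2:ℝ) ^ m * min e1 e2 := by
    have e : x - min e1 e2 - x = - min e1 e2 := by ring
    rw [e] at a1 a2
    linarith
  exact two_zpow_inj (mul_right_cancel₀ h0.ne' this)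

theorem er_eq {g : Hm} {x : ℝ} {k : ℤ} (h : HasR g x k) : er g x = k := by
  have hex : ∃ k, HasR g x k := ⟨k, h⟩
  unfold er
  rw [dif_pos hex]
  exact hasR_unique hex.choose_spec h

theorem el_eq {g : Hm} {x : ℝ} {k : ℤ} (h : HasL g x k) : el g x = k := by
  have hex : ∃ k, HasL g x k := ⟨k, h⟩
  unfold el
  rw [dif_pos hex]
  exact hasL_unique hex.choose_spec h

theorem hasR_er {g : Hm} (hg : IsPL g) (x : ℝ) : HasR g x (er g x) := by
  obtain ⟨k, hk⟩ := hg.2.2.1 x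
  rw [er_eq hk]; exact hk

theorem hasL_el {g : Hm} (hg : IsPL g) (x : ℝ) : HasL g x (el g x) := by
  obtain ⟨k, hk⟩ := hg.2.2.2 x
  rw [el_eq hk]; exact hk

theorem hasR_mul {g h : Hm} {x : ℝ} {k m : ℤ} (hh : HasR h x k) (hg : HasR g (h x) m) :
    HasR (g * h) x (m + k) := by
  obtain ⟨e1, he1, H1⟩ := hh
  obtain ⟨e2, he2, H2⟩ := hg
  have hk := two_zpow_pos k
  refine ⟨min e1 (e2 / (2:ℝ) ^ k), lt_min he1 (by positivity), fun y hy1 hy2 => ?_⟩
  have hy3 : y - x ≤ e1 := by linarith [min_le_left e1 (e2 / (2:ℝ) ^ k)]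
  have hy4 : y - x ≤ e2 / (2:ℝ) ^ k := by linarith [min_le_right e1 (e2 / (2:ℝ) ^ k)]
  have a1 := H1 y hy1 (by linarith)
  have hy5 : (2:ℝ) ^ k * (y - x) ≤ e2 := by
    rw [le_div_iff₀ hk] at hy4
    linarith
  have hy6 : 0 ≤ (2:ℝ) ^ k * (y - x) := mul_nonneg hk.le (by linarith)
  have a2 := H2 (h y) (by linarith) (by linarith)
  show g (h y) = g (h x) + _
  rw [a2, a1, zpow_add₀ (by norm_num)]
  ring

theorem hasL_mul {g h : Hm} {x : ℝ} {k m : ℤ} (hh : HasL h x k) (hg : HasL g (h x) m) :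
    HasL (g * h) x (m + k) := by
  obtain ⟨e1, he1, H1⟩ := hh
  obtain ⟨e2, he2, H2⟩ := hg
  have hk := two_zpow_pos k
  refine ⟨min e1 (e2 / (2:ℝ) ^ k), lt_min he1 (by positivity), fun y hy1 hy2 => ?_⟩
  have hy3 : x - y ≤ e1 := by linarith [min_le_left e1 (e2 / (2:ℝ) ^ k)]
  have hy4 : x - y ≤ e2 / (2:ℝ) ^ k := by linarith [min_le_right e1 (e2 / (2:ℝ) ^ k)]
  have a1 := H1 y (by linarith) hy2
  have hy5 : (2:ℝ) ^ k * (x - y) ≤ e2 := by
    rw [le_div_iff₀ hk] at hy4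
    linarith
  have hy6 : 0 ≤ (2:ℝ) ^ k * (x - y) := mul_nonneg hk.le (by linarith)
  have a2 := H2 (h y) (by linarith) (by linarith)
  show g (h y) = g (h x) + _
  rw [a2, a1, zpow_add₀ (by norm_num)]
  ring

theorem hasR_one (x : ℝ) : HasR 1 x 0 := by
  refine ⟨1, one_pos, fun y _ _ => ?_⟩
  show y = x + _
  simp

theorem hasL_one (x : ℝ) : HasL 1 x 0 := by
  refine ⟨1, one_pos, fun y _ _ => ?_⟩
  show y = x + _
  simp

theorem inv_apply_eq {g : Hm} {y z : ℝ} (h : g y = z) : g⁻¹ z = y := by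
  rw [← h]; exact g.symm_apply_apply y

theorem hasR_inv {g : Hm} {x : ℝ} {k : ℤ} (h : HasR g x k) : HasR g⁻¹ (g x) (-k) := by
  obtain ⟨e, he, H⟩ := h
  have hk := two_zpow_pos k
  refine ⟨(2:ℝ) ^ k * e, by positivity, fun z hz1 hz2 => ?_⟩
  have hinv : (2:ℝ) ^ (-k) * (2:ℝ) ^ k = 1 := by
    rw [← zpow_add₀ (by norm_num)]; simp
  have hk' := two_zpow_pos (-k)
  have h1 : 0 ≤ (2:ℝ) ^ (-k) * (z - g x) := mul_nonneg hk'.le (by linarith)
  have h2 : (2:ℝ) ^ (-k) * (z - g x) ≤ e := by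
    calc (2:ℝ) ^ (-k) * (z - g x) ≤ (2:ℝ) ^ (-k) * ((2:ℝ) ^ k * e) :=
          mul_le_mul_of_nonneg_left (by linarith) hk'.le
      _ = ((2:ℝ) ^ (-k) * (2:ℝ) ^ k) * e := by ring
      _ = e := by rw [hinv, one_mul]
  have h3 := H (x + (2:ℝ) ^ (-k) * (z - g x)) (by linarith) (by linarith)
  have h4 : g (x + (2:ℝ) ^ (-k) * (z - g x)) = z := by
    rw [h3]
    have : (2:ℝ) ^ k * (x + (2:ℝ) ^ (-k) * (z - g x) - x) =
        ((2:ℝ) ^ (-k) * (2:ℝ) ^ k) * (z - g x) := by ring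
    rw [this, hinv]; ring
  rw [inv_apply_eq h4, inv_apply_eq (rfl : g x = g x)]

theorem hasL_inv {g : Hm} {x : ℝ} {k : ℤ} (h : HasL g x k) : HasL g⁻¹ (g x) (-k) := by
  obtain ⟨e, he, H⟩ := h
  have hk := two_zpow_pos k
  refine ⟨(2:ℝ) ^ k * e, by positivity, fun z hz1 hz2 => ?_⟩
  have hinv : (2:ℝ) ^ (-k) * (2:ℝ) ^ k = 1 := by
    rw [← zpow_add₀ (by norm_num)]; simp
  have hk' := two_zpow_pos (-k)
  have h1 : (2:ℝ) ^ (-k) * (z - g x) ≤ 0 :=
    mul_nonpos_of_nonneg_of_nonpos hk'.le (by linarith)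
  have h2 : -e ≤ (2:ℝ) ^ (-k) * (z - g x) := by
    calc -e = ((2:ℝ) ^ (-k) * (2:ℝ) ^ k) * (-e) := by rw [hinv, one_mul]
      _ = (2:ℝ) ^ (-k) * (-((2:ℝ) ^ k * e)) := by ring
      _ ≤ (2:ℝ) ^ (-k) * (z - g x) := mul_le_mul_of_nonneg_left (by linarith) hk'.le
  have h3 := H (x + (2:ℝ) ^ (-k) * (z - g x)) (by linarith) (by linarith)
  have h4 : g (x + (2:ℝ) ^ (-k) * (z - g x)) = z := by
    rw [h3]
    have : (2:ℝ) ^ k * (x + (2:ℝ) ^ (-k) * (z - g x) - x) =
        ((2:ℝ) ^ (-k) * (2:ℝ) ^ k) * (z - g x) := by ring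
    rw [this, hinv]; ring
  rw [inv_apply_eq h4, inv_apply_eq (rfl : g x = g x)]

theorem isPL_one : IsPL 1 :=
  ⟨fun _ _ => rfl, fun _ _ => rfl, fun x => ⟨0, hasR_one x⟩, fun x => ⟨0, hasL_one x⟩⟩

theorem isPL_mul {g h : Hm} (hg : IsPL g) (hh : IsPL h) : IsPL (g * h) := by
  refine ⟨fun x hx => ?_, fun x hx => ?_, fun x => ?_, fun x => ?_⟩
  · show g (h x) = x
    rw [hh.1 x hx, hg.1 x hx]
  · show g (h x) = x
    rw [hh.2.1 x hx, hg.2.1 x hx]
  · exact ⟨_, hasR_mul (hasR_er hh x) (hasR_er hg (h x))⟩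
  · exact ⟨_, hasL_mul (hasL_el hh x) (hasL_el hg (h x))⟩

theorem isPL_inv {g : Hm} (hg : IsPL g) : IsPL g⁻¹ := by
  refine ⟨fun x hx => inv_apply_eq (hg.1 x hx), fun x hx => inv_apply_eq (hg.2.1 x hx),
    fun x => ?_, fun x => ?_⟩
  · have h := hasR_inv (hasR_er hg (g⁻¹ x))
    have e : g (g⁻¹ x) = x := g.apply_symm_apply x
    rw [e] at h
    exact ⟨_, h⟩
  · have h := hasL_inv (hasL_el hg (g⁻¹ x))
    have e : g (g⁻¹ x) = x := g.apply_symm_apply x
    rw [e] at h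
    exact ⟨_, h⟩

/-- affine piece on the right: exponents inside -/
theorem inner_right {g : Hm} {x ε : ℝ} {k : ℤ}
    (H : ∀ y, x ≤ y → y ≤ x + ε → g y = g x + (2:ℝ) ^ k * (y - x)) {y : ℝ}
    (h1 : x < y) (h2 : y < x + ε) : HasR g y k ∧ HasL g y k := by
  constructor
  · refine ⟨x + ε - y, by linarith, fun z hz1 hz2 => ?_⟩
    rw [H z (by linarith) (by linarith), H y h1.le h2.le]
    ring
  · refine ⟨y - x, by linarith, fun z hz1 hz2 => ?_⟩
    rw [H z (by linarith) (by linarith), H y h1.le h2.le]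
    ring

theorem inner_left {g : Hm} {x ε : ℝ} {k : ℤ}
    (H : ∀ y, x - ε ≤ y → y ≤ x → g y = g x + (2:ℝ) ^ k * (y - x)) {y : ℝ}
    (h1 : x - ε < y) (h2 : y < x) : HasR g y k ∧ HasL g y k := by
  constructor
  · refine ⟨x - y, by linarith, fun z hz1 hz2 => ?_⟩
    rw [H z (by linarith) (by linarith), H y h1.le h2.le]
    ring
  · refine ⟨y - (x - ε), by linarith, fun z hz1 hz2 => ?_⟩
    rw [H z (by linarith) (by linarith), H y h1.le h2.le]
    ring

theorem finite_of_local {P : Set ℝ} (h0 : P ⊆ Icc 0 1)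
    (hloc : ∀ x, ∃ ε > 0, (P ∩ Ioo (x - ε) (x + ε)).Finite) : P.Finite := by
  choose e he hf using hloc
  obtain ⟨t, -, ht⟩ := (isCompact_Icc (a := (0:ℝ)) (b := 1)).elim_nhds_subcover
    (fun x => Ioo (x - e x) (x + e x))
    (fun x _ => Ioo_mem_nhds (by linarith [he x]) (by linarith [he x]))
  have : P ⊆ ⋃ x ∈ t, (P ∩ Ioo (x - e x) (x + e x)) := by
    intro y hy
    have := ht (h0 hy)
    simp only [mem_iUnion] at this ⊢
    obtain ⟨x, hx, hxy⟩ := this
    exact ⟨x, hx, hy, hxy⟩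
  exact (t.finite_toSet.biUnion (fun x _ => hf x)).subset this

theorem brk_finite {g : Hm} (hg : IsPL g) : {x | er g x ≠ el g x}.Finite := by
  apply finite_of_local
  · intro x hx
    by_contra hc
    rw [mem_Icc, not_and_or, not_le, not_le] at hc
    apply hx
    rcases hc with hc | hc
    · rw [er_eq (k := 0), el_eq (k := 0)]
      · refine ⟨1, one_pos, fun y hy1 hy2 => ?_⟩
        rw [hg.1 y (by linarith), hg.1 x hc.le]; simp
      · refine ⟨-x, by linarith, fun y hy1 hy2 => ?_⟩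
        rw [hg.1 y (by linarith), hg.1 x hc.le]; simp
    · rw [er_eq (k := 0), el_eq (k := 0)]
      · refine ⟨x - 1, by linarith, fun y hy1 hy2 => ?_⟩
        rw [hg.2.1 y (by linarith), hg.2.1 x hc.le]; simp
      · refine ⟨1, by linarith, fun y hy1 hy2 => ?_⟩
        rw [hg.2.1 y (by linarith), hg.2.1 x hc.le]; simp
  · intro x
    obtain ⟨e1, he1, H1⟩ := hasR_er hg x
    obtain ⟨e2, he2, H2⟩ := hasL_el hg x
    refine ⟨min e1 e2, lt_min he1 he2, (finite_singleton x).subset ?_⟩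
    rintro y ⟨hy, hy1, hy2⟩
    rw [mem_singleton_iff]
    by_contra hne
    apply hy
    rcases lt_or_gt_of_ne hne with h | h
    · obtain ⟨a, b⟩ := inner_left H2 (y := y) (by linarith [min_le_right e1 e2]) h
      rw [er_eq a, el_eq b]
    · obtain ⟨a, b⟩ := inner_right H1 (y := y) h (by linarith [min_le_left e1 e2])
      rw [er_eq a, el_eq b]

theorem sub_affine {k : ℤ} (hk : k ≠ 0) (c x : ℝ) {y z : ℝ} (hy : c + (2:ℝ) ^ k * (y - x) = y)
    (hz : c + (2:ℝ) ^ k * (z - x) = z) : y = z := by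
  have h1 : ((2:ℝ) ^ k - 1) * (y - z) = 0 := by linear_combination hy - hz
  rcases mul_eq_zero.1 h1 with h | h
  · exfalso
    apply hk
    apply two_zpow_inj (m := 0)
    rw [zpow_zero]; linarith
  · linarith

theorem fixR_finite {g : Hm} (hg : IsPL g) : {x | g x = x ∧ er g x ≠ 0}.Finite := by
  apply finite_of_local
  · rintro x ⟨-, hx⟩
    by_contra hc
    rw [mem_Icc, not_and_or, not_le, not_le] at hc
    apply hx
    rcases hc with hc | hc
    · apply er_eq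
      refine ⟨-x, by linarith, fun y hy1 hy2 => ?_⟩
      rw [hg.1 y (by linarith), hg.1 x hc.le]; simp
    · apply er_eq
      refine ⟨1, by linarith, fun y hy1 hy2 => ?_⟩
      rw [hg.2.1 y (by linarith), hg.2.1 x hc.le]; simp
  · intro x
    obtain ⟨e1, he1, H1⟩ := hasR_er hg x
    obtain ⟨e2, he2, H2⟩ := hasL_el hg x
    refine ⟨min e1 e2, lt_min he1 he2, ?_⟩
    have hsub : {x | g x = x ∧ er g x ≠ 0} ∩ Ioo (x - min e1 e2) (x + min e1 e2) ⊆
        ({y | y = x} ∪ {y | er g x ≠ 0 ∧ g x + (2:ℝ) ^ (er g x) * (y - x) = y}) ∪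
        {y | el g x ≠ 0 ∧ g x + (2:ℝ) ^ (el g x) * (y - x) = y} := by
      rintro y ⟨⟨hy, hyr⟩, hy1, hy2⟩
      rcases lt_trichotomy y x with h | h | h
      · right
        obtain ⟨a, b⟩ := inner_left H2 (y := y) (by linarith [min_le_right e1 e2]) h
        refine ⟨fun h0 => hyr (by rw [er_eq a, h0]), ?_⟩
        rw [← H2 y (by linarith [min_le_right e1 e2]) h.le, hy]
      · left; left; exact h
      · left; right
        obtain ⟨a, b⟩ := inner_right H1 (y := y) h (by linarith [min_le_left e1 e2])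
        refine ⟨fun h0 => hyr (by rw [er_eq a, h0]), ?_⟩
        rw [← H1 y h.le (by linarith [min_le_left e1 e2]), hy]
    refine Set.Finite.subset ?_ hsub
    refine Set.Finite.union (Set.Finite.union (finite_singleton x) ?_) ?_
    · apply Set.Subsingleton.finite
      rintro y ⟨h0, hy⟩ z ⟨-, hz⟩
      exact sub_affine h0 _ _ hy hz
    · apply Set.Subsingleton.finite
      rintro y ⟨h0, hy⟩ z ⟨-, hz⟩
      exact sub_affine h0 _ _ hy hz

theorem specPLB : SpecPLB where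
  one := isPL_one
  mul := fun _ _ hg hh => isPL_mul hg hh
  inv := fun _ hg => isPL_inv hg
  erU := fun _ _ _ h => er_eq h
  elU := fun _ _ _ h => el_eq h
  erM := fun _ h x hg hh => er_eq (hasR_mul (hasR_er hh x) (hasR_er hg (h x)))
  elM := fun _ h x hg hh => el_eq (hasL_mul (hasL_el hh x) (hasL_el hg (h x)))
  brk := fun _ hg => brk_finite hg
  fixR := fun _ hg => fixR_finite hg

end FPT.PLBM
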