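import Pool.Agent.Lib.MP_c27bde_al.FP.Spec

/-!
RHO: a piecewise linear representation of Thompson's group.
-/

set_option autoImplicit false

namespace FPT.RHOM

/-! ### Closure of `IsPL` under products and inverses -/

theorem hasR_mul (g h : Hm) (x : ℝ) (k l : ℤ) (hg : HasR g (h x) k) (hh : HasR h x l) :
    HasR (g * h) x (k + l) := by
  obtain ⟨e, he, hg⟩ := hg
  obtain ⟨d, hd, hh⟩ := hh
  have h2 : (0 : ℝ) < (2 : ℝ) ^ l := by positivity
  refine ⟨min d (e / (2 : ℝ) ^ l), by positivity, fun y h1 hy => ?_⟩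
  have hyd : y ≤ x + d := by linarith [min_le_left d (e / (2 : ℝ) ^ l)]
  have hye : y ≤ x + e / (2 : ℝ) ^ l := by linarith [min_le_right d (e / (2 : ℝ) ^ l)]
  have e1 := hh y h1 hyd
  have e2 : (2 : ℝ) ^ l * (y - x) ≤ e := by
    have : (2 : ℝ) ^ l * (y - x) ≤ (2 : ℝ) ^ l * (e / (2 : ℝ) ^ l) :=
      mul_le_mul_of_nonneg_left (by linarith) h2.le
    rwa [mul_div_cancel₀ _ h2.ne'] at this
  have e3 : 0 ≤ (2 : ℝ) ^ l * (y - x) := mul_nonneg h2.le (by linarith)
  have e4 := hg (h y) (by rw [e1]; linarith) (by rw [e1]; linarith)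
  rw [RelIso.mul_apply, RelIso.mul_apply, e4, e1, zpow_add₀ (by norm_num)]
  ring

theorem hasL_mul (g h : Hm) (x : ℝ) (k l : ℤ) (hg : HasL g (h x) k) (hh : HasL h x l) :
    HasL (g * h) x (k + l) := by
  obtain ⟨e, he, hg⟩ := hg
  obtain ⟨d, hd, hh⟩ := hh
  have h2 : (0 : ℝ) < (2 : ℝ) ^ l := by positivity
  refine ⟨min d (e / (2 : ℝ) ^ l), by positivity, fun y hy h1 => ?_⟩
  have hyd : x - d ≤ y := by linarith [min_le_left d (e / (2 : ℝ) ^ l)]
  have hye : x - e / (2 : ℝ) ^ l ≤ y := by linarith [min_le_right d (e / (2 : ℝ) ^ l)]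
  have e1 := hh y hyd h1
  have e2 : (2 : ℝ) ^ l * (x - y) ≤ e := by
    have : (2 : ℝ) ^ l * (x - y) ≤ (2 : ℝ) ^ l * (e / (2 : ℝ) ^ l) :=
      mul_le_mul_of_nonneg_left (by linarith) h2.le
    rwa [mul_div_cancel₀ _ h2.ne'] at this
  have e3 : 0 ≤ (2 : ℝ) ^ l * (x - y) := mul_nonneg h2.le (by linarith)
  have e5 : (2 : ℝ) ^ l * (y - x) = -((2 : ℝ) ^ l * (x - y)) := by ring
  have e4 := hg (h y) (by rw [e1]; linarith) (by rw [e1]; linarith)
  rw [RelIso.mul_apply, RelIso.mul_apply, e4, e1, zpow_add₀ (by norm_num)]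
  ring

theorem hasR_inv (g : Hm) (x : ℝ) (k : ℤ) (hg : HasR g x k) : HasR g⁻¹ (g x) (-k) := by
  obtain ⟨e, he, hg⟩ := hg
  have h2 : (0 : ℝ) < (2 : ℝ) ^ k := by positivity
  refine ⟨(2 : ℝ) ^ k * e, by positivity, fun z h1 hz => ?_⟩
  have h3 : (2 : ℝ) ^ k * (2 : ℝ) ^ (-k) = 1 := by
    rw [zpow_neg, mul_inv_cancel₀ h2.ne']
  have h4 : (0 : ℝ) < (2 : ℝ) ^ (-k) := by positivity
  set y := x + (2 : ℝ) ^ (-k) * (z - g x) with hy
  have h5 : 0 ≤ (2 : ℝ) ^ (-k) * (z - g x) := mul_nonneg h4.le (by linarith)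
  have h6 : (2 : ℝ) ^ (-k) * (z - g x) ≤ e := by
    have : (2 : ℝ) ^ (-k) * (z - g x) ≤ (2 : ℝ) ^ (-k) * ((2 : ℝ) ^ k * e) :=
      mul_le_mul_of_nonneg_left (by linarith) h4.le
    rwa [← mul_assoc, mul_comm ((2 : ℝ) ^ (-k)) ((2 : ℝ) ^ k), h3, one_mul] at this
  have h7 : g y = z := by
    rw [hg y (by linarith) (by linarith), hy, add_sub_cancel_left, ← mul_assoc, h3]
    ring
  rw [RelIso.inv_apply_self, ← h7, RelIso.inv_apply_self, h7]

theorem hasL_inv (g : Hm) (x : ℝ) (k : ℤ) (hg : HasL g x k) : HasL g⁻¹ (g x) (-k) := by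
  obtain ⟨e, he, hg⟩ := hg
  have h2 : (0 : ℝ) < (2 : ℝ) ^ k := by positivity
  refine ⟨(2 : ℝ) ^ k * e, by positivity, fun z hz h1 => ?_⟩
  have h3 : (2 : ℝ) ^ k * (2 : ℝ) ^ (-k) = 1 := by
    rw [zpow_neg, mul_inv_cancel₀ h2.ne']
  have h4 : (0 : ℝ) < (2 : ℝ) ^ (-k) := by positivity
  set y := x + (2 : ℝ) ^ (-k) * (z - g x) with hy
  have h5 : (2 : ℝ) ^ (-k) * (z - g x) ≤ 0 := mul_nonpos_of_nonneg_of_nonpos h4.le (by linarith)
  have h6 : (2 : ℝ) ^ (-k) * (g x - z) ≤ e := by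
    have : (2 : ℝ) ^ (-k) * (g x - z) ≤ (2 : ℝ) ^ (-k) * ((2 : ℝ) ^ k * e) :=
      mul_le_mul_of_nonneg_left (by linarith) h4.le
    rwa [← mul_assoc, mul_comm ((2 : ℝ) ^ (-k)) ((2 : ℝ) ^ k), h3, one_mul] at this
  have h8 : (2 : ℝ) ^ (-k) * (z - g x) = -((2 : ℝ) ^ (-k) * (g x - z)) := by ring
  have h7 : g y = z := by
    rw [hg y (by linarith) (by linarith), hy, add_sub_cancel_left, ← mul_assoc, h3]
    ring
  rw [RelIso.inv_apply_self, ← h7, RelIso.inv_apply_self, h7]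

theorem isPL_one : IsPL 1 := by
  refine ⟨fun x _ => rfl, fun x _ => rfl, fun x => ⟨0, 1, one_pos, fun y _ _ => ?_⟩,
    fun x => ⟨0, 1, one_pos, fun y _ _ => ?_⟩⟩ <;>
  · simp [RelIso.one_apply]

theorem isPL_mul (g h : Hm) (hg : IsPL g) (hh : IsPL h) : IsPL (g * h) := by
  obtain ⟨g1, g2, g3, g4⟩ := hg
  obtain ⟨h1, h2, h3, h4⟩ := hh
  refine ⟨fun x hx => ?_, fun x hx => ?_, fun x => ?_, fun x => ?_⟩
  · rw [RelIso.mul_apply, h1 x hx, g1 x hx]
  · rw [RelIso.mul_apply, h2 x hx, g2 x hx]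
  · obtain ⟨k, hk⟩ := g3 (h x)
    obtain ⟨l, hl⟩ := h3 x
    exact ⟨k + l, hasR_mul g h x k l hk hl⟩
  · obtain ⟨k, hk⟩ := g4 (h x)
    obtain ⟨l, hl⟩ := h4 x
    exact ⟨k + l, hasL_mul g h x k l hk hl⟩

theorem isPL_inv (g : Hm) (hg : IsPL g) : IsPL g⁻¹ := by
  obtain ⟨g1, g2, g3, g4⟩ := hg
  refine ⟨fun x hx => ?_, fun x hx => ?_, fun x => ?_, fun x => ?_⟩
  · conv_lhs => rw [← g1 x hx]
    exact RelIso.inv_apply_self g x
  · conv_lhs => rw [← g2 x hx]
    exact RelIso.inv_apply_self g x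
  · obtain ⟨k, hk⟩ := g3 (g⁻¹ x)
    have := hasR_inv g _ k hk
    rw [RelIso.apply_inv_self] at this
    exact ⟨-k, this⟩
  · obtain ⟨k, hk⟩ := g4 (g⁻¹ x)
    have := hasL_inv g _ k hk
    rw [RelIso.apply_inv_self] at this
    exact ⟨-k, this⟩

/-! ### The two maps -/

noncomputable def Xf (t : ℝ) : ℝ :=
  if t ≤ 0 then t else if t ≤ 1 / 2 then t / 2 else if t ≤ 3 / 4 then t - 1 / 4
    else if t ≤ 1 then 2 * t - 1 else t

noncomputable def Yf (t : ℝ) : ℝ :=
  if t ≤ 1 / 2 then t else if t ≤ 3 / 4 then t / 2 + 1 / 4 else if t ≤ 7 / 8 then t - 1 / 8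
    else if t ≤ 1 then 2 * t - 1 else t

theorem Xf_mono : StrictMono Xf := by
  intro a b hab
  simp only [Xf]
  split_ifs <;> linarith

theorem Yf_mono : StrictMono Yf := by
  intro a b hab
  simp only [Yf]
  split_ifs <;> linarith

theorem Xf_surj : Function.Surjective Xf := by
  intro y
  by_cases h1 : y ≤ 0
  · exact ⟨y, by simp [Xf, h1]⟩
  by_cases h2 : y ≤ 1 / 4
  · refine ⟨2 * y, ?_⟩
    simp only [Xf]
    split_ifs <;> linarith
  by_cases h3 : y ≤ 1 / 2
  · refine ⟨y + 1 / 4, ?_⟩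
    simp only [Xf]
    split_ifs <;> linarith
  by_cases h4 : y ≤ 1
  · refine ⟨(y + 1) / 2, ?_⟩
    simp only [Xf]
    split_ifs <;> linarith
  · refine ⟨y, ?_⟩
    simp only [Xf]
    split_ifs <;> linarith

theorem Yf_surj : Function.Surjective Yf := by
  intro y
  by_cases h1 : y ≤ 1 / 2
  · refine ⟨y, ?_⟩
    simp only [Yf]
    split_ifs <;> linarith
  by_cases h2 : y ≤ 5 / 8
  · refine ⟨2 * y - 1 / 2, ?_⟩
    simp only [Yf]
    split_ifs <;> linarith
  by_cases h3 : y ≤ 3 / 4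
  · refine ⟨y + 1 / 8, ?_⟩
    simp only [Yf]
    split_ifs <;> linarith
  by_cases h4 : y ≤ 1
  · refine ⟨(y + 1) / 2, ?_⟩
    simp only [Yf]
    split_ifs <;> linarith
  · refine ⟨y, ?_⟩
    simp only [Yf]
    split_ifs <;> linarith

noncomputable def X : Hm := Xf_mono.orderIsoOfSurjective Xf Xf_surj
noncomputable def Y : Hm := Yf_mono.orderIsoOfSurjective Yf Yf_surj

theorem X_apply (t : ℝ) : X t = Xf t := rfl
theorem Y_apply (t : ℝ) : Y t = Yf t := rfl

theorem Xa (t : ℝ) (h : t ≤ 0) : X t = t := by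
  rw [X_apply]; simp only [Xf]; rw [if_pos h]

theorem Xb (t : ℝ) (h : 0 ≤ t) (h' : t ≤ 1 / 2) : X t = t / 2 := by
  rw [X_apply]; simp only [Xf]; split_ifs <;> linarith

theorem Xc (t : ℝ) (h : 1 / 2 ≤ t) (h' : t ≤ 3 / 4) : X t = t - 1 / 4 := by
  rw [X_apply]; simp only [Xf]; split_ifs <;> linarith

theorem Xd (t : ℝ) (h : 3 / 4 ≤ t) (h' : t ≤ 1) : X t = 2 * t - 1 := by
  rw [X_apply]; simp only [Xf]; split_ifs <;> linarith

theorem Xe (t : ℝ) (h : 1 ≤ t) : X t = t := by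
  rw [X_apply]; simp only [Xf]; split_ifs <;> linarith

theorem Ya (t : ℝ) (h : t ≤ 1 / 2) : Y t = t := by
  rw [Y_apply]; simp only [Yf]; rw [if_pos h]

theorem Yb (t : ℝ) (h : 1 / 2 ≤ t) (h' : t ≤ 3 / 4) : Y t = t / 2 + 1 / 4 := by
  rw [Y_apply]; simp only [Yf]; split_ifs <;> linarith

theorem Yc (t : ℝ) (h : 3 / 4 ≤ t) (h' : t ≤ 7 / 8) : Y t = t - 1 / 8 := by
  rw [Y_apply]; simp only [Yf]; split_ifs <;> linarith

theorem Yd (t : ℝ) (h : 7 / 8 ≤ t) (h' : t ≤ 1) : Y t = 2 * t - 1 := by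
  rw [Y_apply]; simp only [Yf]; split_ifs <;> linarith

theorem Ye (t : ℝ) (h : 1 ≤ t) : Y t = t := by
  rw [Y_apply]; simp only [Yf]; split_ifs <;> linarith

theorem isPL_X : IsPL X := by
  refine ⟨Xa, Xe, fun x => ?_, fun x => ?_⟩
  · rcases lt_or_ge x 0 with h | h0
    · refine ⟨0, -x, by linarith, fun y h1 h2 => ?_⟩
      rw [Xa y (by linarith), Xa x (by linarith), zpow_zero]; ring
    rcases lt_or_ge x (1 / 2) with h | h1
    · refine ⟨-1, 1 / 2 - x, by linarith, fun y h3 h2 => ?_⟩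
      rw [Xb y (by linarith) (by linarith), Xb x (by linarith) (by linarith), zpow_neg_one]; ring
    rcases lt_or_ge x (3 / 4) with h | h2
    · refine ⟨0, 3 / 4 - x, by linarith, fun y h3 h4 => ?_⟩
      rw [Xc y (by linarith) (by linarith), Xc x (by linarith) (by linarith), zpow_zero]; ring
    rcases lt_or_ge x 1 with h | h3
    · refine ⟨1, 1 - x, by linarith, fun y h5 h4 => ?_⟩
      rw [Xd y (by linarith) (by linarith), Xd x (by linarith) (by linarith), zpow_one]; ring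
    · refine ⟨0, 1, by linarith, fun y h5 h4 => ?_⟩
      rw [Xe y (by linarith), Xe x (by linarith), zpow_zero]; ring
  · rcases le_or_gt x 0 with h | h0
    · refine ⟨0, 1, by linarith, fun y h1 h2 => ?_⟩
      rw [Xa y (by linarith), Xa x (by linarith), zpow_zero]; ring
    rcases le_or_gt x (1 / 2) with h | h1
    · refine ⟨-1, x, by linarith, fun y h3 h2 => ?_⟩
      rw [Xb y (by linarith) (by linarith), Xb x (by linarith) (by linarith), zpow_neg_one]; ring
    rcases le_or_gt x (3 / 4) with h | h2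
    · refine ⟨0, x - 1 / 2, by linarith, fun y h3 h4 => ?_⟩
      rw [Xc y (by linarith) (by linarith), Xc x (by linarith) (by linarith), zpow_zero]; ring
    rcases le_or_gt x 1 with h | h3
    · refine ⟨1, x - 3 / 4, by linarith, fun y h5 h4 => ?_⟩
      rw [Xd y (by linarith) (by linarith), Xd x (by linarith) (by linarith), zpow_one]; ring
    · refine ⟨0, x - 1, by linarith, fun y h5 h4 => ?_⟩
      rw [Xe y (by linarith), Xe x (by linarith), zpow_zero]; ring

theorem isPL_Y : IsPL Y := by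
  refine ⟨fun x hx => Ya x (by linarith), Ye, fun x => ?_, fun x => ?_⟩
  · rcases lt_or_ge x (1 / 2) with h | h1
    · refine ⟨0, 1 / 2 - x, by linarith, fun y h3 h2 => ?_⟩
      rw [Ya y (by linarith), Ya x (by linarith), zpow_zero]; ring
    rcases lt_or_ge x (3 / 4) with h | h2
    · refine ⟨-1, 3 / 4 - x, by linarith, fun y h3 h4 => ?_⟩
      rw [Yb y (by linarith) (by linarith), Yb x (by linarith) (by linarith), zpow_neg_one]; ring
    rcases lt_or_ge x (7 / 8) with h | h3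
    · refine ⟨0, 7 / 8 - x, by linarith, fun y h5 h4 => ?_⟩
      rw [Yc y (by linarith) (by linarith), Yc x (by linarith) (by linarith), zpow_zero]; ring
    rcases lt_or_ge x 1 with h | h3
    · refine ⟨1, 1 - x, by linarith, fun y h5 h4 => ?_⟩
      rw [Yd y (by linarith) (by linarith), Yd x (by linarith) (by linarith), zpow_one]; ring
    · refine ⟨0, 1, by linarith, fun y h5 h4 => ?_⟩
      rw [Ye y (by linarith), Ye x (by linarith), zpow_zero]; ring
  · rcases le_or_gt x (1 / 2) with h | h1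
    · refine ⟨0, 1, by linarith, fun y h3 h2 => ?_⟩
      rw [Ya y (by linarith), Ya x (by linarith), zpow_zero]; ring
    rcases le_or_gt x (3 / 4) with h | h2
    · refine ⟨-1, x - 1 / 2, by linarith, fun y h3 h4 => ?_⟩
      rw [Yb y (by linarith) (by linarith), Yb x (by linarith) (by linarith), zpow_neg_one]; ring
    rcases le_or_gt x (7 / 8) with h | h3
    · refine ⟨0, x - 3 / 4, by linarith, fun y h5 h4 => ?_⟩
      rw [Yc y (by linarith) (by linarith), Yc x (by linarith) (by linarith), zpow_zero]; ring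
    rcases le_or_gt x 1 with h | h3
    · refine ⟨1, x - 7 / 8, by linarith, fun y h5 h4 => ?_⟩
      rw [Yd y (by linarith) (by linarith), Yd x (by linarith) (by linarith), zpow_one]; ring
    · refine ⟨0, x - 1, by linarith, fun y h5 h4 => ?_⟩
      rw [Ye y (by linarith), Ye x (by linarith), zpow_zero]; ring

/-! ### The relations -/

/-- elements with adjacent supports commute -/
theorem comm_of_supp (f g : Hm) (c : ℝ) (hf : ∀ u, c ≤ u → f u = u) (hg : ∀ u, u ≤ c → g u = u) :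
    f * g = g * f := by
  ext u
  rw [RelIso.mul_apply, RelIso.mul_apply]
  rcases le_total u c with h | h
  · rw [hg u h]
    have : f u ≤ f c := f.monotone h
    rw [hf c le_rfl] at this
    rw [hg _ this]
  · rw [hf u h]
    have : g c ≤ g u := g.monotone h
    rw [hg c le_rfl] at this
    rw [hf _ this]

theorem XY_supp (u : ℝ) (hu : 3 / 4 ≤ u) : (X * Y⁻¹) u = u := by
  rw [RelIso.mul_apply]
  have key : ∀ v, 7 / 8 ≤ v → X v = Y v := by
    intro v hv
    rw [X_apply, Y_apply]; simp only [Xf, Yf]; split_ifs <;> linarith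
  have h1 : 7 / 8 ≤ Y⁻¹ u := by
    by_contra hcon
    push Not at hcon
    have h2 : Y (Y⁻¹ u) < Y (7 / 8) := Y.strictMono hcon
    rw [RelIso.apply_inv_self] at h2
    have h3 : Y (7 / 8) = 3 / 4 := by
      rw [Y_apply]; simp only [Yf]; norm_num
    linarith
  rw [key _ h1, RelIso.apply_inv_self]

theorem c1_supp (u : ℝ) (hu : u ≤ 3 / 4) : (X⁻¹ * Y * X) u = u := by
  rw [RelIso.mul_apply, RelIso.mul_apply]
  have h1 : X u ≤ X (3 / 4) := X.monotone hu
  have h3 : X (3 / 4) = 1 / 2 := by rw [X_apply]; simp only [Xf]; norm_num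
  rw [h3] at h1
  have h4 : Y (X u) = X u := by
    rw [Y_apply]; simp only [Yf]; rw [if_pos h1]
  rw [h4, RelIso.inv_apply_self]

theorem c2_supp (u : ℝ) (hu : u ≤ 3 / 4) : (X⁻¹ * X⁻¹ * Y * X * X) u = u := by
  rw [RelIso.mul_apply, RelIso.mul_apply, RelIso.mul_apply, RelIso.mul_apply]
  have h1 : X u ≤ X (3 / 4) := X.monotone hu
  have h3 : X (3 / 4) = 1 / 2 := by rw [X_apply]; simp only [Xf]; norm_num
  have h5 : X (X u) ≤ X (3 / 4) := X.monotone (by linarith)
  rw [h3] at h5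
  have h4 : Y (X (X u)) = X (X u) := by
    rw [Y_apply]; simp only [Yf]; rw [if_pos h5]
  rw [h4, RelIso.inv_apply_self, RelIso.inv_apply_self]

theorem w1_XY : w1 X Y = 1 := by
  have h := comm_of_supp (X * Y⁻¹) (X⁻¹ * Y * X) (3 / 4) XY_supp c1_supp
  unfold w1
  rw [h]
  group

theorem w2_XY : w2 X Y = 1 := by
  have h := comm_of_supp (X * Y⁻¹) (X⁻¹ * X⁻¹ * Y * X * X) (3 / 4) XY_supp c2_supp
  unfold w2
  rw [h]
  group

theorem map_w1 {G H : Type*} [Group G] [Group H] (f : G →* H) (a b : G) :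
    f (w1 a b) = w1 (f a) (f b) := by
  simp only [w1, map_mul, map_inv]

theorem map_w2 {G H : Type*} [Group G] [Group H] (f : G →* H) (a b : G) :
    f (w2 a b) = w2 (f a) (f b) := by
  simp only [w2, map_mul, map_inv]

/-- the images of the generators -/
noncomputable def gen : Fin 2 → Hm := ![X, Y]

theorem rel_ok : ∀ r ∈ rels, FreeGroup.lift gen r = 1 := by
  intro r hr
  rcases hr with rfl | hr
  · rw [map_w1, FreeGroup.lift_apply_of, FreeGroup.lift_apply_of]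
    exact w1_XY
  · rw [Set.mem_singleton_iff] at hr
    rw [hr, map_w2, FreeGroup.lift_apply_of, FreeGroup.lift_apply_of]
    exact w2_XY

noncomputable def rho : FT →* Hm := PresentedGroup.toGroup rel_ok

theorem rho_a0 : rho a0 = X := PresentedGroup.toGroup.of rel_ok
theorem rho_a1 : rho a1 = Y := PresentedGroup.toGroup.of rel_ok

theorem isPL_rho (g : FT) : IsPL (rho g) := by
  obtain ⟨w, rfl⟩ := PresentedGroup.mk_surjective rels g
  induction w using FreeGroup.induction_on with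
  | C1 => rw [map_one, map_one]; exact isPL_one
  | of j =>
    have : rho (PresentedGroup.mk rels (FreeGroup.of j)) = gen j :=
      PresentedGroup.toGroup.of rel_ok
    rw [this]
    fin_cases j
    · exact isPL_X
    · exact isPL_Y
  | inv_of j h => rw [map_inv, map_inv]; exact isPL_inv _ h
  | mul x y hx hy => rw [map_mul, map_mul]; exact isPL_mul _ _ hx hy

/-! ### Non-commutation -/

theorem inv_eq {g : Hm} {p q : ℝ} (h : g q = p) : g⁻¹ p = q := by
  rw [← h, RelIso.inv_apply_self]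

theorem nc1 : X * Y ≠ Y * X := by
  intro h
  have h1 := congrArg (fun g : Hm => g (3 / 4)) h
  simp only [RelIso.mul_apply] at h1
  rw [Yb (3 / 4) (by norm_num) (by norm_num), Xc _ (by norm_num) (by norm_num),
    Xc (3 / 4) (by norm_num) (by norm_num), Ya _ (by norm_num)] at h1
  norm_num at h1

/-- image of `x2` -/
noncomputable def P2 : Hm := X⁻¹ * Y * X

/-- image of `x3` -/
noncomputable def P3 : Hm := X⁻¹ * X⁻¹ * Y * X * X

theorem X78 : X (7 / 8) = 3 / 4 := by rw [Xd _ (by norm_num) (by norm_num)]; norm_num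
theorem X34 : X (3 / 4) = 1 / 2 := by rw [Xd _ (by norm_num) (by norm_num)]; norm_num
theorem X1316 : X (13 / 16) = 5 / 8 := by rw [Xd _ (by norm_num) (by norm_num)]; norm_num
theorem X1516 : X (15 / 16) = 7 / 8 := by rw [Xd _ (by norm_num) (by norm_num)]; norm_num
theorem Y12 : Y (1 / 2) = 1 / 2 := Ya _ le_rfl
theorem Y34 : Y (3 / 4) = 5 / 8 := by rw [Yb _ (by norm_num) (by norm_num)]; norm_num
theorem Y78 : Y (7 / 8) = 3 / 4 := by rw [Yd _ (by norm_num) (by norm_num)]; norm_num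
theorem Y1516 : Y (15 / 16) = 7 / 8 := by rw [Yd _ (by norm_num) (by norm_num)]; norm_num

theorem P2a : P2 (7 / 8) = 13 / 16 := by
  unfold P2
  rw [RelIso.mul_apply, RelIso.mul_apply, X78, Y34]
  exact inv_eq X1316

theorem P2b : P2 (15 / 16) = 7 / 8 := by
  unfold P2
  rw [RelIso.mul_apply, RelIso.mul_apply, X1516, Y78]
  exact inv_eq X78

theorem P3a : P3 (7 / 8) = 7 / 8 := by
  unfold P3
  rw [RelIso.mul_apply, RelIso.mul_apply, RelIso.mul_apply, RelIso.mul_apply, X78, X34, Y12,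
    inv_eq X34]
  exact inv_eq X78

theorem nc2 : (Y * P2⁻¹) * (P2 * P3⁻¹) ≠ (P2 * P3⁻¹) * (Y * P2⁻¹) := by
  intro h
  have h1 := congrArg (fun g : Hm => g (7 / 8)) h
  simp only [RelIso.mul_apply] at h1
  rw [inv_eq P3a, P2a, inv_eq P2a, inv_eq P2b, Y78, Y1516, inv_eq P3a, P2a] at h1
  norm_num at h1

theorem rho_s1 : rho s1 = Y * P2⁻¹ := by
  unfold s1 x2 P2
  simp only [map_mul, map_inv, rho_a0, rho_a1]

theorem rho_s2 : rho s2 = P2 * P3⁻¹ := by
  unfold s2 x2 x3 P2 P3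
  simp only [map_mul, map_inv, rho_a0, rho_a1]

theorem specRHO : SpecRHO := by
  refine ⟨rho, isPL_rho, ?_, ?_⟩
  · rw [rho_a0, rho_a1]; exact nc1
  · rw [rho_s1, rho_s2]; exact nc2

end FPT.RHOM
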