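import Pool.Agent.Lib.MP_c27bde_al.FP.Spec

/-!
# MP_c27bde_al, FP: module U1
-/

set_option autoImplicit false

namespace FPT.U1M

theorem core (_hPL : SpecPLB) (hP2 : SpecPL2) (hO : SpecORD) (G : Subgroup Hm) (hG : PLs G)
    (a b : ℝ) (hab : a < b) (hfa : ∀ g ∈ G, g a = a) (hfb : ∀ g ∈ G, g b = b)
    (hmv : ∀ u, a < u → u < b → ∃ g ∈ G, g u ≠ u) (h : Hm) (hh : h ∈ G) (ha : er h a = 0)
    (hb : 0 < el h b) : ∃ X ∈ G, ∃ Y ∈ G, ∃ o, BaseP X Y o b := by
  have hpl := hG h hh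
  obtain ⟨ε, hε, h1⟩ := hP2.er0 h a hpl (hfa h hh) ha
  obtain ⟨δ, hδ, h2⟩ := hP2.elp h b hpl (hfb h hh) hb
  obtain ⟨e, hae, heb, hfe, hlast⟩ := hO.last h a b (hfa h hh) hab
    ⟨δ, hδ, fun u hu hu' => (h2 u hu.le hu').ne⟩
  -- the interval on which `h` is trivial
  obtain ⟨y, hay, hyb, hy⟩ : ∃ y, a < y ∧ y < b ∧ ∀ u, a ≤ u → u ≤ y → h u = u := by
    refine ⟨min (a + ε) ((a + b) / 2), lt_min (by linarith) (by linarith),
      lt_of_le_of_lt (min_le_right _ _) (by linarith), fun u hu hu' => ?_⟩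
    exact h1 u hu (hu'.trans (min_le_left _ _))
  have hye : y ≤ e := by
    by_contra hlt
    exact hlast y (not_le.1 hlt) hyb (hy y hay.le le_rfl)
  have hae' : a < e := lt_of_lt_of_le hay hye
  -- `h` moves `(e,b)` to the left
  have hleft : ∀ u, e < u → u < b → h u < u := by
    rcases hO.dir h e b hlast with h3 | h3
    · exact h3
    · exfalso
      have hu1 : e < max (b - δ) ((e + b) / 2) := lt_of_lt_of_le (by linarith) (le_max_right _ _)
      have hu2 : max (b - δ) ((e + b) / 2) < b := max_lt (by linarith) (by linarith)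
      exact absurd (h2 _ (le_max_left _ _) hu2) (not_lt.2 (h3 _ hu1 hu2).le)
  obtain ⟨k, hk, hke⟩ := hO.orbL G a b hfa hfb hmv e y hae' heb hay
  have hkb : k b = b := hfb k hk
  have hka : k a = a := hfa k hk
  have hkib : k⁻¹ b = b := hfb k⁻¹ (G.inv_mem hk)
  have hX : ∀ u, (k * h * k⁻¹) u = k (h (k⁻¹ u)) := fun u => rfl
  have hXG : k * h * k⁻¹ ∈ G := G.mul_mem (G.mul_mem hk hh) (G.inv_mem hk)
  have hki : ∀ u, k⁻¹ (k u) = u := fun u => RelIso.inv_apply_self k u
  have hik : ∀ u, k (k⁻¹ u) = u := fun u => RelIso.apply_inv_self k u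
  have hao : a < k e := by
    rw [← hka]
    exact k.strictMono hae'
  refine ⟨k * h * k⁻¹, hXG, h, hh, k e, hke.trans hyb, ?_, hfb _ hXG, ?_, ?_, ?_⟩
  · rw [hX, hki, hfe]
  · intro u hu hu'
    have hu1 : e < k⁻¹ u := by
      have := (k⁻¹).strictMono hu
      rwa [hki] at this
    have hu2 : k⁻¹ u < b := by
      have := (k⁻¹).strictMono hu'
      rwa [hkib] at this
    have := k.strictMono (hleft _ hu1 hu2)
    rwa [hik] at this
  · exact ⟨y, hke, hyb, fun u hu hu' => hy u (hao.le.trans hu) hu'⟩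
  · have hel : el (k * h * k⁻¹) b = el h b := by
      have := hP2.elC h k b hpl (hG k hk) (hfb h hh)
      rwa [hkb] at this
    obtain ⟨η, hη, h4⟩ := hP2.eleq (k * h * k⁻¹) h b (hG _ hXG) hpl (hfb _ hXG) (hfb h hh) hel
    have hob : k e < b := hke.trans hyb
    refine ⟨max (b - η) ((k e + b) / 2), lt_of_lt_of_le (by linarith) (le_max_right _ _),
      max_lt (by linarith) (by linarith), fun u hu hu' => ?_⟩
    exact h4 u ((le_max_left _ _).trans hu) hu'

theorem specU1 (hPL : SpecPLB) (hP2 : SpecPL2) (hO : SpecORD) : SpecU1 := by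
  intro G hG a b hab hfa hfb hmv h hh ha hb
  rcases lt_or_gt_of_ne hb with hlt | hgt
  · have hpl := hG h hh
    have e1 : er h⁻¹ a = 0 := by
      have := hP2.erI h a hpl
      rw [hfa h hh, ha, neg_zero] at this
      exact this
    have e2 : 0 < el h⁻¹ b := by
      have := hP2.elI h b hpl
      rw [hfb h hh] at this
      rw [this]
      omega
    exact core hPL hP2 hO G hG a b hab hfa hfb hmv h⁻¹ (G.inv_mem hh) e1 e2
  · exact core hPL hP2 hO G hG a b hab hfa hfb hmv h hh ha hgt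

end FPT.U1M
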