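import Mathlib
import Pool.Agent.Lib.MP_c27bde_al.FP.Spec

/-! # U3: structure on necessary orbitals -/

set_option autoImplicit false

namespace FPT

namespace U3M

theorem mul_app (g h : Hm) (u : ℝ) : (g * h) u = g (h u) := rfl

theorem inv_app (g : Hm) (u : ℝ) : g⁻¹ (g u) = u := RelIso.inv_apply_self g u

theorem app_inv (g : Hm) (u : ℝ) : g (g⁻¹ u) = u := RelIso.apply_inv_self g u

theorem lt_app (g : Hm) {u v : ℝ} : g u < g v ↔ u < v := g.lt_iff_lt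

theorem le_app (g : Hm) {u v : ℝ} : g u ≤ g v ↔ u ≤ v := g.le_iff_le

/-- elements fixing `o` and `b` -/
def St (o b : ℝ) : Subgroup Hm where
  carrier := {g | g o = o ∧ g b = b}
  mul_mem' := by
    rintro g h ⟨a1, a2⟩ ⟨b1, b2⟩
    exact ⟨by rw [mul_app, b1, a1], by rw [mul_app, b2, a2]⟩
  one_mem' := ⟨rfl, rfl⟩
  inv_mem' := by
    rintro g ⟨a1, a2⟩
    constructor
    · have := inv_app g o
      rwa [a1] at this
    · have := inv_app g b
      rwa [a2] at this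

variable {o b : ℝ}

theorem St.mem {g : Hm} : g ∈ St o b ↔ g o = o ∧ g b = b := Iff.rfl

theorem St.l {g : Hm} (hg : g ∈ St o b) : g o = o := hg.1
theorem St.r {g : Hm} (hg : g ∈ St o b) : g b = b := hg.2

theorem St.lo {g : Hm} (hg : g ∈ St o b) {u : ℝ} (h : o ≤ u) : o ≤ g u := by
  have := (le_app g).2 h
  rwa [hg.1] at this

theorem St.hi {g : Hm} (hg : g ∈ St o b) {u : ℝ} (h : u ≤ b) : g u ≤ b := by
  have := (le_app g).2 h
  rwa [hg.2] at this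

theorem St.lo' {g : Hm} (hg : g ∈ St o b) {u : ℝ} (h : o < u) : o < g u := by
  have := (lt_app g).2 h
  rwa [hg.1] at this

theorem St.hi' {g : Hm} (hg : g ∈ St o b) {u : ℝ} (h : u < b) : g u < b := by
  have := (lt_app g).2 h
  rwa [hg.2] at this

/-- commuting on an interval -/
def CommOn (g h : Hm) (o b : ℝ) : Prop := ∀ u, o ≤ u → u ≤ b → g (h u) = h (g u)

theorem CommOn.symm {g h : Hm} (H : CommOn g h o b) : CommOn h g o b :=
  fun u h1 h2 => (H u h1 h2).symm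

/-- the elements commuting with `h` on `[o,b]` -/
def Cz (h : Hm) (o b : ℝ) : Subgroup Hm where
  carrier := {g | g ∈ St o b ∧ CommOn g h o b}
  mul_mem' := by
    rintro g g' ⟨a1, a2⟩ ⟨b1, b2⟩
    refine ⟨(St o b).mul_mem a1 b1, ?_⟩
    intro u h1 h2
    rw [mul_app, mul_app, b2 u h1 h2, a2 (g' u) (St.lo b1 h1) (St.hi b1 h2)]
  one_mem' := ⟨(St o b).one_mem, fun _ _ _ => rfl⟩
  inv_mem' := by
    rintro g ⟨a1, a2⟩
    have a3 := (St o b).inv_mem a1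
    refine ⟨a3, ?_⟩
    intro u h1 h2
    have := a2 (g⁻¹ u) (St.lo a3 h1) (St.hi a3 h2)
    rw [app_inv] at this
    rw [← this, inv_app]

theorem Cz.mem {g h : Hm} : g ∈ Cz h o b ↔ g ∈ St o b ∧ CommOn g h o b := Iff.rfl

/-- last fixed point below `b` -/
def LastF (g : Hm) (o b r : ℝ) : Prop := o ≤ r ∧ r < b ∧ g r = r ∧ ∀ u, r < u → u < b → g u ≠ u

/-- first fixed point above `o` -/
def FirstF (g : Hm) (o b r : ℝ) : Prop := o < r ∧ r ≤ b ∧ g r = r ∧ ∀ u, o < u → u < r → g u ≠ u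

theorem fix_conj {g v : Hm} {u : ℝ} : (v * g * v⁻¹) u = u ↔ g (v⁻¹ u) = v⁻¹ u := by
  rw [mul_app, mul_app]
  constructor
  · intro h
    have := congrArg (fun t => v⁻¹ t) h
    simpa only [inv_app] using this
  · intro h
    rw [h, app_inv]

theorem LastF.conj {g v : Hm} {r : ℝ} (h : LastF g o b r) (hv : v ∈ St o b) :
    LastF (v * g * v⁻¹) o b (v r) := by
  obtain ⟨h1, h2, h3, h4⟩ := h
  refine ⟨St.lo hv h1, St.hi' hv h2, ?_, ?_⟩
  · rw [fix_conj, inv_app, h3]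
  · intro u hu1 hu2 hu3
    rw [fix_conj] at hu3
    refine h4 (v⁻¹ u) ?_ (St.hi' ((St o b).inv_mem hv) hu2) hu3
    rw [← lt_app v, app_inv]
    exact hu1

theorem FirstF.conj {g v : Hm} {r : ℝ} (h : FirstF g o b r) (hv : v ∈ St o b) :
    FirstF (v * g * v⁻¹) o b (v r) := by
  obtain ⟨h1, h2, h3, h4⟩ := h
  refine ⟨St.lo' hv h1, St.hi hv h2, ?_, ?_⟩
  · rw [fix_conj, inv_app, h3]
  · intro u hu1 hu2 hu3
    rw [fix_conj] at hu3
    refine h4 (v⁻¹ u) (St.lo' ((St o b).inv_mem hv) hu1) ?_ hu3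
    rw [← lt_app v, app_inv]
    exact hu2

theorem LastF.comm {g h : Hm} {r : ℝ} (H : LastF g o b r) (hh : h ∈ St o b)
    (hc : CommOn g h o b) : h r = r := by
  obtain ⟨h1, h2, h3, h4⟩ := H
  rcases lt_trichotomy (h r) r with hlt | heq | hgt
  · exfalso
    have hi := (St o b).inv_mem hh
    have a1 : r < h⁻¹ r := by
      rw [← lt_app h, app_inv]
      exact hlt
    have a2 : h⁻¹ r < b := St.hi' hi h2
    refine h4 _ a1 a2 ?_
    have := hc (h⁻¹ r) (St.lo hi h1) a2.le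
    rw [app_inv, h3] at this
    conv_rhs => rw [this]
    rw [inv_app]
  · exact heq
  · exfalso
    refine h4 _ hgt (St.hi' hh h2) ?_
    rw [hc r h1 h2.le, h3]

theorem FirstF.comm {g h : Hm} {r : ℝ} (H : FirstF g o b r) (hh : h ∈ St o b)
    (hc : CommOn g h o b) : h r = r := by
  obtain ⟨h1, h2, h3, h4⟩ := H
  rcases lt_trichotomy (h r) r with hlt | heq | hgt
  · exfalso
    refine h4 _ (St.lo' hh h1) hlt ?_
    rw [hc r h1.le h2, h3]
  · exact heq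
  · exfalso
    have hi := (St o b).inv_mem hh
    have a1 : h⁻¹ r < r := by
      rw [← lt_app h, app_inv]
      exact hgt
    have a2 : o < h⁻¹ r := St.lo' hi h1
    refine h4 _ a2 a1 ?_
    have := hc (h⁻¹ r) a2.le (a1.le.trans h2)
    rw [app_inv, h3] at this
    conv_rhs => rw [this]
    rw [inv_app]

theorem LastF.eq {g h : Hm} {r s : ℝ} (H : LastF g o b r) (H' : LastF h o b s)
    (hg : g ∈ St o b) (hh : h ∈ St o b) (hc : CommOn g h o b) : r = s := by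
  have e1 := H.comm hh hc
  have e2 := H'.comm hg hc.symm
  obtain ⟨h1, h2, h3, h4⟩ := H
  obtain ⟨k1, k2, k3, k4⟩ := H'
  apply le_antisymm
  · by_contra hcon
    exact k4 r (not_le.1 hcon) h2 e1
  · by_contra hcon
    exact h4 s (not_le.1 hcon) k2 e2

theorem FirstF.eq {g h : Hm} {r s : ℝ} (H : FirstF g o b r) (H' : FirstF h o b s)
    (hg : g ∈ St o b) (hh : h ∈ St o b) (hc : CommOn g h o b) : r = s := by
  have e1 := H.comm hh hc
  have e2 := H'.comm hg hc.symm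
  obtain ⟨h1, h2, h3, h4⟩ := H
  obtain ⟨k1, k2, k3, k4⟩ := H'
  apply le_antisymm
  · by_contra hcon
    exact h4 s k1 (not_le.1 hcon) e2
  · by_contra hcon
    exact k4 r h1 (not_le.1 hcon) e1

/-- The fixed set of `g` is invariant under elements commuting with `g`. -/
theorem fix_of_comm {g k : Hm} (hc : CommOn k g o b) {u : ℝ} (h1 : o ≤ u) (h2 : u ≤ b)
    (h : g (k u) = k u) : g u = u := by
  have := hc u h1 h2
  rw [h] at this
  exact k.injective this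

theorem spread (hO : SpecORD) {g w : Hm} (hg : g ∈ St o b) (hw : w ∈ St o b)
    (hc : CommOn g w o b) (hm : ∀ u, o < u → u < b → w u ≠ u)
    (h : (∃ z, z < b ∧ ∀ u, z ≤ u → u ≤ b → g u = u) ∨
      (∃ y, o < y ∧ ∀ u, o ≤ u → u ≤ y → g u = u)) :
    ∀ u, o ≤ u → u ≤ b → g u = u := by
  intro u h1 h2
  rcases h1.eq_or_lt with rfl | h1'
  · exact hg.1
  rcases h2.eq_or_lt with rfl | h2'
  · exact hg.2
  have hwz : w ∈ Cz g o b := ⟨hw, hc.symm⟩
  have key : ∀ k : Hm, k ∈ Cz g o b → g (k u) = k u → g u = u := fun k hk e =>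
    fix_of_comm hk.2 h1 h2 e
  have hp : ∀ n : ℕ, w ^ n ∈ Cz g o b := fun n => (Cz g o b).pow_mem hwz n
  have hq : ∀ n : ℕ, (w ^ n)⁻¹ ∈ Cz g o b := fun n => (Cz g o b).inv_mem (hp n)
  rcases h with ⟨z, hz, htriv⟩ | ⟨y, hy, htriv⟩
  · rcases hO.dir w o b hm with hl | hr
    · obtain ⟨n, hn⟩ := hO.itL' w o b hw.1 hw.2 hl u z h1' h2' hz
      exact key _ (hq n) (htriv _ (hn n le_rfl).le (St.hi (hq n).1 h2))
    · obtain ⟨n, hn⟩ := hO.itR w o b hw.1 hw.2 hr u z h1' h2' hz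
      exact key _ (hp n) (htriv _ (hn n le_rfl).le (St.hi (hp n).1 h2))
  · rcases hO.dir w o b hm with hl | hr
    · obtain ⟨n, hn⟩ := hO.itL w o b hw.1 hw.2 hl u y h1' h2' hy
      exact key _ (hp n) (htriv _ (St.lo (hp n).1 h1) (hn n le_rfl).le)
    · obtain ⟨n, hn⟩ := hO.itR' w o b hw.1 hw.2 hr u y h1' h2' hy
      exact key _ (hq n) (htriv _ (St.lo (hq n).1 h1) (hn n le_rfl).le)

/-- last fixed points exist -/
theorem exists_last (hP2 : SpecPL2) (hO : SpecORD) {g : Hm} (hg : IsPL g) (hob : o < b)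
    (hs : g ∈ St o b) (he : el g b ≠ 0) : ∃ r, LastF g o b r := by
  have : ∃ ε > 0, ∀ u, b - ε < u → u < b → g u ≠ u := by
    rcases lt_or_gt_of_ne he with h | h
    · obtain ⟨ε, hε, H⟩ := hP2.eln g b hg hs.2 h
      exact ⟨ε, hε, fun u h1 h2 => (H u h1.le h2).ne'⟩
    · obtain ⟨ε, hε, H⟩ := hP2.elp g b hg hs.2 h
      exact ⟨ε, hε, fun u h1 h2 => (H u h1.le h2).ne⟩
  exact hO.last g o b hs.1 hob this

theorem exists_first (hP2 : SpecPL2) (hO : SpecORD) {g : Hm} (hg : IsPL g) (hob : o < b)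
    (hs : g ∈ St o b) (he : er g o ≠ 0) : ∃ r, FirstF g o b r := by
  have : ∃ ε > 0, ∀ u, o < u → u < o + ε → g u ≠ u := by
    rcases lt_or_gt_of_ne he with h | h
    · obtain ⟨ε, hε, H⟩ := hP2.ern g o hg hs.1 h
      exact ⟨ε, hε, fun u h1 h2 => (H u h1 h2.le).ne⟩
    · obtain ⟨ε, hε, H⟩ := hP2.erp g o hg hs.1 h
      exact ⟨ε, hε, fun u h1 h2 => (H u h1 h2.le).ne'⟩
  exact hO.first g o b hs.2 hob this

/-- `x^i` commutes with `Y` on `[o,b]`. -/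
theorem comm_of_conj {v Y x' W : Hm} (hv : v ∈ St o b) (hY : Y ∈ St o b) (hx : x' ∈ St o b)
    (e1 : ∀ u, o ≤ u → u ≤ b → (v * x' * v⁻¹) u = W u)
    (e2 : ∀ u, o ≤ u → u ≤ b → ((v * Y) * x' * (v * Y)⁻¹) u = W u) : CommOn Y x' o b := by
  intro u h1 h2
  have hvY := (St o b).mul_mem hv hY
  have a1 := e1 ((v * Y) u) (St.lo hvY h1) (St.hi hvY h2)
  have a2 := e2 ((v * Y) u) (St.lo hvY h1) (St.hi hvY h2)
  rw [← a2] at a1
  simp only [mul_app, mul_inv_rev, inv_app] at a1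
  exact (v.injective a1).symm

section Claim2

variable (hPB : SpecPLB) (hP2 : SpecPL2) (hO : SpecORD)

include hPB hP2 hO

/-- Claim 2 at the right end. -/
theorem claimB {X Y x w v : Hm} (hob : o < b) (hX : X ∈ St o b) (hY : Y ∈ St o b)
    (hx : x ∈ St o b) (hw : w ∈ St o b) (hv : v ∈ St o b) (pY : IsPL Y) (px : IsPL x)
    (pw : IsPL w) (pv : IsPL v) (hXm : ∀ u, o < u → u < b → X u ≠ u)
    (hYo : ∃ y, o < y ∧ ∀ u, o ≤ u → u ≤ y → Y u = u)
    (hYn : ¬ ∀ u, o ≤ u → u ≤ b → Y u = u)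
    (c1 : CommOn (v * x * v⁻¹) w o b) (c2 : CommOn ((v * X) * x * (v * X)⁻¹) w o b)
    (c3 : CommOn ((v * Y) * x * (v * Y)⁻¹) w o b) (hxb : el x b ≠ 0) (hwb : el w b ≠ 0) :
    False := by
  obtain ⟨rx, hrx⟩ := exists_last hP2 hO px hob hx hxb
  obtain ⟨rw', hrw⟩ := exists_last hP2 hO pw hob hw hwb
  have sC : ∀ v', v' ∈ St o b → v' * x * v'⁻¹ ∈ St o b := fun v' h =>
    (St o b).mul_mem ((St o b).mul_mem h hx) ((St o b).inv_mem h)
  have hvX := (St o b).mul_mem hv hX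
  have hvY := (St o b).mul_mem hv hY
  have e1 : v rx = rw' := (hrx.conj hv).eq hrw (sC v hv) hw c1
  have e2 : (v * X) rx = rw' := (hrx.conj hvX).eq hrw (sC _ hvX) hw c2
  have e3 : X rx = rx := by
    rw [mul_app, ← e1] at e2
    exact v.injective e2
  have e4 : rx = o := by
    by_contra hne
    exact hXm rx (lt_of_le_of_ne hrx.1 (Ne.symm hne)) hrx.2.1 e3
  have e5 : rw' = o := by rw [← e1, e4]; exact hv.1
  have hxm : ∀ u, o < u → u < b → x u ≠ u := by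
    have := hrx.2.2.2
    rwa [e4] at this
  have hwm : ∀ u, o < u → u < b → w u ≠ u := by
    have := hrw.2.2.2
    rwa [e5] at this
  set i := el w b with hi
  set j := el x b with hj
  have key : ∀ v', v' ∈ St o b → IsPL v' → CommOn (v' * x * v'⁻¹) w o b →
      ∀ u, o ≤ u → u ≤ b → (v' * x ^ i * v'⁻¹) u = (w ^ j) u := by
    intro v' hv' pv' hc
    set g : Hm := (v' * x * v'⁻¹) ^ i * (w ^ j)⁻¹ with hg
    have h1 : v' * x * v'⁻¹ ∈ Cz w o b := ⟨sC v' hv', hc⟩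
    have h2 : w ∈ Cz w o b := ⟨hw, fun _ _ _ => rfl⟩
    have h3 : g ∈ Cz w o b :=
      (Cz w o b).mul_mem ((Cz w o b).zpow_mem h1 i)
        ((Cz w o b).inv_mem ((Cz w o b).zpow_mem h2 j))
    have pc : IsPL (v' * x * v'⁻¹) := hPB.mul _ _ (hPB.mul _ _ pv' px) (hPB.inv _ pv')
    have pc' : IsPL ((v' * x * v'⁻¹) ^ i) := hP2.zpow _ _ pc
    have pw' : IsPL (w ^ j) := hP2.zpow _ _ pw
    have pg : IsPL g := hPB.mul _ _ pc' (hPB.inv _ pw')
    have hwj : (w ^ j) b = b := ((St o b).zpow_mem hw j).2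
    have hwj' : (w ^ j)⁻¹ b = b := ((St o b).inv_mem ((St o b).zpow_mem hw j)).2
    have ee : el g b = 0 := by
      rw [hg, hPB.elM _ _ _ pc' (hPB.inv _ pw'), hwj']
      have q1 := hP2.elI (w ^ j) b pw'
      rw [hwj] at q1
      have q2 := hP2.elZ w j b pw hw.2
      have q3 := hP2.elZ (v' * x * v'⁻¹) i b pc (sC v' hv').2
      have q4 := hP2.elC x v' b px pv' hx.2
      rw [hv'.2] at q4
      rw [q1, q2, q3, q4]
      rw [← hi, ← hj]
      ring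
    obtain ⟨ε, hε, htr⟩ := hP2.el0 g b pg h3.1.2 ee
    have htriv := spread hO h3.1 hw h3.2 hwm
      (Or.inl ⟨b - ε, by linarith, htr⟩)
    intro u hu1 hu2
    have hwjS := (St o b).zpow_mem hw j
    have := htriv ((w ^ j) u) (St.lo hwjS hu1) (St.hi hwjS hu2)
    rw [hg, mul_app, inv_app, conj_zpow] at this
    exact this
  have hxi := (St o b).zpow_mem hx i
  have hcomm : CommOn Y (x ^ i) o b :=
    comm_of_conj hv hY hxi (key v hv pv c1) (key (v * Y) hvY (hPB.mul _ _ pv pY) c3)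
  apply hYn
  refine spread hO hY hxi hcomm ?_ (Or.inr hYo)
  intro u hu1 hu2 hu3
  exact hxm u hu1 hu2 (hO.zpowi x i u hwb hu3)

/-- Claim 2 at the left end. -/
theorem claimO {X Y x w v : Hm} (hob : o < b) (hX : X ∈ St o b) (hY : Y ∈ St o b)
    (hx : x ∈ St o b) (hw : w ∈ St o b) (hv : v ∈ St o b) (pY : IsPL Y) (px : IsPL x)
    (pw : IsPL w) (pv : IsPL v) (hXm : ∀ u, o < u → u < b → X u ≠ u)
    (hYo : ∃ y, o < y ∧ ∀ u, o ≤ u → u ≤ y → Y u = u)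
    (hYn : ¬ ∀ u, o ≤ u → u ≤ b → Y u = u)
    (c1 : CommOn (v * x * v⁻¹) w o b) (c2 : CommOn ((v * X) * x * (v * X)⁻¹) w o b)
    (c3 : CommOn ((v * Y) * x * (v * Y)⁻¹) w o b) (hxb : er x o ≠ 0) (hwb : er w o ≠ 0) :
    False := by
  obtain ⟨rx, hrx⟩ := exists_first hP2 hO px hob hx hxb
  obtain ⟨rw', hrw⟩ := exists_first hP2 hO pw hob hw hwb
  have sC : ∀ v', v' ∈ St o b → v' * x * v'⁻¹ ∈ St o b := fun v' h =>
    (St o b).mul_mem ((St o b).mul_mem h hx) ((St o b).inv_mem h)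
  have hvX := (St o b).mul_mem hv hX
  have hvY := (St o b).mul_mem hv hY
  have e1 : v rx = rw' := (hrx.conj hv).eq hrw (sC v hv) hw c1
  have e2 : (v * X) rx = rw' := (hrx.conj hvX).eq hrw (sC _ hvX) hw c2
  have e3 : X rx = rx := by
    rw [mul_app, ← e1] at e2
    exact v.injective e2
  have e4 : rx = b := by
    by_contra hne
    exact hXm rx hrx.1 (lt_of_le_of_ne hrx.2.1 hne) e3
  have e5 : rw' = b := by rw [← e1, e4]; exact hv.2
  have hxm : ∀ u, o < u → u < b → x u ≠ u := by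
    have := hrx.2.2.2
    rwa [e4] at this
  have hwm : ∀ u, o < u → u < b → w u ≠ u := by
    have := hrw.2.2.2
    rwa [e5] at this
  set i := er w o with hi
  set j := er x o with hj
  have key : ∀ v', v' ∈ St o b → IsPL v' → CommOn (v' * x * v'⁻¹) w o b →
      ∀ u, o ≤ u → u ≤ b → (v' * x ^ i * v'⁻¹) u = (w ^ j) u := by
    intro v' hv' pv' hc
    set g : Hm := (v' * x * v'⁻¹) ^ i * (w ^ j)⁻¹ with hg
    have h1 : v' * x * v'⁻¹ ∈ Cz w o b := ⟨sC v' hv', hc⟩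
    have h2 : w ∈ Cz w o b := ⟨hw, fun _ _ _ => rfl⟩
    have h3 : g ∈ Cz w o b :=
      (Cz w o b).mul_mem ((Cz w o b).zpow_mem h1 i)
        ((Cz w o b).inv_mem ((Cz w o b).zpow_mem h2 j))
    have pc : IsPL (v' * x * v'⁻¹) := hPB.mul _ _ (hPB.mul _ _ pv' px) (hPB.inv _ pv')
    have pc' : IsPL ((v' * x * v'⁻¹) ^ i) := hP2.zpow _ _ pc
    have pw' : IsPL (w ^ j) := hP2.zpow _ _ pw
    have pg : IsPL g := hPB.mul _ _ pc' (hPB.inv _ pw')
    have hwj : (w ^ j) o = o := ((St o b).zpow_mem hw j).1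
    have hwj' : (w ^ j)⁻¹ o = o := ((St o b).inv_mem ((St o b).zpow_mem hw j)).1
    have ee : er g o = 0 := by
      rw [hg, hPB.erM _ _ _ pc' (hPB.inv _ pw'), hwj']
      have q1 := hP2.erI (w ^ j) o pw'
      rw [hwj] at q1
      have q2 := hP2.erZ w j o pw hw.1
      have q3 := hP2.erZ (v' * x * v'⁻¹) i o pc (sC v' hv').1
      have q4 := hP2.erC x v' o px pv' hx.1
      rw [hv'.1] at q4
      rw [q1, q2, q3, q4]
      rw [← hi, ← hj]
      ring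
    obtain ⟨ε, hε, htr⟩ := hP2.er0 g o pg h3.1.1 ee
    have htriv := spread hO h3.1 hw h3.2 hwm
      (Or.inr ⟨o + ε, by linarith, htr⟩)
    intro u hu1 hu2
    have hwjS := (St o b).zpow_mem hw j
    have := htriv ((w ^ j) u) (St.lo hwjS hu1) (St.hi hwjS hu2)
    rw [hg, mul_app, inv_app, conj_zpow] at this
    exact this
  have hxi := (St o b).zpow_mem hx i
  have hcomm : CommOn Y (x ^ i) o b :=
    comm_of_conj hv hY hxi (key v hv pv c1) (key (v * Y) hvY (hPB.mul _ _ pv pY) c3)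
  apply hYn
  refine spread hO hY hxi hcomm ?_ (Or.inr hYo)
  intro u hu1 hu2 hu3
  exact hxm u hu1 hu2 (hO.zpowi x i u hwb hu3)

end Claim2

theorem comm_disj {c d : ℝ} {g k : Hm} (hg : g ∈ St c d) (hk : k ∈ St c d) {s : ℝ}
    (h1 : c ≤ s) (h2 : s ≤ d) (tg : ∀ u, c ≤ u → u ≤ s → g u = u)
    (tk : ∀ u, s ≤ u → u ≤ d → k u = u) : CommOn g k c d := by
  intro u hu1 hu2
  rcases le_total u s with h | h
  · have e1 : k u ≤ s := by
      have := (le_app k).2 h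
      rwa [tk s le_rfl h2] at this
    rw [tg u hu1 h, tg (k u) (St.lo hk hu1) e1]
  · have e1 : s ≤ g u := by
      have := (le_app g).2 h
      rwa [tg s h1 le_rfl] at this
    rw [tk u h hu2, tk (g u) e1 (St.hi hg hu2)]

theorem conj_triv_l {c e s : ℝ} {x v : Hm} (hx : ∀ u, c ≤ u → u ≤ e → x u = u) (hv : v c = c)
    (hs : s ≤ v e) : ∀ u, c ≤ u → u ≤ s → (v * x * v⁻¹) u = u := by
  intro u h1 h2
  rw [fix_conj]
  apply hx
  · rw [← le_app v, app_inv, hv]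
    exact h1
  · rw [← le_app v, app_inv]
    exact h2.trans hs

theorem conj_triv_r {d e s : ℝ} {x v : Hm} (hx : ∀ u, e ≤ u → u ≤ d → x u = u) (hv : v d = d)
    (hs : v e ≤ s) : ∀ u, s ≤ u → u ≤ d → (v * x * v⁻¹) u = u := by
  intro u h1 h2
  rw [fix_conj]
  apply hx
  · rw [← le_app v, app_inv]
    exact hs.trans h1
  · rw [← le_app v, app_inv, hv]
    exact h2

/-- The hypotheses of U3 in one structure. -/
structure Ctx (X Y : Hm) (o b c d : ℝ) : Prop where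
  pX : IsPL X
  pY : IsPL Y
  bs : BaseP X Y o b
  cd : c < d
  Xc : X c = c
  Yc : Y c = c
  Xd : X d = d
  Yd : Y d = d
  mv : ∀ u, c < u → u < d → X u ≠ u ∨ Y u ≠ u
  nec : ∀ θ ∈ Subgroup.closure ({X, Y} : Set Hm), (∀ u, c ≤ u → u ≤ d → θ u = u) →
    (∀ u, o ≤ u → u ≤ b → θ u = u)

/-- the group generated by `X`, `Y` -/
abbrev Th (X Y : Hm) : Subgroup Hm := Subgroup.closure ({X, Y} : Set Hm)

theorem mX {X Y : Hm} : X ∈ Th X Y := Subgroup.subset_closure (by simp)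
theorem mY {X Y : Hm} : Y ∈ Th X Y := Subgroup.subset_closure (by simp)

theorem pl_Th (hPB : SpecPLB) {X Y : Hm} (pX : IsPL X) (pY : IsPL Y) :
    ∀ g ∈ Th X Y, IsPL g := by
  intro g hg
  refine Subgroup.closure_induction (p := fun g _ => IsPL g) ?_ hPB.one ?_ ?_ hg
  · rintro x (rfl | hx)
    · exact pX
    · rw [Set.mem_singleton_iff.1 hx]
      exact pY
  · intro x y _ _ hx hy
    exact hPB.mul x y hx hy
  · intro x _ hx
    exact hPB.inv x hx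

theorem Th_le {X Y : Hm} {p q : ℝ} (h1 : X p = p) (h2 : Y p = p) (h3 : X q = q)
    (h4 : Y q = q) : Th X Y ≤ St p q := by
  rw [Subgroup.closure_le]
  rintro x (rfl | hx)
  · exact ⟨h1, h3⟩
  · rw [Set.mem_singleton_iff.1 hx]
    exact ⟨h2, h4⟩

namespace Ctx

variable {X Y : Hm} {c d : ℝ}

theorem ob (h : Ctx X Y o b c d) : o < b := h.bs.1
theorem Xo (h : Ctx X Y o b c d) : X o = o := h.bs.2.1
theorem Xb (h : Ctx X Y o b c d) : X b = b := h.bs.2.2.1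
theorem Xl (h : Ctx X Y o b c d) : ∀ u, o < u → u < b → X u < u := h.bs.2.2.2.1

theorem Yo (h : Ctx X Y o b c d) : Y o = o := by
  obtain ⟨y, h1, h2, h3⟩ := h.bs.2.2.2.2.1
  exact h3 o le_rfl h1.le

theorem Yb (h : Ctx X Y o b c d) : Y b = b := by
  obtain ⟨z, h1, h2, h3⟩ := h.bs.2.2.2.2.2
  rw [← h3 b h2.le le_rfl, h.Xb]

theorem le_ob (h : Ctx X Y o b c d) : Th X Y ≤ St o b := Th_le h.Xo h.Yo h.Xb h.Yb

theorem le_cd (h : Ctx X Y o b c d) : Th X Y ≤ St c d := Th_le h.Xc h.Yc h.Xd h.Yd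

theorem mvG (h : Ctx X Y o b c d) : ∀ u, c < u → u < d → ∃ g ∈ Th X Y, g u ≠ u := by
  intro u h1 h2
  rcases h.mv u h1 h2 with h | h
  · exact ⟨X, mX, h⟩
  · exact ⟨Y, mY, h⟩

theorem orbR (hO : SpecORD) (h : Ctx X Y o b c d) {u v : ℝ} (h1 : c < u) (h2 : u < d)
    (h3 : v < d) : ∃ g ∈ Th X Y, v < g u :=
  hO.orbR (Th X Y) c d (fun _ hg => (h.le_cd hg).1) (fun _ hg => (h.le_cd hg).2) h.mvG u v h1 h2 h3

theorem orbL (hO : SpecORD) (h : Ctx X Y o b c d) {u v : ℝ} (h1 : c < u) (h2 : u < d)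
    (h3 : c < v) : ∃ g ∈ Th X Y, g u < v :=
  hO.orbL (Th X Y) c d (fun _ hg => (h.le_cd hg).1) (fun _ hg => (h.le_cd hg).2) h.mvG u v h1 h2 h3

theorem comm (h : Ctx X Y o b c d) {g k : Hm} (hg : g ∈ Th X Y) (hk : k ∈ Th X Y)
    (hc : CommOn g k c d) : CommOn g k o b := by
  intro u h1 h2
  have hm : (k * g)⁻¹ * (g * k) ∈ Th X Y :=
    (Th X Y).mul_mem ((Th X Y).inv_mem ((Th X Y).mul_mem hk hg)) ((Th X Y).mul_mem hg hk)
  have := h.nec _ hm (fun v h3 h4 => by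
    rw [mul_app, mul_app g k, hc v h3 h4, ← mul_app k g, inv_app]) u h1 h2
  rw [mul_app] at this
  have h5 := congrArg (fun t => (k * g) t) this
  simpa only [app_inv, mul_app] using h5

theorem Yn (h : Ctx X Y o b c d) : ¬ ∀ u, o ≤ u → u ≤ b → Y u = u := by
  intro H
  obtain ⟨z, h1, h2, h3⟩ := h.bs.2.2.2.2.2
  have e1 := h3 z le_rfl h2.le
  have e2 := h.Xl z h1 h2
  rw [e1, H z h1.le h2.le] at e2
  exact lt_irrefl _ e2

/-- the element `v` of Claim 2 -/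
theorem claimV (hPB : SpecPLB) (hP2 : SpecPL2) (hO : SpecORD) (h : Ctx X Y o b c d) {x w : Hm}
    (hx : x ∈ Th X Y) (hw : w ∈ Th X Y) (ex : er x c = 0) (ew : el w d = 0) :
    ∃ v ∈ Th X Y, CommOn (v * x * v⁻¹) w o b ∧ CommOn ((v * X) * x * (v * X)⁻¹) w o b ∧
      CommOn ((v * Y) * x * (v * Y)⁻¹) w o b := by
  have hcd := h.cd
  have pl := pl_Th hPB h.pX h.pY
  obtain ⟨ε, hε, tx⟩ := hP2.er0 x c (pl x hx) (h.le_cd hx).1 ex
  obtain ⟨ε', hε', tw⟩ := hP2.el0 w d (pl w hw) (h.le_cd hw).2 ew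
  set e := min (c + ε) ((c + d) / 2) with he
  set e' := max (d - ε') ((c + d) / 2) with he'
  have e1 : c < e := lt_min (by linarith) (by linarith)
  have e2 : e < d := (min_le_right _ _).trans_lt (by linarith)
  have e3 : c < e' := lt_of_lt_of_le (by linarith) (le_max_right _ _)
  have e4 : e' < d := max_lt (by linarith) (by linarith)
  have tx' : ∀ u, c ≤ u → u ≤ e → x u = u := fun u h1 h2 =>
    tx u h1 (h2.trans (min_le_left _ _))
  have tw' : ∀ u, e' ≤ u → u ≤ d → w u = u := fun u h1 h2 =>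
    tw u ((le_max_left _ _).trans h1) h2
  have sX := h.le_cd (mX (X := X) (Y := Y))
  have sY := h.le_cd (mY (X := X) (Y := Y))
  set m := min e (min (X e) (Y e)) with hm
  have m1 : c < m := lt_min e1 (lt_min (St.lo' sX e1) (St.lo' sY e1))
  have m2 : m < d := (min_le_left _ _).trans_lt e2
  obtain ⟨v, hv, hvm⟩ := h.orbR hO m1 m2 e4
  have key : ∀ v' ∈ Th X Y, e' ≤ v' e → CommOn (v' * x * v'⁻¹) w o b := by
    intro v' hv' hle
    have mem : v' * x * v'⁻¹ ∈ Th X Y :=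
      (Th X Y).mul_mem ((Th X Y).mul_mem hv' hx) ((Th X Y).inv_mem hv')
    apply h.comm mem hw
    exact comm_disj (h.le_cd mem) (h.le_cd hw) e3.le e4.le
      (conj_triv_l tx' (h.le_cd hv').1 hle) tw'
  refine ⟨v, hv, key v hv ?_, key _ ((Th X Y).mul_mem hv mX) ?_,
    key _ ((Th X Y).mul_mem hv mY) ?_⟩
  · exact hvm.le.trans ((le_app v).2 (min_le_left _ _))
  · rw [mul_app]
    exact hvm.le.trans ((le_app v).2 ((min_le_right _ _).trans (min_le_left _ _)))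
  · rw [mul_app]
    exact hvm.le.trans ((le_app v).2 ((min_le_right _ _).trans (min_le_right _ _)))

theorem Xne (h : Ctx X Y o b c d) : ∀ u, o < u → u < b → X u ≠ u := fun u h1 h2 =>
  (h.Xl u h1 h2).ne

theorem Ytr (h : Ctx X Y o b c d) : ∃ y, o < y ∧ ∀ u, o ≤ u → u ≤ y → Y u = u := by
  obtain ⟨y, h1, h2, h3⟩ := h.bs.2.2.2.2.1
  exact ⟨y, h1, h3⟩

theorem cl2b (hPB : SpecPLB) (hP2 : SpecPL2) (hO : SpecORD) (h : Ctx X Y o b c d) {x w : Hm}
    (hx : x ∈ Th X Y) (hw : w ∈ Th X Y) (ex : er x c = 0) (ew : el w d = 0)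
    (hxb : el x b ≠ 0) (hwb : el w b ≠ 0) : False := by
  have pl := pl_Th hPB h.pX h.pY
  obtain ⟨v, hv, c1, c2, c3⟩ := h.claimV hPB hP2 hO hx hw ex ew
  exact claimB hPB hP2 hO h.ob (h.le_ob mX) (h.le_ob mY) (h.le_ob hx) (h.le_ob hw) (h.le_ob hv)
    h.pY (pl x hx) (pl w hw) (pl v hv) h.Xne h.Ytr h.Yn c1 c2 c3 hxb hwb

theorem cl2o (hPB : SpecPLB) (hP2 : SpecPL2) (hO : SpecORD) (h : Ctx X Y o b c d) {x w : Hm}
    (hx : x ∈ Th X Y) (hw : w ∈ Th X Y) (ex : er x c = 0) (ew : el w d = 0)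
    (hxb : er x o ≠ 0) (hwb : er w o ≠ 0) : False := by
  have pl := pl_Th hPB h.pX h.pY
  obtain ⟨v, hv, c1, c2, c3⟩ := h.claimV hPB hP2 hO hx hw ex ew
  exact claimO hPB hP2 hO h.ob (h.le_ob mX) (h.le_ob mY) (h.le_ob hx) (h.le_ob hw) (h.le_ob hv)
    h.pY (pl x hx) (pl w hw) (pl v hv) h.Xne h.Ytr h.Yn c1 c2 c3 hxb hwb

/-- `X Y⁻¹` is trivial near `b`. -/
theorem delta_b (h : Ctx X Y o b c d) : ∃ z, z < b ∧ ∀ u, z ≤ u → u ≤ b → (X * Y⁻¹) u = u := by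
  obtain ⟨z, h1, h2, h3⟩ := h.bs.2.2.2.2.2
  have sY := h.le_ob (mY (X := X) (Y := Y))
  refine ⟨Y z, St.hi' sY h2, ?_⟩
  intro u hu1 hu2
  have a1 : z ≤ Y⁻¹ u := by
    rw [← le_app Y, app_inv]
    exact hu1
  have a2 : Y⁻¹ u ≤ b := St.hi ((St o b).inv_mem sY) hu2
  rw [mul_app, h3 _ a1 a2, app_inv]

end Ctx

theorem er_xi (hPB : SpecPLB) (hP2 : SpecPL2) {X Y : Hm} (pX : IsPL X) (pY : IsPL Y) {p : ℝ}
    (hX : X p = p) (hY : Y p = p) (m n : ℤ) :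
    er (X ^ m * (Y ^ n)⁻¹) p = m * er X p - n * er Y p := by
  have sY : Y ^ n ∈ St p p := (St p p).zpow_mem ⟨hY, hY⟩ n
  have e1 : (Y ^ n) p = p := sY.1
  have e2 : (Y ^ n)⁻¹ p = p := ((St p p).inv_mem sY).1
  have pYn := hP2.zpow Y n pY
  rw [hPB.erM _ _ _ (hP2.zpow X m pX) (hPB.inv _ pYn), e2, hP2.erZ X m p pX hX]
  have q1 := hP2.erI (Y ^ n) p pYn
  rw [e1, hP2.erZ Y n p pY hY] at q1
  rw [q1]
  ring

theorem el_xi (hPB : SpecPLB) (hP2 : SpecPL2) {X Y : Hm} (pX : IsPL X) (pY : IsPL Y) {p : ℝ}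
    (hX : X p = p) (hY : Y p = p) (m n : ℤ) :
    el (X ^ m * (Y ^ n)⁻¹) p = m * el X p - n * el Y p := by
  have sY : Y ^ n ∈ St p p := (St p p).zpow_mem ⟨hY, hY⟩ n
  have e1 : (Y ^ n) p = p := sY.1
  have e2 : (Y ^ n)⁻¹ p = p := ((St p p).inv_mem sY).1
  have pYn := hP2.zpow Y n pY
  rw [hPB.elM _ _ _ (hP2.zpow X m pX) (hPB.inv _ pYn), e2, hP2.elZ X m p pX hX]
  have q1 := hP2.elI (Y ^ n) p pYn
  rw [e1, hP2.elZ Y n p pY hY] at q1
  rw [q1]
  ring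

theorem er_delta (hPB : SpecPLB) (hP2 : SpecPL2) {X Y : Hm} (pX : IsPL X) (pY : IsPL Y) {p : ℝ}
    (hX : X p = p) (hY : Y p = p) : er (X * Y⁻¹) p = er X p - er Y p := by
  have := er_xi hPB hP2 pX pY hX hY 1 1
  simpa using this

theorem el_delta (hPB : SpecPLB) (hP2 : SpecPL2) {X Y : Hm} (pX : IsPL X) (pY : IsPL Y) {p : ℝ}
    (hX : X p = p) (hY : Y p = p) : el (X * Y⁻¹) p = el X p - el Y p := by
  have := el_xi hPB hP2 pX pY hX hY 1 1
  simpa using this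

namespace Ctx

variable {X Y : Hm} {c d : ℝ}

theorem erXo (hP2 : SpecPL2) (h : Ctx X Y o b c d) : er X o ≠ 0 := by
  intro h0
  obtain ⟨ε, hε, H⟩ := hP2.er0 X o h.pX h.Xo h0
  have hob := h.ob
  have h1 : o < min (o + ε) ((o + b) / 2) := lt_min (by linarith) (by linarith)
  have h2 : min (o + ε) ((o + b) / 2) < b := (min_le_right _ _).trans_lt (by linarith)
  exact h.Xne _ h1 h2 (H _ h1.le (min_le_left _ _))

theorem elXb (hP2 : SpecPL2) (h : Ctx X Y o b c d) : el X b ≠ 0 := by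
  intro h0
  obtain ⟨ε, hε, H⟩ := hP2.el0 X b h.pX h.Xb h0
  have hob := h.ob
  have h1 : o < max (b - ε) ((o + b) / 2) := lt_of_lt_of_le (by linarith) (le_max_right _ _)
  have h2 : max (b - ε) ((o + b) / 2) < b := max_lt (by linarith) (by linarith)
  exact h.Xne _ h1 h2 (H _ (le_max_left _ _) h2.le)

theorem erYo (hP2 : SpecPL2) (h : Ctx X Y o b c d) : er Y o = 0 := by
  obtain ⟨y, h1, h3⟩ := h.Ytr
  exact hP2.er0' Y o ⟨y - o, by linarith, fun u h1 h2 => h3 u h1 (by linarith)⟩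

theorem elYb (hPB : SpecPLB) (hP2 : SpecPL2) (h : Ctx X Y o b c d) : el Y b = el X b := by
  obtain ⟨z, h1, h3⟩ := h.delta_b
  have e1 := hP2.el0' (X * Y⁻¹) b ⟨b - z, by linarith, fun u h1 h2 => h3 u (by linarith) h2⟩
  rw [el_delta hPB hP2 h.pX h.pY h.Xb h.Yb] at e1
  linarith

/-- The characters at `c` and `d`. -/
theorem chars (hPB : SpecPLB) (hP2 : SpecPL2) (hO : SpecORD) (h : Ctx X Y o b c d) :
    (er Y c = 0 ∧ er X c ≠ 0 ∧ el X d = el Y d ∧ el X d ≠ 0) ∨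
      (er X c = er Y c ∧ er X c ≠ 0 ∧ el Y d = 0 ∧ el X d ≠ 0) := by
  have hXo := h.erXo hP2
  have hYo := h.erYo hP2
  have hXb := h.elXb hP2
  have hYb := h.elYb hPB hP2
  have mxi : ∀ m n : ℤ, X ^ m * (Y ^ n)⁻¹ ∈ Th X Y := fun m n =>
    (Th X Y).mul_mem ((Th X Y).zpow_mem mX m) ((Th X Y).inv_mem ((Th X Y).zpow_mem mY n))
  -- consequences of the four inclusions
  have cb : (∀ x ∈ Th X Y, er x c = 0 → el x b = 0) → er X c = er Y c ∧ er X c ≠ 0 := by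
    intro H
    have a1 : er X c ≠ 0 := fun h0 => hXb (H X mX h0)
    have a2 := H _ (mxi (er Y c) (er X c)) (by
      rw [er_xi hPB hP2 h.pX h.pY h.Xc h.Yc]; ring)
    rw [el_xi hPB hP2 h.pX h.pY h.Xb h.Yb, hYb] at a2
    have a3 : (er Y c - er X c) * el X b = 0 := by linear_combination a2
    rcases mul_eq_zero.1 a3 with a4 | a4
    · exact ⟨by linarith, a1⟩
    · exact absurd a4 hXb
  have co : (∀ x ∈ Th X Y, er x c = 0 → er x o = 0) → er Y c = 0 ∧ er X c ≠ 0 := by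
    intro H
    have a1 : er X c ≠ 0 := fun h0 => hXo (H X mX h0)
    have a2 := H _ (mxi (er Y c) (er X c)) (by
      rw [er_xi hPB hP2 h.pX h.pY h.Xc h.Yc]; ring)
    rw [er_xi hPB hP2 h.pX h.pY h.Xo h.Yo, hYo] at a2
    have a3 : er Y c * er X o = 0 := by linear_combination a2
    rcases mul_eq_zero.1 a3 with a4 | a4
    · exact ⟨a4, a1⟩
    · exact absurd a4 hXo
  have db : (∀ x ∈ Th X Y, el x d = 0 → el x b = 0) → el X d = el Y d ∧ el X d ≠ 0 := by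
    intro H
    have a1 : el X d ≠ 0 := fun h0 => hXb (H X mX h0)
    have a2 := H _ (mxi (el Y d) (el X d)) (by
      rw [el_xi hPB hP2 h.pX h.pY h.Xd h.Yd]; ring)
    rw [el_xi hPB hP2 h.pX h.pY h.Xb h.Yb, hYb] at a2
    have a3 : (el Y d - el X d) * el X b = 0 := by linear_combination a2
    rcases mul_eq_zero.1 a3 with a4 | a4
    · exact ⟨by linarith, a1⟩
    · exact absurd a4 hXb
  have dO : (∀ x ∈ Th X Y, el x d = 0 → er x o = 0) → el Y d = 0 ∧ el X d ≠ 0 := by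
    intro H
    have a1 : el X d ≠ 0 := fun h0 => hXo (H X mX h0)
    have a2 := H _ (mxi (el Y d) (el X d)) (by
      rw [el_xi hPB hP2 h.pX h.pY h.Xd h.Yd]; ring)
    rw [er_xi hPB hP2 h.pX h.pY h.Xo h.Yo, hYo] at a2
    have a3 : el Y d * er X o = 0 := by linear_combination a2
    rcases mul_eq_zero.1 a3 with a4 | a4
    · exact ⟨a4, a1⟩
    · exact absurd a4 hXo
  have K1 : (∀ x ∈ Th X Y, er x c = 0 → el x b = 0) ∨ (∀ x ∈ Th X Y, el x d = 0 → el x b = 0) := by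
    by_contra hcon
    push Not at hcon
    obtain ⟨⟨x, hx, ex, ex'⟩, w, hw, ew, ew'⟩ := hcon
    exact h.cl2b hPB hP2 hO hx hw ex ew ex' ew'
  have K2 : (∀ x ∈ Th X Y, er x c = 0 → er x o = 0) ∨ (∀ x ∈ Th X Y, el x d = 0 → er x o = 0) := by
    by_contra hcon
    push Not at hcon
    obtain ⟨⟨x, hx, ex, ex'⟩, w, hw, ew, ew'⟩ := hcon
    exact h.cl2o hPB hP2 hO hx hw ex ew ex' ew'
  rcases K1 with k1 | k1 <;> rcases K2 with k2 | k2
  · exfalso
    obtain ⟨a1, a2⟩ := cb k1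
    obtain ⟨b1, b2⟩ := co k2
    exact a2 (a1.trans b1)
  · right
    exact ⟨(cb k1).1, (cb k1).2, (dO k2).1, (dO k2).2⟩
  · left
    exact ⟨(co k2).1, (co k2).2, (db k1).1, (db k1).2⟩
  · exfalso
    obtain ⟨a1, a2⟩ := db k1
    obtain ⟨b1, b2⟩ := dO k2
    exact a2 (a1.trans b1)

/-- Lemma K. -/
theorem lemK (hPB : SpecPLB) (hP2 : SpecPL2) (hO : SpecORD) (h : Ctx X Y o b c d) {p q : Hm}
    (hp : p ∈ Th X Y) (hq : q ∈ Th X Y) (n0 : ℕ)
    (H : ∀ n ≥ n0, CommOn (X ^ n * (p * Y * p⁻¹) * (X ^ n)⁻¹) (q * (X * Y⁻¹) * q⁻¹) o b) :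
    False := by
  have hob := h.ob
  have pl := pl_Th hPB h.pX h.pY
  have mY' : p * Y * p⁻¹ ∈ Th X Y := (Th X Y).mul_mem ((Th X Y).mul_mem hp mY) ((Th X Y).inv_mem hp)
  have mδ : X * Y⁻¹ ∈ Th X Y := (Th X Y).mul_mem mX ((Th X Y).inv_mem mY)
  have mδ' : q * (X * Y⁻¹) * q⁻¹ ∈ Th X Y :=
    (Th X Y).mul_mem ((Th X Y).mul_mem hq mδ) ((Th X Y).inv_mem hq)
  have e1 : el (p * Y * p⁻¹) b ≠ 0 := by
    have := hP2.elC Y p b h.pY (pl p hp) h.Yb
    rw [(h.le_ob hp).2] at this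
    rw [this, h.elYb hPB hP2]
    exact h.elXb hP2
  obtain ⟨r, hr⟩ := exists_last hP2 hO (pl _ mY') hob (h.le_ob mY') e1
  have e2 : er (p * Y * p⁻¹) o = 0 := by
    have := hP2.erC Y p o h.pY (pl p hp) h.Yo
    rw [(h.le_ob hp).1] at this
    rw [this, h.erYo hP2]
  have hor : o < r := by
    rcases hr.1.eq_or_lt with h0 | h0
    · exfalso
      obtain ⟨ε, hε, Ht⟩ := hP2.er0 _ o (pl _ mY') (h.le_ob mY').1 e2
      have h1 : o < min (o + ε) ((o + b) / 2) := lt_min (by linarith) (by linarith)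
      have h2 : min (o + ε) ((o + b) / 2) < b := (min_le_right _ _).trans_lt (by linarith)
      exact hr.2.2.2 _ (by rw [← h0]; exact h1) h2 (Ht _ h1.le (min_le_left _ _))
    · exact h0
  have e3 : er (q * (X * Y⁻¹) * q⁻¹) o ≠ 0 := by
    have := hP2.erC (X * Y⁻¹) q o (pl _ mδ) (pl q hq) (h.le_ob mδ).1
    rw [(h.le_ob hq).1] at this
    rw [this, er_delta hPB hP2 h.pX h.pY h.Xo h.Yo, h.erYo hP2, sub_zero]
    exact h.erXo hP2
  have hmv : ∃ ε > 0, ∀ u, o < u → u ≤ o + ε → (q * (X * Y⁻¹) * q⁻¹) u ≠ u := by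
    rcases lt_or_gt_of_ne e3 with h0 | h0
    · obtain ⟨ε, hε, H⟩ := hP2.ern _ o (pl _ mδ') (h.le_ob mδ').1 h0
      exact ⟨ε, hε, fun u h1 h2 => (H u h1 h2).ne⟩
    · obtain ⟨ε, hε, H⟩ := hP2.erp _ o (pl _ mδ') (h.le_ob mδ').1 h0
      exact ⟨ε, hε, fun u h1 h2 => (H u h1 h2).ne'⟩
  obtain ⟨ε, hε, hm⟩ := hmv
  obtain ⟨n1, hn1⟩ := hO.itL X o b h.Xo h.Xb h.Xl r (o + ε) hor hr.2.1 (by linarith)
  have hn := H (max n0 n1) (le_max_left _ _)
  have hn' := hn1 (max n0 n1) (le_max_right _ _)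
  have mXn : X ^ (max n0 n1) ∈ Th X Y := (Th X Y).pow_mem mX _
  have e4 := (hr.conj (h.le_ob mXn)).comm (h.le_ob mδ') hn
  exact hm _ (St.lo' (h.le_ob mXn) hor) hn'.le e4

/-- Claims 3 and 4, case P. -/
theorem caseP (hPB : SpecPLB) (hP2 : SpecPL2) (hO : SpecORD) (h : Ctx X Y o b c d) {e e' : ℝ}
    (e1 : c < e) (e2 : e < d) (e3 : c < e') (e4 : e' < d)
    (tY : ∀ u, c ≤ u → u ≤ e → Y u = u) (tδ : ∀ u, e' ≤ u → u ≤ d → (X * Y⁻¹) u = u) :
    ∀ u, c < u → u < d → X u < u := by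
  have mδ : X * Y⁻¹ ∈ Th X Y := (Th X Y).mul_mem mX ((Th X Y).inv_mem mY)
  have mem : ∀ {v x : Hm}, v ∈ Th X Y → x ∈ Th X Y → v * x * v⁻¹ ∈ Th X Y := fun hv hx =>
    (Th X Y).mul_mem ((Th X Y).mul_mem hv hx) ((Th X Y).inv_mem hv)
  have noFix : ∀ s, c < s → s < d → X s ≠ s := by
    intro s hs1 hs2 hs
    obtain ⟨p, hp, hps⟩ := h.orbR hO e1 e2 hs2
    obtain ⟨q, hq, hqs⟩ := h.orbL hO e3 e4 hs1
    refine h.lemK hPB hP2 hO hp hq 0 ?_
    intro n _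
    have mXn : X ^ n ∈ Th X Y := (Th X Y).pow_mem mX _
    refine h.comm (mem mXn (mem hp mY)) (mem hq mδ) ?_
    refine comm_disj (h.le_cd (mem mXn (mem hp mY))) (h.le_cd (mem hq mδ)) hs1.le hs2.le ?_ ?_
    · exact conj_triv_l (conj_triv_l tY (h.le_cd hp).1 hps.le) (h.le_cd mXn).1
        (hO.powf X n s hs).ge
    · exact conj_triv_r tδ (h.le_cd hq).2 hqs.le
  rcases hO.dir X c d noFix with hl | hr
  · exact hl
  · exfalso
    obtain ⟨n0, hn0⟩ := hO.itR X c d h.Xc h.Xd hr e e' e1 e2 e4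
    refine h.lemK hPB hP2 hO (Th X Y).one_mem (Th X Y).one_mem n0 ?_
    intro n hn
    have mXn : X ^ n ∈ Th X Y := (Th X Y).pow_mem mX _
    rw [one_mul, one_mul, inv_one, mul_one, mul_one]
    refine h.comm (mem mXn mY) mδ ?_
    exact comm_disj (h.le_cd (mem mXn mY)) (h.le_cd mδ) e3.le e4.le
      (conj_triv_l tY (h.le_cd mXn).1 (hn0 n hn).le) tδ

/-- Claims 3 and 4, case M. -/
theorem caseM (hPB : SpecPLB) (hP2 : SpecPL2) (hO : SpecORD) (h : Ctx X Y o b c d) {e e' : ℝ}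
    (e1 : c < e) (e2 : e < d) (e3 : c < e') (e4 : e' < d)
    (tδ : ∀ u, c ≤ u → u ≤ e → (X * Y⁻¹) u = u) (tY : ∀ u, e' ≤ u → u ≤ d → Y u = u) :
    ∀ u, c < u → u < d → u < X u := by
  have mδ : X * Y⁻¹ ∈ Th X Y := (Th X Y).mul_mem mX ((Th X Y).inv_mem mY)
  have mem : ∀ {v x : Hm}, v ∈ Th X Y → x ∈ Th X Y → v * x * v⁻¹ ∈ Th X Y := fun hv hx =>
    (Th X Y).mul_mem ((Th X Y).mul_mem hv hx) ((Th X Y).inv_mem hv)
  have noFix : ∀ s, c < s → s < d → X s ≠ s := by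
    intro s hs1 hs2 hs
    obtain ⟨p, hp, hps⟩ := h.orbL hO e3 e4 hs1
    obtain ⟨q, hq, hqs⟩ := h.orbR hO e1 e2 hs2
    refine h.lemK hPB hP2 hO hp hq 0 ?_
    intro n _
    have mXn : X ^ n ∈ Th X Y := (Th X Y).pow_mem mX _
    refine h.comm (mem mXn (mem hp mY)) (mem hq mδ) ?_
    refine (comm_disj (h.le_cd (mem hq mδ)) (h.le_cd (mem mXn (mem hp mY)))
      hs1.le hs2.le ?_ ?_).symm
    · exact conj_triv_l tδ (h.le_cd hq).1 hqs.le
    · exact conj_triv_r (conj_triv_r tY (h.le_cd hp).2 hps.le) (h.le_cd mXn).2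
        (hO.powf X n s hs).le
  rcases hO.dir X c d noFix with hl | hr
  · exfalso
    obtain ⟨n0, hn0⟩ := hO.itL X c d h.Xc h.Xd hl e' e e3 e4 e1
    refine h.lemK hPB hP2 hO (Th X Y).one_mem (Th X Y).one_mem n0 ?_
    intro n hn
    have mXn : X ^ n ∈ Th X Y := (Th X Y).pow_mem mX _
    rw [one_mul, one_mul, inv_one, mul_one, mul_one]
    refine h.comm (mem mXn mY) mδ ?_
    exact (comm_disj (h.le_cd mδ) (h.le_cd (mem mXn mY)) e1.le e2.le tδ
      (conj_triv_r tY (h.le_cd mXn).2 (hn0 n hn).le)).symm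
  · exact hr

end Ctx

theorem specU3 (hPB : SpecPLB) (hP2 : SpecPL2) (hO : SpecORD) : SpecU3 := by
  intro X Y pX pY o b hbs c d hcd Xc Yc Xd Yd hmv hnec
  have h : Ctx X Y o b c d := ⟨pX, pY, hbs, hcd, Xc, Yc, Xd, Yd, hmv, hnec⟩
  have pl := pl_Th hPB h.pX h.pY
  have mδ : X * Y⁻¹ ∈ Th X Y := (Th X Y).mul_mem mX ((Th X Y).inv_mem mY)
  rcases h.chars hPB hP2 hO with ⟨a1, a2, a3, a4⟩ | ⟨a1, a2, a3, a4⟩
  · left
    obtain ⟨ε, hε, tY⟩ := hP2.er0 Y c pY Yc a1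
    have e0 : el (X * Y⁻¹) d = 0 := by
      rw [el_delta hPB hP2 pX pY Xd Yd, a3, sub_self]
    obtain ⟨ε', hε', tδ⟩ := hP2.el0 _ d (pl _ mδ) (h.le_cd mδ).2 e0
    obtain ⟨ε'', hε'', tE⟩ := hP2.eleq X Y d pX pY Xd Yd a3
    have e1 : c < min (c + ε) ((c + d) / 2) := lt_min (by linarith) (by linarith)
    have e2 : min (c + ε) ((c + d) / 2) < d := (min_le_right _ _).trans_lt (by linarith)
    have e3 : c < max (d - ε') ((c + d) / 2) := lt_of_lt_of_le (by linarith) (le_max_right _ _)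
    have e4 : max (d - ε') ((c + d) / 2) < d := max_lt (by linarith) (by linarith)
    have tY' : ∀ u, c ≤ u → u ≤ min (c + ε) ((c + d) / 2) → Y u = u := fun u h1 h2 =>
      tY u h1 (h2.trans (min_le_left _ _))
    refine ⟨hcd, Xc, Xd, ?_, ⟨_, e1, e2, tY'⟩, ⟨max (d - ε'') ((c + d) / 2), ?_, ?_, ?_⟩⟩
    · exact h.caseP hPB hP2 hO e1 e2 e3 e4 tY'
        (fun u h1 h2 => tδ u ((le_max_left _ _).trans h1) h2)
    · exact lt_of_lt_of_le (by linarith) (le_max_right _ _)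
    · exact max_lt (by linarith) (by linarith)
    · exact fun u h1 h2 => tE u ((le_max_left _ _).trans h1) h2
  · right
    obtain ⟨ε, hε, tY⟩ := hP2.el0 Y d pY Yd a3
    have e0 : er (X * Y⁻¹) c = 0 := by
      rw [er_delta hPB hP2 pX pY Xc Yc, a1, sub_self]
    obtain ⟨ε', hε', tδ⟩ := hP2.er0 _ c (pl _ mδ) (h.le_cd mδ).1 e0
    obtain ⟨ε'', hε'', tE⟩ := hP2.ereq X Y c pX pY Xc Yc a1
    have e1 : c < min (c + ε') ((c + d) / 2) := lt_min (by linarith) (by linarith)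
    have e2 : min (c + ε') ((c + d) / 2) < d := (min_le_right _ _).trans_lt (by linarith)
    have e3 : c < max (d - ε) ((c + d) / 2) := lt_of_lt_of_le (by linarith) (le_max_right _ _)
    have e4 : max (d - ε) ((c + d) / 2) < d := max_lt (by linarith) (by linarith)
    have tY' : ∀ u, max (d - ε) ((c + d) / 2) ≤ u → u ≤ d → Y u = u := fun u h1 h2 =>
      tY u ((le_max_left _ _).trans h1) h2
    refine ⟨hcd, Xc, Xd, ?_, ⟨_, e3, e4, tY'⟩, ⟨min (c + ε'') ((c + d) / 2), ?_, ?_, ?_⟩⟩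
    · exact h.caseM hPB hP2 hO e1 e2 e3 e4
        (fun u h1 h2 => tδ u h1 (h2.trans (min_le_left _ _))) tY'
    · exact lt_min (by linarith) (by linarith)
    · exact (min_le_right _ _).trans_lt (by linarith)
    · exact fun u h1 h2 => tE u h1 (h2.trans (min_le_left _ _))

end U3M

end FPT
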