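import Pool.Agent.Lib.MP_c27bde_al.FP.Spec

/-!
# FP/U4: the two relations of F for high powers of a base pair
-/

set_option autoImplicit false

namespace FPT.U4M

theorem inv_apply_eq {g : Hm} {u v : ℝ} (h : g u = v) : g⁻¹ v = u := by
  rw [← h]
  exact g.symm_apply_apply u

theorem apply_inv (g : Hm) (u : ℝ) : g (g⁻¹ u) = u := g.apply_symm_apply u

theorem inv_apply (g : Hm) (u : ℝ) : g⁻¹ (g u) = u := g.symm_apply_apply u

/-- Commutator of two maps with disjoint supports in `[o,b]`: `A` lives on the left of `m`,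
`B` on the right. -/
theorem comm_trivial (A B : Hm) (o m b : ℝ) (hom : o ≤ m) (hmb : m ≤ b) (hAo : A o = o)
    (hBb : B b = b) (hA : ∀ u, m ≤ u → u ≤ b → A u = u) (hB : ∀ u, o ≤ u → u ≤ m → B u = u) :
    ∀ u, o ≤ u → u ≤ b → (A * B * A⁻¹ * B⁻¹) u = u := by
  intro u hu1 hu2
  show A (B (A⁻¹ (B⁻¹ u))) = u
  have hAm : A m = m := hA m le_rfl hmb
  have hBm : B m = m := hB m hom le_rfl
  rcases le_total u m with h | h
  · have e1 : B⁻¹ u = u := inv_apply_eq (hB u hu1 h)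
    rw [e1]
    have h1 : o ≤ A⁻¹ u := by
      have : A⁻¹ o ≤ A⁻¹ u := (A⁻¹).monotone hu1
      rwa [inv_apply_eq hAo] at this
    have h2 : A⁻¹ u ≤ m := by
      have : A⁻¹ u ≤ A⁻¹ m := (A⁻¹).monotone h
      rwa [inv_apply_eq hAm] at this
    rw [hB _ h1 h2, apply_inv]
  · have h1 : m ≤ B⁻¹ u := by
      have : B⁻¹ m ≤ B⁻¹ u := (B⁻¹).monotone h
      rwa [inv_apply_eq hBm] at this
    have h2 : B⁻¹ u ≤ b := by
      have : B⁻¹ u ≤ B⁻¹ b := (B⁻¹).monotone hu2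
      rwa [inv_apply_eq hBb] at this
    have e1 : A⁻¹ (B⁻¹ u) = B⁻¹ u := inv_apply_eq (hA _ h1 h2)
    rw [e1, apply_inv]
    exact hA u h hu2

/-- The mirror image. -/
theorem comm_trivial' (A B : Hm) (o m b : ℝ) (hom : o ≤ m) (hmb : m ≤ b) (hAb : A b = b)
    (hBo : B o = o) (hA : ∀ u, o ≤ u → u ≤ m → A u = u) (hB : ∀ u, m ≤ u → u ≤ b → B u = u) :
    ∀ u, o ≤ u → u ≤ b → (A * B * A⁻¹ * B⁻¹) u = u := by
  intro u hu1 hu2
  have h := comm_trivial B A o m b hom hmb hBo hAb hB hA u hu1 hu2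
  have h2 : (B * A * B⁻¹ * A⁻¹)⁻¹ u = u := inv_apply_eq h
  have h3 : (B * A * B⁻¹ * A⁻¹)⁻¹ = A * B * A⁻¹ * B⁻¹ := by group
  rwa [h3] at h2

theorem pow_fix (g : Hm) (x : ℝ) (h : g x = x) : ∀ n : ℕ, (g ^ n) x = x := by
  intro n
  induction n with
  | zero => rfl
  | succ n ih =>
    rw [pow_succ]
    show (g ^ n) (g x) = x
    rw [h, ih]

theorem pow_le (g : Hm) (o b : ℝ) (ho : g o = o) (hb : g b = b)
    (h : ∀ u, o < u → u < b → g u < u) : ∀ (n : ℕ) (u : ℝ), o ≤ u → u ≤ b →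
      o ≤ (g ^ n) u ∧ (g ^ n) u ≤ u := by
  have h1 : ∀ u, o ≤ u → u ≤ b → g u ≤ u := by
    intro u hu1 hu2
    rcases eq_or_lt_of_le hu1 with h3 | h3
    · rw [← h3, ho]
    · rcases eq_or_lt_of_le hu2 with h4 | h4
      · rw [h4, hb]
      · exact (h u h3 h4).le
  intro n
  induction n with
  | zero => intro u hu1 hu2; exact ⟨hu1, le_rfl⟩
  | succ n ih =>
    intro u hu1 hu2
    rw [pow_succ]
    show o ≤ (g ^ n) (g u) ∧ (g ^ n) (g u) ≤ u
    have h2 : o ≤ g u := by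
      have := g.monotone hu1
      rwa [ho] at this
    have h3 := h1 u hu1 hu2
    have h4 := ih (g u) h2 (h3.trans hu2)
    exact ⟨h4.1, h4.2.trans h3⟩

theorem pow_ge (g : Hm) (o b : ℝ) (ho : g o = o) (hb : g b = b)
    (h : ∀ u, o < u → u < b → u < g u) : ∀ (n : ℕ) (u : ℝ), o ≤ u → u ≤ b →
      u ≤ (g ^ n) u ∧ (g ^ n) u ≤ b := by
  have h1 : ∀ u, o ≤ u → u ≤ b → u ≤ g u := by
    intro u hu1 hu2
    rcases eq_or_lt_of_le hu1 with h3 | h3
    · rw [← h3, ho]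
    · rcases eq_or_lt_of_le hu2 with h4 | h4
      · rw [h4, hb]
      · exact (h u h3 h4).le
  intro n
  induction n with
  | zero => intro u hu1 hu2; exact ⟨le_rfl, hu2⟩
  | succ n ih =>
    intro u hu1 hu2
    rw [pow_succ]
    show u ≤ (g ^ n) (g u) ∧ (g ^ n) (g u) ≤ b
    have h2 : g u ≤ b := by
      have := g.monotone hu2
      rwa [hb] at this
    have h3 := h1 u hu1 hu2
    have h4 := ih (g u) (hu1.trans h3) h2
    exact ⟨h3.trans h4.1, h4.2⟩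

/-- BaseP: `X^N Y^{-N}` is trivial on `[Xz, b]`. -/
theorem agreeP (X Y : Hm) (o b z : ℝ) (hXo : X o = o) (hXb : X b = b)
    (hX : ∀ u, o < u → u < b → X u < u) (hoz : o < z) (hzb : z < b)
    (hz : ∀ u, z ≤ u → u ≤ b → X u = Y u) :
    ∀ (n : ℕ) (u : ℝ), X z ≤ u → u ≤ b → (X ^ n * (Y ^ n)⁻¹) u = u := by
  have key : ∀ (n : ℕ) (u : ℝ), X z ≤ u → u ≤ b → ((X⁻¹) ^ n) u = ((Y⁻¹) ^ n) u := by
    intro n
    induction n with
    | zero => intro u _ _; rfl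
    | succ n ih =>
      intro u hu1 hu2
      have h1 : z ≤ X⁻¹ u := by
        have : X⁻¹ (X z) ≤ X⁻¹ u := (X⁻¹).monotone hu1
        rwa [inv_apply] at this
      have h2 : X⁻¹ u ≤ b := by
        have : X⁻¹ u ≤ X⁻¹ b := (X⁻¹).monotone hu2
        rwa [inv_apply_eq hXb] at this
      have h3 : Y⁻¹ u = X⁻¹ u := by
        apply inv_apply_eq
        rw [← hz _ h1 h2, apply_inv]
      have h4 : X z ≤ X⁻¹ u := (hX z hoz hzb).le.trans h1
      rw [pow_succ, pow_succ]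
      show ((X⁻¹) ^ n) (X⁻¹ u) = ((Y⁻¹) ^ n) (Y⁻¹ u)
      rw [h3]
      exact ih _ h4 h2
  intro n u hu1 hu2
  have h := key n u hu1 hu2
  show (X ^ n) ((Y ^ n)⁻¹ u) = u
  rw [← inv_pow, ← h, inv_pow, apply_inv]

/-- BaseM: `X^N Y^{-N}` is trivial on `[o, Xz]`. -/
theorem agreeM (X Y : Hm) (o b z : ℝ) (hXo : X o = o) (hXb : X b = b)
    (hX : ∀ u, o < u → u < b → u < X u) (hoz : o < z) (hzb : z < b)
    (hz : ∀ u, o ≤ u → u ≤ z → X u = Y u) :
    ∀ (n : ℕ) (u : ℝ), o ≤ u → u ≤ X z → (X ^ n * (Y ^ n)⁻¹) u = u := by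
  have key : ∀ (n : ℕ) (u : ℝ), o ≤ u → u ≤ X z → ((X⁻¹) ^ n) u = ((Y⁻¹) ^ n) u := by
    intro n
    induction n with
    | zero => intro u _ _; rfl
    | succ n ih =>
      intro u hu1 hu2
      have h1 : X⁻¹ u ≤ z := by
        have : X⁻¹ u ≤ X⁻¹ (X z) := (X⁻¹).monotone hu2
        rwa [inv_apply] at this
      have h2 : o ≤ X⁻¹ u := by
        have : X⁻¹ o ≤ X⁻¹ u := (X⁻¹).monotone hu1
        rwa [inv_apply_eq hXo] at this
      have h3 : Y⁻¹ u = X⁻¹ u := by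
        apply inv_apply_eq
        rw [← hz _ h2 h1, apply_inv]
      have h4 : X⁻¹ u ≤ X z := h1.trans (hX z hoz hzb).le
      rw [pow_succ, pow_succ]
      show ((X⁻¹) ^ n) (X⁻¹ u) = ((Y⁻¹) ^ n) (Y⁻¹ u)
      rw [h3]
      exact ih _ h2 h4
  intro n u hu1 hu2
  have h := key n u hu1 hu2
  show (X ^ n) ((Y ^ n)⁻¹ u) = u
  rw [← inv_pow, ← h, inv_pow, apply_inv]

/-- U4. -/
theorem specU4 (hORD : SpecORD) : SpecU4 := by
  intro X Y o b h
  rcases h with h | h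
  · obtain ⟨hob, hXo, hXb, hX, ⟨y, hoy, hyb, hy⟩, ⟨z, hoz, hzb, hz⟩⟩ := h
    have hYo : Y o = o := hy o le_rfl hoy.le
    have hYb : Y b = b := by rw [← hz b hzb.le le_rfl, hXb]
    have hoXz : o < X z := by
      have := X.strictMono hoz
      rwa [hXo] at this
    have hXzb : X z < b := (hX z hoz hzb).trans hzb
    obtain ⟨n0, hn0⟩ := hORD.itL X o b hXo hXb hX (X z) y hoXz hXzb hoy
    refine ⟨n0, fun N hN u hu1 hu2 => ?_⟩
    have hA := agreeP X Y o b z hXo hXb hX hoz hzb hz N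
    have hAo : (X ^ N * (Y ^ N)⁻¹) o = o := by
      show (X ^ N) ((Y ^ N)⁻¹ o) = o
      rw [inv_apply_eq (pow_fix Y o hYo N), pow_fix X o hXo N]
    -- the powers at the right point
    have hle : ∀ u, o ≤ u → u ≤ X z → o ≤ (X ^ N) u ∧ (X ^ N) u ≤ y := by
      intro u hu1 hu2
      have h1 := (pow_le X o b hXo hXb hX N u hu1 (hu2.trans hXzb.le)).1
      have h2 : (X ^ N) u ≤ (X ^ N) (X z) := (X ^ N).monotone hu2
      exact ⟨h1, h2.trans (hn0 N hN).le⟩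
    have hYN : ∀ v, o ≤ v → v ≤ y → (Y ^ N) v = v := fun v hv1 hv2 => pow_fix Y v (hy v hv1 hv2) N
    have hXNb := pow_fix X b hXb N
    have hYNb := pow_fix Y b hYb N
    constructor
    · unfold w1
      refine comm_trivial _ _ o (X z) b hoXz.le hXzb.le hAo ?_ hA ?_ u hu1 hu2
      · show (X ^ N)⁻¹ ((Y ^ N) ((X ^ N) b)) = b
        rw [hXNb, hYNb, inv_apply_eq hXNb]
      · intro v hv1 hv2
        show (X ^ N)⁻¹ ((Y ^ N) ((X ^ N) v)) = v
        have := hle v hv1 hv2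
        rw [hYN _ this.1 this.2, inv_apply]
    · unfold w2
      refine comm_trivial _ _ o (X z) b hoXz.le hXzb.le hAo ?_ hA ?_ u hu1 hu2
      · show (X ^ N)⁻¹ ((X ^ N)⁻¹ ((Y ^ N) ((X ^ N) ((X ^ N) b)))) = b
        rw [hXNb, hXNb, hYNb, inv_apply_eq hXNb, inv_apply_eq hXNb]
      · intro v hv1 hv2
        show (X ^ N)⁻¹ ((X ^ N)⁻¹ ((Y ^ N) ((X ^ N) ((X ^ N) v)))) = v
        have h1 := pow_le X o b hXo hXb hX N v hv1 (hv2.trans hXzb.le)
        have := hle ((X ^ N) v) h1.1 (h1.2.trans hv2)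
        rw [hYN _ this.1 this.2, inv_apply, inv_apply]
  · obtain ⟨hob, hXo, hXb, hX, ⟨y, hoy, hyb, hy⟩, ⟨z, hoz, hzb, hz⟩⟩ := h
    have hYb : Y b = b := hy b hyb.le le_rfl
    have hYo : Y o = o := by rw [← hz o le_rfl hoz.le, hXo]
    have hXzb : X z < b := by
      have := X.strictMono hzb
      rwa [hXb] at this
    have hoXz : o < X z := hoz.trans (hX z hoz hzb)
    obtain ⟨n0, hn0⟩ := hORD.itR X o b hXo hXb hX (X z) y hoXz hXzb hyb
    refine ⟨n0, fun N hN u hu1 hu2 => ?_⟩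
    have hA := agreeM X Y o b z hXo hXb hX hoz hzb hz N
    have hAb : (X ^ N * (Y ^ N)⁻¹) b = b := by
      show (X ^ N) ((Y ^ N)⁻¹ b) = b
      rw [inv_apply_eq (pow_fix Y b hYb N), pow_fix X b hXb N]
    have hge : ∀ u, X z ≤ u → u ≤ b → y ≤ (X ^ N) u ∧ (X ^ N) u ≤ b := by
      intro u hu1 hu2
      have h1 := (pow_ge X o b hXo hXb hX N u (hoXz.le.trans hu1) hu2).2
      have h2 : (X ^ N) (X z) ≤ (X ^ N) u := (X ^ N).monotone hu1
      exact ⟨(hn0 N hN).le.trans h2, h1⟩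
    have hYN : ∀ v, y ≤ v → v ≤ b → (Y ^ N) v = v := fun v hv1 hv2 => pow_fix Y v (hy v hv1 hv2) N
    have hXNo := pow_fix X o hXo N
    have hYNo := pow_fix Y o hYo N
    constructor
    · unfold w1
      refine comm_trivial' _ _ o (X z) b hoXz.le hXzb.le hAb ?_ hA ?_ u hu1 hu2
      · show (X ^ N)⁻¹ ((Y ^ N) ((X ^ N) o)) = o
        rw [hXNo, hYNo, inv_apply_eq hXNo]
      · intro v hv1 hv2
        show (X ^ N)⁻¹ ((Y ^ N) ((X ^ N) v)) = v
        have := hge v hv1 hv2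
        rw [hYN _ this.1 this.2, inv_apply]
    · unfold w2
      refine comm_trivial' _ _ o (X z) b hoXz.le hXzb.le hAb ?_ hA ?_ u hu1 hu2
      · show (X ^ N)⁻¹ ((X ^ N)⁻¹ ((Y ^ N) ((X ^ N) ((X ^ N) o)))) = o
        rw [hXNo, hXNo, hYNo, inv_apply_eq hXNo, inv_apply_eq hXNo]
      · intro v hv1 hv2
        show (X ^ N)⁻¹ ((X ^ N)⁻¹ ((Y ^ N) ((X ^ N) ((X ^ N) v)))) = v
        have h1 := pow_ge X o b hXo hXb hX N v (hoXz.le.trans hv1) hv2
        have := hge ((X ^ N) v) (hv1.trans h1.1) h1.2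
        rw [hYN _ this.1 this.2, inv_apply, inv_apply]

end FPT.U4M
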