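import Pool.Agent.Lib.MP_c27bde_al.FP.Spec

/-!
MP_c27bde_al, FP, module U6: from a base pair `X, Y` to a non-commuting pair `P, Q` in the group
generated by `X, Y` that satisfies the two relations of Thompson's group.
-/

set_option autoImplicit false

namespace FPT.U6M

open FPT

/-- the free group on two letters -/
abbrev Fr : Type := FreeGroup (Fin 2)

/-! ### kernels of the action on an interval -/

/-- elements of the free group whose value is trivial on `[c,d]` -/
def Tr (e : Fr →* Hm) (c d : ℝ) : Subgroup Fr where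
  carrier := {w | ∀ u, c ≤ u → u ≤ d → e w u = u}
  one_mem' := by
    intro u _ _
    rw [map_one]
    rfl
  mul_mem' := by
    intro a b ha hb u h1 h2
    rw [map_mul]
    show e a (e b u) = u
    rw [hb u h1 h2, ha u h1 h2]
  inv_mem' := by
    intro a ha u h1 h2
    rw [map_inv]
    have h := ha u h1 h2
    calc (e a)⁻¹ u = (e a)⁻¹ (e a u) := by rw [h]
      _ = u := RelIso.inv_apply_self _ _

lemma mem_Tr {e : Fr →* Hm} {c d : ℝ} {w : Fr} :
    w ∈ Tr e c d ↔ ∀ u, c ≤ u → u ≤ d → e w u = u := Iff.rfl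

lemma Tr_normal (e : Fr →* Hm) (c d : ℝ) (hc : ∀ w, e w c = c) (hd : ∀ w, e w d = d) :
    (Tr e c d).Normal := by
  constructor
  intro n hn g u h1 h2
  have hi : ∀ x, e g⁻¹ x = (e g)⁻¹ x := by
    intro x
    rw [map_inv]
  have h3 : c ≤ (e g)⁻¹ u := by
    have h := (e g⁻¹).monotone h1
    rw [hc g⁻¹, hi] at h
    exact h
  have h4 : (e g)⁻¹ u ≤ d := by
    have h := (e g⁻¹).monotone h2
    rw [hd g⁻¹, hi] at h
    exact h
  rw [map_mul, map_mul, map_inv]
  show e g (e n ((e g)⁻¹ u)) = u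
  rw [hn _ h3 h4, RelIso.apply_inv_self]

/-! ### facts on FT -/

lemma map_w1 {G H : Type*} [Group G] [Group H] (f : G →* H) (a b : G) :
    f (w1 a b) = w1 (f a) (f b) := by
  simp [w1]

lemma map_w2 {G H : Type*} [Group G] [Group H] (f : G →* H) (a b : G) :
    f (w2 a b) = w2 (f a) (f b) := by
  simp [w2]

/-- a non-trivial normal subgroup of `FT` contains the commutator subgroup -/
lemma comm_le (hFQ : SpecFQ) (L : Subgroup FT) (hN : L.Normal) (hL : ∃ x ∈ L, x ≠ 1) :
    commutator FT ≤ L := by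
  have h1 : Commute (QuotientGroup.mk' L a0) (QuotientGroup.mk' L a1) := by
    by_contra h
    have hinj := hFQ (FT ⧸ L) (QuotientGroup.mk' L) h
    obtain ⟨x, hx, hx1⟩ := hL
    apply hx1
    apply hinj
    rw [map_one]
    exact (QuotientGroup.eq_one_iff x).mpr hx
  have h2 : ∀ (j : Fin 2) (x : FT),
      Commute (QuotientGroup.mk' L (gx j)) (QuotientGroup.mk' L x) := by
    intro j x
    have hx : x ∈ (Subgroup.centralizer {QuotientGroup.mk' L (gx j)}).comap
        (QuotientGroup.mk' L) := by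
      apply PresentedGroup.generated_by
      intro i
      rw [Subgroup.mem_comap, Subgroup.mem_centralizer_iff]
      intro h hh
      rw [Set.mem_singleton_iff] at hh
      rw [hh]
      show QuotientGroup.mk' L (gx j) * QuotientGroup.mk' L (gx i) =
        QuotientGroup.mk' L (gx i) * QuotientGroup.mk' L (gx j)
      fin_cases i <;> fin_cases j
      · rfl
      · exact h1.symm
      · exact h1
      · rfl
    rw [Subgroup.mem_comap, Subgroup.mem_centralizer_iff] at hx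
    exact hx _ rfl
  have h3 : ∀ x y : FT, Commute (QuotientGroup.mk' L x) (QuotientGroup.mk' L y) := by
    intro x y
    have hx : x ∈ (Subgroup.centralizer {QuotientGroup.mk' L y}).comap
        (QuotientGroup.mk' L) := by
      apply PresentedGroup.generated_by
      intro i
      rw [Subgroup.mem_comap, Subgroup.mem_centralizer_iff]
      intro h hh
      rw [Set.mem_singleton_iff] at hh
      rw [hh]
      exact (h2 i y).symm
    rw [Subgroup.mem_comap, Subgroup.mem_centralizer_iff] at hx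
    exact (hx _ rfl).symm
  rw [commutator_def, Subgroup.commutator_le]
  intro x _ y _
  apply (QuotientGroup.eq_one_iff _).mp
  show QuotientGroup.mk' L _ = 1
  rw [map_commutatorElement]
  exact commutatorElement_eq_one_iff_commute.mpr (h3 x y)

/-! ### the kernel of `FreeGroup → FT` -/

lemma ker_le (e : Fr →* Hm) (c d : ℝ) (hc : ∀ w, e w c = c) (hd : ∀ w, e w d = d)
    (h : ∀ r ∈ rels, r ∈ Tr e c d) {w : Fr} (hw : PresentedGroup.mk rels w = 1) :
    w ∈ Tr e c d := by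
  have hN := Tr_normal e c d hc hd
  have h2 : Subgroup.normalClosure rels ≤ Tr e c d := Subgroup.normalClosure_le_normal h
  exact h2 (PresentedGroup.mk_eq_one_iff.mp hw)

lemma le_ker (hFQ : SpecFQ) (e : Fr →* Hm) (o b : ℝ) (hc : ∀ w, e w o = o)
    (hd : ∀ w, e w b = b) (h : ∀ r ∈ rels, r ∈ Tr e o b)
    (hnc : (FreeGroup.of 0 * FreeGroup.of 1) * (FreeGroup.of 1 * FreeGroup.of 0)⁻¹ ∉ Tr e o b)
    {w : Fr} (hw : w ∈ Tr e o b) : PresentedGroup.mk rels w = 1 := by
  have hN := Tr_normal e o b hc hd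
  have hl : FreeGroup.lift (fun i => QuotientGroup.mk' (Tr e o b) (FreeGroup.of i)) =
      QuotientGroup.mk' (Tr e o b) := by
    ext i
    simp
  have hr : ∀ r ∈ rels,
      FreeGroup.lift (fun i => QuotientGroup.mk' (Tr e o b) (FreeGroup.of i)) r = 1 := by
    intro r hr
    rw [hl]
    exact (QuotientGroup.eq_one_iff r).mpr (h r hr)
  have hf : (PresentedGroup.toGroup hr).comp (PresentedGroup.mk rels) =
      QuotientGroup.mk' (Tr e o b) := by
    apply FreeGroup.ext_hom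
    intro i
    exact PresentedGroup.toGroup.of hr
  have hinj : Function.Injective (PresentedGroup.toGroup hr) := by
    apply hFQ
    intro hco
    apply hnc
    have e0 : PresentedGroup.toGroup hr a0 = QuotientGroup.mk' (Tr e o b) (FreeGroup.of 0) :=
      PresentedGroup.toGroup.of hr
    have e1 : PresentedGroup.toGroup hr a1 = QuotientGroup.mk' (Tr e o b) (FreeGroup.of 1) :=
      PresentedGroup.toGroup.of hr
    rw [e0, e1] at hco
    apply (QuotientGroup.eq_one_iff _).mp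
    show QuotientGroup.mk' (Tr e o b) _ = 1
    rw [map_mul, map_inv, map_mul, map_mul, hco, mul_inv_cancel]
  apply hinj
  rw [map_one]
  have h5 := DFunLike.congr_fun hf w
  rw [MonoidHom.comp_apply] at h5
  rw [h5]
  exact (QuotientGroup.eq_one_iff w).mpr hw

/-! ### good subgroups -/

/-- normal subgroups of the free group whose image in `FT` contains the commutator subgroup -/
def Good (T : Subgroup Fr) : Prop :=
  T.Normal ∧ commutator FT ≤ T.map (PresentedGroup.mk rels)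

lemma Good_top : Good ⊤ := by
  refine ⟨inferInstance, ?_⟩
  intro x _
  obtain ⟨w, hw⟩ := PresentedGroup.mk_surjective rels x
  exact ⟨w, trivial, hw⟩

lemma Good_of (hFQ : SpecFQ) (T : Subgroup Fr) (hT : T.Normal) (w : Fr) (hw : w ∈ T)
    (h : PresentedGroup.mk rels w ≠ 1) : Good T := by
  refine ⟨hT, ?_⟩
  apply comm_le hFQ
  · exact Subgroup.Normal.map hT _ (PresentedGroup.mk_surjective rels)
  · exact ⟨_, ⟨w, hw, rfl⟩, h⟩

lemma Good_inf (hFQ : SpecFQ) (hFC : SpecFC) (hs : s1 * s2 ≠ s2 * s1) (T U : Subgroup Fr)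
    (hT : Good T) (hU : Good U) : Good (T ⊓ U) := by
  obtain ⟨hT1, hT2⟩ := hT
  obtain ⟨hU1, hU2⟩ := hU
  obtain ⟨t, ht, ht'⟩ := hT2 hFC.s1c
  obtain ⟨v, hv, hv'⟩ := hU2 hFC.s2c
  have hN : (T ⊓ U).Normal := by infer_instance
  have hm1 : t * v * t⁻¹ * v⁻¹ ∈ T := by
    have h1 : v * t⁻¹ * v⁻¹ ∈ T := hT1.conj_mem _ (T.inv_mem ht) v
    have h2 : t * (v * t⁻¹ * v⁻¹) ∈ T := T.mul_mem ht h1
    have h3 : t * v * t⁻¹ * v⁻¹ = t * (v * t⁻¹ * v⁻¹) := by group
    rw [h3]
    exact h2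
  have hm2 : t * v * t⁻¹ * v⁻¹ ∈ U := by
    have h1 : t * v * t⁻¹ ∈ U := hU1.conj_mem _ hv t
    exact U.mul_mem h1 (U.inv_mem hv)
  refine Good_of hFQ _ hN (t * v * t⁻¹ * v⁻¹) ⟨hm1, hm2⟩ ?_
  rw [map_mul, map_mul, map_mul, map_inv, map_inv, ht', hv']
  intro h
  apply hs
  have h2 : s1 * s2 = s1 * s2 * s1⁻¹ * s2⁻¹ * (s2 * s1) := by group
  rw [h2, h, one_mul]

lemma Good_finset (hFQ : SpecFQ) (hFC : SpecFC) (hs : s1 * s2 ≠ s2 * s1) (e : Fr →* Hm)
    (S : Finset (ℝ × ℝ)) (h : ∀ p ∈ S, Good (Tr e p.1 p.2)) :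
    ∃ T : Subgroup Fr, Good T ∧ ∀ p ∈ S, T ≤ Tr e p.1 p.2 := by
  classical
  induction S using Finset.induction_on with
  | empty => exact ⟨⊤, Good_top, fun p hp => absurd hp (Finset.notMem_empty p)⟩
  | insert q S hq ih =>
    obtain ⟨T, hT, hT2⟩ := ih (fun p hp => h p (Finset.mem_insert_of_mem hp))
    refine ⟨T ⊓ Tr e q.1 q.2, Good_inf hFQ hFC hs _ _ hT (h q (Finset.mem_insert_self q S)), ?_⟩
    intro p hp
    rcases Finset.mem_insert.mp hp with hp | hp
    · subst hp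
      exact inf_le_right
    · exact le_trans inf_le_left (hT2 p hp)

/-! ### orbitals -/

/-- the orbitals of the group generated by `X` and `Y` -/
def OrbS (X Y : Hm) : Set (ℝ × ℝ) :=
  {p | p.1 < p.2 ∧ X p.1 = p.1 ∧ Y p.1 = p.1 ∧ X p.2 = p.2 ∧ Y p.2 = p.2 ∧
    ∀ u, p.1 < u → u < p.2 → X u ≠ u ∨ Y u ≠ u}

lemma OrbS_finite (hB : SpecPLB) (h2 : SpecPL2) (X Y : Hm) (hX : IsPL X) (hY : IsPL Y) :
    (OrbS X Y).Finite := by
  apply Set.Finite.of_finite_image (f := Prod.fst)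
  · apply Set.Finite.subset ((hB.fixR X hX).union (hB.fixR Y hY))
    rintro _ ⟨p, hp, rfl⟩
    obtain ⟨hlt, hX1, hY1, hX2, hY2, hmv⟩ := hp
    by_contra hno
    rw [Set.mem_union] at hno
    push Not at hno
    obtain ⟨hn1, hn2⟩ := hno
    have hx0 : er X p.1 = 0 := by
      by_contra h
      exact hn1 ⟨hX1, h⟩
    have hy0 : er Y p.1 = 0 := by
      by_contra h
      exact hn2 ⟨hY1, h⟩
    obtain ⟨ε, hε, hεX⟩ := h2.er0 X p.1 hX hX1 hx0
    obtain ⟨δ, hδ, hδY⟩ := h2.er0 Y p.1 hY hY1 hy0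
    set m := min (min ε δ) ((p.2 - p.1) / 2) with hm
    have hm0 : 0 < m := by
      rw [hm]
      apply lt_min (lt_min hε hδ)
      linarith
    have hm1 : m ≤ ε := le_trans (min_le_left _ _) (min_le_left _ _)
    have hm2 : m ≤ δ := le_trans (min_le_left _ _) (min_le_right _ _)
    have hm3 : m ≤ (p.2 - p.1) / 2 := min_le_right _ _
    rcases hmv (p.1 + m) (by linarith) (by linarith) with h | h
    · exact h (hεX _ (by linarith) (by linarith))
    · exact h (hδY _ (by linarith) (by linarith))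
  · intro p hp q hq hpq
    obtain ⟨hlt, hX1, hY1, hX2, hY2, hmv⟩ := hp
    obtain ⟨hlt', hX1', hY1', hX2', hY2', hmv'⟩ := hq
    have h1 : p.1 = q.1 := hpq
    have h3 : p.2 = q.2 := by
      rcases lt_trichotomy p.2 q.2 with h | h | h
      · exfalso
        rcases hmv' p.2 (by linarith) h with h' | h'
        · exact h' hX2
        · exact h' hY2
      · exact h
      · exfalso
        rcases hmv q.2 (by linarith) h with h' | h'
        · exact h' hX2'
        · exact h' hY2'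
    exact Prod.ext h1 h3

lemma closure_PL (hB : SpecPLB) (X Y : Hm) (hX : IsPL X) (hY : IsPL Y) :
    PLs (Subgroup.closure ({X, Y} : Set Hm)) := by
  intro g hg
  induction hg using Subgroup.closure_induction with
  | mem x hx =>
    rcases hx with hx | hx
    · rw [hx]; exact hX
    · rw [Set.mem_singleton_iff] at hx
      rw [hx]; exact hY
  | one => exact hB.one
  | mul x y _ _ hx hy => exact hB.mul x y hx hy
  | inv x _ hx => exact hB.inv x hx

lemma closure_fix (X Y : Hm) (u : ℝ) (hX : X u = u) (hY : Y u = u) (g : Hm)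
    (hg : g ∈ Subgroup.closure ({X, Y} : Set Hm)) : g u = u := by
  induction hg using Subgroup.closure_induction with
  | mem x hx =>
    rcases hx with hx | hx
    · rw [hx]; exact hX
    · rw [Set.mem_singleton_iff] at hx
      rw [hx]; exact hY
  | one => rfl
  | mul x y _ _ hx hy =>
    show x (y u) = u
    rw [hy, hx]
  | inv x _ hx =>
    calc x⁻¹ u = x⁻¹ (x u) := by rw [hx]
      _ = u := RelIso.inv_apply_self _ _

/-- every point that is not a common fixed point lies in an orbital -/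
lemma in_orb (hB : SpecPLB) (hO : SpecORD) (X Y : Hm) (hX : IsPL X) (hY : IsPL Y) (u : ℝ)
    (hu : X u ≠ u ∨ Y u ≠ u) : ∃ p ∈ OrbS X Y, p.1 < u ∧ u < p.2 := by
  have hXm : X ∈ Subgroup.closure ({X, Y} : Set Hm) :=
    Subgroup.subset_closure (Set.mem_insert X {Y})
  have hYm : Y ∈ Subgroup.closure ({X, Y} : Set Hm) :=
    Subgroup.subset_closure (Set.mem_insert_of_mem X (Set.mem_singleton Y))
  have h1 : ∃ g ∈ Subgroup.closure ({X, Y} : Set Hm), g u ≠ u := by
    rcases hu with h | h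
    · exact ⟨X, hXm, h⟩
    · exact ⟨Y, hYm, h⟩
  obtain ⟨a, b, hau, hub, ha, hb, hmv⟩ :=
    hO.orbital _ (closure_PL hB X Y hX hY) u h1
  refine ⟨(a, b), ⟨lt_trans hau hub, ha X hXm, ha Y hYm, hb X hXm, hb Y hYm, ?_⟩, hau, hub⟩
  intro v hv1 hv2
  by_contra hno
  push Not at hno
  obtain ⟨g, hg, hgv⟩ := hmv v hv1 hv2
  exact hgv (closure_fix X Y v hno.1 hno.2 g hg)

/-! ### powers -/

lemma pow_left (X : Hm) (o b : ℝ) (ho : X o = o) (_hb : X b = b)
    (hl : ∀ u, o < u → u < b → X u < u) (n : ℕ) (u : ℝ) (h1 : o < u) (h2 : u < b) :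
    o < (X ^ n) u ∧ (X ^ n) u ≤ u := by
  induction n with
  | zero => exact ⟨h1, le_refl _⟩
  | succ n ih =>
    have he : (X ^ (n + 1)) u = X ((X ^ n) u) := by
      rw [pow_succ']
      rfl
    rw [he]
    constructor
    · have h := X.strictMono ih.1
      rw [ho] at h
      exact h
    · exact le_trans (hl _ ih.1 (lt_of_le_of_lt ih.2 h2)).le ih.2

lemma pow_base (hO : SpecORD) (X Y : Hm) (o b : ℝ) (h : BaseP X Y o b) (N : ℕ) (hN : 1 ≤ N) :
    BaseP (X ^ N) (Y ^ N) o b := by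
  obtain ⟨hob, hXo, hXb, hl, ⟨y, hoy, hyb, hy⟩, ⟨z, hoz, hzb, hz⟩⟩ := h
  refine ⟨hob, hO.powf X N o hXo, hO.powf X N b hXb, ?_, ⟨y, hoy, hyb, ?_⟩, ?_⟩
  · intro u h1 h2
    obtain ⟨n, rfl⟩ := Nat.exists_eq_add_of_le' hN
    have he : (X ^ (n + 1)) u = X ((X ^ n) u) := by
      rw [pow_succ']
      rfl
    rw [he]
    have h3 := pow_left X o b hXo hXb hl n u h1 h2
    exact lt_of_lt_of_le (hl _ h3.1 (lt_of_le_of_lt h3.2 h2)) h3.2
  · intro u h1 h2
    exact hO.powf Y N u (hy u h1 h2)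
  · -- `z' = X^{-N} z`
    have hinvb : ((X ^ N)⁻¹ : Hm) b = b := by
      calc ((X ^ N)⁻¹ : Hm) b = ((X ^ N)⁻¹ : Hm) ((X ^ N) b) := by
            rw [hO.powf X N b hXb]
        _ = b := RelIso.inv_apply_self _ _
    have hinvo : ((X ^ N)⁻¹ : Hm) o = o := by
      calc ((X ^ N)⁻¹ : Hm) o = ((X ^ N)⁻¹ : Hm) ((X ^ N) o) := by
            rw [hO.powf X N o hXo]
        _ = o := RelIso.inv_apply_self _ _
    refine ⟨((X ^ N)⁻¹ : Hm) z, ?_, ?_, ?_⟩
    · have h := ((X ^ N)⁻¹ : Hm).strictMono hoz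
      rw [hinvo] at h
      exact h
    · have h := ((X ^ N)⁻¹ : Hm).strictMono hzb
      rw [hinvb] at h
      exact h
    · intro u h1 h2
      -- `X^k u ≥ z` for all `k ≤ N`
      have hNu : z ≤ (X ^ N) u := by
        have h := (X ^ N).monotone h1
        rw [RelIso.apply_inv_self] at h
        exact h
      have hstep : ∀ v, o < v → v ≤ b → X v ≤ v := by
        intro v hv1 hv2
        rcases lt_or_eq_of_le hv2 with h | h
        · exact (hl v hv1 h).le
        · rw [h, hXb]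
      have hou : o < u := by
        have h := ((X ^ N)⁻¹ : Hm).strictMono hoz
        rw [hinvo] at h
        exact lt_of_lt_of_le h h1
      have hdec : ∀ k : ℕ, o < (X ^ k) u ∧ (X ^ k) u ≤ b := by
        intro k
        induction k with
        | zero => exact ⟨hou, h2⟩
        | succ k ih =>
          have he : (X ^ (k + 1)) u = X ((X ^ k) u) := by
            rw [pow_succ']
            rfl
          rw [he]
          constructor
          · have h := X.strictMono ih.1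
            rw [hXo] at h
            exact h
          · exact le_trans (hstep _ ih.1 ih.2) ih.2
      have hanti : ∀ k j : ℕ, (X ^ (k + j)) u ≤ (X ^ k) u := by
        intro k j
        induction j with
        | zero => exact le_refl _
        | succ j ih =>
          have he : (X ^ (k + (j + 1))) u = X ((X ^ (k + j)) u) := by
            rw [← add_assoc, pow_succ']
            rfl
          rw [he]
          exact le_trans (hstep _ (hdec (k + j)).1 (hdec (k + j)).2) ih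
      have hge : ∀ k, k ≤ N → z ≤ (X ^ k) u := by
        intro k hk
        obtain ⟨j, rfl⟩ := Nat.exists_eq_add_of_le hk
        exact le_trans hNu (hanti k j)
      have heq : ∀ k, k ≤ N → (X ^ k) u = (Y ^ k) u := by
        intro k
        induction k with
        | zero => intro _; rfl
        | succ k ih =>
          intro hk
          have he : (X ^ (k + 1)) u = X ((X ^ k) u) := by
            rw [pow_succ']
            rfl
          have he' : (Y ^ (k + 1)) u = Y ((Y ^ k) u) := by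
            rw [pow_succ']
            rfl
          rw [he, he', ← ih (by omega)]
          exact hz _ (hge k (by omega)) (hdec k).2
      exact heq N (le_refl _)

/-- `X` and `Y` do not commute on `[o,b]` -/
lemma base_nc (hO : SpecORD) (X Y : Hm) (o b : ℝ) (h : BaseP X Y o b) :
    ¬ ∀ u, o ≤ u → u ≤ b → X (Y u) = Y (X u) := by
  intro hc
  obtain ⟨hob, hXo, hXb, hl, ⟨y, hoy, hyb, hy⟩, ⟨z, hoz, hzb, hz⟩⟩ := h
  have hYo : Y o = o := hy o (le_refl _) hoy.le
  have hYb : Y b = b := by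
    rw [← hz b hzb.le (le_refl _), hXb]
  -- `u = (z+b)/2`
  have hYu : ∀ u, o < u → u < b → Y u = u := by
    intro u h1 h2
    obtain ⟨n0, hn0⟩ := hO.itL X o b hXo hXb hl u y h1 h2 hoy
    have h3 := hn0 n0 (le_refl _)
    have h4 := pow_left X o b hXo hXb hl n0 u h1 h2
    have h5 : Y ((X ^ n0) u) = (X ^ n0) u := hy _ h4.1.le h3.le
    have h6 : ∀ n : ℕ, Y ((X ^ n) u) = (X ^ n) (Y u) := by
      intro n
      induction n with
      | zero => rfl
      | succ n ih =>
        have he : (X ^ (n + 1)) u = X ((X ^ n) u) := by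
          rw [pow_succ']
          rfl
        have he' : (X ^ (n + 1)) (Y u) = X ((X ^ n) (Y u)) := by
          rw [pow_succ']
          rfl
        have h7 := pow_left X o b hXo hXb hl n u h1 h2
        rw [he, he', ← ih]
        exact (hc _ h7.1.le (le_trans h7.2 h2.le)).symm
    have h8 : (X ^ n0) (Y u) = (X ^ n0) u := by
      rw [← h6 n0, h5]
    exact (X ^ n0).injective h8
  have h9 := hYu ((z + b) / 2) (by linarith) (by linarith)
  have h10 := hz ((z + b) / 2) (by linarith) (by linarith)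
  have h11 := hl ((z + b) / 2) (by linarith) (by linarith)
  rw [h10, h9] at h11
  exact lt_irrefl _ h11

/-! ### necessary orbitals -/

/-- the orbitals that are necessary for `N` -/
def Nec (X Y : Hm) (o b : ℝ) (N : ℕ) : Set (ℝ × ℝ) :=
  {p | p ∈ OrbS X Y ∧ ∀ θ ∈ Subgroup.closure ({X ^ N, Y ^ N} : Set Hm),
    (∀ u, p.1 ≤ u → u ≤ p.2 → θ u = u) → ∀ u, o ≤ u → u ≤ b → θ u = u}

lemma closure_pow_le (X Y : Hm) (N M : ℕ) :
    Subgroup.closure ({X ^ (N * M), Y ^ (N * M)} : Set Hm) ≤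
      Subgroup.closure ({X ^ N, Y ^ N} : Set Hm) := by
  rw [Subgroup.closure_le]
  intro x hx
  rcases hx with hx | hx
  · rw [hx, pow_mul]
    exact Subgroup.pow_mem _ (Subgroup.subset_closure (Set.mem_insert _ _)) M
  · rw [Set.mem_singleton_iff] at hx
    rw [hx, pow_mul]
    exact Subgroup.pow_mem _ (Subgroup.subset_closure
      (Set.mem_insert_of_mem _ (Set.mem_singleton _))) M

lemma Nec_mono (X Y : Hm) (o b : ℝ) (N M : ℕ) : Nec X Y o b N ⊆ Nec X Y o b (N * M) := by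
  intro p hp
  exact ⟨hp.1, fun θ hθ h => hp.2 θ (closure_pow_le X Y N M hθ) h⟩

lemma exists_stable (X Y : Hm) (o b : ℝ) (hfin : (OrbS X Y).Finite) :
    ∃ N₁ : ℕ, 1 ≤ N₁ ∧ ∀ M : ℕ, 1 ≤ M → Nec X Y o b (N₁ * M) = Nec X Y o b N₁ := by
  have hsub : ∀ N, Nec X Y o b N ⊆ OrbS X Y := fun N p hp => hp.1
  have hcard : ∀ N, (Nec X Y o b N).ncard ≤ (OrbS X Y).ncard :=
    fun N => Set.ncard_le_ncard (hsub N) hfin
  have hne : {k : ℕ | ∃ N, 1 ≤ N ∧ k = (OrbS X Y).ncard - (Nec X Y o b N).ncard}.Nonempty :=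
    ⟨_, 1, le_refl _, rfl⟩
  obtain ⟨N₁, hN₁, he⟩ := Nat.sInf_mem hne
  refine ⟨N₁, hN₁, ?_⟩
  intro M hM
  have h1 := Nat.sInf_le (show (OrbS X Y).ncard - (Nec X Y o b (N₁ * M)).ncard ∈
    {k : ℕ | ∃ N, 1 ≤ N ∧ k = (OrbS X Y).ncard - (Nec X Y o b N).ncard} from
    ⟨N₁ * M, Nat.mul_le_mul hN₁ hM |>.trans' (by norm_num), rfl⟩)
  rw [he] at h1
  have h2 := hcard N₁
  have h3 := hcard (N₁ * M)
  symm
  apply Set.eq_of_subset_of_ncard_le (Nec_mono X Y o b N₁ M) (by omega)
    (hfin.subset (hsub _))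

/-! ### the module -/

theorem specU6 (hB : SpecPLB) (h2 : SpecPL2) (hO : SpecORD) (hFQ : SpecFQ) (hFC : SpecFC)
    (hs : s1 * s2 ≠ s2 * s1) (hU3 : SpecU3) (hU4 : SpecU4) : SpecU6 := by
  classical
  intro X Y hX hY o b hbase
  have hfin := OrbS_finite hB h2 X Y hX hY
  obtain ⟨N₁, hN₁, hstab⟩ := exists_stable X Y o b hfin
  have hbase₁ := pow_base hO X Y o b hbase N₁ hN₁
  -- the choice of `N`
  have hNec_fin : (Nec X Y o b N₁).Finite := hfin.subset (fun p hp => hp.1)
  have hev : ∀ p ∈ Nec X Y o b N₁, ∀ᶠ N : ℕ in Filter.atTop, ∀ u, p.1 ≤ u → u ≤ p.2 →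
      (w1 ((X ^ N₁) ^ N) ((Y ^ N₁) ^ N)) u = u ∧ (w2 ((X ^ N₁) ^ N) ((Y ^ N₁) ^ N)) u = u := by
    intro p hp
    obtain ⟨⟨hlt, hX1, hY1, hX2, hY2, hmv⟩, hnec⟩ := hp
    have h3 : BaseP (X ^ N₁) (Y ^ N₁) p.1 p.2 ∨ BaseM (X ^ N₁) (Y ^ N₁) p.1 p.2 := by
      apply hU3 (X ^ N₁) (Y ^ N₁) (h2.pow X N₁ hX) (h2.pow Y N₁ hY) o b hbase₁ p.1 p.2 hlt
        (hO.powf X N₁ _ hX1) (hO.powf Y N₁ _ hY1) (hO.powf X N₁ _ hX2) (hO.powf Y N₁ _ hY2)
      · intro u hu1 hu2
        rcases hmv u hu1 hu2 with h | h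
        · exact Or.inl (fun h' => h (hO.powi X N₁ u hN₁ h'))
        · exact Or.inr (fun h' => h (hO.powi Y N₁ u hN₁ h'))
      · exact hnec
    obtain ⟨N0, hN0⟩ := hU4 _ _ _ _ h3
    exact Filter.eventually_atTop.mpr ⟨N0, hN0⟩
  have hev2 : ∀ᶠ N : ℕ in Filter.atTop, ∀ p ∈ Nec X Y o b N₁, ∀ u, p.1 ≤ u → u ≤ p.2 →
      (w1 ((X ^ N₁) ^ N) ((Y ^ N₁) ^ N)) u = u ∧ (w2 ((X ^ N₁) ^ N) ((Y ^ N₁) ^ N)) u = u :=
    (Filter.eventually_all_finite hNec_fin).mpr hev
  obtain ⟨N, hNrel, hN1⟩ := (hev2.and (Filter.eventually_ge_atTop 1)).exists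
  have hNN : 1 ≤ N₁ * N := by
    have := Nat.mul_le_mul hN₁ hN1
    omega
  have hNec := hstab N hN1
  simp only [← pow_mul] at hNrel
  set V : Hm := X ^ (N₁ * N) with hV
  set W : Hm := Y ^ (N₁ * N) with hW
  have hbaseV : BaseP V W o b := pow_base hO X Y o b hbase (N₁ * N) hNN
  -- evaluation
  set e : Fr →* Hm := FreeGroup.lift ![V, W] with he
  have he0 : e (FreeGroup.of 0) = V := by
    rw [he, FreeGroup.lift_apply_of]
    rfl
  have he1 : e (FreeGroup.of 1) = W := by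
    rw [he, FreeGroup.lift_apply_of]
    rfl
  have hrange : e.range = Subgroup.closure ({V, W} : Set Hm) := by
    rw [he, FreeGroup.range_lift_eq_closure]
    congr 1
    ext x
    simp only [Set.mem_range, Set.mem_insert_iff, Set.mem_singleton_iff]
    constructor
    · rintro ⟨i, rfl⟩
      fin_cases i
      · exact Or.inl rfl
      · exact Or.inr rfl
    · rintro (h | h)
      · exact ⟨0, h.symm⟩
      · exact ⟨1, h.symm⟩
  have hemem : ∀ w, e w ∈ Subgroup.closure ({V, W} : Set Hm) := by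
    intro w
    rw [← hrange]
    exact ⟨w, rfl⟩
  have hcl : Subgroup.closure ({V, W} : Set Hm) ≤ Subgroup.closure ({X, Y} : Set Hm) := by
    have h := closure_pow_le X Y 1 (N₁ * N)
    rw [one_mul, pow_one, pow_one] at h
    exact h
  have hfix : ∀ u, X u = u → Y u = u → ∀ w, e w u = u := by
    intro u hXu hYu w
    exact closure_fix X Y u hXu hYu (e w) (hcl (hemem w))
  -- `(o,b)` is a necessary orbital
  have hob_orb : (o, b) ∈ OrbS X Y := by
    obtain ⟨hob, hXo, hXb, hl, ⟨y, hoy, hyb, hy⟩, ⟨z, hoz, hzb, hz⟩⟩ := hbase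
    refine ⟨hob, hXo, hy o (le_refl _) hoy.le, hXb, ?_, ?_⟩
    · show Y b = b
      rw [← hz b hzb.le (le_refl _), hXb]
    · intro u hu1 hu2
      exact Or.inl (ne_of_lt (hl u hu1 hu2))
  have hob_nec : (o, b) ∈ Nec X Y o b N₁ := ⟨hob_orb, fun θ _ h => h⟩
  -- relators
  have hrel : ∀ p ∈ Nec X Y o b N₁, ∀ r ∈ rels, r ∈ Tr e p.1 p.2 := by
    intro p hp r hr u hu1 hu2
    rcases hr with hr | hr
    · rw [hr, map_w1, he0, he1]
      exact (hNrel p hp u hu1 hu2).1
    · rw [Set.mem_singleton_iff] at hr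
      rw [hr, map_w2, he0, he1]
      exact (hNrel p hp u hu1 hu2).2
  have hfixp : ∀ p ∈ OrbS X Y, (∀ w, e w p.1 = p.1) ∧ (∀ w, e w p.2 = p.2) := by
    intro p hp
    obtain ⟨hlt, hX1, hY1, hX2, hY2, hmv⟩ := hp
    exact ⟨hfix _ hX1 hY1, hfix _ hX2 hY2⟩
  have hkerle : ∀ p ∈ Nec X Y o b N₁, ∀ w, PresentedGroup.mk rels w = 1 → w ∈ Tr e p.1 p.2 := by
    intro p hp w hw
    exact ker_le e p.1 p.2 (hfixp p hp.1).1 (hfixp p hp.1).2 (hrel p hp) hw
  have hnc : (FreeGroup.of 0 * FreeGroup.of 1) * (FreeGroup.of 1 * FreeGroup.of 0)⁻¹ ∉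
      Tr e o b := by
    intro hmem
    apply base_nc hO V W o b hbaseV
    intro u hu1 hu2
    -- the point `v = V W`-image
    have hVo : e (FreeGroup.of 1 * FreeGroup.of 0) o = o := (hfixp (o, b) hob_orb).1 _
    have hVb : e (FreeGroup.of 1 * FreeGroup.of 0) b = b := (hfixp (o, b) hob_orb).2 _
    have h3 : o ≤ e (FreeGroup.of 1 * FreeGroup.of 0) u := by
      have h := (e (FreeGroup.of 1 * FreeGroup.of 0)).monotone hu1
      rw [hVo] at h
      exact h
    have h4 : e (FreeGroup.of 1 * FreeGroup.of 0) u ≤ b := by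
      have h := (e (FreeGroup.of 1 * FreeGroup.of 0)).monotone hu2
      rw [hVb] at h
      exact h
    have h5 := hmem _ h3 h4
    rw [map_mul, map_inv] at h5
    have h6 : e (FreeGroup.of 0 * FreeGroup.of 1) ((e (FreeGroup.of 1 * FreeGroup.of 0))⁻¹
        (e (FreeGroup.of 1 * FreeGroup.of 0) u)) = e (FreeGroup.of 1 * FreeGroup.of 0) u := h5
    rw [RelIso.inv_apply_self, map_mul, map_mul, he0, he1] at h6
    exact h6
  have hleker : ∀ w, w ∈ Tr e o b → PresentedGroup.mk rels w = 1 := by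
    intro w hw
    exact le_ker hFQ e o b (hfixp (o, b) hob_orb).1 (hfixp (o, b) hob_orb).2
      (hrel (o, b) hob_nec) hnc hw
  -- unnecessary orbitals
  have hunfin : (OrbS X Y \ Nec X Y o b N₁).Finite := hfin.subset Set.sdiff_subset
  have hgood : ∀ p ∈ hunfin.toFinset, Good (Tr e p.1 p.2) := by
    intro p hp
    rw [Set.Finite.mem_toFinset] at hp
    obtain ⟨hp1, hp2⟩ := hp
    rw [← hNec] at hp2
    have h5 : ∃ θ ∈ Subgroup.closure ({V, W} : Set Hm),
        (∀ u, p.1 ≤ u → u ≤ p.2 → θ u = u) ∧ ¬ ∀ u, o ≤ u → u ≤ b → θ u = u := by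
      by_contra hno
      apply hp2
      refine ⟨hp1, fun θ hθ h => ?_⟩
      by_contra h'
      exact hno ⟨θ, hθ, h, h'⟩
    obtain ⟨θ, hθ, hθ1, hθ2⟩ := h5
    rw [← hrange] at hθ
    obtain ⟨w, rfl⟩ := hθ
    refine Good_of hFQ _ (Tr_normal e _ _ (hfixp p hp1).1 (hfixp p hp1).2) w hθ1 ?_
    intro hw
    exact hθ2 (hkerle (o, b) hob_nec w hw)
  obtain ⟨T, hT, hTle⟩ := Good_finset hFQ hFC hs e _ hgood
  obtain ⟨P, hPT, hP⟩ := hT.2 hFC.y0c
  obtain ⟨Q, hQT, hQ⟩ := hT.2 hFC.y1c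
  -- elements of `T` in the kernel have trivial value
  have htriv : ∀ w ∈ T, PresentedGroup.mk rels w = 1 → e w = 1 := by
    intro w hwT hw
    ext u
    show e w u = u
    by_cases hu : X u = u ∧ Y u = u
    · exact hfix u hu.1 hu.2 w
    · have hu' : X u ≠ u ∨ Y u ≠ u := by
        by_contra hno
        push Not at hno
        exact hu hno
      obtain ⟨p, hp, hp1, hp2⟩ := in_orb hB hO X Y hX hY u hu'
      by_cases hpn : p ∈ Nec X Y o b N₁
      · exact hkerle p hpn w hw u hp1.le hp2.le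
      · have hpu : p ∈ hunfin.toFinset := by
          rw [Set.Finite.mem_toFinset]
          exact ⟨hp, hpn⟩
        exact hTle p hpu hwT u hp1.le hp2.le
  have hw1T : w1 P Q ∈ T := by
    have h1 : P * Q⁻¹ ∈ T := T.mul_mem hPT (T.inv_mem hQT)
    have h3 : P⁻¹ * Q * P ∈ T := T.mul_mem (T.mul_mem (T.inv_mem hPT) hQT) hPT
    exact T.mul_mem (T.mul_mem (T.mul_mem h1 h3) (T.inv_mem h1)) (T.inv_mem h3)
  have hw2T : w2 P Q ∈ T := by
    have h1 : P * Q⁻¹ ∈ T := T.mul_mem hPT (T.inv_mem hQT)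
    have h3 : P⁻¹ * P⁻¹ * Q * P * P ∈ T :=
      T.mul_mem (T.mul_mem (T.mul_mem (T.mul_mem (T.inv_mem hPT) (T.inv_mem hPT)) hQT) hPT) hPT
    exact T.mul_mem (T.mul_mem (T.mul_mem h1 h3) (T.inv_mem h1)) (T.inv_mem h3)
  refine ⟨e P, hcl (hemem P), e Q, hcl (hemem Q), ⟨?_, ?_⟩, ?_⟩
  · rw [← map_w1]
    apply htriv _ hw1T
    rw [map_w1, hP, hQ]
    exact hFC.pair.1
  · rw [← map_w2]
    apply htriv _ hw2T
    rw [map_w2, hP, hQ]
    exact hFC.pair.2
  · intro hcomm
    apply hFC.nc hs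
    have h5 : P * Q * (Q * P)⁻¹ ∈ Tr e o b := by
      intro u _ _
      rw [map_mul, map_inv, map_mul, map_mul, hcomm, mul_inv_cancel]
      rfl
    have h6 := hleker _ h5
    rw [map_mul, map_inv, map_mul, map_mul, hP, hQ] at h6
    exact mul_inv_eq_one.mp h6

end FPT.U6M
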