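import Pool.Agent.Lib.MP_c27bde_al.FP.AB3
import Pool.Agent.Lib.MP_c27bde_al.FP.PLB
import Pool.Agent.Lib.MP_c27bde_al.FP.PL2
import Pool.Agent.Lib.MP_c27bde_al.FP.ORD
import Pool.Agent.Lib.MP_c27bde_al.FP.FQ
import Pool.Agent.Lib.MP_c27bde_al.FP.RHO
import Pool.Agent.Lib.MP_c27bde_al.FP.FC
import Pool.Agent.Lib.MP_c27bde_al.FP.U1
import Pool.Agent.Lib.MP_c27bde_al.FP.U3
import Pool.Agent.Lib.MP_c27bde_al.FP.U4
import Pool.Agent.Lib.MP_c27bde_al.FP.U6
import Pool.Agent.Lib.MP_c27bde_al.FP.FGC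
import Pool.Agent.Lib.MP_c27bde_al.FP.NF
import Pool.Agent.Lib.MP_c27bde_al.FP.BSH
import Pool.Agent.Lib.MP_c27bde_al.FP.BR
import Pool.Agent.Lib.MP_c27bde_al.FP.BS
import Pool.Agent.Lib.MP_c27bde_al.FP.DA
import Pool.Agent.Lib.MP_c27bde_al.FP.DB
import Pool.Agent.Lib.MP_c27bde_al.FP.DC
import Pool.Agent.Lib.MP_c27bde_al.FP.EA

set_option autoImplicit false

namespace FPT.FINM

open Set FPT

/-! ### all modules, closed -/

theorem plb : SpecPLB := PLBM.specPLB
theorem pl2 : SpecPL2 := PL2M.specPL2 plb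
theorem ord : SpecORD := ORDM.specORD
theorem fq : SpecFQ := FQM.specFQ
theorem rho : SpecRHO := RHOM.specRHO
theorem fc : SpecFC := FCM.specFC

theorem s12 : s1 * s2 ≠ s2 * s1 := by
  obtain ⟨f, -, -, h⟩ := rho
  intro h0
  apply h
  rw [← map_mul, ← map_mul, h0]

theorem u3 : SpecU3 := U3M.specU3 plb pl2 ord
theorem u4 : SpecU4 := U4M.specU4 ord
theorem u6 : SpecU6 := U6M.specU6 plb pl2 ord fq fc s12 u3 u4
theorem nf : SpecNF := NFM.specNF plb pl2 ord FGCM.specFGC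
theorem bs : SpecBS := BSM.specBS BSHM.specBSH BRM.specBR

theorem ubiq : SpecU := by
  intro G hpl a b hab fa fb orb h hh h0 hb
  obtain ⟨X, hX, Y, hY, o, hB⟩ :=
    U1M.specU1 plb pl2 ord G hpl a b hab fa fb orb h hh h0 hb
  obtain ⟨P, hP, Q, hQ, hpair, hne⟩ := u6 X Y (hpl X hX) (hpl Y hY) o b hB
  have hle : Subgroup.closure ({X, Y} : Set Hm) ≤ G := by
    rw [Subgroup.closure_le]
    rintro x (rfl | hx)
    · exact hX
    · rw [mem_singleton_iff] at hx; rw [hx]; exact hY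
  exact ⟨P, hle hP, Q, hle hQ, hpair, hne⟩

theorem dyn : SpecDYN := by
  intro H a b t S D h hh h0 u hau hub
  by_contra hne
  obtain ⟨c, p, A⟩ := DAM.specDA plb pl2 ord ubiq H a b t S D ⟨h, hh, h0, u, hau, hub, hne⟩
  obtain ⟨x0, ha, hp, hfix, hbrk, hno⟩ := DBM.specDB plb pl2 ord ubiq H a b t S D c p A
  obtain ⟨z, hz, L, hL, hzL, hzx⟩ := DCM.specDC plb pl2 ord H a b t S D c p A x0 ha hp hfix hbrk
  exact hno z hz L hL hzL hzx

theorem abAsc : ∀ (H : Subgroup Hm), PLs H → NoPair H → AB3M.Asc ↥H →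
    ∀ g ∈ H, ∀ h ∈ H, g * h = h * g := AB3M.abAsc plb pl2 ord dyn

/-- homomorphism from FT given by a pair -/
theorem exists_hom {G : Type} [Group G] (P Q : G) (hp : Pair P Q) :
    ∃ f : FT →* G, f a0 = P ∧ f a1 = Q := by
  have hrel : ∀ r ∈ rels, FreeGroup.lift (![P, Q] : Fin 2 → G) r = 1 := by
    rintro r (rfl | hr)
    · have : FreeGroup.lift (![P, Q] : Fin 2 → G)
          (w1 (FreeGroup.of (0 : Fin 2)) (FreeGroup.of (1 : Fin 2))) = w1 P Q := by
        simp [w1]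
      rw [this]; exact hp.1
    · rw [mem_singleton_iff] at hr
      rw [hr]
      have : FreeGroup.lift (![P, Q] : Fin 2 → G)
          (w2 (FreeGroup.of (0 : Fin 2)) (FreeGroup.of (1 : Fin 2))) = w2 P Q := by
        simp [w2]
      rw [this]; exact hp.2
  refine ⟨PresentedGroup.toGroup hrel, ?_, ?_⟩
  · show PresentedGroup.toGroup hrel (PresentedGroup.of 0) = P
    rw [PresentedGroup.toGroup.of]; rfl
  · show PresentedGroup.toGroup hrel (PresentedGroup.of 1) = Q
    rw [PresentedGroup.toGroup.of]; rfl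

/-- subgroups of F have no free subgroups of rank two -/
theorem nofree (T : Type) [Group T] (e : T ≃* FT) (H : Subgroup T) :
    ∀ φ : FreeGroup (Fin 2) →* ↥H, ¬ Function.Injective φ := by
  obtain ⟨ρ, hρpl, hρ1, -⟩ := rho
  have hρ : Function.Injective ρ := fq Hm ρ hρ1
  intro φ hφ
  exact nf (ρ.comp (e.toMonoidHom.comp (H.subtype.comp φ))) (fun g => hρpl _)
    (hρ.comp (e.injective.comp ((Subgroup.subtype_injective H).comp hφ)))

theorem main (T : Type) [Group T] (e : T ≃* FT) (H : Subgroup T) (hH : AB3M.Asc ↥H) :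
    (∃ f : T →* ↥H, Function.Injective f) ∨ ∀ x y : ↥H, x * y = y * x := by
  obtain ⟨ρ, hρpl, hρ1, -⟩ := rho
  have hρ : Function.Injective ρ := fq Hm ρ hρ1
  by_contra hcon
  push Not at hcon
  obtain ⟨hnof, x, y, hxy⟩ := hcon
  set ψ : T →* Hm := ρ.comp e.toMonoidHom with hψ
  have hψi : Function.Injective ψ := hρ.comp e.injective
  set H' : Subgroup Hm := H.map ψ with hH'
  have eq : ↥H ≃* ↥H' := H.equivMapOfInjective ψ hψi
  have hpl : PLs H' := by
    rintro g ⟨z, -, rfl⟩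
    exact hρpl _
  have hnp : NoPair H' := by
    intro P hP Q hQ' hpair
    by_contra hne
    obtain ⟨f, hf0, hf1⟩ := exists_hom (⟨P, hP⟩ : ↥H') ⟨Q, hQ'⟩
      ⟨Subtype.ext hpair.1, Subtype.ext hpair.2⟩
    have hfi : Function.Injective f := by
      apply fq ↥H' f
      rw [hf0, hf1]
      intro hc
      exact hne (congrArg Subtype.val hc)
    exact hnof ((eq.symm.toMonoidHom.comp f).comp e.toMonoidHom)
      ((eq.symm.injective.comp hfi).comp e.injective)
  have habel := abAsc H' hpl hnp (AB3M.asc_of_surj ↥H ↥H' hH eq.toMonoidHom eq.surjective)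
  apply hxy
  apply Subtype.ext
  apply hψi
  show ψ (x.1 * y.1) = ψ (y.1 * x.1)
  rw [map_mul, map_mul]
  exact habel _ ⟨x.1, x.2, rfl⟩ _ ⟨y.1, y.2, rfl⟩

theorem ea_of_comm (H : Type) [Group H] (hc : ∀ x y : H, x * y = y * x) : EA H :=
  fun _ _ h2 _ _ _ _ _ => h2 H hc

/-- no embedded copy of F in an elementary amenable group, for `T ≃* FT` -/
theorem no_copy (T : Type) [Group T] (e : T ≃* FT) (H : Type) [Group H] (h : EA H) :
    ¬ ∃ f : T →* H, Function.Injective f := by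
  rintro ⟨f, hf⟩
  exact EAM.specEA fq fc s12 H h ⟨f.comp e.symm.toMonoidHom, hf.comp e.symm.injective⟩

/-- the three classes of subgroups -/
theorem asc_fp (T : Type) [Group T] (e : T ≃* FT) (H : Subgroup T)
    (h : Group.IsFinitelyPresented ↥H) : AB3M.Asc ↥H :=
  AB3M.asc_of_fp bs ↥H h (nofree T e H)

theorem asc_quot (H G : Type) [Group H] [Group G] (hG : Group.IsFinitelyPresented G)
    (hfree : ∀ φ : FreeGroup (Fin 2) →* G, ¬ Function.Injective φ) (π : G →* H)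
    (hπ : Function.Surjective π) : AB3M.Asc H :=
  AB3M.asc_of_surj G H (AB3M.asc_of_fp bs G hG hfree) π hπ

end FPT.FINM
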